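import Pool.Agent.Lib.MP_881e12_lc.Sp1

namespace MP881e12

open MP60f107 Finset Alg

/-- ROW Ad1 (90 lines, two theorems).  Sizes of the subclasses.

`length_advL_proof`: a map over `range n`.
`sub_size`: the ranks `rkC l x` of the elements `x < n` of the class `i` are the numbers `0, .., s - 1`,
`s = |class i|`, each once (`rkC l x` counts the `y < x` with the same label).  So the number of elements
with rank `≡ ρ` mod `m` is the number of `j < s` with `j % m = ρ`, which is `⌈(s - ρ) / m⌉`
(`Nat.count_modEq_card` or induction on `s`), between `s / m - 1` and `s / m + 1`. -/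
theorem length_advL_proof (n : ℕ) (l : List ℕ) (m : ℕ) (adv : List ℕ) :
    (advL n l m adv).length = n := by
  simp [advL]

theorem Ad1_filter_length (f : ℕ → Prop) [DecidablePred f] (x : ℕ) :
    ((List.range x).filter fun y => decide (f y)).length = Nat.count f x := by
  induction x with
  | zero => rfl
  | succ x ih =>
    rw [List.range_succ, List.filter_append, List.length_append, ih, Nat.count_succ]
    by_cases h : f x
    · simp [h]
    · simp [h]

theorem Ad1_card_fin (f : ℕ → Prop) [DecidablePred f] (n : ℕ) :
    (univ.filter fun x : Fin n => f x.val).card = Nat.count f n := by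
  induction n with
  | zero => simp
  | succ n ih =>
    rw [Nat.count_succ, ← ih, Fin.univ_castSuccEmb, Finset.filter_cons]
    by_cases h : f n
    · rw [if_pos (by simpa using h), if_pos h, Finset.card_cons, Finset.filter_map, Finset.card_map]
      rfl
    · rw [if_neg (by simpa using h), if_neg h, Finset.filter_map, Finset.card_map]
      rfl

theorem Ad1_count (P : ℕ → Prop) [DecidablePred P] (m ρ n : ℕ) :
    Nat.count (fun x => P x ∧ Nat.count P x % m = ρ) n =
      Nat.count (fun j => j % m = ρ) (Nat.count P n) := by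
  induction n with
  | zero => simp
  | succ n ih =>
    rw [Nat.count_succ, ih, Nat.count_succ P]
    by_cases h : P n
    · rw [if_pos h, Nat.count_succ]
      congr 1
      simp [h]
    · rw [if_neg h, if_neg (fun hc => h hc.1)]
      rfl

theorem Ad1_mod {m : ℕ} (hm : 0 < m) (ρ : ℕ) (hρ : ρ < m) (s : ℕ) :
    |(Nat.count (fun j => j % m = ρ) s : ℝ) - (s : ℝ) / m| ≤ 1 := by
  have h1 : Nat.count (fun j => j % m = ρ) s = s / m + if ρ % m < s % m then 1 else 0 := by
    rw [← Nat.count_modEq_card s hm ρ]
    congr 1
    funext j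
    rw [Nat.ModEq, Nat.mod_eq_of_lt hρ]
  have hm' : (0 : ℝ) < m := by exact_mod_cast hm
  have h2 : ((s / m : ℕ) : ℝ) ≤ (s : ℝ) / m := Nat.cast_div_le
  have h3 : (s : ℝ) / m < ((s / m : ℕ) : ℝ) + 1 := by
    rw [div_lt_iff₀ hm']
    have := Nat.lt_div_mul_add hm (a := s)
    have h4 : s < (s / m + 1) * m := by
      calc s < s / m * m + m := this
        _ = (s / m + 1) * m := by ring
    exact_mod_cast h4
  rw [h1, abs_le]
  push_cast
  split_ifs <;> constructor <;> linarith

theorem sub_size {n : ℕ} (l : List ℕ) {m : ℕ} (hm : 0 < m) (i ρ : ℕ) (hρ : ρ < m) :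
    |((univ.filter fun x : Fin n => labF n l x = i ∧ rkC l x.val % m = ρ).card : ℝ) -
      ((cl (labF n l) i).card : ℝ) / m| ≤ 1 := by
  have h1 : (univ.filter fun x : Fin n => labF n l x = i ∧ rkC l x.val % m = ρ).card =
      Nat.count (fun j => j % m = ρ) (Nat.count (fun x => l.getD x 0 = i) n) := by
    rw [← Ad1_count, ← Ad1_card_fin]
    congr 1
    refine Finset.filter_congr fun x _ => ?_
    unfold labF
    constructor
    · rintro ⟨h, h'⟩
      refine ⟨h, ?_⟩
      rw [← h', rkC, Ad1_filter_length, h]
    · rintro ⟨h, h'⟩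
      refine ⟨h, ?_⟩
      rw [← h', rkC, Ad1_filter_length, h]
  have h2 : (cl (labF n l) i).card = Nat.count (fun x => l.getD x 0 = i) n := by
    rw [← Ad1_card_fin]
    rfl
  rw [h1, h2]
  exact Ad1_mod hm ρ hρ _

end MP881e12
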