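import Pool.Agent.Lib.MP_881e12_lc.Core

namespace MP881e12

open MP60f107 Finset Alg

/-- ROW Ad2 (80 lines).  Functions with prescribed fibre sizes.

Proof: induction on `R`, or: `f ρ` = the least `r` in `1..R-1` with `ρ < ∑ j ∈ Ico 1 (r + 1), c j`, and `0`
if there is none; or induction on the sum.  (Any proof.)  A convenient induction: on `R ≥ 1`; for `R = 1`
take `f = 0`; step: given `f` for `c` restricted to `r < R` (sum `≤ m`), the fibre of `0` in `range m` has
`m - ∑_{1 ≤ r < R} c r ≥ c R` elements, choose `c R` of them (`Finset.exists_subset_card_eq`) and redefine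
`f = R` there. -/
theorem exists_fibres (m R : ℕ) (hR : 0 < R) (c : ℕ → ℕ) (hc : ∑ r ∈ Ico 1 R, c r ≤ m) :
    ∃ f : ℕ → ℕ, (∀ ρ, f ρ < R) ∧ (∀ r, 1 ≤ r → r < R → ((range m).filter fun ρ => f ρ = r).card = c r) ∧
      ((range m).filter fun ρ => f ρ = 0).card = m - ∑ r ∈ Ico 1 R, c r := by
  induction R, hR using Nat.le_induction with
  | base => exact ⟨fun _ => 0, fun _ => Nat.one_pos, fun r h1 h2 => by omega, by simp⟩
  | succ R hR ih =>
    have hs : ∑ r ∈ Ico 1 (R + 1), c r = ∑ r ∈ Ico 1 R, c r + c R :=
      Finset.sum_Ico_succ_top hR c
    rw [hs] at hc ⊢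
    obtain ⟨f, hf, hr, h0⟩ := ih (by omega)
    obtain ⟨S, hS, hcS⟩ := Finset.exists_subset_card_eq
      (s := (range m).filter fun ρ => f ρ = 0) (n := c R) (by rw [h0]; omega)
    refine ⟨fun ρ => if ρ ∈ S then R else f ρ, fun ρ => ?_, fun r h1 h2 => ?_, ?_⟩
    · have := hf ρ
      dsimp only
      split_ifs <;> omega
    · by_cases hrR : r = R
      · subst hrR
        have : (range m).filter (fun ρ => (if ρ ∈ S then r else f ρ) = r) = S := by
          ext ρ
          simp only [mem_filter]
          constructor
          · rintro ⟨_, h⟩
            by_contra hc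
            rw [if_neg hc] at h
            have := hf ρ
            omega
          · intro h
            rw [if_pos h]
            exact ⟨(mem_filter.1 (hS h)).1, rfl⟩
        rw [this, hcS]
      · have : (range m).filter (fun ρ => (if ρ ∈ S then R else f ρ) = r) =
            (range m).filter (fun ρ => f ρ = r) := by
          ext ρ
          simp only [mem_filter]
          refine and_congr_right fun _ => ?_
          split_ifs with h
          · have := (mem_filter.1 (hS h)).2
            omega
          · rfl
        rw [this]
        exact hr r h1 (by omega)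
    · have : (range m).filter (fun ρ => (if ρ ∈ S then R else f ρ) = 0) =
          ((range m).filter (fun ρ => f ρ = 0)) \ S := by
        ext ρ
        simp only [mem_filter, mem_sdiff]
        split_ifs with h
        · constructor
          · rintro ⟨_, h⟩
            omega
          · rintro ⟨_, h'⟩
            exact absurd h h'
        · tauto
      rw [this, card_sdiff_of_subset hS, h0, hcS]
      omega

end MP881e12
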