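import Pool.Agent.Lib.MP_881e12_lc.Ad2

namespace MP881e12

open MP60f107 Finset Alg

/-- ROW Ad3 (80 lines).  Rounding the parts of one class.

Proof: if `s = 0` take `f = 0`.  Otherwise `c r = ⌊m * q r / s⌋ = m * q r / s` (natural division) for
`1 ≤ r < R`; `∑ c r ≤ m * (∑ q r) / s ≤ m`.  `exists_fibres` (Ad2) gives `f`.  For `1 ≤ r < R`:
`|c r * s / m - q r| ≤ s / m` (`m q r / s - 1 < c r ≤ m q r / s`).  For `r = 0`: the fibre has
`m - ∑ c r` elements, `(m - ∑_{1≤r<R} c r) * s / m - q 0 = ∑_{1 ≤ r < R} (q r - c r * s / m)` since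
`∑_{r < R} q r = s`, which is between `0` and `(R - 1) s / m`. -/
theorem round_class (m R : ℕ) (hm : 0 < m) (hR : 0 < R) (s : ℕ) (q : ℕ → ℕ)
    (hq : ∑ r ∈ range R, q r = s) : ∃ f : ℕ → ℕ, (∀ ρ, f ρ < R) ∧ ∀ r < R,
      |(((range m).filter fun ρ => f ρ = r).card : ℝ) * s / m - q r| ≤ R * s / m := by
  rcases Nat.eq_zero_or_pos s with hs | hs
  · subst hs
    refine ⟨fun _ => 0, fun _ => hR, ?_⟩
    intro r hr
    have h0 : q r = 0 := Finset.sum_eq_zero_iff.mp hq r (mem_range.mpr hr)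
    simp [h0]
  have hs' : (0 : ℝ) < s := by exact_mod_cast hs
  have hm' : (0 : ℝ) < m := by exact_mod_cast hm
  set c : ℕ → ℕ := fun r => m * q r / s with hc
  have hcs : ∀ r, (c r : ℝ) * s ≤ m * q r := by
    intro r
    have h1 : c r * s ≤ m * q r := Nat.div_mul_le_self _ _
    exact_mod_cast h1
  have hcs' : ∀ r, (m * q r : ℝ) ≤ c r * s + s := by
    intro r
    have h1 : m * q r < c r * s + s := by
      have h2 := Nat.lt_mul_div_succ (m * q r) hs
      have h3 : s * (m * q r / s + 1) = c r * s + s := by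
        simp only [hc]
        ring
      omega
    have h4 : m * q r ≤ c r * s + s := h1.le
    exact_mod_cast h4
  have e0 : ∀ r, (0 : ℝ) ≤ q r - c r * s / m := by
    intro r
    rw [sub_nonneg, div_le_iff₀ hm']
    linarith [hcs r]
  have e1 : ∀ r, (q r : ℝ) - c r * s / m ≤ s / m := by
    intro r
    rw [sub_le_iff_le_add, ← add_div, le_div_iff₀ hm']
    linarith [hcs' r]
  have hsplit : q 0 + ∑ r ∈ Ico 1 R, q r = s := by
    rw [← hq, Finset.range_eq_Ico, Finset.sum_eq_sum_Ico_succ_bot hR]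
  have hsum : ∑ r ∈ Ico 1 R, c r ≤ m := by
    have h1 : (∑ r ∈ Ico 1 R, c r) * s ≤ m * s := by
      rw [Finset.sum_mul]
      calc ∑ r ∈ Ico 1 R, c r * s ≤ ∑ r ∈ Ico 1 R, m * q r :=
            Finset.sum_le_sum (fun r _ => Nat.div_mul_le_self _ _)
        _ = m * ∑ r ∈ Ico 1 R, q r := by rw [Finset.mul_sum]
        _ ≤ m * s := Nat.mul_le_mul_left _ (by omega)
    exact Nat.le_of_mul_le_mul_right h1 hs
  obtain ⟨f, f1, f2, f3⟩ := exists_fibres m R hR c hsum
  refine ⟨f, f1, ?_⟩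
  have hRs : (s : ℝ) / m ≤ R * s / m := by
    have h1 : (1 : ℝ) ≤ R := by exact_mod_cast hR
    gcongr
    nlinarith
  intro r hr
  rcases Nat.eq_zero_or_pos r with h | h
  · subst h
    rw [f3, Nat.cast_sub hsum, Nat.cast_sum]
    have hq' : (q 0 : ℝ) + ∑ r ∈ Ico 1 R, (q r : ℝ) = s := by exact_mod_cast hsplit
    have key : ((m : ℝ) - ∑ r ∈ Ico 1 R, (c r : ℝ)) * s / m - q 0 = ∑ r ∈ Ico 1 R, ((q r : ℝ) - c r * s / m) := by
      rw [Finset.sum_sub_distrib, ← Finset.sum_div, ← Finset.sum_mul, sub_mul, sub_div, mul_comm (m : ℝ) s,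
        mul_div_assoc (s : ℝ), div_self hm'.ne', mul_one]
      linarith
    rw [key, abs_of_nonneg (Finset.sum_nonneg (fun r _ => e0 r))]
    calc ∑ r ∈ Ico 1 R, ((q r : ℝ) - c r * s / m) ≤ ∑ r ∈ Ico 1 R, (s / m : ℝ) := Finset.sum_le_sum (fun r _ => e1 r)
      _ = ((R - 1 : ℕ) : ℝ) * (s / m) := by rw [Finset.sum_const, Nat.card_Ico, nsmul_eq_mul]
      _ ≤ (R : ℝ) * (s / m) := by
          have h1 : ((R - 1 : ℕ) : ℝ) ≤ R := by exact_mod_cast Nat.sub_le _ _
          gcongr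
      _ = R * s / m := by rw [mul_div_assoc]
  · rw [f2 r h hr, abs_sub_comm, abs_of_nonneg (e0 r)]
    exact (e1 r).trans hRs

end MP881e12
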