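import Pool.Agent.Lib.MP_881e12_lc.Ad1
import Pool.Agent.Lib.MP_881e12_lc.Ad3

namespace MP881e12

open MP60f107 Finset Alg

theorem Ad4_getD {n : ℕ} (g : ℕ → ℕ) {x : ℕ} (hx : x < n) : ((List.range n).map g).getD x 0 = g x := by
  rw [List.getD_eq_getElem?_getD, List.getElem?_map, List.getElem?_range hx]
  rfl

theorem Ad4_card {n : ℕ} (lam : Fin n → ℕ) (k : ℕ) (h : ∀ x, lam x < k) :
    ∑ i ∈ range k, (cl lam i).card = n := by
  have h1 := Finset.card_eq_sum_card_fiberwise (s := (univ : Finset (Fin n))) (t := range k) (f := lam)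
    (fun x _ => by simpa using h x)
  rw [Finset.card_univ, Fintype.card_fin] at h1
  exact h1.symm

theorem Ad4_inter {n : ℕ} (lam U : Fin n → ℕ) (i R : ℕ) (h : ∀ x, U x < R) :
    ∑ r ∈ range R, (cl U r ∩ cl lam i).card = (cl lam i).card := by
  have h1 := Finset.card_eq_sum_card_fiberwise (s := cl lam i) (t := range R) (f := U)
    (fun x _ => by simpa using h x)
  rw [h1]
  refine Finset.sum_congr rfl fun r _ => ?_
  congr 1
  ext x
  simp only [cl, Finset.mem_inter, Finset.mem_filter, Finset.mem_univ, true_and]
  tauto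

theorem exists_adv_proof {n : ℕ} (l : List ℕ) {m k R : ℕ} (hm : 0 < m) (hR : 0 < R)
    (hl : ∀ x < n, l.getD x 0 < k) (U : Fin n → ℕ) (hU : ∀ x, U x < R) :
    ∃ adv : List ℕ, adv.length = k * m ∧ (∀ a ∈ adv, a < R) ∧
      (∀ x < n, (advL n l m adv).getD x 0 < R) ∧
      ∀ r < R, ∑ i ∈ range k, |((cl (labF n (advL n l m adv)) r ∩ cl (labF n l) i).card : ℝ) -
        ((cl U r ∩ cl (labF n l) i).card : ℝ)| ≤ R * n / m + k * m := by
  classical
  choose f hf1 hf2 using fun i => round_class m R hm hR (cl (labF n l) i).card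
    (fun r => (cl U r ∩ cl (labF n l) i).card) (Ad4_inter (labF n l) U i R hU)
  set adv : List ℕ := (List.range (k * m)).map fun j => f (j / m) (j % m) with hadv
  have hnew : ∀ x < n, (advL n l m adv).getD x 0 = f (l.getD x 0) (rkC l x % m) := by
    intro x hx
    unfold advL
    rw [Ad4_getD _ hx]
    have h1 : rkC l x - m * qdiv (rkC l x) m = rkC l x % m := by
      rw [qdiv_eq _ hm]
      have := Nat.div_add_mod (rkC l x) m
      omega
    have h2 : rkC l x % m < m := Nat.mod_lt _ hm
    have h3 : l.getD x 0 * m + rkC l x % m < k * m := by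
      have h4 : (l.getD x 0 + 1) * m ≤ k * m := Nat.mul_le_mul_right m (hl x hx)
      rw [add_mul, one_mul] at h4
      omega
    rw [h1, hadv, Ad4_getD _ h3]
    have h5 : (l.getD x 0 * m + rkC l x % m) / m = l.getD x 0 := by
      rw [mul_comm, Nat.mul_add_div hm, Nat.div_eq_of_lt h2, add_zero]
    have h6 : (l.getD x 0 * m + rkC l x % m) % m = rkC l x % m := by
      rw [mul_comm, Nat.mul_add_mod, Nat.mod_eq_of_lt h2]
    rw [h5, h6]
  refine ⟨adv, by rw [hadv, List.length_map, List.length_range], ?_, ?_, ?_⟩
  · intro a ha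
    rw [hadv] at ha
    obtain ⟨j, -, rfl⟩ := List.mem_map.1 ha
    exact hf1 _ _
  · intro x hx
    rw [hnew x hx]
    exact hf1 _ _
  · intro r hr
    have hm0 : (0 : ℝ) < m := by exact_mod_cast hm
    have key : ∀ i ∈ range k, |((cl (labF n (advL n l m adv)) r ∩ cl (labF n l) i).card : ℝ) -
        ((cl U r ∩ cl (labF n l) i).card : ℝ)| ≤ R * ((cl (labF n l) i).card : ℝ) / m + m := by
      intro i _
      set C := (range m).filter fun ρ => f i ρ = r with hC
      have h1 : (cl (labF n (advL n l m adv)) r ∩ cl (labF n l) i).card =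
          ∑ ρ ∈ C, (univ.filter fun x : Fin n => labF n l x = i ∧ rkC l x.val % m = ρ).card := by
        have h2 := Finset.card_eq_sum_card_fiberwise
          (s := cl (labF n (advL n l m adv)) r ∩ cl (labF n l) i) (t := C)
          (f := fun x : Fin n => rkC l x.val % m) (by
            intro x hx
            simp only [cl, Finset.coe_inter, Finset.coe_filter, Finset.mem_univ, true_and,
              Set.mem_inter_iff, Set.mem_ofPred_eq] at hx
            have h3 : l.getD x.val 0 = i := hx.2
            have h4 : (advL n l m adv).getD x.val 0 = r := hx.1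
            rw [hnew x.val x.isLt, h3] at h4
            rw [Finset.mem_coe, hC, Finset.mem_filter, Finset.mem_range]
            exact ⟨Nat.mod_lt _ hm, h4⟩)
        rw [h2]
        refine Finset.sum_congr rfl fun ρ hρ => ?_
        congr 1
        ext x
        simp only [cl, Finset.mem_inter, Finset.mem_filter, Finset.mem_univ, true_and]
        constructor
        · rintro ⟨⟨-, h3⟩, h4⟩
          exact ⟨h3, h4⟩
        · rintro ⟨h3, h4⟩
          refine ⟨⟨?_, h3⟩, h4⟩
          have h5 : l.getD x.val 0 = i := h3
          show (advL n l m adv).getD x.val 0 = r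
          rw [hnew x.val x.isLt, h5, h4]
          exact (Finset.mem_filter.1 hρ).2
      have h2 : |((cl (labF n (advL n l m adv)) r ∩ cl (labF n l) i).card : ℝ) -
          (C.card : ℝ) * ((cl (labF n l) i).card : ℝ) / m| ≤ m := by
        rw [h1]
        push_cast
        have e : (C.card : ℝ) * ((cl (labF n l) i).card : ℝ) / m =
            ∑ ρ ∈ C, ((cl (labF n l) i).card : ℝ) / m := by
          rw [Finset.sum_const, nsmul_eq_mul, mul_div_assoc]
        rw [e, ← Finset.sum_sub_distrib]
        refine (Finset.abs_sum_le_sum_abs _ _).trans ?_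
        refine (Finset.sum_le_sum fun ρ hρ => sub_size l hm i ρ
          (Finset.mem_range.1 (Finset.mem_filter.1 hρ).1)).trans ?_
        rw [Finset.sum_const, nsmul_eq_mul, mul_one]
        have h3 : C.card ≤ m := by
          have := Finset.card_filter_le (range m) fun ρ => f i ρ = r
          rwa [Finset.card_range] at this
        exact_mod_cast h3
      have h3 := hf2 i r hr
      have h4 : ((cl (labF n (advL n l m adv)) r ∩ cl (labF n l) i).card : ℝ) -
          ((cl U r ∩ cl (labF n l) i).card : ℝ) =
          (((cl (labF n (advL n l m adv)) r ∩ cl (labF n l) i).card : ℝ) -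
            (C.card : ℝ) * ((cl (labF n l) i).card : ℝ) / m) +
          ((C.card : ℝ) * ((cl (labF n l) i).card : ℝ) / m -
            ((cl U r ∩ cl (labF n l) i).card : ℝ)) := by ring
      rw [h4]
      refine (abs_add_le _ _).trans ?_
      linarith
    refine (Finset.sum_le_sum key).trans ?_
    rw [Finset.sum_add_distrib, Finset.sum_const, Finset.card_range, nsmul_eq_mul]
    have h5 : ∑ i ∈ range k, (R : ℝ) * ((cl (labF n l) i).card : ℝ) / m = R * n / m := by
      rw [← Finset.sum_div, ← Finset.mul_sum]
      congr 2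
      have := Ad4_card (labF n l) k (fun x => hl x.val x.isLt)
      exact_mod_cast this
    rw [h5]

end MP881e12
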