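import Pool.Agent.Lib.MP_881e12_lc.Core

namespace MP881e12

open MP60f107 Finset Alg

theorem Ad5_symm {n : ℕ} (G : SimpleGraph (Fin n)) (A B : Finset (Fin n)) :
    eC G A B = eC G B A := by
  classical
  unfold eC
  refine Finset.card_bij (fun p _ => (p.2, p.1)) ?_ ?_ ?_
  · intro p hp
    simp only [Finset.mem_filter, Finset.mem_product] at hp ⊢
    exact ⟨⟨hp.1.2, hp.1.1⟩, hp.2.symm⟩
  · intro p _ q _ h
    simp only [Prod.mk.injEq] at h
    exact Prod.ext h.2 h.1
  · intro p hp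
    simp only [Finset.mem_filter, Finset.mem_product] at hp
    refine ⟨(p.2, p.1), ?_, rfl⟩
    simp only [Finset.mem_filter, Finset.mem_product]
    exact ⟨⟨hp.1.2, hp.1.1⟩, hp.2.symm⟩

theorem Ad5_ratio {n : ℕ} (G : SimpleGraph (Fin n)) (A B : Finset (Fin n)) :
    0 ≤ (eC G A B : ℝ) / A.card ∧ (eC G A B : ℝ) / A.card ≤ n := by
  classical
  refine ⟨by positivity, ?_⟩
  rcases Nat.eq_zero_or_pos A.card with h0 | h0
  · rw [h0]
    simp
  · rw [div_le_iff₀ (by exact_mod_cast h0)]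
    have h1 : eC G A B ≤ A.card * B.card := by
      unfold eC
      exact (Finset.card_filter_le _ _).trans (Finset.card_product A B).le
    have h2 : B.card ≤ n := (Finset.card_le_univ B).trans (Fintype.card_fin n).le
    have h3 : eC G A B ≤ n * A.card :=
      h1.trans ((Nat.mul_le_mul_left _ h2).trans (Nat.mul_comm _ _).le)
    exact_mod_cast h3

theorem Ad5_one {n : ℕ} (G : SimpleGraph (Fin n)) {lam : Fin n → ℕ} {k : ℕ}
    {ε : ℝ} (hG : OneReg G lam k ε) (A A' B : Finset (Fin n)) {η : ℝ}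
    (hA : ∑ i ∈ range k, |((A' ∩ cl lam i).card : ℝ) - ((A ∩ cl lam i).card : ℝ)| ≤ η) :
    |(eC G A' B : ℝ) - eC G A B| ≤ 2 * ε * n ^ 2 + η * n := by
  have h1 := hG A B
  have h2 := hG A' B
  set P := ∑ i ∈ range k, ((A ∩ cl lam i).card : ℝ) * eC G (cl lam i) B / (cl lam i).card with hP
  set P' := ∑ i ∈ range k, ((A' ∩ cl lam i).card : ℝ) * eC G (cl lam i) B / (cl lam i).card with hP'
  have h3 : |P' - P| ≤ η * n := by
    rw [hP, hP', ← Finset.sum_sub_distrib]
    refine (Finset.abs_sum_le_sum_abs _ _).trans ?_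
    have h4 : ∀ i ∈ range k, |((A' ∩ cl lam i).card : ℝ) * eC G (cl lam i) B / (cl lam i).card -
        ((A ∩ cl lam i).card : ℝ) * eC G (cl lam i) B / (cl lam i).card| ≤
        |((A' ∩ cl lam i).card : ℝ) - ((A ∩ cl lam i).card : ℝ)| * n := by
      intro i _
      obtain ⟨r0, r1⟩ := Ad5_ratio G (cl lam i) B
      have e : ((A' ∩ cl lam i).card : ℝ) * eC G (cl lam i) B / (cl lam i).card -
          ((A ∩ cl lam i).card : ℝ) * eC G (cl lam i) B / (cl lam i).card =
          (((A' ∩ cl lam i).card : ℝ) - ((A ∩ cl lam i).card : ℝ)) *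
          ((eC G (cl lam i) B : ℝ) / (cl lam i).card) := by ring
      rw [e, abs_mul, abs_of_nonneg r0]
      exact mul_le_mul_of_nonneg_left r1 (abs_nonneg _)
    refine (Finset.sum_le_sum h4).trans ?_
    rw [← Finset.sum_mul]
    exact mul_le_mul_of_nonneg_right hA (Nat.cast_nonneg n)
  rw [abs_le] at h1 h2 h3 ⊢
  constructor <;> nlinarith [h1.1, h1.2, h2.1, h2.2, h3.1, h3.2]

/-- ROW Ad5 (100 lines, two theorems).  The numbers of edges between the classes are imitated.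

`eC_adv_proof`.  Let `Φ A B = ∑ i ∈ range k, |A ∩ V_i| * e(V_i, B) / |V_i|`.  `OneReg` says
`|e(A, B) - Φ A B| ≤ ε n²` for all `A, B`.  `|Φ A' B - Φ A B| ≤ ∑ i, ||A' ∩ V_i| - |A ∩ V_i|| * n ≤ η n`, as
`e(V_i, B) ≤ |V_i| * n` (if `|V_i| = 0` the term is `0`).  Hence `|e(A', B) - e(A, B)| ≤ 2 ε n² + η n`.
Since `e` is symmetric (`eC G A B = eC G B A`, symmetry of `Adj`: bijection `Prod.swap`), the same holds for
the second argument; add the two estimates (`e(A', B') - e(A, B) = (e(A', B') - e(A', B)) + (e(A', B) -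
e(A, B))`).
`sum_eC_le_proof`: the sets of pairs `{(x, y) | μ x = a, μ y = b, adjacent}` are disjoint for different
`(a, b)`, contained in all `n²` pairs: `Finset.card_biUnion`, `Finset.card_le_univ`,
`Fintype.card (Fin n × Fin n) = n * n`. -/
theorem eC_adv_proof {n : ℕ} (G : SimpleGraph (Fin n)) {lam : Fin n → ℕ} {k : ℕ}
    (hlam : ∀ x, lam x < k) {ε : ℝ} (hG : OneReg G lam k ε) (A A' B B' : Finset (Fin n)) {η : ℝ}
    (hA : ∑ i ∈ range k, |((A' ∩ cl lam i).card : ℝ) - ((A ∩ cl lam i).card : ℝ)| ≤ η)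
    (hB : ∑ i ∈ range k, |((B' ∩ cl lam i).card : ℝ) - ((B ∩ cl lam i).card : ℝ)| ≤ η) :
    |(eC G A' B' : ℝ) - eC G A B| ≤ 4 * ε * n ^ 2 + 2 * η * n := by
  have h1 := Ad5_one G hG A A' B' hA
  have h2 := Ad5_one G hG B B' A hB
  rw [Ad5_symm G B' A, Ad5_symm G B A] at h2
  rw [abs_le] at h1 h2 ⊢
  constructor <;> nlinarith [h1.1, h1.2, h2.1, h2.2]

theorem sum_eC_le_proof {n : ℕ} (G : SimpleGraph (Fin n)) (μ : Fin n → ℕ) (K : ℕ) :
    ∑ π : KE K, eC G (cl μ π.1.1) (cl μ π.1.2) ≤ n ^ 2 := by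
  classical
  have h1 : ∑ π : KE K, eC G (cl μ π.1.1) (cl μ π.1.2) =
      ((univ : Finset (KE K)).biUnion fun π =>
        ((cl μ π.1.1) ×ˢ (cl μ π.1.2)).filter fun p => G.Adj p.1 p.2).card := by
    rw [Finset.card_biUnion]
    · rfl
    · intro π _ σ _ hne
      rw [Function.onFun, Finset.disjoint_left]
      intro p hp hq
      apply hne
      simp only [Finset.mem_filter, Finset.mem_product, cl, Finset.mem_univ, true_and] at hp hq
      apply Subtype.ext
      apply Prod.ext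
      · exact Fin.ext (hp.1.1.symm.trans hq.1.1)
      · exact Fin.ext (hp.1.2.symm.trans hq.1.2)
  rw [h1]
  refine (Finset.card_le_univ _).trans ?_
  rw [Fintype.card_prod, Fintype.card_fin, sq]

end MP881e12
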