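import Pool.Agent.Lib.MP_881e12_lc.Statement
import Pool.Agent.Lib.MP_17a834_lc.Bits

/-!
The algorithm.  All objects are lists of natural numbers (in unary) and bits.
-/

namespace MP881e12

open MP60f107

namespace Alg

/-! ### the matrix -/

/-- The order of the matrix (`w` has `n * n` entries). -/
def nOf (w : List Bool) : ℕ :=
  ((List.range (w.length + 1)).filter fun k => decide (k * k ≤ w.length)).length - 1

/-- The entry `(x, y)`. -/
def ent (n : ℕ) (w : List Bool) (x y : ℕ) : Bool := w.getD (x * n + y) false

/-- Division (for `b = 0` the value is `a`). -/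
def qdiv (a b : ℕ) : ℕ := ((List.range a).filter fun k => decide ((k + 1) * b ≤ a)).length

/-- Parity. -/
def odd (j : ℕ) : Bool := (List.range j).foldl (fun b _ => !b) false

/-! ### the partitions; `l` is the list of the labels of the vertices -/

/-- The size of the class `i`. -/
def csz (n : ℕ) (l : List ℕ) (i : ℕ) : ℕ :=
  ((List.range n).filter fun x => decide (l.getD x 0 = i)).length

/-- The number of neighbours of `z` in the class `i`. -/
def nbc (n : ℕ) (w : List Bool) (l : List ℕ) (z i : ℕ) : ℕ :=
  ((List.range n).filter fun x => ent n w z x && decide (l.getD x 0 = i)).length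

/-- The energy of the labelling `l` times `n`, rounded. -/
def enL (n : ℕ) (w : List Bool) (l : List ℕ) : ℕ :=
  ((List.range n).map fun z => ((List.range n).map fun x => if ent n w z x then
    qdiv (n * nbc n w l z (l.getD x 0)) (csz n l (l.getD x 0)) else 0).sum).sum

/-- The labelling refined by the neighbourhood of `y`. -/
def refL (n : ℕ) (w : List Bool) (l : List ℕ) (y : ℕ) : List ℕ :=
  (List.range n).map fun x => 2 * l.getD x 0 + (if ent n w y x then 1 else 0)

/-- A vertex for which the energy of the refined labelling is maximal. -/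
def best (n : ℕ) (w : List Bool) (l : List ℕ) : ℕ :=
  (List.range n).foldl (fun b y => if enL n w (refL n w l b) < enL n w (refL n w l y) then y else b) 0

/-- The refined labels. -/
def stepL (n : ℕ) (w : List Bool) (l : List ℕ) : List ℕ := refL n w l (best n w l)

/-- The labels at level `t`. -/
def labT (n : ℕ) (w : List Bool) : ℕ → List ℕ
  | 0 => List.replicate n 0
  | t + 1 => stepL n w (labT n w t)

/-- The labels at the levels `t ≤ length (encodeNat n)`. -/
def levels (n : ℕ) (w : List Bool) : List (List ℕ) :=
  (Computability.encodeNat n).foldl (fun acc _ => stepL n w (acc.headD (List.replicate n 0)) :: acc)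
    [List.replicate n 0]

/-- The rank of `x` in its class. -/
def rkC (l : List ℕ) (x : ℕ) : ℕ :=
  ((List.range x).filter fun y => decide (l.getD y 0 = l.getD x 0)).length

/-- Each class is split into `m` classes, and these are renamed by the list `adv`. -/
def advL (n : ℕ) (l : List ℕ) (m : ℕ) (adv : List ℕ) : List ℕ :=
  (List.range n).map fun x => adv.getD (l.getD x 0 * m + (rkC l x - m * qdiv (rkC l x) m)) 0

/-! ### templates -/

/-- Reading bits: `1^(k+1) 0` is the number `k`, an additional `0` ends the row. -/
def tokStep (st : (ℕ × List ℕ) × List (List ℕ)) (b : Bool) : (ℕ × List ℕ) × List (List ℕ) :=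
  if b then ((st.1.1 + 1, st.1.2), st.2)
  else if st.1.1 = 0 then ((0, []), st.1.2.reverse :: st.2)
  else ((0, (st.1.1 - 1) :: st.1.2), st.2)

/-- The rows coded by a bit string. -/
def rowsOf (bs : List Bool) : List (List ℕ) := (bs.foldl tokStep ((0, []), [])).2.reverse

/-! ### candidates -/

/-- The distance of consecutive clusters. -/
def Mn (n : ℕ) : ℕ := 2 * (n * n) + 4

/-- The centre of a cluster. -/
def Cn (n : ℕ) : ℕ := n * n + 2

/-- The copy number `o` of the template point `p`. -/
def ptN (n o p : ℕ) (g : Bool) : ℕ :=
  if g then p * Mn n + Cn n + (1 + o) else p * Mn n + Cn n - (1 + o)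

/-- The page number `j`, if the first page is `s`. -/
def pgN (s : Bool) (j : ℕ) : Bool := if odd j then !s else s

/-- The inner points of the copy number `o` of the template edge with the first page `s` and the
points `ps`. -/
def lay (n o : ℕ) (s : Bool) (ps : List ℕ) : List (Bool × ℕ) :=
  (List.range ps.length).map fun j => (pgN s j, ptN n o (ps.getD j 0) (!odd j))

/-- A record: an edge, its inner points and the last page. -/
abbrev Rec : Type := (ℕ × ℕ) × (List (Bool × ℕ) × Bool)

/-- A candidate: the positions of the vertices, and the records. -/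
abbrev Cand : Type := List ℕ × List Rec

/-- `uv` is an edge, directed from the lower to the higher label. -/
def dirE (n : ℕ) (w : List Bool) (μ : List ℕ) (u v : ℕ) : Bool :=
  ent n w u v && (decide (μ.getD u 0 < μ.getD v 0) ||
    (decide (μ.getD u 0 = μ.getD v 0) && decide (u < v)))

/-- The list of directed edges. -/
def pairs (n : ℕ) (w : List Bool) (μ : List ℕ) : List (ℕ × ℕ) :=
  (List.range n).flatMap fun u => ((List.range n).filter fun v => dirE n w μ u v).map fun v => (u, v)

/-- The record of an edge; `row` is the row of the template. -/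
def recRow (n : ℕ) (e : ℕ × ℕ) (row : List ℕ) : Rec :=
  (e, (lay n (e.1 * n + e.2) (decide (row.headD 1 = 1)) row.tail,
    pgN (decide (row.headD 1 = 1)) row.tail.length))

/-- The record of an edge. -/
def recOf (n K : ℕ) (μ : List ℕ) (rows : List (List ℕ)) (e : ℕ × ℕ) : Rec :=
  recRow n e (if μ.getD e.1 0 = μ.getD e.2 0 then []
    else rows.getD (1 + (μ.getD e.1 0 * K + μ.getD e.2 0)) [])

/-- The candidate for the labels `μ` and the template `rows`. -/
def cand (n : ℕ) (w : List Bool) (K : ℕ) (μ : List ℕ) (rows : List (List ℕ)) : Cand :=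
  ((List.range n).map fun x => (rows.headD []).getD (μ.getD x 0) 0 * Mn n + Cn n + x,
    (pairs n w μ).map (recOf n K μ rows))

/-! ### checking and counting -/

/-- An arc: its end points and its page. -/
abbrev ArcN : Type := (ℕ × ℕ) × Bool

/-- The arcs of a chain. -/
def arcsN : ℕ → List (Bool × ℕ) → Bool → ℕ → List ArcN
  | a, [], s, b => [((a, b), s)]
  | a, (s₁, p) :: r, s, b => ((a, p), s₁) :: arcsN p r s b

/-- `c` lies strictly between `a` and `b`. -/
def btwN (a b c : ℕ) : Bool :=
  (decide (a < c) && decide (c < b)) || (decide (b < c) && decide (c < a))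

/-- `c` lies strictly outside. -/
def otsN (a b c : ℕ) : Bool :=
  (decide (c < a) && decide (c < b)) || (decide (a < c) && decide (b < c))

/-- The number of crossings of two arcs. -/
def xN (A B : ArcN) : ℕ :=
  if (A.2 == B.2) && ((btwN A.1.1 A.1.2 B.1.1 && otsN A.1.1 A.1.2 B.1.2) ||
    (otsN A.1.1 A.1.2 B.1.1 && btwN A.1.1 A.1.2 B.1.2)) then 1 else 0

/-- The number of crossings of two lists of arcs. -/
def crN (P Q : List ArcN) : ℕ := (P.map fun A => (Q.map fun B => xN A B).sum).sum

/-- The arcs of a record. -/
def recArcs (c : Cand) (r : Rec) : List ArcN :=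
  arcsN (c.1.getD r.1.1 0) r.2.1 r.2.2 (c.1.getD r.1.2 0)

/-- All points. -/
def pts (c : Cand) : List ℕ := c.1 ++ c.2.flatMap fun r => r.2.1.map Prod.snd

/-- No repetitions. -/
def nodupB (l : List ℕ) : Bool :=
  (List.range l.length).all fun i => (List.range i).all fun j => !decide (l.getD i 0 = l.getD j 0)

/-- The candidate is a drawing with simple edges. -/
def validB (c : Cand) : Bool :=
  nodupB (pts c) && c.2.all fun r => decide (crN (recArcs c r) (recArcs c r) = 0)

/-- Twice the number of crossings. -/
def cnt (c : Cand) : ℕ :=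
  ((List.range c.2.length).map fun i => ((List.range c.2.length).map fun j => if i = j then 0 else
    crN (recArcs c (c.2.getD i ((0, 0), ([], true))))
      (recArcs c (c.2.getD j ((0, 0), ([], true))))).sum).sum

/-! ### the choice -/

/-- The candidate for the labels `l`, the number `m` and the rows `R`: the first row is the advice,
the others are the template. -/
def candR (n : ℕ) (w : List Bool) (l : List ℕ) (m : ℕ) (R : List (List ℕ)) : Cand :=
  cand n w (R.tail.headD []).length (advL n l m (R.headD [])) R.tail

/-- All candidates. -/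
def cands (n : ℕ) (w : List Bool) : List Cand :=
  (levels n w).flatMap fun l => (List.range n).flatMap fun m => (List.range n).map fun c =>
    candR n w l m (rowsOf (Computability.encodeNat c))

/-- The trivial candidate: every edge is one arc. -/
def triv (n : ℕ) (w : List Bool) : Cand := cand n w 0 (List.replicate n 0) []

/-- The best valid candidate. -/
def choose (n : ℕ) (w : List Bool) : Cand :=
  (cands n w).foldl (fun b c => if validB c && decide (cnt c < cnt b) then c else b) (triv n w)

/-! ### the output -/

/-- The rank of a point. -/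
def rkN (c : Cand) (x : ℕ) : ℕ := ((pts c).filter fun y => decide (y < x)).length

/-- The code of the peak over the ranks `a` and `b`. -/
def pkN (N a b : ℕ) (s : Bool) : ℕ × (ℕ × ℕ) :=
  (a + b, if s then ((2 * (N * N) + 1 + ((a - b) + (b - a))) * ((a - b) + (b - a)), 0)
    else (0, (2 * (N * N) + 1 + ((a - b) + (b - a))) * ((a - b) + (b - a))))

/-- The code of a point of the spine. -/
def ptO (c : Cand) (x : ℕ) : ℕ × (ℕ × ℕ) := (2 * rkN c x, (0, 0))

/-- The bends of a chain. -/
def bendsN (c : Cand) : ℕ → List (Bool × ℕ) → Bool → ℕ → List (ℕ × (ℕ × ℕ))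
  | a, [], s, b => [pkN (pts c).length (rkN c a) (rkN c b) s]
  | a, (s₁, p) :: r, s, b =>
    pkN (pts c).length (rkN c a) (rkN c p) s₁ :: ptO c p :: bendsN c p r s b

/-- The output for a candidate. -/
def toOut (c : Cand) : Output :=
  (c.1.map (ptO c), c.2.map fun r => (r.1, bendsN c (c.1.getD r.1.1 0) r.2.1 r.2.2
    (c.1.getD r.1.2 0)))

end Alg

/-- The algorithm. -/
def alg (w : List Bool) : List Bool :=
  N487b59b3.bitEncode (Alg.toOut (Alg.choose (Alg.nOf w) w))

end MP881e12
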