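import Pool.Agent.Lib.MP_881e12_lc.BlDef

namespace MP881e12

open MP60f107 Alg
open MP60f107.Contr (sh pr ht mk)

/-- ROW Bl1 (80 lines, two theorems).  The embedding is strictly increasing on points of small height;
crossings are preserved by maps that are strictly increasing on the points used.

`emb_lt`: the value is `p M + C + h` with `M = 2 n² + 4`, `C = n² + 2`, `|h| ≤ n² + 1`, so it lies in
`[p M + 1, p M + M - 1]`; different bases: compare; equal bases: compare the heights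
(`Contr.lt_iff`; `Int.toNat` of positive numbers; `omega`/`nlinarith`).
`crL_map_on`: `Btw`, `Ots`, `Ilv` only use `<`, so `X (A.map φ) (B.map φ) = X A B` for arcs with ends in
`S`; sums over lists. -/
theorem emb_lt {n : ℕ} {z z' : ℕ ×ₗ ℤ} (hz : |ht z| ≤ n * n + 1) (hz' : |ht z'| ≤ n * n + 1) :
    emb n z < emb n z' ↔ z < z' := by
  rw [Contr.lt_iff]
  unfold emb Mn Cn
  obtain ⟨h1, h2⟩ := abs_le.1 hz
  obtain ⟨h3, h4⟩ := abs_le.1 hz'
  generalize hh : ht z = h at *
  generalize hh' : ht z' = h' at *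
  generalize hp : pr z = p at *
  generalize hp' : pr z' = p' at *
  have hn : (0 : ℤ) ≤ (n : ℤ) * n := by positivity
  have hpM : (0 : ℤ) ≤ (p : ℤ) * (2 * (n * n) + 4) := by positivity
  have hpM' : (0 : ℤ) ≤ (p' : ℤ) * (2 * (n * n) + 4) := by positivity
  push_cast
  rw [Int.toNat_lt_toNat (by linarith)]
  rcases lt_trichotomy p p' with hlt | heq | hgt
  · have h5 : ((p : ℤ) + 1) * (2 * (n * n) + 4) ≤ (p' : ℤ) * (2 * (n * n) + 4) := by
      apply mul_le_mul_of_nonneg_right _ (by positivity)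
      exact_mod_cast hlt
    constructor
    · intro _; exact Or.inl hlt
    · intro _; nlinarith
  · subst heq
    constructor
    · intro h6; exact Or.inr ⟨rfl, by linarith⟩
    · rintro (h6 | ⟨-, h6⟩)
      · exact absurd h6 (lt_irrefl _)
      · linarith
  · have h5 : ((p' : ℤ) + 1) * (2 * (n * n) + 4) ≤ (p : ℤ) * (2 * (n * n) + 4) := by
      apply mul_le_mul_of_nonneg_right _ (by positivity)
      exact_mod_cast hgt
    constructor
    · intro h6; exfalso; nlinarith
    · rintro (h6 | ⟨h6, -⟩)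
      · exact absurd h6 (by omega)
      · exact absurd h6 (by omega)

theorem crL_map_on {L L' : Type} [LinearOrder L] [LinearOrder L'] (φ : L → L') (S : Set L)
    (hφ : ∀ x ∈ S, ∀ y ∈ S, φ x < φ y ↔ x < y) (P Q : List (Arc L))
    (hP : ∀ A ∈ P, A.p ∈ S ∧ A.q ∈ S) (hQ : ∀ A ∈ Q, A.p ∈ S ∧ A.q ∈ S) :
    crL (P.map (Arc.map φ)) (Q.map (Arc.map φ)) = crL P Q := by
  have hX : ∀ A ∈ P, ∀ B ∈ Q, X (A.map φ) (B.map φ) = X A B := by
    intro A hA B hB
    obtain ⟨a1, a2⟩ := hP A hA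
    obtain ⟨b1, b2⟩ := hQ B hB
    have hI : Ilv (φ A.p) (φ A.q) (φ B.p) (φ B.q) ↔ Ilv A.p A.q B.p B.q := by
      simp only [Ilv, MP60f107.Btw, Ots, hφ _ a1 _ b1, hφ _ a1 _ b2, hφ _ a2 _ b1,
        hφ _ a2 _ b2, hφ _ b1 _ a1, hφ _ b1 _ a2, hφ _ b2 _ a1, hφ _ b2 _ a2]
    unfold X
    exact if_congr (and_congr Iff.rfl hI) rfl rfl
  unfold crL
  rw [List.map_map]
  congr 1
  refine List.map_congr_left fun A hA => ?_
  show (List.map (fun B => X (A.map φ) B) (Q.map (Arc.map φ))).sum = _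
  rw [List.map_map]
  congr 1
  refine List.map_congr_left fun B hB => ?_
  exact hX A hA B hB

end MP881e12
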