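import Pool.Agent.Lib.MP_881e12_lc.Sp1

namespace MP881e12

open MP60f107 Alg

/-- ROW Sp2 (70 lines, four theorems).  The list of directed edges.

`mem_pairs`: `List.mem_flatMap`, `List.mem_map`, `List.mem_filter`, `List.mem_range`.
`nodup_pairs`: `List.nodup_flatMap` (or `List.nodup_bind`): the inner lists are images of filtered ranges
under an injective map, and lists for different `u` are disjoint.
`dirE_iff`: unfold `dirE`, `ent_matrixBits` (Sp1).
`pairs_total`: if `G.Adj a b` then `a ≠ b` and by trichotomy of the labels, and of the numbers if the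
labels are equal, one of the two pairs is directed. -/
theorem mem_pairs {n : ℕ} {w : List Bool} {μ : List ℕ} {e : ℕ × ℕ} :
    e ∈ pairs n w μ ↔ e.1 < n ∧ e.2 < n ∧ dirE n w μ e.1 e.2 = true := by
  unfold pairs
  rw [List.mem_flatMap]
  constructor
  · rintro ⟨u, hu, h⟩
    rw [List.mem_map] at h
    obtain ⟨v, hv, rfl⟩ := h
    rw [List.mem_filter] at hv
    exact ⟨List.mem_range.1 hu, List.mem_range.1 hv.1, hv.2⟩
  · rintro ⟨h1, h2, h3⟩
    exact ⟨e.1, List.mem_range.2 h1, List.mem_map.2 ⟨e.2, List.mem_filter.2 ⟨List.mem_range.2 h2, h3⟩, rfl⟩⟩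

theorem nodup_pairs (n : ℕ) (w : List Bool) (μ : List ℕ) : (pairs n w μ).Nodup := by
  unfold pairs
  rw [List.nodup_flatMap]
  constructor
  · intro u _
    refine (List.Nodup.filter _ List.nodup_range).map ?_
    intro a b h
    exact (Prod.mk.inj h).2
  · refine List.Nodup.pairwise_of_forall_ne (List.nodup_range) ?_
    intro a _ b _ hab
    rw [Function.onFun, List.disjoint_left]
    intro e h1 h2
    rw [List.mem_map] at h1 h2
    obtain ⟨v, _, rfl⟩ := h1
    obtain ⟨v', _, h⟩ := h2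
    exact hab (Prod.mk.inj h).1.symm

theorem dirE_iff {n : ℕ} (G : SimpleGraph (Fin n)) [DecidableRel G.Adj] (μ : List ℕ) (x y : Fin n) :
    dirE n (matrixBits G) μ x.val y.val = true ↔ G.Adj x y ∧
      (μ.getD x.val 0 < μ.getD y.val 0 ∨ (μ.getD x.val 0 = μ.getD y.val 0 ∧ x < y)) := by
  unfold dirE
  rw [ent_matrixBits]
  simp only [Bool.and_eq_true, Bool.or_eq_true, decide_eq_true_eq, Fin.lt_def]

theorem pairs_total {n : ℕ} (G : SimpleGraph (Fin n)) [DecidableRel G.Adj] (μ : List ℕ)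
    {x y : Fin n} (h : G.Adj x y) : (x.val, y.val) ∈ pairs n (matrixBits G) μ ∨
      (y.val, x.val) ∈ pairs n (matrixBits G) μ := by
  rcases lt_trichotomy (μ.getD x.val 0) (μ.getD y.val 0) with h1 | h1 | h1
  · exact Or.inl (mem_pairs.2 ⟨x.isLt, y.isLt, (dirE_iff G μ x y).2 ⟨h, Or.inl h1⟩⟩)
  · rcases lt_or_gt_of_ne h.ne with h2 | h2
    · exact Or.inl (mem_pairs.2 ⟨x.isLt, y.isLt, (dirE_iff G μ x y).2 ⟨h, Or.inr ⟨h1, h2⟩⟩⟩)
    · exact Or.inr (mem_pairs.2 ⟨y.isLt, x.isLt, (dirE_iff G μ y x).2 ⟨h.symm, Or.inr ⟨h1.symm, h2⟩⟩⟩)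
  · exact Or.inr (mem_pairs.2 ⟨y.isLt, x.isLt, (dirE_iff G μ y x).2 ⟨h.symm, Or.inl h1⟩⟩)

end MP881e12
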