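import Pool.Agent.Lib.MP_881e12_lc.BlDef
import Pool.Agent.Lib.MP_881e12_lc.Sp2

namespace MP881e12

open MP60f107 Alg
open MP60f107.Contr (sh pr ht mk)

/-- `cc` as a sum over labels. -/
theorem Bl10_cc_eq (μ : List ℕ) (K : ℕ) (e f : ℕ × ℕ) (h1 : lb μ e.1 < K) (h2 : lb μ e.2 < K) :
    cc μ e f = ∑ r ∈ Finset.range K,
      ((if lb μ e.1 = r then 1 else 0) + (if lb μ e.2 = r then 1 else 0)) *
        ((if lb μ f.1 = r then 1 else 0) + (if lb μ f.2 = r then 1 else 0)) := by
  have key : ∀ (a b : ℕ), a < K → ∑ r ∈ Finset.range K,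
      (if a = r then 1 else 0) * (if b = r then 1 else 0) = (if a = b then 1 else 0 : ℕ) := by
    intro a b ha
    rw [Finset.sum_eq_single a]
    · by_cases hab : a = b
      · simp [hab]
      · simp [hab, Ne.symm hab]
    · intro r _ hr
      simp [Ne.symm hr]
    · intro h
      exact absurd (Finset.mem_range.2 ha) h
  have expand : ∀ r, ((if lb μ e.1 = r then 1 else 0) + (if lb μ e.2 = r then 1 else 0)) *
        ((if lb μ f.1 = r then 1 else 0) + (if lb μ f.2 = r then 1 else 0)) =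
      (((if lb μ e.1 = r then 1 else 0) * (if lb μ f.1 = r then 1 else 0) +
        (if lb μ e.1 = r then 1 else 0) * (if lb μ f.2 = r then 1 else 0)) +
      ((if lb μ e.2 = r then 1 else 0) * (if lb μ f.1 = r then 1 else 0) +
        (if lb μ e.2 = r then 1 else 0) * (if lb μ f.2 = r then 1 else 0)) : ℕ) := by
    intro r
    ring
  rw [Finset.sum_congr rfl (fun r _ => expand r)]
  rw [Finset.sum_add_distrib, Finset.sum_add_distrib, Finset.sum_add_distrib,
    key _ _ h1, key _ _ h1, key _ _ h2, key _ _ h2]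
  rfl

/-- The degree bound. -/
theorem Bl10_deg {n : ℕ} (G : SimpleGraph (Fin n)) [DecidableRel G.Adj] (μ : List ℕ) (r : ℕ) :
    (∑ e ∈ (pairs n (matrixBits G) μ).toFinset,
      ((if lb μ e.1 = r then 1 else 0) + (if lb μ e.2 = r then 1 else 0))) ≤
      (cl (labF n μ) r).card * n := by
  classical
  set P := (pairs n (matrixBits G) μ).toFinset with hP
  have hmem : ∀ e : ℕ × ℕ, e ∈ P → e.1 < n ∧ e.2 < n ∧ dirE n (matrixBits G) μ e.1 e.2 = true := by
    intro e he
    rw [hP, List.mem_toFinset] at he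
    exact mem_pairs.1 he
  have hasym : ∀ e : ℕ × ℕ, e ∈ P → (e.2, e.1) ∉ P := by
    intro e he he'
    obtain ⟨a1, a2, a3⟩ := hmem e he
    obtain ⟨_, _, b3⟩ := hmem _ he'
    have c1 := ((dirE_iff G μ ⟨e.1, a1⟩ ⟨e.2, a2⟩).1 a3).2
    have c2 := ((dirE_iff G μ ⟨e.2, a2⟩ ⟨e.1, a1⟩).1 b3).2
    simp only [Fin.mk_lt_mk] at c1 c2
    omega
  rw [Finset.sum_add_distrib, Finset.sum_boole, Finset.sum_boole]
  set V : Finset ℕ := (cl (labF n μ) r).image (fun x => x.val) with hV
  have hVc : V.card ≤ (cl (labF n μ) r).card := Finset.card_image_le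
  set A := P.filter (fun e => lb μ e.1 = r) with hA
  set B := (P.filter (fun e => lb μ e.2 = r)).image Prod.swap with hB
  have hBc : B.card = (P.filter (fun e => lb μ e.2 = r)).card :=
    Finset.card_image_of_injective _ Prod.swap_injective
  have hdisj : Disjoint A B := by
    rw [Finset.disjoint_left]
    intro e he hb
    rw [hA, Finset.mem_filter] at he
    rw [hB, Finset.mem_image] at hb
    obtain ⟨f, hf, hfe⟩ := hb
    rw [Finset.mem_filter] at hf
    have : (e.2, e.1) = f := by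
      rw [← hfe]
      rfl
    exact hasym e he.1 (this ▸ hf.1)
  have hsub : A ∪ B ⊆ V ×ˢ Finset.range n := by
    intro e he
    rw [Finset.mem_union] at he
    have hmv : ∀ x : ℕ, x < n → lb μ x = r → x ∈ V := by
      intro x hx hl
      rw [hV, Finset.mem_image]
      refine ⟨⟨x, hx⟩, ?_, rfl⟩
      rw [cl, Finset.mem_filter]
      exact ⟨Finset.mem_univ _, hl⟩
    rw [Finset.mem_product, Finset.mem_range]
    rcases he with he | he
    · rw [hA, Finset.mem_filter] at he
      obtain ⟨a1, a2, _⟩ := hmem e he.1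
      exact ⟨hmv _ a1 he.2, a2⟩
    · rw [hB, Finset.mem_image] at he
      obtain ⟨f, hf, rfl⟩ := he
      rw [Finset.mem_filter] at hf
      obtain ⟨a1, a2, _⟩ := hmem f hf.1
      exact ⟨hmv _ a2 hf.2, a1⟩
  have h1 : A.card + B.card ≤ V.card * n := by
    rw [← Finset.card_union_of_disjoint hdisj]
    refine (Finset.card_le_card hsub).trans ?_
    rw [Finset.card_product, Finset.card_range]
  have h2 : V.card * n ≤ (cl (labF n μ) r).card * n := Nat.mul_le_mul_right _ hVc
  rw [hBc] at h1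
  simpa using h1.trans h2

theorem sum_cc {n K : ℕ} (G : SimpleGraph (Fin n)) [DecidableRel G.Adj] (μ : List ℕ)
    (h2 : ∀ x < n, lb μ x < K) :
    (∑ e ∈ (pairs n (matrixBits G) μ).toFinset, ∑ f ∈ (pairs n (matrixBits G) μ).toFinset,
      cc μ e f) ≤ ∑ a ∈ Finset.range K, ((cl (labF n μ) a).card * n) ^ 2 := by
  classical
  set P := (pairs n (matrixBits G) μ).toFinset with hP
  have hmem : ∀ e : ℕ × ℕ, e ∈ P → e.1 < n ∧ e.2 < n := by
    intro e he
    rw [hP, List.mem_toFinset] at he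
    have := mem_pairs.1 he
    exact ⟨this.1, this.2.1⟩
  have h3 : (∑ e ∈ P, ∑ f ∈ P, cc μ e f) = ∑ r ∈ Finset.range K,
      (∑ e ∈ P, ((if lb μ e.1 = r then 1 else 0) + (if lb μ e.2 = r then 1 else 0))) ^ 2 := by
    have h4 : ∀ e ∈ P, ∀ f ∈ P, cc μ e f = ∑ r ∈ Finset.range K,
      ((if lb μ e.1 = r then 1 else 0) + (if lb μ e.2 = r then 1 else 0)) *
        ((if lb μ f.1 = r then 1 else 0) + (if lb μ f.2 = r then 1 else 0)) := by
      intro e he f _
      exact Bl10_cc_eq μ K e f (h2 _ (hmem e he).1) (h2 _ (hmem e he).2)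
    rw [Finset.sum_congr rfl (fun e he => Finset.sum_congr rfl (fun f hf => h4 e he f hf))]
    rw [Finset.sum_congr rfl (fun e _ => Finset.sum_comm)]
    rw [Finset.sum_comm]
    refine Finset.sum_congr rfl fun r _ => ?_
    rw [sq, Finset.sum_mul_sum]
  rw [h3]
  refine Finset.sum_le_sum fun r _ => ?_
  exact Nat.pow_le_pow_left (Bl10_deg G μ r) 2

end MP881e12
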