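import Pool.Agent.Lib.MP_881e12_lc.BlDef
import Pool.Agent.Lib.MP_881e12_lc.Sp2

namespace MP881e12

open MP60f107 Alg
open MP60f107.Contr (sh pr ht mk)

theorem Bl9_Ilv_left {p c d : ℕ} : ¬ Ilv p p c d := by
  unfold Ilv MP60f107.Btw Ots
  omega

theorem Bl9_Ilv_right {p c d : ℕ} : ¬ Ilv c d p p := by
  unfold Ilv MP60f107.Btw Ots
  omega

theorem Bl9_crL_left (p : ℕ) (s : Bool) (Q : List (Arc ℕ)) : crL [⟨p, p, s⟩] Q = 0 := by
  unfold crL X
  simp [Bl9_Ilv_left]

theorem Bl9_crL_right (p : ℕ) (s : Bool) (P : List (Arc ℕ)) : crL P [⟨p, p, s⟩] = 0 := by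
  unfold crL X
  simp [Bl9_Ilv_right]

theorem Bl9_tpath_self {K : ℕ} (T : Drawing (KNet K) ℕ) (a : ℕ) :
    tpath T a a = [⟨tpos T a, tpos T a, true⟩] := by
  simp [tpath, tin, tla]

theorem Bl9_tpath {K : ℕ} (T : Drawing (KNet K) ℕ) (π : KE K) :
    tpath T π.1.1.val π.1.2.val = T.path π := by
  have h : π.1.1.val < π.1.2.val ∧ π.1.2.val < K := ⟨π.2, π.1.2.2⟩
  unfold tpath tin tla tpos Drawing.path
  rw [dif_pos h, dif_pos h, dif_pos π.1.1.2, dif_pos π.1.2.2]
  rfl

/-- The number of directed edges with the labels `π`. -/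
theorem Bl9_card {n K : ℕ} (G : SimpleGraph (Fin n)) [DecidableRel G.Adj] (μ : List ℕ)
    (π : KE K) :
    ((pairs n (matrixBits G) μ).toFinset.filter fun e =>
      lb μ e.1 = π.1.1.val ∧ lb μ e.2 = π.1.2.val).card ≤
    eC G (cl (labF n μ) π.1.1) (cl (labF n μ) π.1.2) := by
  have key : ∀ s : Finset (Fin n × Fin n),
      (∀ e ∈ (pairs n (matrixBits G) μ).toFinset.filter fun e =>
        lb μ e.1 = π.1.1.val ∧ lb μ e.2 = π.1.2.val, ∃ p ∈ s, (p.1.val, p.2.val) = e) →
      ((pairs n (matrixBits G) μ).toFinset.filter fun e =>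
        lb μ e.1 = π.1.1.val ∧ lb μ e.2 = π.1.2.val).card ≤ s.card := by
    intro s h
    exact (Finset.card_le_card fun e he => Finset.mem_image.2 (h e he)).trans
      (Finset.card_image_le (f := fun p : Fin n × Fin n => (p.1.val, p.2.val)))
  unfold eC
  apply key
  rintro ⟨x, y⟩ he
  simp only [Finset.mem_filter, List.mem_toFinset, mem_pairs] at he
  obtain ⟨⟨hx, hy, hd⟩, h1, h2⟩ := he
  have hd' := (dirE_iff G μ ⟨x, hx⟩ ⟨y, hy⟩).1 hd
  refine ⟨(⟨x, hx⟩, ⟨y, hy⟩), ?_, rfl⟩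
  simp only [Finset.mem_filter, Finset.mem_product, cl, Finset.mem_univ, true_and]
  exact ⟨⟨h1, h2⟩, hd'.1⟩

theorem Bl9_term {n K : ℕ} (G : SimpleGraph (Fin n)) [DecidableRel G.Adj] (μ : List ℕ)
    (h2 : ∀ x < n, lb μ x < K) (T : Drawing (KNet K) ℕ) {e f : ℕ × ℕ}
    (he : e ∈ (pairs n (matrixBits G) μ).toFinset)
    (hf : f ∈ (pairs n (matrixBits G) μ).toFinset) :
    (if (lb μ e.1, lb μ e.2) = (lb μ f.1, lb μ f.2) then 0 else
        crL (tpath T (lb μ e.1) (lb μ e.2)) (tpath T (lb μ f.1) (lb μ f.2))) ≤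
    ∑ π : KE K, ∑ π' : KE K, if π = π' then 0 else
      ((if lb μ e.1 = π.1.1.val ∧ lb μ e.2 = π.1.2.val then 1 else 0) *
        (if lb μ f.1 = π'.1.1.val ∧ lb μ f.2 = π'.1.2.val then 1 else 0)) *
        crL (T.path π) (T.path π') := by
  rw [List.mem_toFinset, mem_pairs] at he hf
  obtain ⟨he1, he2, hed⟩ := he
  obtain ⟨hf1, hf2, hfd⟩ := hf
  have hed' := (dirE_iff G μ ⟨e.1, he1⟩ ⟨e.2, he2⟩).1 hed
  have hfd' := (dirE_iff G μ ⟨f.1, hf1⟩ ⟨f.2, hf2⟩).1 hfd
  have hle : lb μ e.1 ≤ lb μ e.2 := by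
    rcases hed'.2 with h | h
    · exact le_of_lt h
    · exact le_of_eq h.1
  have hlf : lb μ f.1 ≤ lb μ f.2 := by
    rcases hfd'.2 with h | h
    · exact le_of_lt h
    · exact le_of_eq h.1
  split_ifs with hlab
  · exact Nat.zero_le _
  · rcases hle.eq_or_lt with h | hlt
    · rw [← h, Bl9_tpath_self, Bl9_crL_left]
      exact Nat.zero_le _
    · rcases hlf.eq_or_lt with h | hlt'
      · rw [← h, Bl9_tpath_self, Bl9_crL_right]
        exact Nat.zero_le _
      · let π : KE K := ⟨(⟨lb μ e.1, h2 _ he1⟩, ⟨lb μ e.2, h2 _ he2⟩), hlt⟩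
        let π' : KE K := ⟨(⟨lb μ f.1, h2 _ hf1⟩, ⟨lb μ f.2, h2 _ hf2⟩), hlt'⟩
        have hne : π ≠ π' := by
          intro h
          apply hlab
          have h1 : lb μ e.1 = lb μ f.1 := congrArg (fun q : KE K => q.1.1.val) h
          have h3 : lb μ e.2 = lb μ f.2 := congrArg (fun q : KE K => q.1.2.val) h
          rw [h1, h3]
        have t1 : tpath T (lb μ e.1) (lb μ e.2) = T.path π := Bl9_tpath T π
        have t2 : tpath T (lb μ f.1) (lb μ f.2) = T.path π' := Bl9_tpath T π'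
        rw [t1, t2]
        refine le_trans ?_ (Finset.single_le_sum (f := fun ρ : KE K => ∑ π' : KE K,
          if ρ = π' then 0 else
          ((if lb μ e.1 = ρ.1.1.val ∧ lb μ e.2 = ρ.1.2.val then 1 else 0) *
            (if lb μ f.1 = π'.1.1.val ∧ lb μ f.2 = π'.1.2.val then 1 else 0)) *
            crL (T.path ρ) (T.path π')) (fun _ _ => Nat.zero_le _) (Finset.mem_univ π))
        refine le_trans ?_ (Finset.single_le_sum (f := fun ρ' : KE K =>
          if π = ρ' then 0 else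
          ((if lb μ e.1 = π.1.1.val ∧ lb μ e.2 = π.1.2.val then 1 else 0) *
            (if lb μ f.1 = ρ'.1.1.val ∧ lb μ f.2 = ρ'.1.2.val then 1 else 0)) *
            crL (T.path π) (T.path ρ')) (fun _ _ => Nat.zero_le _) (Finset.mem_univ π'))
        simp only [if_neg hne]
        have c1 : lb μ e.1 = π.1.1.val ∧ lb μ e.2 = π.1.2.val := ⟨rfl, rfl⟩
        have c2 : lb μ f.1 = π'.1.1.val ∧ lb μ f.2 = π'.1.2.val := ⟨rfl, rfl⟩
        rw [if_pos c1, if_pos c2, one_mul, one_mul]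

/-- ROW Bl9 (120 lines).  The sum of the template crossings.

Let `P = (pairs n (matrixBits G) μ).toFinset`.  Group the edges `e ∈ P` by their label pair.  If
`lb μ e.1 = lb μ e.2` then `tpath` is a single degenerate arc `⟨p, p, true⟩`, which crosses nothing
(`Btw p p c` is false, so `Ilv` is), so such edges contribute `0`.  The others have a label pair
`(a, b)`, `a < b < K`, i.e. `π : KE K`, and then `tpath T a b = T.path π` (unfold with `dif_pos`; `KNet`).
For `π` the number of edges `e ∈ P` with the labels `π` is `eC G (cl ..) (cl ..)`: bijection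
`(x, y) ↦ (x.val, y.val)` of `{(x, y) | lb x = π.1.1, lb y = π.1.2, Adj}` onto it (`mem_pairs`, `dirE_iff`,
Sp2: since the label of `x` is smaller, adjacent pairs are directed).  The double sum is then at most
(equal to) the double sum over `π ≠ π'` of the products
(`Finset.sum_comm`, `Finset.sum_fiberwise`-type argument, or: bound each summand by
`∑ π, ∑ π', if π = π' then 0 else [e has labels π] [f has labels π'] crL (T.path π) (T.path π')` and
exchange the sums). -/
theorem sum_tpath {n K : ℕ} (G : SimpleGraph (Fin n)) [DecidableRel G.Adj] (μ : List ℕ)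
    (h2 : ∀ x < n, lb μ x < K) (T : Drawing (KNet K) ℕ) :
    (∑ e ∈ (pairs n (matrixBits G) μ).toFinset, ∑ f ∈ (pairs n (matrixBits G) μ).toFinset,
      if (lb μ e.1, lb μ e.2) = (lb μ f.1, lb μ f.2) then 0 else
        crL (tpath T (lb μ e.1) (lb μ e.2)) (tpath T (lb μ f.1) (lb μ f.2))) ≤
    ∑ π : KE K, ∑ π' : KE K, if π = π' then 0 else
        eC G (cl (labF n μ) π.1.1) (cl (labF n μ) π.1.2) *
        eC G (cl (labF n μ) π'.1.1) (cl (labF n μ) π'.1.2) * crL (T.path π) (T.path π') := by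
  set P := (pairs n (matrixBits G) μ).toFinset with hP
  have e1 : (∑ e ∈ P, ∑ f ∈ P,
      if (lb μ e.1, lb μ e.2) = (lb μ f.1, lb μ f.2) then 0 else
        crL (tpath T (lb μ e.1) (lb μ e.2)) (tpath T (lb μ f.1) (lb μ f.2))) ≤
      ∑ e ∈ P, ∑ f ∈ P, ∑ π : KE K, ∑ π' : KE K, if π = π' then 0 else
      ((if lb μ e.1 = π.1.1.val ∧ lb μ e.2 = π.1.2.val then 1 else 0) *
        (if lb μ f.1 = π'.1.1.val ∧ lb μ f.2 = π'.1.2.val then 1 else 0)) *
        crL (T.path π) (T.path π') :=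
    Finset.sum_le_sum fun e he => Finset.sum_le_sum fun f hf => Bl9_term G μ h2 T he hf
  refine e1.trans ?_
  have e2 : (∑ e ∈ P, ∑ f ∈ P, ∑ π : KE K, ∑ π' : KE K, if π = π' then 0 else
      ((if lb μ e.1 = π.1.1.val ∧ lb μ e.2 = π.1.2.val then 1 else 0) *
        (if lb μ f.1 = π'.1.1.val ∧ lb μ f.2 = π'.1.2.val then 1 else 0)) *
        crL (T.path π) (T.path π')) =
      ∑ π : KE K, ∑ π' : KE K, ∑ e ∈ P, ∑ f ∈ P, if π = π' then 0 else
      ((if lb μ e.1 = π.1.1.val ∧ lb μ e.2 = π.1.2.val then 1 else 0) *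
        (if lb μ f.1 = π'.1.1.val ∧ lb μ f.2 = π'.1.2.val then 1 else 0)) *
        crL (T.path π) (T.path π') := by
    refine (Finset.sum_congr rfl fun e _ => Finset.sum_comm).trans ?_
    refine Finset.sum_comm.trans ?_
    refine Finset.sum_congr rfl fun π _ => ?_
    refine (Finset.sum_congr rfl fun e _ => Finset.sum_comm).trans ?_
    exact Finset.sum_comm
  rw [e2]
  refine Finset.sum_le_sum fun π _ => Finset.sum_le_sum fun π' _ => ?_
  by_cases h : π = π'
  · simp [h]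
  · simp only [if_neg h]
    have e3 : (∑ e ∈ P, ∑ f ∈ P,
        ((if lb μ e.1 = π.1.1.val ∧ lb μ e.2 = π.1.2.val then 1 else 0) *
        (if lb μ f.1 = π'.1.1.val ∧ lb μ f.2 = π'.1.2.val then 1 else 0)) *
        crL (T.path π) (T.path π')) =
        (P.filter fun e => lb μ e.1 = π.1.1.val ∧ lb μ e.2 = π.1.2.val).card *
        (P.filter fun e => lb μ e.1 = π'.1.1.val ∧ lb μ e.2 = π'.1.2.val).card *
        crL (T.path π) (T.path π') := by
      rw [Finset.card_filter, Finset.card_filter, Finset.sum_mul_sum, Finset.sum_mul]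
      refine Finset.sum_congr rfl fun e _ => ?_
      rw [Finset.sum_mul]
    rw [e3]
    exact Nat.mul_le_mul_right _ (Nat.mul_le_mul (Bl9_card G μ π) (Bl9_card G μ π'))

end MP881e12
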