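import Pool.Agent.Lib.MP_881e12_lc.Bl8
import Pool.Agent.Lib.MP_881e12_lc.Bl9
import Pool.Agent.Lib.MP_881e12_lc.Bl10

namespace MP881e12

open MP60f107 Alg
open MP60f107.Contr (sh pr ht mk)

/-- ROW Bl11 (50 lines).  Blow-up: assembly.

Proof: `hnd = nodup_pairs`, `hp` from `mem_pairs` and `dirE_iff` (Sp2): directed edges have
`lb e.1 ≤ lb e.2`.  `cand_tpl_valid`; `cnt_tpl`; each summand is at most the bound of `bpath_cross` (Bl6;
for `e = f` it is `0`), then `sum_tpath`, `sum_cc` (Bl9, Bl10). -/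
theorem blow_up_proof {n K : ℕ} (G : SimpleGraph (Fin n)) [DecidableRel G.Adj] (μ : List ℕ)
    (h1 : μ.length = n) (h2 : ∀ x < n, μ.getD x 0 < K) (T : Drawing (KNet K) ℕ) (hT : Normal T) :
    validB (cand n (matrixBits G) K μ (tplRows T)) = true ∧
    cnt (cand n (matrixBits G) K μ (tplRows T)) ≤
      (∑ π : KE K, ∑ π' : KE K, if π = π' then 0 else
        eC G (cl (labF n μ) π.1.1) (cl (labF n μ) π.1.2) *
        eC G (cl (labF n μ) π'.1.1) (cl (labF n μ) π'.1.2) * crL (T.path π) (T.path π')) +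
      ∑ a ∈ Finset.range K, ((cl (labF n μ) a).card * n) ^ 2 := by
  have hnd := nodup_pairs n (matrixBits G) μ
  have hp : ∀ e ∈ pairs n (matrixBits G) μ, e.1 < n ∧ e.2 < n ∧ lb μ e.1 ≤ lb μ e.2 := by
    intro e he
    obtain ⟨a, b, hd⟩ := mem_pairs.1 he
    have h := (dirE_iff G μ ⟨e.1, a⟩ ⟨e.2, b⟩).1 hd
    refine ⟨a, b, ?_⟩
    rcases h.2 with h | ⟨h, _⟩
    · exact h.le
    · exact h.le
  refine ⟨cand_tpl_valid hT _ μ h2 hnd hp, ?_⟩
  rw [cnt_tpl hT _ μ h2 hnd hp]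
  refine le_trans ?_ (add_le_add (sum_tpath G μ h2 T) (sum_cc G μ h2))
  rw [← Finset.sum_add_distrib]
  refine Finset.sum_le_sum fun e he => ?_
  rw [← Finset.sum_add_distrib]
  refine Finset.sum_le_sum fun f hf => ?_
  rw [List.mem_toFinset] at he hf
  obtain ⟨_, e2, e3⟩ := hp e he
  obtain ⟨_, f2, f3⟩ := hp f hf
  by_cases hef : e = f
  · rw [if_pos hef]
    exact Nat.zero_le _
  · rw [if_neg hef]
    exact bpath_cross hT μ e f e3 (h2 _ e2) f3 (h2 _ f2)

end MP881e12
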