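import Pool.Agent.Lib.MP_881e12_lc.BlDef

namespace MP881e12

open MP60f107 Alg
open MP60f107.Contr (sh pr ht mk)

namespace Bl2

/-- The recursive version of `lay`. -/
def laz (n o : ℕ) : Bool → Bool → List ℕ → List (Bool × ℕ)
  | _, _, [] => []
  | s, g, p :: ps => (s, ptN n o p g) :: laz n o (!s) (!g) ps

theorem odd_succ (j : ℕ) : odd (j + 1) = !odd j := by
  simp [odd, List.range_succ, List.foldl_append]

theorem pgN_zero (s : Bool) : pgN s 0 = s := by simp [pgN, odd]

theorem pgN_succ (s : Bool) (j : ℕ) : pgN s (j + 1) = pgN (!s) j := by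
  unfold pgN
  rw [odd_succ]
  cases odd j <;> simp

theorem laz_eq (n o : ℕ) (ps : List ℕ) : ∀ s g : Bool,
    (List.range ps.length).map (fun j => (pgN s j, ptN n o (ps.getD j 0) (if g then !odd j else odd j)))
      = laz n o s g ps := by
  induction ps with
  | nil => intro s g; rfl
  | cons p ps ih =>
    intro s g
    rw [List.length_cons, List.range_succ_eq_map, List.map_cons, List.map_map, laz, ← ih (!s) (!g)]
    congr 1
    · rw [pgN_zero]
      cases g <;> simp [odd]
    · apply List.map_congr_left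
      intro j _
      simp only [Function.comp_apply, Nat.succ_eq_add_one, pgN_succ, odd_succ, List.getD_cons_succ]
      cases g <;> simp

theorem lay_laz (n o : ℕ) (s : Bool) (ps : List ℕ) : lay n o s ps = laz n o s true ps := by
  rw [← laz_eq]
  rfl

theorem ptN_emb {n o : ℕ} (ho : o < n * n) (p : ℕ) (g : Bool) :
    ptN n o p g = emb n (mk p (if g then ((1 + o : ℕ) : ℤ) else -((1 + o : ℕ) : ℤ))) := by
  unfold emb ptN
  have hC : 1 + o ≤ Cn n := by unfold Cn; omega
  cases g
  · simp only [Bool.false_eq_true, if_false]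
    have h : (((pr (mk p (-((1 + o : ℕ) : ℤ))) : ℕ) : ℤ) * Mn n + Cn n + ht (mk p (-((1 + o : ℕ) : ℤ)))) =
        ((p * Mn n + Cn n - (1 + o) : ℕ) : ℤ) := by
      rw [Nat.cast_sub (by omega)]
      rw [MP60f107.Contr.pr_mk, MP60f107.Contr.ht_mk]
      push_cast
      ring
    rw [h, Int.toNat_natCast]
  · simp only [if_true]
    have h : (((pr (mk p ((1 + o : ℕ) : ℤ)) : ℕ) : ℤ) * Mn n + Cn n + ht (mk p ((1 + o : ℕ) : ℤ))) =
        ((p * Mn n + Cn n + (1 + o) : ℕ) : ℤ) := by
      rw [MP60f107.Contr.pr_mk, MP60f107.Contr.ht_mk]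
      push_cast
      ring
    rw [h, Int.toNat_natCast]

/-- The first page. -/
def fpg : List (Bool × ℕ) → Bool → Bool
  | [], s => s
  | x :: _, _ => x.1

theorem laz_sh {n o : ℕ} (ho : o < n * n) (r : List (Bool × ℕ)) : ∀ (s : Bool) (_ : Alt r s)
    (s₀ g : Bool) (_ : s₀ = fpg r s),
    laz n o s₀ g (r.map Prod.snd) =
      (sh (if g then ((1 + o : ℕ) : ℤ) else -((1 + o : ℕ) : ℤ)) r).map (fun x => (x.1, emb n x.2)) ∧
      pgN s₀ r.length = s := by
  induction r with
  | nil =>
    intro s _ s₀ g h₀
    refine ⟨rfl, ?_⟩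
    simp only [List.length_nil, pgN_zero]
    exact h₀
  | cons x r ih =>
    intro s halt s₀ g h₀
    obtain ⟨s₁, p⟩ := x
    simp only [fpg] at h₀
    subst h₀
    have key : Alt r s ∧ (!s₀) = fpg r s := by
      cases r with
      | nil =>
        refine ⟨trivial, ?_⟩
        have : s₀ ≠ s := halt
        revert this
        cases s₀ <;> cases s <;> simp [fpg]
      | cons y r =>
        obtain ⟨s₂, q⟩ := y
        have h : s₀ ≠ s₂ ∧ Alt ((s₂, q) :: r) s := halt
        refine ⟨h.2, ?_⟩
        have := h.1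
        revert this
        cases s₀ <;> cases s₂ <;> simp [fpg]
    obtain ⟨h1, h2⟩ := ih s key.1 (!s₀) (!g) key.2
    constructor
    · rw [List.map_cons, laz, h1, ptN_emb ho]
      cases g <;> simp [sh]
    · rw [List.length_cons, pgN_succ, h2]

end Bl2

/-- ROW Bl2 (110 lines).  The list `lay` is the parallel copy `sh`.

Let `r`, `s` be alternating with first page `s₀`.  Then the page of the `j`-th point of `r` is
`pgN s₀ j` and `s = pgN s₀ r.length` (prove by induction on `r`: `Alt ((s₁, p) :: r) s` says that the first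
page of `r, s` is `!s₁`; `odd (j + 1) = !odd j`).  The heights in `sh m r` are `m, -m, m, ...`: the height
number `j` is `m` if `odd j = false` and `-m` otherwise.  `ptN n o p true = p * Mn n + Cn n + (1 + o) =
emb n (mk p (1 + o))` and `ptN n o p false = p * Mn n + Cn n - (1 + o) = emb n (mk p (-(1 + o)))`, the
subtraction is not truncated as `1 + o ≤ n * n < Cn n`.  Then `List.ext_getElem` (or an induction with
general start index: easier may be to prove the equality for a recursive version of `lay` first). -/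
theorem lay_sh {n o : ℕ} (ho : o < n * n) (r : List (Bool × ℕ)) (s : Bool) (halt : Alt r s)
    (s₀ : Bool) (h₀ : s₀ = match r with
      | [] => s
      | x :: _ => x.1) :
    lay n o s₀ (r.map Prod.snd) =
      (sh (((1 + o : ℕ) : ℤ)) r).map (fun x => (x.1, emb n x.2)) ∧ pgN s₀ r.length = s := by
  have h₁ : s₀ = Bl2.fpg r s := by
    rw [h₀]
    cases r <;> rfl
  have := Bl2.laz_sh ho r s halt s₀ true h₁
  rw [Bl2.lay_laz]
  simpa using this

end MP881e12
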