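import Pool.Agent.Lib.MP_881e12_lc.BlDef

namespace MP881e12

open MP60f107 Alg
open MP60f107.Contr (sh pr ht mk)

theorem Bl3_flatMap {α β : Type} (f : α → List β) (K : ℕ) (d : β) :
    ∀ (L : List α), (∀ x ∈ L, (f x).length = K) → ∀ (a b : ℕ) (ha : a < L.length), b < K →
      (L.flatMap f).getD (a * K + b) d = (f L[a]).getD b d := by
  intro L
  induction L with
  | nil => intro _ a b ha; exact absurd ha (Nat.not_lt_zero _)
  | cons x L ih =>
    intro hL a b ha hb
    have hx : (f x).length = K := hL x List.mem_cons_self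
    rw [List.flatMap_cons]
    cases a with
    | zero =>
      rw [List.getD_append _ _ _ _ (by rw [hx]; omega)]
      simp only [Nat.zero_mul, Nat.zero_add, List.getElem_cons_zero]
    | succ a =>
      rw [List.getD_append_right _ _ _ _ (by rw [hx, Nat.succ_mul]; omega)]
      have h1 : (a + 1) * K + b - (f x).length = a * K + b := by
        rw [hx, Nat.succ_mul]; omega
      rw [h1, ih (fun y hy => hL y (List.mem_cons_of_mem _ hy)) a b
        (by simpa using ha) hb]
      simp only [List.getElem_cons_succ]

/-- ROW Bl3 (80 lines, two theorems).  Reading the rows of a template.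

`tplRows_pos`: the head is the list of positions, `List.getD_map`, `List.getElem_finRange`.
`tplRows_row`: entry `1 + (a * K + b)` of `x :: L.flatMap f` is entry `a * K + b` of the `flatMap`, all
inner lists have length `K`, so it is entry `b` of the list for `a` (lemma by induction:
`(L.flatMap f).getD (a * K + b) d = (f L[a]).getD b d`). -/
theorem tplRows_pos {K : ℕ} (T : Drawing (KNet K) ℕ) {a : ℕ} (ha : a < K) :
    ((tplRows T).headD []).getD a 0 = tpos T a := by
  unfold tplRows tpos
  rw [List.headD_cons, List.getD_eq_getElem _ _ (by simpa using ha), List.getElem_map, dif_pos ha,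
    List.getElem_finRange]
  rfl

theorem tplRows_row {K : ℕ} (T : Drawing (KNet K) ℕ) {a b : ℕ} (ha : a < b) (hb : b < K) :
    (tplRows T).getD (1 + (a * K + b)) [] =
      (if (match tin T a b with
        | [] => tla T a b
        | x :: _ => x.1) then 1 else 0) :: (tin T a b).map Prod.snd := by
  have haK : a < K := ha.trans hb
  obtain ⟨g, hg⟩ : ∃ g : Fin K → Fin K → List ℕ, g = fun a b => if h : a < b then
      (if (match T.inner ⟨(a, b), h⟩ with
        | [] => T.last ⟨(a, b), h⟩
        | x :: _ => x.1) then 1 else 0) :: (T.inner ⟨(a, b), h⟩).map Prod.snd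
      else [] := ⟨_, rfl⟩
  have h0 : tplRows T = ((List.finRange K).map fun a => T.pos a) ::
      (List.finRange K).flatMap fun a => (List.finRange K).map (g a) := by
    rw [hg]; rfl
  rw [h0, Nat.add_comm 1, List.getD_cons_succ, Bl3_flatMap _ K [] _ (by intro x _; simp) a b
    (by simpa using haK) hb, List.getD_eq_getElem _ _ (by simpa using hb), List.getElem_map]
  have e0 : ∀ (c : ℕ) (hc : c < K) (h : c < (List.finRange K).length),
      (List.finRange K)[c]'h = ⟨c, hc⟩ := by
    intro c hc h
    rw [List.getElem_finRange]; rfl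
  refine (congrArg₂ g (e0 a haK _) (e0 b hb _)).trans ?_
  rw [hg]
  have h1 : tin T a b = T.inner ⟨(⟨a, haK⟩, ⟨b, hb⟩), ha⟩ := by
    unfold tin; rw [dif_pos ⟨ha, hb⟩]
  have h2 : tla T a b = T.last ⟨(⟨a, haK⟩, ⟨b, hb⟩), ha⟩ := by
    unfold tla; rw [dif_pos ⟨ha, hb⟩]
  rw [h1, h2]
  exact dif_pos (c := (⟨a, haK⟩ : Fin K) < ⟨b, hb⟩) ha

end MP881e12
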