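import Pool.Agent.Lib.MP_881e12_lc.Bl2
import Pool.Agent.Lib.MP_881e12_lc.Bl3

namespace MP881e12

open MP60f107 Alg
open MP60f107.Contr (sh pr ht mk)

private theorem Bl4_alt {K : ℕ} {T : Drawing (KNet K) ℕ} (hT : Normal T) {a b : ℕ} (ha : a < b)
    (hb : b < K) : Alt (tin T a b) (tla T a b) := by
  unfold tin tla
  rw [dif_pos ⟨ha, hb⟩, dif_pos ⟨ha, hb⟩]
  exact hT.alt _

private theorem Bl4_lt {n a b : ℕ} (h1 : a < n) (h2 : b < n) : a * n + b < n * n := by
  have h : a * n + n ≤ n * n := by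
    have h3 : (a + 1) * n ≤ n * n := Nat.mul_le_mul_right n h1
    rwa [Nat.succ_mul] at h3
  omega

private theorem Bl4_dec (s : Bool) : decide ((if s = true then (1 : ℕ) else 0) = 1) = s := by
  cases s <;> simp

private def Bl4_s0 (r : List (Bool × ℕ)) (s : Bool) : Bool :=
  match r with
  | [] => s
  | x :: _ => x.1

private theorem Bl4_lay {n o : ℕ} (ho : o < n * n) (r : List (Bool × ℕ)) (s : Bool) (halt : Alt r s) :
    lay n o (Bl4_s0 r s) (r.map Prod.snd) =
      (sh (((1 + o : ℕ) : ℤ)) r).map (fun x => (x.1, emb n x.2)) ∧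
    pgN (Bl4_s0 r s) r.length = s :=
  lay_sh ho r s halt _ (by cases r <;> rfl)

/-- ROW Bl4 (60 lines).  The record of an edge.

Proof: unfold `recOf`, `recRow`.  If the labels are equal the row is `[]`: `headD = 1`, so the page is
`true`, `lay n _ true [] = []`, `pgN true 0 = true`; and `tin = []` (`a < a` is false), `tla = true`,
`sh _ [] = []`.  If `lb μ e.1 < lb μ e.2`: `tplRows_row` (Bl3), `decide ((if s₀ then 1 else 0) = 1) = s₀`, and
`lay_sh` (Bl2) with `hT.alt` (unfold `tin`, `tla` with `dif_pos`), `o = e.1 * n + e.2 < n * n`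
(`Nat` arithmetic: `e.1 ≤ n - 1`). -/
theorem recOf_tpl {n K : ℕ} {T : Drawing (KNet K) ℕ} (hT : Normal T) (μ : List ℕ) (e : ℕ × ℕ)
    (h1 : e.1 < n) (h2 : e.2 < n) (h3 : lb μ e.2 < K) (hle : lb μ e.1 ≤ lb μ e.2) :
    recOf n K μ (tplRows T) e = (e, ((bch n T μ e).map (fun x => (x.1, emb n x.2)),
      tla T (lb μ e.1) (lb μ e.2))) := by
  rcases Nat.eq_or_lt_of_le hle with heq | hlt
  · have ht : tin T (lb μ e.1) (lb μ e.2) = [] := by
      unfold tin
      rw [dif_neg]
      rintro ⟨h, -⟩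
      omega
    have hl : tla T (lb μ e.1) (lb μ e.2) = true := by
      unfold tla
      rw [dif_neg]
      rintro ⟨h, -⟩
      omega
    have heq' : μ.getD e.1 0 = μ.getD e.2 0 := heq
    unfold recOf recRow bch
    rw [if_pos heq', ht, hl]
    simp [lay, pgN, odd, sh]
  · have hne : ¬ μ.getD e.1 0 = μ.getD e.2 0 := Nat.ne_of_lt hlt
    unfold recOf recRow
    rw [if_neg hne, tplRows_row T hlt h3]
    rw [List.headD_cons, List.tail_cons, Bl4_dec, List.length_map]
    obtain ⟨hL, hP⟩ := Bl4_lay (Bl4_lt h1 h2) (tin T (lb μ e.1) (lb μ e.2))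
      (tla T (lb μ e.1) (lb μ e.2)) (Bl4_alt hT hlt h3)
    unfold bch
    exact Prod.ext rfl (Prod.ext hL hP)

end MP881e12
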