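import Pool.Agent.Lib.MP_881e12_lc.SpDef

namespace MP881e12

open MP60f107 Alg

theorem Sp5_btw (a b c : ℕ) : btwN a b c = true ↔ MP60f107.Btw a b c := by
  simp only [btwN, MP60f107.Btw, Bool.or_eq_true, Bool.and_eq_true, decide_eq_true_eq]

theorem Sp5_ots (a b c : ℕ) : otsN a b c = true ↔ MP60f107.Ots a b c := by
  simp only [otsN, MP60f107.Ots, Bool.or_eq_true, Bool.and_eq_true, decide_eq_true_eq]

/-- ROW Sp5.  Numerical crossings are crossings. -/
theorem xN_eq (A B : ArcN) : xN A B = X (toArc A) (toArc B) := by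
  unfold xN X toArc Ilv
  simp only [Sp5_btw, Sp5_ots, Bool.and_eq_true, Bool.or_eq_true, beq_iff_eq]

theorem crN_eq (P Q : List ArcN) : crN P Q = crL (P.map toArc) (Q.map toArc) := by
  unfold crN crL
  simp only [List.map_map]
  congr 1
  apply List.map_congr_left
  intro A _
  simp only [Function.comp]
  congr 1
  apply List.map_congr_left
  intro B _
  exact xN_eq A B

theorem arcsN_eq (a : ℕ) (r : List (Bool × ℕ)) (s : Bool) (b : ℕ) :
    (arcsN a r s b).map toArc = arcs a r s b := by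
  induction r generalizing a with
  | nil => simp [arcsN, arcs, toArc]
  | cons x r ih =>
    obtain ⟨s₁, p⟩ := x
    simp [arcsN, arcs, toArc]
    exact ih p

theorem cDraw_path {n : ℕ} {c : Cand} (h h1 h2 h3 h4) (i : Fin c.2.length) :
    (cDraw n c h h1 h2 h3 h4).path i = (recArcs c c.2[i]).map toArc := by
  unfold recArcs
  rw [arcsN_eq]
  rfl

theorem Sp5_sum (n : ℕ) (f : ℕ → ℕ) :
    ((List.range n).map f).sum = ∑ i : Fin n, f i := by
  rw [Fin.sum_univ_eq_sum_range (fun i => f i) n]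
  rw [Finset.sum_eq_multiset_sum]
  simp [Finset.range, Multiset.range]

theorem cnt_eq {n : ℕ} {c : Cand} (h h1 h2 h3 h4) : cnt c = (cDraw n c h h1 h2 h3 h4).dcr := by
  unfold cnt Drawing.dcr
  rw [Sp5_sum]
  apply Finset.sum_congr rfl
  intro i _
  rw [Sp5_sum]
  apply Finset.sum_congr rfl
  intro j _
  rw [cDraw_path, cDraw_path, ← crN_eq]
  have hi : c.2.getD i.val ((0, 0), ([], true)) = c.2[i] := by
    rw [List.getD_eq_getElem _ _ i.2]; rfl
  have hj : c.2.getD j.val ((0, 0), ([], true)) = c.2[j] := by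
    rw [List.getD_eq_getElem _ _ j.2]; rfl
  rw [hi, hj]
  by_cases hij : i = j
  · rw [if_pos (congrArg Fin.val hij), if_pos hij]
  · rw [if_neg (fun h => hij (Fin.ext h)), if_neg hij]

end MP881e12
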