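import Pool.Agent.Lib.MP_881e12_lc.Sp4
import Pool.Agent.Lib.MP_881e12_lc.Sp5

namespace MP881e12

open MP60f107 Alg

/-- Shape of the candidates: one position for each vertex. -/
theorem cand_fst (n : ℕ) (w : List Bool) (K : ℕ) (μ : List ℕ) (rows : List (List ℕ)) :
    (cand n w K μ rows).1.length = n := by
  simp [cand]

/-- Shape of the candidates: one record for each directed edge. -/
theorem cand_snd (n : ℕ) (w : List Bool) (K : ℕ) (μ : List ℕ) (rows : List (List ℕ)) :
    (cand n w K μ rows).2.map Prod.fst = pairs n w μ := by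
  unfold cand
  simp only [List.map_map]
  have : (Prod.fst ∘ recOf n K μ rows) = id := by
    funext e
    rfl
  rw [this, List.map_id]

theorem Sp8_getD_replicate (n x : ℕ) : (List.replicate n 0).getD x 0 = 0 := by
  rw [List.getD_eq_getElem?_getD, List.getElem?_replicate]
  split <;> rfl

theorem Sp8_recOf (n : ℕ) (e : ℕ × ℕ) :
    recOf n 0 (List.replicate n 0) [] e = (e, ([], true)) := by
  unfold recOf
  rw [Sp8_getD_replicate, Sp8_getD_replicate, if_pos rfl]
  rfl

theorem Sp8_triv_rec {n : ℕ} {w : List Bool} {r : Rec} (hr : r ∈ (triv n w).2) :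
    r = (r.1, ([], true)) := by
  unfold triv cand at hr
  simp only [List.mem_map] at hr
  obtain ⟨e, _, he⟩ := hr
  rw [Sp8_recOf] at he
  rw [← he]

theorem Sp8_crN_single (A : ArcN) : crN [A] [A] = 0 := by
  rw [crN_eq]
  simp only [List.map_cons, List.map_nil]
  rw [Nrm.crL_single, Nrm.X_self]

theorem triv_valid (n : ℕ) (w : List Bool) : validB (triv n w) = true := by
  unfold validB
  rw [Bool.and_eq_true]
  constructor
  · rw [nodupB_iff]
    have h1 : pts (triv n w) = (List.range n).map fun x => Cn n + x := by
      unfold pts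
      have h2 : ((triv n w).2.flatMap fun r => r.2.1.map Prod.snd) = [] := by
        rw [List.flatMap_eq_nil_iff]
        intro r hr
        rw [Sp8_triv_rec hr]
        rfl
      rw [h2, List.append_nil]
      unfold triv cand
      simp only
      apply List.map_congr_left
      intro x _
      rw [Sp8_getD_replicate]
      simp
    rw [h1]
    apply List.Nodup.map _ List.nodup_range
    intro a b hab
    exact Nat.add_left_cancel hab
  · rw [List.all_eq_true]
    intro r hr
    rw [decide_eq_true_eq]
    have h1 := Sp8_triv_rec hr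
    have h2 : recArcs (triv n w) r =
        [(((triv n w).1.getD r.1.1 0, (triv n w).1.getD r.1.2 0), true)] := by
      unfold recArcs
      rw [h1]
      rfl
    rw [h2]
    exact Sp8_crN_single _

theorem Sp8_fold (l : List Cand) (b₀ : Cand) (hb : validB b₀ = true) :
    let b := l.foldl (fun b c => if validB c && decide (cnt c < cnt b) then c else b) b₀
    (b = b₀ ∨ b ∈ l) ∧ validB b = true ∧ cnt b ≤ cnt b₀ ∧
      ∀ c ∈ l, validB c = true → cnt b ≤ cnt c := by
  induction l generalizing b₀ with
  | nil =>
    refine ⟨Or.inl rfl, hb, le_refl _, ?_⟩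
    intro c hc
    exact absurd hc List.not_mem_nil
  | cons a l ih =>
    simp only [List.foldl_cons]
    by_cases h : (validB a && decide (cnt a < cnt b₀)) = true
    · rw [if_pos h]
      rw [Bool.and_eq_true, decide_eq_true_eq] at h
      obtain ⟨h1, h2, h3, h4⟩ := ih a h.1
      refine ⟨?_, h2, h3.trans h.2.le, ?_⟩
      · rcases h1 with h1 | h1
        · exact Or.inr (List.mem_cons.2 (Or.inl h1))
        · exact Or.inr (List.mem_cons.2 (Or.inr h1))
      · intro c hc hv
        rcases List.mem_cons.1 hc with hc | hc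
        · rw [hc]; exact h3
        · exact h4 c hc hv
    · rw [if_neg h]
      rw [Bool.and_eq_true, decide_eq_true_eq] at h
      obtain ⟨h1, h2, h3, h4⟩ := ih b₀ hb
      refine ⟨?_, h2, h3, ?_⟩
      · rcases h1 with h1 | h1
        · exact Or.inl h1
        · exact Or.inr (List.mem_cons.2 (Or.inr h1))
      · intro c hc hv
        rcases List.mem_cons.1 hc with hc | hc
        · rw [hc] at hv ⊢
          have : ¬ cnt a < cnt b₀ := fun h5 => h ⟨hv, h5⟩
          exact h3.trans (not_lt.1 this)
        · exact h4 c hc hv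

theorem choose_spec_proof {n : ℕ} (G : SimpleGraph (Fin n)) [DecidableRel G.Adj] :
    validB (choose n (matrixBits G)) = true ∧
    (∃ μ, (choose n (matrixBits G)).1.length = n ∧
      (choose n (matrixBits G)).2.map Prod.fst = pairs n (matrixBits G) μ) ∧
    ∀ c ∈ cands n (matrixBits G), validB c = true → cnt (choose n (matrixBits G)) ≤ cnt c := by
  obtain ⟨h1, h2, _, h4⟩ := Sp8_fold (cands n (matrixBits G)) (triv n (matrixBits G))
    (triv_valid n (matrixBits G))
  refine ⟨h2, ?_, h4⟩
  rcases h1 with h1 | h1
  · refine ⟨List.replicate n 0, ?_⟩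
    have : choose n (matrixBits G) = triv n (matrixBits G) := h1
    rw [this]
    exact ⟨cand_fst _ _ _ _ _, cand_snd _ _ _ _ _⟩
  · have h5 : choose n (matrixBits G) ∈ cands n (matrixBits G) := h1
    unfold cands at h5
    rw [List.mem_flatMap] at h5
    obtain ⟨l, _, h5⟩ := h5
    rw [List.mem_flatMap] at h5
    obtain ⟨m, _, h5⟩ := h5
    rw [List.mem_map] at h5
    obtain ⟨c, _, h5⟩ := h5
    refine ⟨advL n l m ((rowsOf (Computability.encodeNat c)).headD []), ?_⟩
    rw [← h5]
    exact ⟨cand_fst _ _ _ _ _, cand_snd _ _ _ _ _⟩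

end MP881e12
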