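import Pool.Agent.Lib.MP_881e12_lc.Bl1
import Pool.Agent.Lib.MP_881e12_lc.Bl4
import Pool.Agent.Lib.MP_881e12_lc.Sp5
import Pool.Agent.Lib.MP_881e12_lc.Sp8

namespace MP881e12

open MP60f107 Alg
open MP60f107.Contr (sh pr ht mk)

/-- ROW Bl5 (90 lines, two theorems).  The arcs of a record are the images of the arcs of the copy.

`bpath_ht`: the ends of the arcs are the two ends (heights `e.1, e.2 < n ≤ n * n + 1`) or inner points of
`sh` (heights `±(1 + e.1 * n + e.2)`, absolute value `≤ n * n`; `Contr.mem_sh`).  Use `Nrm.arcs_eq_pre`,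
`Nrm.mem_pre` (or induction on the chain) for the ends of the arcs of a chain.
`recArcs_tpl`: `recArcs` unfolds to `arcsN (pos of e.1) inner last (pos of e.2)`; `arcsN_eq` (Sp5);
the position of `x < n` is `(tplRows T).headD [] .getD (lb μ x) 0 * Mn n + Cn n + x =
emb n (mk (tpos T (lb μ x)) x)` (`tplRows_pos`, Bl3; `getD` of a map over `range n`); `recOf_tpl` (Bl4);
`arcs_map`-type lemma for `Arc.map` (CrDraw1.lean line 1165 or `Contr.arcs_map`). -/
theorem bpath_ht {n K : ℕ} (T : Drawing (KNet K) ℕ) (μ : List ℕ) (e : ℕ × ℕ)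
    (h1 : e.1 < n) (h2 : e.2 < n) : ∀ A ∈ bpath n T μ e,
      |ht A.p| ≤ n * n + 1 ∧ |ht A.q| ≤ n * n + 1 := by
  have hn1 : n ≤ n * n := Nat.le_mul_self n
  have hb : 1 + (e.1 * n + e.2) ≤ n * n := by
    have h3 : (e.1 + 1) * n ≤ n * n := Nat.mul_le_mul_right n h1
    rw [Nat.add_mul, Nat.one_mul] at h3
    omega
  have hx : ∀ x ∈ bch n T μ e ++ [(tla T (lb μ e.1) (lb μ e.2), mk (tpos T (lb μ e.2)) (e.2 : ℤ))],
      |ht x.2| ≤ (n : ℤ) * n + 1 := by
    intro x hx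
    rw [List.mem_append, List.mem_singleton] at hx
    rcases hx with hx | rfl
    · have h3 := (Contr.mem_sh hx).2
      rw [Int.abs_eq_natAbs, h3, Int.natAbs_natCast]
      have h4 : ((1 + (e.1 * n + e.2) : ℕ) : ℤ) ≤ ((n * n : ℕ) : ℤ) := by exact_mod_cast hb
      rw [Nat.cast_mul] at h4
      linarith
    · have h4 : |((e.2 : ℕ) : ℤ)| = e.2 := abs_of_nonneg (by positivity)
      have h5 : ((e.2 : ℕ) : ℤ) ≤ ((n * n : ℕ) : ℤ) := by exact_mod_cast (h2.le.trans hn1)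
      rw [Nat.cast_mul] at h5
      simp only [Contr.ht_mk]
      rw [h4]
      linarith
  intro A hA
  rw [bpath, Nrm.arcs_eq_pre] at hA
  obtain ⟨hp, y, hy, hq, -⟩ := Nrm.mem_pre hA
  refine ⟨?_, by rw [hq]; exact hx y hy⟩
  rcases hp with hp | ⟨x, hx', hp⟩
  · rw [hp]
    have h4 : |((e.1 : ℕ) : ℤ)| = e.1 := abs_of_nonneg (by positivity)
    have h5 : ((e.1 : ℕ) : ℤ) ≤ ((n * n : ℕ) : ℤ) := by exact_mod_cast (h1.le.trans hn1)
    rw [Nat.cast_mul] at h5
    simp only [Contr.ht_mk]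
    rw [h4]
    linarith
  · rw [hp]
    exact hx x hx'

theorem Bl5_pos {n K : ℕ} (T : Drawing (KNet K) ℕ) (w : List Bool)
    (μ : List ℕ) (x : ℕ) (hx : x < n) (hK : lb μ x < K) :
    (cand n w K μ (tplRows T)).1.getD x 0 = emb n (mk (tpos T (lb μ x)) (x : ℤ)) := by
  have h1 : (cand n w K μ (tplRows T)).1.getD x 0 =
      ((tplRows T).headD []).getD (lb μ x) 0 * Mn n + Cn n + x := by
    unfold cand
    simp only
    rw [List.getD_eq_getElem _ _ (by simpa using hx)]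
    simp
  rw [h1, tplRows_pos T hK]
  simp only [emb, Contr.pr_mk, Contr.ht_mk]
  have h2 : ((tpos T (lb μ x) : ℕ) : ℤ) * Mn n + Cn n + (x : ℤ) =
      ((tpos T (lb μ x) * Mn n + Cn n + x : ℕ) : ℤ) := by push_cast; ring
  rw [h2, Int.toNat_natCast]

theorem recArcs_tpl {n K : ℕ} {T : Drawing (KNet K) ℕ} (hT : Normal T) (w : List Bool)
    (μ : List ℕ) (hμ : ∀ x < n, lb μ x < K) (e : ℕ × ℕ) (h1 : e.1 < n) (h2 : e.2 < n)
    (hle : lb μ e.1 ≤ lb μ e.2) :
    (recArcs (cand n w K μ (tplRows T)) (recOf n K μ (tplRows T) e)).map toArc =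
      (bpath n T μ e).map (Arc.map (emb n)) := by
  have h3 : (bpath n T μ e).map (Arc.map (emb n)) =
      arcs (emb n (mk (tpos T (lb μ e.1)) (e.1 : ℤ))) ((bch n T μ e).map fun x => (x.1, emb n x.2))
        (tla T (lb μ e.1) (lb μ e.2)) (emb n (mk (tpos T (lb μ e.2)) (e.2 : ℤ))) :=
    Contr.arcs_map _ _ _ _ _
  rw [h3, recOf_tpl hT μ e h1 h2 (hμ _ h2) hle]
  unfold recArcs
  rw [arcsN_eq]
  simp only
  rw [Bl5_pos T w μ e.1 h1 (hμ _ h1), Bl5_pos T w μ e.2 h2 (hμ _ h2)]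

end MP881e12
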