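import Pool.Agent.Lib.MP_881e12_lc.Par1

namespace MP881e12

open MP60f107
open MP60f107.Contr (sh pr ht mk)

/-- The first arc of a copy does not cross the rest of another copy (arbitrary last point). -/
theorem Par2_first {L : Type} [LinearOrder L] {s₁ : Bool} {p a0 : L} {r : List (Bool × L)} {s : Bool}
    {b₀ : L} (halt : Alt ((s₁, p) :: r) s)
    (hz : crL (arcs a0 ((s₁, p) :: r) s b₀) (arcs a0 ((s₁, p) :: r) s b₀) = 0)
    (hnd : (a0 :: p :: (r.map Prod.snd ++ [b₀])).Nodup) (a b : L ×ₗ ℤ) (ha : pr a = a0)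
    (hb : pr b = b₀) (m m' : ℤ) :
    crL [(⟨a, mk p m, s₁⟩ : Arc (L ×ₗ ℤ))] (arcs (mk p m') (sh (-m') r) s b) = 0 := by
  cases r with
  | nil =>
    have h : s₁ ≠ s := halt
    simp [sh, arcs, crL, X, h]
  | cons x r =>
    obtain ⟨s₂, p₂⟩ := x
    have h : s₁ ≠ s₂ := halt.1
    change crL _ (⟨mk p m', mk p₂ (-m'), s₂⟩ :: arcs (mk p₂ (-m')) (sh (- -m') r) s b) = 0
    rw [Nrm.crL_cons_right]
    have e1 : crL [(⟨a, mk p m, s₁⟩ : Arc (L ×ₗ ℤ))] [⟨mk p m', mk p₂ (-m'), s₂⟩] = 0 := by
      simp [crL, X, h]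
    rw [e1, zero_add]
    refine Nat.le_zero.mp ((Contr.crL_le _ _).trans ?_)
    have hbs : (arcs (mk p₂ (-m')) (sh (- -m') r) s b).map Contr.bs = arcs p₂ r s b₀ := by
      have h2 := Contr.arcs_map (pr (L := L)) (mk p₂ (-m')) (sh (- -m') r) s b
      rw [Contr.sh_pr, hb] at h2
      exact h2
    rw [hbs]
    have e2 : crL ([(⟨a, mk p m, s₁⟩ : Arc (L ×ₗ ℤ))].map Contr.bs) (arcs p₂ r s b₀) = 0 := by
      rw [Contr.crL_eq_zero_iff] at hz ⊢
      intro A hA B hB
      simp only [List.map_cons, List.map_nil, List.mem_singleton] at hA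
      subst hA
      refine hz _ ?_ _ ?_
      · simp [arcs, Contr.bs, ha]
      · simp [arcs, hB]
    simp only [List.map_cons, List.cons_append, List.nodup_cons, List.mem_cons, List.mem_append,
      List.mem_map, not_or] at hnd
    obtain ⟨⟨-, h1, h2, h3⟩, ⟨h4, h5, h6⟩, -⟩ := hnd
    have e3 : Contr.DL [(⟨a, mk p m, s₁⟩ : Arc (L ×ₗ ℤ))]
        (arcs (mk p₂ (-m')) (sh (- -m') r) s b) = 0 := by
      change Contr.DL (arcs a [] s₁ (mk p m)) (arcs _ _ _ _) = 0
      rw [Contr.DL_arcs_of_ne]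
      · rw [Contr.dl_of_ne, Contr.dl_of_ne, Contr.dl_of_ne, Contr.dl_of_ne]
        · simpa [hb] using h6.1
        · simpa using h4
        · simpa [ha, hb] using h3.1
        · simpa [ha] using h1
      · simp
      · simp
      · intro y hy
        have := (Contr.mem_sh hy).1
        constructor
        · intro h7
          exact h2 ⟨_, this, by rw [← ha, h7]⟩
        · intro h7
          exact h5 ⟨_, this, by rw [← h7]; simp⟩
    rw [e2, e3]

theorem Par2_X {M : Type} [LinearOrder M] (a b a' b' : M) (u u' : Bool) :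
    X (⟨a, b, u⟩ : Arc M) ⟨a', b', u'⟩ ≤ if a = a' then 0 else 1 := by
  split_ifs with h
  · subst h
    refine le_of_eq (Nrm.X_eq_zero.mpr ?_)
    rintro ⟨-, h2⟩
    exact Nrm.ilv_same _ _ _ h2
  · exact Nrm.X_le_one _ _

/-- ROW Par2 (80 lines).  Parallel copies with arbitrary ends: at most one crossing near each end.

Proof: `r = []`: both are single arcs; `X ≤ 1` (`Nrm.X_le_one`), and `X = 0` if `a = a'` or `b = b'`
(common end).  `r = (s₁, p) :: r'`: the first arcs `⟨a, mk p m, s₁⟩`, `⟨a', mk p m', s₁⟩` cross at most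
once, and not if `a = a'`; the first arc of one copy does not cross the rest of the other copy (as in
Par1 / `Contr.first_zero`; the part of the proof of Par1 that shows this should be made a separate
lemma there: here you may copy it); the rests are treated with `par_cross0` (Par1) for the chain `r'`
starting at `p` with the heights `-m`, `-m'` (start points `mk p m`, `mk p m'`, so the second
alternative of its hypothesis holds). -/
theorem par_cross {L : Type} [LinearOrder L] {r : List (Bool × L)} {s : Bool} {a₀ b₀ : L}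
    (halt : Alt r s) (hself : crL (arcs a₀ r s b₀) (arcs a₀ r s b₀) = 0)
    (hnd : (a₀ :: (r.map Prod.snd ++ [b₀])).Nodup) (a a' b b' : L ×ₗ ℤ) (ha : pr a = a₀)
    (ha' : pr a' = a₀) (hb : pr b = b₀) (hb' : pr b' = b₀) (m m' : ℤ) :
    crL (arcs a (sh m r) s b) (arcs a' (sh m' r) s b') ≤
      (if a = a' then 0 else 1) + (if b = b' then 0 else 1) := by
  cases r with
  | nil =>
    change crL [⟨a, b, s⟩] [⟨a', b', s⟩] ≤ _
    rw [Nrm.crL_single]
    have h1 := Par2_X a b a' b' s s
    omega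
  | cons x r =>
    obtain ⟨s₁, p⟩ := x
    change crL (⟨a, mk p m, s₁⟩ :: arcs (mk p m) (sh (-m) r) s b)
      (⟨a', mk p m', s₁⟩ :: arcs (mk p m') (sh (-m') r) s b') ≤ _
    have hnd' : (a₀ :: p :: (r.map Prod.snd ++ [b₀])).Nodup := hnd
    rw [Nrm.crL_cons_left, Nrm.crL_cons_right [_] (arcs _ _ _ _),
      Nrm.crL_cons_right (arcs _ _ _ _) (arcs _ _ _ _), Nrm.crL_single]
    have e1 := Par2_X a (mk p m) a' (mk p m') s₁ s₁
    have e2 := Par2_first halt hself hnd' a b' ha hb' m m'
    have e3 := Par2_first halt hself hnd' a' b ha' hb m' m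
    rw [Nrm.crL_comm] at e3
    have e4 := par_cross0 (r := r) (s := s) (b₀ := b₀) (a₀ := p) ?_ ?_ ?_ (mk p m) (mk p m') b b'
      (Contr.pr_mk _ _) (Contr.pr_mk _ _) hb hb' (-m) (-m') (Or.inr ⟨by simp, by simp⟩)
    · rw [e2, e3]
      omega
    · cases r with
      | nil => exact trivial
      | cons y r => exact halt.2
    · rw [Contr.crL_eq_zero_iff] at hself ⊢
      intro A hA B hB
      exact hself A (by simp [arcs, hA]) B (by simp [arcs, hB])
    · exact (List.nodup_cons.mp hnd').2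

end MP881e12
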