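import Pool.Agent.Lib.MP_881e12_lc.BlDef
import Pool.Agent.Lib.MP_881e12_lc.Par2

namespace MP881e12

open MP60f107 Alg
open MP60f107.Contr (sh pr ht mk)

theorem Bl6_tpos {K : ℕ} (T : Drawing (KNet K) ℕ) {a : ℕ} (h : a < K) :
    tpos T a = T.pos ⟨a, h⟩ := dif_pos h

theorem Bl6_tpos_inj {K : ℕ} (T : Drawing (KNet K) ℕ) {a b : ℕ} (ha : a < K) (hb : b < K)
    (h : tpos T a = tpos T b) : a = b := by
  rw [Bl6_tpos T ha, Bl6_tpos T hb] at h
  exact congrArg Fin.val (T.pos_inj h)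

theorem Bl6_tin {K : ℕ} (T : Drawing (KNet K) ℕ) {a b : ℕ} (h1 : a < b) (h2 : b < K) :
    tin T a b = T.inner ⟨(⟨a, h1.trans h2⟩, ⟨b, h2⟩), h1⟩ := dif_pos ⟨h1, h2⟩

theorem Bl6_tla {K : ℕ} (T : Drawing (KNet K) ℕ) {a b : ℕ} (h1 : a < b) (h2 : b < K) :
    tla T a b = T.last ⟨(⟨a, h1.trans h2⟩, ⟨b, h2⟩), h1⟩ := dif_pos ⟨h1, h2⟩

theorem Bl6_tin_nil {K : ℕ} (T : Drawing (KNet K) ℕ) {a b : ℕ} (h : ¬ (a < b ∧ b < K)) :
    tin T a b = [] := dif_neg h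

theorem Bl6_tpath {K : ℕ} (T : Drawing (KNet K) ℕ) {a b : ℕ} (h1 : a < b) (h2 : b < K) :
    tpath T a b = T.path ⟨(⟨a, h1.trans h2⟩, ⟨b, h2⟩), h1⟩ := by
  unfold tpath
  rw [Bl6_tin T h1 h2, Bl6_tla T h1 h2, Bl6_tpos T (h1.trans h2), Bl6_tpos T h2]
  rfl

theorem Bl6_par {n K : ℕ} {T : Drawing (KNet K) ℕ} (hT : Normal T) (μ : List ℕ)
    (e f : ℕ × ℕ) (h1 : lb μ e.1 < lb μ e.2) (h2 : lb μ e.2 < K) (h3 : lb μ e.1 = lb μ f.1)
    (h4 : lb μ e.2 = lb μ f.2) : crL (bpath n T μ e) (bpath n T μ f) ≤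
      (if mk (tpos T (lb μ e.1)) (e.1 : ℤ) = mk (tpos T (lb μ f.1)) (f.1 : ℤ) then 0 else 1) +
      (if mk (tpos T (lb μ e.2)) (e.2 : ℤ) = mk (tpos T (lb μ f.2)) (f.2 : ℤ) then 0 else 1) := by
  unfold bpath bch
  rw [← h3, ← h4]
  have halt : Alt (tin T (lb μ e.1) (lb μ e.2)) (tla T (lb μ e.1) (lb μ e.2)) := by
    rw [Bl6_tin T h1 h2, Bl6_tla T h1 h2]
    exact hT.alt _
  have hself : crL (tpath T (lb μ e.1) (lb μ e.2)) (tpath T (lb μ e.1) (lb μ e.2)) = 0 := by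
    rw [Bl6_tpath T h1 h2]
    exact hT.self _
  have hnd : (tpos T (lb μ e.1) :: ((tin T (lb μ e.1) (lb μ e.2)).map Prod.snd ++
      [tpos T (lb μ e.2)])).Nodup := by
    rw [Bl6_tin T h1 h2, Bl6_tpos T (h1.trans h2), Bl6_tpos T h2, List.nodup_cons]
    constructor
    · intro h
      rw [List.mem_append, List.mem_map, List.mem_singleton] at h
      rcases h with ⟨x, hx, hx2⟩ | h
      · exact T.avoid _ x hx _ hx2
      · have := congrArg Fin.val (T.pos_inj h)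
        simp only at this
        omega
    · rw [List.nodup_append']
      refine ⟨T.nodup _, List.nodup_singleton _, ?_⟩
      intro y hy hy2
      rw [List.mem_map] at hy
      rw [List.mem_singleton] at hy2
      obtain ⟨x, hx, rfl⟩ := hy
      exact T.avoid _ x hx _ hy2
  exact par_cross halt hself hnd _ _ _ _ rfl rfl rfl rfl _ _

theorem Bl6_single {K : ℕ} (n : ℕ) (T : Drawing (KNet K) ℕ) (μ : List ℕ) (e : ℕ × ℕ)
    (h : ¬ lb μ e.1 < lb μ e.2) : bpath n T μ e =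
      [⟨mk (tpos T (lb μ e.1)) (e.1 : ℤ), mk (tpos T (lb μ e.2)) (e.2 : ℤ),
        tla T (lb μ e.1) (lb μ e.2)⟩] := by
  unfold bpath bch
  rw [Bl6_tin_nil T (fun h' => h h'.1)]
  rfl

theorem Bl6_bs {K : ℕ} (n : ℕ) (T : Drawing (KNet K) ℕ) (μ : List ℕ) (e : ℕ × ℕ) :
    (bpath n T μ e).map Contr.bs = tpath T (lb μ e.1) (lb μ e.2) := by
  unfold bpath bch tpath
  have h := Contr.arcs_map (pr (L := ℕ)) (mk (tpos T (lb μ e.1)) (e.1 : ℤ))
    (sh (((1 + (e.1 * n + e.2) : ℕ) : ℤ)) (tin T (lb μ e.1) (lb μ e.2)))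
    (tla T (lb μ e.1) (lb μ e.2)) (mk (tpos T (lb μ e.2)) (e.2 : ℤ))
  rw [Contr.sh_pr] at h
  exact h

theorem Bl6_dl {K : ℕ} (T : Drawing (KNet K) ℕ) {a b : ℕ} (ha : a < K) (hb : b < K) (i j : ℤ) :
    Contr.dl (mk (tpos T a) i) (mk (tpos T b) j) ≤ if a = b then 1 else 0 := by
  split_ifs with h
  · exact Contr.dl_le_one _ _
  · exact le_of_eq (Contr.dl_of_ne fun h' => h (Bl6_tpos_inj T ha hb h'))

theorem Bl6_avoid {K : ℕ} (T : Drawing (KNet K) ℕ) {a b c : ℕ} (hc : c < K) (x : Bool × ℕ)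
    (hx : x ∈ tin T a b) : x.2 ≠ tpos T c := by
  by_cases h : a < b ∧ b < K
  · rw [Bl6_tin T h.1 h.2] at hx
    rw [Bl6_tpos T hc]
    exact T.avoid _ x hx _
  · rw [Bl6_tin_nil T h] at hx
    exact absurd hx List.not_mem_nil

theorem Bl6_disj {K : ℕ} (T : Drawing (KNet K) ℕ) {a b c d : ℕ} (h : (a, b) ≠ (c, d))
    (x : Bool × ℕ) (hx : x ∈ tin T a b) (y : Bool × ℕ) (hy : y ∈ tin T c d) : x.2 ≠ y.2 := by
  by_cases h1 : a < b ∧ b < K
  · by_cases h2 : c < d ∧ d < K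
    · rw [Bl6_tin T h1.1 h1.2] at hx
      rw [Bl6_tin T h2.1 h2.2] at hy
      refine T.disj _ _ (fun h' => h ?_) x hx y hy
      simp only [Subtype.mk.injEq, Prod.mk.injEq, Fin.mk.injEq] at h'
      rw [h'.1, h'.2]
    · rw [Bl6_tin_nil T h2] at hy
      exact absurd hy List.not_mem_nil
  · rw [Bl6_tin_nil T h1] at hx
    exact absurd hx List.not_mem_nil

/-- ROW Bl6 (150 lines, two theorems).  Crossings of two copies.

Let `a = lb μ e.1 ≤ b = lb μ e.2`, `a' = lb μ f.1 ≤ b' = lb μ f.2`, all `< K`.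
Case 1, `(a, b) = (a', b')`.  If `a < b`: `par_cross` (Par2) with `r = tin T a b`, `s = tla T a b`,
`a₀ = tpos T a`, `b₀ = tpos T b` (alternation and self crossings by `hT` after `dif_pos`, distinct points
by `T.nodup`, `T.avoid`, `T.pos_inj`): at most `[ends differ] + [ends differ] ≤ 2 ≤ cc μ e f` (the first and
the fourth summand of `cc` are `1`).  If `a = b`: both paths are single arcs, `crL ≤ 1 ≤ cc` (`X_le_one`).
Case 2, `(a, b) ≠ (a', b')`.  `Contr.crL_le` : `crL ≤ crL (base) (base) + DL`, the base chains are `tpath`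
(`Contr.arcs_map` with `Contr.sh_pr`), and `Contr.DL_arcs_of_ne` computes `DL` as four numbers `dl`, each
`≤` the corresponding summand of `cc` (`Contr.dl_le_one`; `dl = 0` unless the bases are equal, i.e.
`tpos T x = tpos T y`, i.e. `x = y` by `T.pos_inj`).  Its hypotheses: inner points of different template
edges differ (`T.disj`; if one of the edges is degenerate its list is empty), inner points are not
positions (`T.avoid`); `Contr.mem_sh` for the bases.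
`bpath_self`: `par_cross` with `e = f`, or a single arc (`X A A = 0`). -/
theorem bpath_cross {n K : ℕ} {T : Drawing (KNet K) ℕ} (hT : Normal T) (μ : List ℕ)
    (e f : ℕ × ℕ) (h1 : lb μ e.1 ≤ lb μ e.2) (h2 : lb μ e.2 < K) (h3 : lb μ f.1 ≤ lb μ f.2)
    (h4 : lb μ f.2 < K) : crL (bpath n T μ e) (bpath n T μ f) ≤
      (if (lb μ e.1, lb μ e.2) = (lb μ f.1, lb μ f.2) then 0 else
        crL (tpath T (lb μ e.1) (lb μ e.2)) (tpath T (lb μ f.1) (lb μ f.2))) + cc μ e f := by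
  by_cases hc : (lb μ e.1, lb μ e.2) = (lb μ f.1, lb μ f.2)
  · rw [if_pos hc, zero_add]
    rw [Prod.mk.injEq] at hc
    have hcc : 2 ≤ cc μ e f := by
      unfold cc
      rw [if_pos hc.1, if_pos hc.2]
      omega
    rcases h1.lt_or_eq with h | h
    · refine (Bl6_par (n := n) hT μ e f h h2 hc.1 hc.2).trans (le_trans ?_ hcc)
      split_ifs <;> omega
    · rw [Bl6_single n T μ e (by omega), Bl6_single n T μ f (by omega)]
      unfold crL
      simp only [List.map_cons, List.map_nil, List.sum_cons, List.sum_nil, add_zero]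
      exact (Nrm.X_le_one _ _).trans (by omega)
  · rw [if_neg hc]
    refine (Contr.crL_le _ _).trans ?_
    rw [Bl6_bs, Bl6_bs]
    refine Nat.add_le_add_left ?_ _
    unfold bpath bch
    have k1 : ∀ x ∈ sh (((1 + (e.1 * n + e.2) : ℕ) : ℤ)) (tin T (lb μ e.1) (lb μ e.2)),
        ∀ y ∈ sh (((1 + (f.1 * n + f.2) : ℕ) : ℤ)) (tin T (lb μ f.1) (lb μ f.2)),
        pr x.2 ≠ pr y.2 := fun x hx y hy =>
      Bl6_disj T hc _ (Contr.mem_sh hx).1 _ (Contr.mem_sh hy).1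
    have k2 : ∀ x ∈ sh (((1 + (e.1 * n + e.2) : ℕ) : ℤ)) (tin T (lb μ e.1) (lb μ e.2)),
        pr x.2 ≠ pr (mk (tpos T (lb μ f.1)) (f.1 : ℤ)) ∧
          pr x.2 ≠ pr (mk (tpos T (lb μ f.2)) (f.2 : ℤ)) := fun x hx =>
      ⟨Bl6_avoid T (lt_of_le_of_lt h3 h4) _ (Contr.mem_sh hx).1,
        Bl6_avoid T h4 _ (Contr.mem_sh hx).1⟩
    have k3 : ∀ y ∈ sh (((1 + (f.1 * n + f.2) : ℕ) : ℤ)) (tin T (lb μ f.1) (lb μ f.2)),
        pr (mk (tpos T (lb μ e.1)) (e.1 : ℤ)) ≠ pr y.2 ∧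
          pr (mk (tpos T (lb μ e.2)) (e.2 : ℤ)) ≠ pr y.2 := fun y hy =>
      ⟨(Bl6_avoid T (lt_of_le_of_lt h1 h2) _ (Contr.mem_sh hy).1).symm,
        (Bl6_avoid T h2 _ (Contr.mem_sh hy).1).symm⟩
    rw [Contr.DL_arcs_of_ne k1 k2 k3]
    unfold cc
    exact add_le_add (add_le_add (Bl6_dl T (lt_of_le_of_lt h1 h2) (lt_of_le_of_lt h3 h4) _ _)
      (Bl6_dl T (lt_of_le_of_lt h1 h2) h4 _ _))
      (add_le_add (Bl6_dl T h2 (lt_of_le_of_lt h3 h4) _ _) (Bl6_dl T h2 h4 _ _))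

theorem bpath_self {n K : ℕ} {T : Drawing (KNet K) ℕ} (hT : Normal T) (μ : List ℕ)
    (e : ℕ × ℕ) (h1 : lb μ e.1 ≤ lb μ e.2) (h2 : lb μ e.2 < K) :
    crL (bpath n T μ e) (bpath n T μ e) = 0 := by
  rcases h1.lt_or_eq with h | h
  · have := Bl6_par (n := n) hT μ e e h h2 rfl rfl
    rw [if_pos rfl, if_pos rfl] at this
    omega
  · rw [Bl6_single n T μ e (by omega)]
    unfold crL
    simp only [List.map_cons, List.map_nil, List.sum_cons, List.sum_nil, add_zero]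
    exact Nrm.X_self _

end MP881e12
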