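import Pool.Agent.Lib.MP_881e12_lc.SpDef

namespace MP881e12

open MP60f107 Alg

theorem nodupB_iff (l : List ℕ) : nodupB l = true ↔ l.Nodup := by
  unfold nodupB
  rw [List.all_eq_true]
  constructor
  · intro h
    rw [List.Nodup, List.pairwise_iff_getElem]
    intro i j hi hj hij he
    have h1 := h j (List.mem_range.2 hj)
    rw [List.all_eq_true] at h1
    have h2 := h1 i (List.mem_range.2 hij)
    rw [List.getD_eq_getElem _ _ hj, List.getD_eq_getElem _ _ hi, he] at h2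
    simp at h2
  · intro h j hj
    rw [List.mem_range] at hj
    rw [List.all_eq_true]
    intro i hi
    rw [List.mem_range] at hi
    rw [List.Nodup, List.pairwise_iff_getElem] at h
    have h2 := h i j (hi.trans hj) hj hi
    rw [List.getD_eq_getElem _ _ hj, List.getD_eq_getElem _ _ (hi.trans hj)]
    have h3 : ¬ l[j] = l[i] := fun h3 => h2 h3.symm
    rw [decide_eq_false h3]
    rfl

theorem facts_of_nodup {n : ℕ} {c : Cand} (hn : c.1.length = n) (h : (pts c).Nodup) :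
    (∀ x y, x < n → y < n → c.1.getD x 0 = c.1.getD y 0 → x = y) ∧
    (∀ r ∈ c.2, (r.2.1.map Prod.snd).Nodup) ∧
    (∀ i j : Fin c.2.length, i ≠ j → ∀ x ∈ c.2[i].2.1, ∀ y ∈ c.2[j].2.1, x.2 ≠ y.2) ∧
    (∀ r ∈ c.2, ∀ x ∈ r.2.1, ∀ v, v < n → x.2 ≠ c.1.getD v 0) := by
  subst hn
  unfold pts at h
  rw [List.nodup_append] at h
  obtain ⟨h1, h2, h3⟩ := h
  rw [List.nodup_flatMap] at h2
  obtain ⟨h4, h5⟩ := h2
  refine ⟨?_, h4, ?_, ?_⟩
  · intro x y hx hy hxy
    rw [List.getD_eq_getElem _ _ hx, List.getD_eq_getElem _ _ hy] at hxy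
    exact (h1.getElem_inj_iff).1 hxy
  · rw [List.pairwise_iff_getElem] at h5
    intro i j hij x hx y hy hxy
    rcases lt_trichotomy i.val j.val with hlt | heq | hgt
    · have h6 := h5 i.val j.val i.2 j.2 hlt
      refine h6 (a := x.2) (List.mem_map_of_mem hx) ?_
      rw [hxy]
      exact List.mem_map_of_mem hy
    · exact hij (Fin.ext heq)
    · have h6 := h5 j.val i.val j.2 i.2 hgt
      refine h6 (a := y.2) (List.mem_map_of_mem hy) ?_
      rw [← hxy]
      exact List.mem_map_of_mem hx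
  · intro r hr x hx v hv hxv
    rw [List.getD_eq_getElem _ _ hv] at hxv
    exact h3 _ (List.getElem_mem hv) _
      (List.mem_flatMap.2 ⟨r, hr, List.mem_map_of_mem hx⟩) hxv.symm

theorem nodup_of_facts {n : ℕ} {c : Cand} (hn : c.1.length = n)
    (h1 : ∀ x y, x < n → y < n → c.1.getD x 0 = c.1.getD y 0 → x = y)
    (h2 : ∀ r ∈ c.2, (r.2.1.map Prod.snd).Nodup)
    (h3 : ∀ i j : Fin c.2.length, i ≠ j → ∀ x ∈ c.2[i].2.1, ∀ y ∈ c.2[j].2.1, x.2 ≠ y.2)
    (h4 : ∀ r ∈ c.2, ∀ x ∈ r.2.1, ∀ v, v < n → x.2 ≠ c.1.getD v 0) : (pts c).Nodup := by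
  subst hn
  unfold pts
  rw [List.nodup_append]
  refine ⟨?_, ?_, ?_⟩
  · rw [List.Nodup, List.pairwise_iff_getElem]
    intro i j hi hj hij he
    apply hij.ne
    apply h1 i j hi hj
    rw [List.getD_eq_getElem _ _ hi, List.getD_eq_getElem _ _ hj]
    exact he
  · rw [List.nodup_flatMap]
    refine ⟨h2, ?_⟩
    rw [List.pairwise_iff_getElem]
    intro i j hi hj hij a ha hb
    obtain ⟨x, hx, rfl⟩ := List.mem_map.1 ha
    obtain ⟨y, hy, hxy⟩ := List.mem_map.1 hb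
    exact h3 ⟨i, hi⟩ ⟨j, hj⟩ (fun h => hij.ne (Fin.ext_iff.1 h)) x hx y hy hxy.symm
  · intro a ha b hb hab
    obtain ⟨v, hv, rfl⟩ := List.getElem_of_mem ha
    obtain ⟨r, hr, hb'⟩ := List.mem_flatMap.1 hb
    obtain ⟨x, hx, rfl⟩ := List.mem_map.1 hb'
    apply h4 r hr x hx v hv
    rw [List.getD_eq_getElem _ _ hv]
    exact hab.symm

end MP881e12
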