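import Pool.Agent.Lib.MP_881e12_lc.Bl1
import Pool.Agent.Lib.MP_881e12_lc.Bl4
import Pool.Agent.Lib.MP_881e12_lc.Sp4
import Pool.Agent.Lib.MP_881e12_lc.Sp8

namespace MP881e12

open MP60f107 Alg
open MP60f107.Contr (sh pr ht mk)

theorem Bl7_tin {K : ℕ} (T : Drawing (KNet K) ℕ) {a b : ℕ} (h1 : a < b) (h2 : b < K) :
    tin T a b = T.inner ⟨(⟨a, h1.trans h2⟩, ⟨b, h2⟩), h1⟩ := dif_pos ⟨h1, h2⟩

theorem Bl7_tin_nil {K : ℕ} (T : Drawing (KNet K) ℕ) {a b : ℕ} (h : ¬ (a < b ∧ b < K)) :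
    tin T a b = [] := dif_neg h

theorem Bl7_avoid {K : ℕ} (T : Drawing (KNet K) ℕ) {a b c : ℕ} (hc : c < K) (x : Bool × ℕ)
    (hx : x ∈ tin T a b) : x.2 ≠ tpos T c := by
  by_cases h : a < b ∧ b < K
  · rw [Bl7_tin T h.1 h.2] at hx
    have h1 : tpos T c = T.pos ⟨c, hc⟩ := dif_pos hc
    rw [h1]
    exact T.avoid _ x hx _
  · rw [Bl7_tin_nil T h] at hx
    exact absurd hx List.not_mem_nil

theorem Bl7_nodup {K : ℕ} (T : Drawing (KNet K) ℕ) (a b : ℕ) :
    ((tin T a b).map Prod.snd).Nodup := by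
  by_cases h : a < b ∧ b < K
  · rw [Bl7_tin T h.1 h.2]
    exact T.nodup _
  · rw [Bl7_tin_nil T h]
    exact List.nodup_nil

theorem Bl7_emb_inj {n : ℕ} {z z' : ℕ ×ₗ ℤ} (hz : |ht z| ≤ n * n + 1) (hz' : |ht z'| ≤ n * n + 1)
    (h : emb n z = emb n z') : z = z' := by
  rcases lt_trichotomy z z' with h1 | h1 | h1
  · have := (emb_lt hz hz').2 h1
    omega
  · exact h1
  · have := (emb_lt hz' hz).2 h1
    omega

theorem Bl7_num {n : ℕ} {e : ℕ × ℕ} (h1 : e.1 < n) (h2 : e.2 < n) : e.1 * n + e.2 < n * n := by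
  have h3 : (e.1 + 1) * n ≤ n * n := Nat.mul_le_mul_right n h1
  rw [add_mul] at h3
  omega

theorem Bl7_ht {n K : ℕ} (T : Drawing (KNet K) ℕ) (μ : List ℕ) {e : ℕ × ℕ} (h1 : e.1 < n)
    (h2 : e.2 < n) {x : Bool × (ℕ ×ₗ ℤ)} (hx : x ∈ bch n T μ e) :
    |ht x.2| ≤ n * n + 1 := by
  have h3 := (Contr.mem_sh hx).2
  have h4 := Bl7_num h1 h2
  rw [Int.natAbs_natCast] at h3
  have h5 : |ht x.2| = ((ht x.2).natAbs : ℤ) := Int.abs_eq_natAbs _
  rw [h5, h3]
  have h6 : ((1 + (e.1 * n + e.2) : ℕ) : ℤ) ≤ ((n * n + 1 : ℕ) : ℤ) := by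
    exact_mod_cast (by omega : 1 + (e.1 * n + e.2) ≤ n * n + 1)
  push_cast at h6 ⊢
  exact h6

theorem Bl7_pos {n K : ℕ} (T : Drawing (KNet K) ℕ) (w : List Bool) (μ : List ℕ) {x : ℕ}
    (hx : x < n) (hμ : lb μ x < K) : (cand n w K μ (tplRows T)).1.getD x 0 =
      emb n (mk (tpos T (lb μ x)) (x : ℤ)) := by
  unfold cand
  have h0 : ∀ f : ℕ → ℕ, ((List.range n).map f).getD x 0 = f x := by
    intro f
    rw [List.getD_eq_getElem _ _ (by simpa using hx), List.getElem_map, List.getElem_range]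
  rw [h0]
  have h1 := tplRows_pos T hμ
  rw [h1]
  unfold emb
  rw [Contr.pr_mk, Contr.ht_mk]
  have h2 : ((tpos T (lb μ x) : ℕ) : ℤ) * Mn n + Cn n + (x : ℤ) =
      ((tpos T (lb μ x) * Mn n + Cn n + x : ℕ) : ℤ) := by
    push_cast
    ring
  rw [h2, Int.toNat_natCast]

theorem Bl7_posht {n x : ℕ} (hx : x < n) (p : ℕ) : |ht (mk p (x : ℤ) : ℕ ×ₗ ℤ)| ≤ n * n + 1 := by
  rw [Contr.ht_mk, abs_of_nonneg (by positivity)]
  have h1 : x ≤ n * n := by nlinarith
  have h2 : (x : ℤ) ≤ ((n * n : ℕ) : ℤ) := by exact_mod_cast h1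
  push_cast at h2
  linarith

/-- ROW Bl7 (150 lines).  All points of the blow-up are different.

Proof: `nodup_of_facts` (Sp4).  By `cand_snd`-like unfolding the records are `recOf n K μ (tplRows T) e` for
`e ∈ pairs`, with inner points `emb n z`, `z` a point of `bch n T μ e` (`recOf_tpl`, Bl4; the hypotheses
from `hp`: members of `pairs` have both numbers `< n` and `lb μ e.1 ≤ lb μ e.2`), and the positions are
`emb n (mk (tpos T (lb μ x)) x)`.  `emb n` is injective on heights `≤ n * n + 1` in absolute value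
(`emb_lt`, Bl1, in both directions).  (1) positions: equal images give equal heights `x = y`.
(2) inner points of one edge: their bases are the points of `tin T a b`, which are distinct (`T.nodup`).
(3) of two edges `e ≠ f` (records `i ≠ j`; `hnd` gives that different indices have different edges): the
absolute values of the heights are `1 + e.1 * n + e.2` and `1 + f.1 * n + f.2`, different since
`e ↦ e.1 * n + e.2` is injective on `e.2 < n`.  (4) inner point against position: different bases by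
`T.avoid`. -/
theorem cand_tpl_nodup {n K : ℕ} {T : Drawing (KNet K) ℕ} (hT : Normal T) (w : List Bool)
    (μ : List ℕ) (hμ : ∀ x < n, lb μ x < K) (hnd : (pairs n w μ).Nodup)
    (hp : ∀ e ∈ pairs n w μ, e.1 < n ∧ e.2 < n ∧ lb μ e.1 ≤ lb μ e.2) :
    (pts (cand n w K μ (tplRows T))).Nodup := by
  have hrec : ∀ e ∈ pairs n w μ, recOf n K μ (tplRows T) e =
      (e, ((bch n T μ e).map (fun x => (x.1, emb n x.2)), tla T (lb μ e.1) (lb μ e.2))) :=
    fun e he => recOf_tpl hT μ e (hp e he).1 (hp e he).2.1 (hμ _ (hp e he).2.1) (hp e he).2.2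
  have hmem : ∀ r ∈ (cand n w K μ (tplRows T)).2, ∃ e ∈ pairs n w μ,
      r.2.1 = (bch n T μ e).map (fun x => (x.1, emb n x.2)) := by
    intro r hr
    obtain ⟨e, he, rfl⟩ := List.mem_map.1 hr
    exact ⟨e, he, by rw [hrec e he]⟩
  refine nodup_of_facts (cand_fst n w K μ (tplRows T)) ?_ ?_ ?_ ?_
  · intro x y hx hy h
    rw [Bl7_pos T w μ hx (hμ x hx), Bl7_pos T w μ hy (hμ y hy)] at h
    have h1 := congrArg ht (Bl7_emb_inj (Bl7_posht hx _) (Bl7_posht hy _) h)
    rw [Contr.ht_mk, Contr.ht_mk] at h1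
    exact_mod_cast h1
  · intro r hr
    obtain ⟨e, he, h⟩ := hmem r hr
    rw [h, List.map_map]
    have h1 : (bch n T μ e).map (fun x => pr x.2) = (tin T (lb μ e.1) (lb μ e.2)).map Prod.snd := by
      have h2 := congrArg (List.map Prod.snd) (Contr.sh_pr (((1 + (e.1 * n + e.2) : ℕ) : ℤ))
        (tin T (lb μ e.1) (lb μ e.2)))
      rw [List.map_map] at h2
      exact h2
    have h3 : ((bch n T μ e).map (fun x => pr x.2)).Nodup := by
      rw [h1]
      exact Bl7_nodup T _ _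
    have h4 : (bch n T μ e).Nodup := List.Nodup.of_map _ h3
    refine List.Nodup.map_on ?_ h4
    intro x hx y hy hxy
    have h5 : x.2 = y.2 := Bl7_emb_inj (Bl7_ht T μ (hp e he).1 (hp e he).2.1 hx)
      (Bl7_ht T μ (hp e he).1 (hp e he).2.1 hy) hxy
    exact List.inj_on_of_nodup_map h3 hx hy (by rw [h5])
  · intro i j hij x hx y hy hxy
    have hlen : (cand n w K μ (tplRows T)).2.length = (pairs n w μ).length := List.length_map _
    have hi : i.val < (pairs n w μ).length := hlen ▸ i.2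
    have hj : j.val < (pairs n w μ).length := hlen ▸ j.2
    have ei : (cand n w K μ (tplRows T)).2[i] = recOf n K μ (tplRows T) (pairs n w μ)[i.val] :=
      List.getElem_map _
    have ej : (cand n w K μ (tplRows T)).2[j] = recOf n K μ (tplRows T) (pairs n w μ)[j.val] :=
      List.getElem_map _
    have mi := List.getElem_mem hi
    have mj := List.getElem_mem hj
    rw [ei, hrec _ mi] at hx
    rw [ej, hrec _ mj] at hy
    obtain ⟨x', hx', rfl⟩ := List.mem_map.1 hx
    obtain ⟨y', hy', rfl⟩ := List.mem_map.1 hy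
    have h5 : x'.2 = y'.2 := Bl7_emb_inj (Bl7_ht T μ (hp _ mi).1 (hp _ mi).2.1 hx')
      (Bl7_ht T μ (hp _ mj).1 (hp _ mj).2.1 hy') hxy
    have h6 := (Contr.mem_sh hx').2
    have h7 := (Contr.mem_sh hy').2
    rw [h5, h7, Int.natAbs_natCast, Int.natAbs_natCast] at h6
    have h8 : (pairs n w μ)[i.val] = (pairs n w μ)[j.val] := by
      have a1 := (hp _ mi).2.1
      have a2 := (hp _ mj).2.1
      have h9 : (pairs n w μ)[i.val].1 * n + (pairs n w μ)[i.val].2 =
          (pairs n w μ)[j.val].1 * n + (pairs n w μ)[j.val].2 := by omega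
      have hn : 0 < n := by omega
      have b1 : (pairs n w μ)[i.val].2 = (pairs n w μ)[j.val].2 := by
        have := congrArg (· % n) h9
        simpa [Nat.mul_add_mod_self_right, Nat.mod_eq_of_lt a1, Nat.mod_eq_of_lt a2] using this
      have b2 : (pairs n w μ)[i.val].1 = (pairs n w μ)[j.val].1 := by
        rw [b1] at h9
        exact Nat.eq_of_mul_eq_mul_right hn (by omega)
      exact Prod.ext b2 b1
    exact hij (Fin.ext ((List.Nodup.getElem_inj_iff hnd).1 h8))
  · intro r hr x hx v hv h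
    obtain ⟨e, he, h'⟩ := hmem r hr
    rw [h'] at hx
    obtain ⟨x', hx', rfl⟩ := List.mem_map.1 hx
    rw [Bl7_pos T w μ hv (hμ v hv)] at h
    have h5 : x'.2 = mk (tpos T (lb μ v)) (v : ℤ) :=
      Bl7_emb_inj (Bl7_ht T μ (hp e he).1 (hp e he).2.1 hx') (Bl7_posht hv _) h
    have h6 := congrArg pr h5
    exact Bl7_avoid T (hμ v hv) _ (Contr.mem_sh hx').1 h6

end MP881e12
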