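import Pool.Agent.Lib.MP_881e12_lc.Bl5
import Pool.Agent.Lib.MP_881e12_lc.Bl6
import Pool.Agent.Lib.MP_881e12_lc.Bl7

namespace MP881e12

open MP60f107 Alg
open MP60f107.Contr (sh pr ht mk)

private theorem Bl8_range {α : Type} (d : α) (P : List α) :
    (List.range P.length).map (fun i => P.getD i d) = P := by
  apply List.ext_getElem
  · simp
  · intro i h1 h2
    rw [List.getElem_map, List.getElem_range]
    exact List.getD_eq_getElem _ _ h2

private theorem Bl8_sum {α : Type} [DecidableEq α] (d : α) (P : List α) (hP : P.Nodup)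
    (H : α → α → ℕ) : ∑ e ∈ P.toFinset, ∑ f ∈ P.toFinset, H e f =
      ((List.range P.length).map fun i => ((List.range P.length).map fun j =>
        H (P.getD i d) (P.getD j d)).sum).sum := by
  have h : ∀ g : α → ℕ, ∑ e ∈ P.toFinset, g e =
      ((List.range P.length).map fun i => g (P.getD i d)).sum := by
    intro g
    rw [List.sum_toFinset g hP]
    conv_lhs => rw [← Bl8_range d P, List.map_map]
    rfl
  rw [h]
  congr 1
  apply List.map_congr_left
  intro i _
  rw [h]

private theorem Bl8_cross {n K : ℕ} {T : Drawing (KNet K) ℕ} (hT : Normal T) (w : List Bool)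
    (μ : List ℕ) (hμ : ∀ x < n, lb μ x < K)
    (hp : ∀ e ∈ pairs n w μ, e.1 < n ∧ e.2 < n ∧ lb μ e.1 ≤ lb μ e.2)
    (e f : ℕ × ℕ) (he : e ∈ pairs n w μ) (hf : f ∈ pairs n w μ) :
    crN (recArcs (cand n w K μ (tplRows T)) (recOf n K μ (tplRows T) e))
      (recArcs (cand n w K μ (tplRows T)) (recOf n K μ (tplRows T) f)) =
      crL (bpath n T μ e) (bpath n T μ f) := by
  obtain ⟨e1, e2, e3⟩ := hp e he
  obtain ⟨f1, f2, f3⟩ := hp f hf
  rw [crN_eq, recArcs_tpl hT w μ hμ e e1 e2 e3, recArcs_tpl hT w μ hμ f f1 f2 f3]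
  exact crL_map_on (emb n) {z | |ht z| ≤ n * n + 1} (fun x hx y hy => emb_lt hx hy) _ _
    (bpath_ht T μ e e1 e2) (bpath_ht T μ f f1 f2)

/-- ROW Bl8 (110 lines, two theorems).  Validity and the number of crossings of the blow-up.

`cand_tpl_valid`: unfold `validB`; `nodupB_iff` (Sp4), `cand_tpl_nodup` (Bl7); each record is
`recOf .. e` with `e ∈ pairs` (`List.mem_map`), `crN_eq` (Sp5), `recArcs_tpl`, `bpath_ht` (Bl5),
`crL_map_on` and `emb_lt` (Bl1), `bpath_self` (Bl6).
`cnt_tpl`: `cnt c` is a double sum over the indices of `c.2 = (pairs ..).map (recOf ..)`; since `pairs` has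
no repetitions this is the double sum over the Finset `(pairs ..).toFinset` (write
`((List.range l.length).map fun i => F i l[i]).sum` as sums over `Fin l.length`, bijection
`i ↦ l[i]`; `i = j ↔ l[i] = l[j]`); the summand is `crL (bpath e) (bpath f)` as above. -/
theorem cand_tpl_valid {n K : ℕ} {T : Drawing (KNet K) ℕ} (hT : Normal T) (w : List Bool)
    (μ : List ℕ) (hμ : ∀ x < n, lb μ x < K) (hnd : (pairs n w μ).Nodup)
    (hp : ∀ e ∈ pairs n w μ, e.1 < n ∧ e.2 < n ∧ lb μ e.1 ≤ lb μ e.2) :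
    validB (cand n w K μ (tplRows T)) = true := by
  rw [validB, Bool.and_eq_true]
  refine ⟨(nodupB_iff _).2 (cand_tpl_nodup hT w μ hμ hnd hp), ?_⟩
  rw [List.all_eq_true]
  intro r hr
  have hr' : r ∈ (pairs n w μ).map (recOf n K μ (tplRows T)) := hr
  rw [List.mem_map] at hr'
  obtain ⟨e, he, rfl⟩ := hr'
  rw [decide_eq_true_eq, Bl8_cross hT w μ hμ hp e e he he]
  obtain ⟨_, e2, e3⟩ := hp e he
  exact bpath_self hT μ e e3 (hμ _ e2)

theorem cnt_tpl {n K : ℕ} {T : Drawing (KNet K) ℕ} (hT : Normal T) (w : List Bool)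
    (μ : List ℕ) (hμ : ∀ x < n, lb μ x < K) (hnd : (pairs n w μ).Nodup)
    (hp : ∀ e ∈ pairs n w μ, e.1 < n ∧ e.2 < n ∧ lb μ e.1 ≤ lb μ e.2) :
    cnt (cand n w K μ (tplRows T)) = ∑ e ∈ (pairs n w μ).toFinset, ∑ f ∈ (pairs n w μ).toFinset,
      if e = f then 0 else crL (bpath n T μ e) (bpath n T μ f) := by
  rw [Bl8_sum (0, 0) _ hnd]
  have hl : (cand n w K μ (tplRows T)).2.length = (pairs n w μ).length := List.length_map _
  rw [cnt, hl]
  congr 1
  apply List.map_congr_left
  intro i hi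
  rw [List.mem_range] at hi
  congr 1
  apply List.map_congr_left
  intro j hj
  rw [List.mem_range] at hj
  have hg : ∀ k < (pairs n w μ).length,
      (cand n w K μ (tplRows T)).2.getD k ((0, 0), ([], true)) =
        recOf n K μ (tplRows T) ((pairs n w μ).getD k (0, 0)) := by
    intro k hk
    rw [List.getD_eq_getElem _ _ (by rw [hl]; exact hk), List.getD_eq_getElem _ _ hk]
    exact List.getElem_map _
  have hm : ∀ k < (pairs n w μ).length, (pairs n w μ).getD k (0, 0) ∈ pairs n w μ := by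
    intro k hk
    rw [List.getD_eq_getElem _ _ hk]
    exact List.getElem_mem _
  by_cases hij : i = j
  · rw [if_pos hij, if_pos (by rw [hij])]
  · rw [if_neg hij, if_neg, hg i hi, hg j hj, Bl8_cross hT w μ hμ hp _ _ (hm i hi) (hm j hj)]
    intro h
    rw [List.getD_eq_getElem _ _ hi, List.getD_eq_getElem _ _ hj] at h
    exact hij ((List.Nodup.getElem_inj_iff hnd).1 h)

end MP881e12
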