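import Pool.Agent.Lib.MP_881e12_lc.Core

namespace MP881e12

open MP60f107 Alg

/-- The net of a candidate. -/
def cNet (n : ℕ) (c : Cand) (h : ∀ r ∈ c.2, r.1.1 < n ∧ r.1.2 < n) : Net (Fin n) (Fin c.2.length) where
  src i := ⟨c.2[i].1.1, (h _ (List.getElem_mem _)).1⟩
  tgt i := ⟨c.2[i].1.2, (h _ (List.getElem_mem _)).2⟩

/-- The drawing of a candidate. -/
def cDraw (n : ℕ) (c : Cand) (h : ∀ r ∈ c.2, r.1.1 < n ∧ r.1.2 < n)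
    (h1 : ∀ x y, x < n → y < n → c.1.getD x 0 = c.1.getD y 0 → x = y)
    (h2 : ∀ r ∈ c.2, (r.2.1.map Prod.snd).Nodup)
    (h3 : ∀ i j : Fin c.2.length, i ≠ j → ∀ x ∈ c.2[i].2.1, ∀ y ∈ c.2[j].2.1, x.2 ≠ y.2)
    (h4 : ∀ r ∈ c.2, ∀ x ∈ r.2.1, ∀ v, v < n → x.2 ≠ c.1.getD v 0) :
    Drawing (cNet n c h) ℕ where
  pos v := c.1.getD v.val 0
  inner i := c.2[i].2.1
  last i := c.2[i].2.2
  pos_inj := fun v w hvw => Fin.ext (h1 _ _ v.2 w.2 hvw)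
  nodup i := h2 _ (List.getElem_mem _)
  disj := h3
  avoid i x hx v := h4 _ (List.getElem_mem _) x hx v.val v.2

/-- A numerical arc as an arc. -/
def toArc (A : ArcN) : Arc ℕ := ⟨A.1.1, A.1.2, A.2⟩

end MP881e12
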