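import Pool.Agent.Lib.MP_881e12_lc.Core
import Pool.Agent.Lib.MP_881e12_lc.SpDef

namespace MP881e12

open MP60f107 Alg
open MP60f107.Contr (sh pr ht mk)

/-- The position of the template vertex `a`. -/
def tpos {K : ℕ} (T : Drawing (KNet K) ℕ) (a : ℕ) : ℕ := if h : a < K then T.pos ⟨a, h⟩ else 0

/-- The inner points of the template edge `ab`. -/
def tin {K : ℕ} (T : Drawing (KNet K) ℕ) (a b : ℕ) : List (Bool × ℕ) :=
  if h : a < b ∧ b < K then T.inner ⟨(⟨a, h.1.trans h.2⟩, ⟨b, h.2⟩), h.1⟩ else []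

/-- The last page of the template edge `ab`. -/
def tla {K : ℕ} (T : Drawing (KNet K) ℕ) (a b : ℕ) : Bool :=
  if h : a < b ∧ b < K then T.last ⟨(⟨a, h.1.trans h.2⟩, ⟨b, h.2⟩), h.1⟩ else true

/-- The arcs of the template edge `ab` (for `a = b` one degenerate arc). -/
def tpath {K : ℕ} (T : Drawing (KNet K) ℕ) (a b : ℕ) : List (Arc ℕ) :=
  arcs (tpos T a) (tin T a b) (tla T a b) (tpos T b)

/-- The label of a vertex. -/
abbrev lb (μ : List ℕ) (x : ℕ) : ℕ := μ.getD x 0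

/-- The inner points of the copy for the edge `e` of `G`, in `ℕ ×ₗ ℤ`. -/
def bch (n : ℕ) {K : ℕ} (T : Drawing (KNet K) ℕ) (μ : List ℕ) (e : ℕ × ℕ) :
    List (Bool × (ℕ ×ₗ ℤ)) :=
  sh (((1 + (e.1 * n + e.2) : ℕ) : ℤ)) (tin T (lb μ e.1) (lb μ e.2))

/-- The arcs of the copy for the edge `e`. -/
def bpath (n : ℕ) {K : ℕ} (T : Drawing (KNet K) ℕ) (μ : List ℕ) (e : ℕ × ℕ) :
    List (Arc (ℕ ×ₗ ℤ)) :=
  arcs (mk (tpos T (lb μ e.1)) (e.1 : ℤ)) (bch n T μ e) (tla T (lb μ e.1) (lb μ e.2))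
    (mk (tpos T (lb μ e.2)) (e.2 : ℤ))

/-- The embedding of the used part of `ℕ ×ₗ ℤ` into `ℕ`. -/
def emb (n : ℕ) (z : ℕ ×ₗ ℤ) : ℕ := (((pr z : ℕ) : ℤ) * Mn n + Cn n + ht z).toNat

/-- The number of pairs of ends of `e` and `f` with the same label. -/
def cc (μ : List ℕ) (e f : ℕ × ℕ) : ℕ :=
  (if lb μ e.1 = lb μ f.1 then 1 else 0) + (if lb μ e.1 = lb μ f.2 then 1 else 0) +
    ((if lb μ e.2 = lb μ f.1 then 1 else 0) + (if lb μ e.2 = lb μ f.2 then 1 else 0))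

end MP881e12
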