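import Pool.Agent.Lib.MP_881e12_lc.Alg

/-!
Basic notions: templates, number of edges between sets, regular labellings.
-/

namespace MP881e12

open MP60f107 Finset

/-- The edges of the complete graph on `K` vertices, directed upwards. -/
abbrev KE (K : ℕ) : Type := {p : Fin K × Fin K // p.1 < p.2}

/-- The complete graph on `K` vertices. -/
def KNet (K : ℕ) : Net (Fin K) (KE K) := ⟨fun π => π.1.1, fun π => π.1.2⟩

/-- The edges of a graph on `Fin n`, directed upwards. -/
abbrev GE {n : ℕ} (G : SimpleGraph (Fin n)) : Type := {p : Fin n × Fin n // p.1 < p.2 ∧ G.Adj p.1 p.2}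

/-- The graph as a net. -/
def GNet {n : ℕ} (G : SimpleGraph (Fin n)) : Net (Fin n) (GE G) := ⟨fun e => e.1.1, fun e => e.1.2⟩

noncomputable instance {n : ℕ} (G : SimpleGraph (Fin n)) : Fintype (GE G) := Fintype.ofFinite _

theorem GNet_rep {n : ℕ} (G : SimpleGraph (Fin n)) : (GNet G).Rep G := by
  constructor
  · constructor
    · intro i h
      exact absurd h (ne_of_lt i.2.1)
    · rintro ⟨⟨a, b⟩, h1, h2⟩ ⟨⟨c, d⟩, h3, h4⟩ h
      simp only [GNet, Sym2.eq_iff] at h
      simp only at h1 h3
      rcases h with ⟨rfl, rfl⟩ | ⟨rfl, rfl⟩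
      · rfl
      · exact absurd h3 (not_lt.2 h1.le)
  · intro a b
    constructor
    · intro h
      rcases lt_trichotomy a b with h1 | h1 | h1
      · exact ⟨⟨(a, b), h1, h⟩, rfl⟩
      · exact absurd h (by rw [h1]; exact G.irrefl)
      · exact ⟨⟨(b, a), h1, h.symm⟩, Sym2.eq_swap⟩
    · rintro ⟨⟨⟨c, d⟩, h1, h2⟩, h⟩
      simp only [GNet, Sym2.eq_iff] at h
      rcases h with ⟨rfl, rfl⟩ | ⟨rfl, rfl⟩
      · exact h2
      · exact h2.symm

theorem KNet_ne {K : ℕ} (π : KE K) : (KNet K).src π ≠ (KNet K).tgt π := ne_of_lt π.2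

/-- A drawing is normal: the pages alternate along each edge, no edge crosses itself. -/
structure Normal {V ι : Type} {N : Net V ι} {L : Type} [LinearOrder L] (D : Drawing N L) : Prop where
  alt : ∀ i, Alt (D.inner i) (D.last i)
  self : ∀ i, crL (D.path i) (D.path i) = 0

open Classical in
/-- The number of pairs `(x, y)` in `A × B` that are adjacent. -/
noncomputable def eC {n : ℕ} (G : SimpleGraph (Fin n)) (A B : Finset (Fin n)) : ℕ :=
  ((A ×ˢ B).filter fun p => G.Adj p.1 p.2).card

/-- A class of a labelling. -/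
def cl {n : ℕ} (lam : Fin n → ℕ) (i : ℕ) : Finset (Fin n) := univ.filter fun x => lam x = i

/-- The labels given by a list. -/
def labF (n : ℕ) (l : List ℕ) (x : Fin n) : ℕ := l.getD x.val 0

/-- The labelling with labels `< k` is (one-sided) `ε`-regular: the number of adjacent pairs in
`A × W` is about what the numbers `|A ∩ class i|` predict. -/
def OneReg {n : ℕ} (G : SimpleGraph (Fin n)) (lam : Fin n → ℕ) (k : ℕ) (ε : ℝ) : Prop :=
  ∀ A W : Finset (Fin n), |(eC G A W : ℝ) -
    ∑ i ∈ range k, ((A ∩ cl lam i).card : ℝ) * eC G (cl lam i) W / (cl lam i).card| ≤ ε * n ^ 2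

/-- The rows of a template. -/
def tplRows {K : ℕ} (T : Drawing (KNet K) ℕ) : List (List ℕ) :=
  ((List.finRange K).map fun a => T.pos a) :: (List.finRange K).flatMap fun a =>
    (List.finRange K).map fun b => if h : a < b then
      (if (match T.inner ⟨(a, b), h⟩ with
        | [] => T.last ⟨(a, b), h⟩
        | x :: _ => x.1) then 1 else 0) :: (T.inner ⟨(a, b), h⟩).map Prod.snd
      else []

end MP881e12
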