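import Pool.Agent.Lib.MP_881e12_lc.Core

namespace MP881e12

open MP60f107

/-- ROW Ex1 (60 lines).  Exchange of the tails of two chains, pure list statement.

Let the chain from `a` to `b` be `P0 ++ A :: P2` and the chain from `a'` to `b'` be `Q0 ++ B :: Q2`
with `A`, `B` in the same page.  Then the chain that follows the first one up to the beginning of `A`,
goes to the end of `B` and continues along `Q2`, and the chain that follows the second one up to the
beginning of `B`, goes to the end of `A` and continues along `P2`, use together the same points.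

Proof: exactly as in the proof of `MP60f107.Nrm.exists_uncross` (CrDraw1.lean): `Nrm.arcs_eq_pre`
turns `arcs a r s b` into `Nrm.pre a (r ++ [(s, b)])`; `Nrm.pre_split` applied to `hP` gives
`r ++ [(s, b)] = R1 ++ (A.up, A.q) :: R2`, `P0 = pre a R1`, `A.p = ep a R1`, `P2 = pre A.q R2`; the same
for `hQ` gives `Q1, Q2'`.  `Nrm.suffix_concat` writes `(A.up, A.q) :: R2 = T2 ++ [(s, b)]` with
`r = R1 ++ T2`, and similarly `T2'`.  Take `u = R1 ++ T2'`, `u' = Q1 ++ T2`.  The permutation is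
clear (`Multiset` and `abel`, as there).  The arcs are computed with `Nrm.pre_append`
(`(A.up, A.q) :: R2 = T2 ++ [(s, b)]`, so `pre a' (Q1 ++ T2 ++ [(s, b)]) = pre a' Q1 ++
pre (ep a' Q1) ((A.up, A.q) :: R2)`), using `hup`. -/
theorem tail_arcs {L : Type} {a b a' b' : L} {r r' : List (Bool × L)} {s s' : Bool}
    {P0 P2 Q0 Q2 : List (Arc L)} {A B : Arc L} (hP : arcs a r s b = P0 ++ A :: P2)
    (hQ : arcs a' r' s' b' = Q0 ++ B :: Q2) (hup : A.up = B.up) :
    ∃ u u', (u ++ u').Perm (r ++ r') ∧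
      arcs a u s' b' = P0 ++ ⟨A.p, B.q, A.up⟩ :: Q2 ∧
      arcs a' u' s b = Q0 ++ ⟨B.p, A.q, A.up⟩ :: P2 := by
  rw [Nrm.arcs_eq_pre] at hP hQ
  obtain ⟨R1, R2, hR, rfl, hAp, rfl⟩ := Nrm.pre_split hP
  obtain ⟨Q1, Q2', hQ', rfl, hBp, rfl⟩ := Nrm.pre_split hQ
  obtain ⟨T2, rfl, hT2⟩ := Nrm.suffix_concat hR
  obtain ⟨T2', rfl, hT2'⟩ := Nrm.suffix_concat hQ'
  refine ⟨R1 ++ T2', Q1 ++ T2, ?_, ?_, ?_⟩
  · rw [← Multiset.coe_eq_coe]
    simp only [← Multiset.coe_add]
    abel
  · rw [Nrm.arcs_eq_pre, List.append_assoc, ← hT2', Nrm.pre_append, ← hAp, hup]; rfl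
  · rw [Nrm.arcs_eq_pre, List.append_assoc, ← hT2, Nrm.pre_append, ← hBp]; rfl

end MP881e12
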