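import Pool.Agent.Lib.MP_881e12_lc.Core

namespace MP881e12

open MP60f107

/-- the two new arcs together have at most the crossings of the two old arcs -/
theorem Ex2_unc {L : Type} [LinearOrder L] {A B : Arc L} (hX : X A B ≠ 0) (Q : List (Arc L)) :
    crL [⟨A.p, B.q, A.up⟩] Q + crL [⟨B.p, A.q, A.up⟩] Q ≤ crL [A] Q + crL [B] Q := by
  obtain ⟨hup, hI⟩ := Nrm.X_ne.1 hX
  have hB' : B = ⟨B.p, B.q, A.up⟩ := by rw [hup]
  rw [add_comm, ← Nrm.crL_pair, ← Nrm.crL_pair]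
  apply Nrm.crL_le_of'
  intro C _
  rw [Nrm.crL_pair, Nrm.crL_pair, Nrm.crL_single, Nrm.crL_single, Nrm.crL_single, Nrm.crL_single]
  have := Nrm.X_uncross (s := A.up) hI C
  rw [← hB'] at this
  exact this

/-- ROW Ex2 (80 lines, two theorems).  The exchange does not create crossings.

Proof: `Nrm.X_ne` gives `A.up = B.up` and `Ilv A.p A.q B.p B.q`.  `Nrm.X_uncross` says
`X ⟨B.p, A.q, A.up⟩ C + X ⟨A.p, B.q, A.up⟩ C ≤ X A C + X B C` for every arc `C` (see `hunc` in the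
proof of `Nrm.exists_uncross`, CrDraw1.lean line 350-368, copy it; `Nrm.crL_le_of'`).  Everything else is
additivity of `crL` (`Nrm.crL_append_left`, `Nrm.crL_cons_left`, `Nrm.crL_comm`).
For the second theorem expand both sides (`U` and `U'` differ only in two arcs): with
`Z = P0 ++ P2 ++ Q0 ++ Q2`, `crL U U = crL Z Z + 2 (crL [A] Z + crL [B] Z) + 2 X A B` (as
`X A A = 0 = X B B`, `Nrm.X_self`) and `X A B = 1`; the same for `U'`, where the mutual crossing of the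
two new arcs is `0` (`Nrm.X_uncross0`). -/
theorem exchange_le {L : Type} [LinearOrder L] {P0 P2 Q0 Q2 : List (Arc L)} {A B : Arc L}
    (hX : X A B ≠ 0) (Q : List (Arc L)) :
    crL (P0 ++ ⟨A.p, B.q, A.up⟩ :: Q2) Q + crL (Q0 ++ ⟨B.p, A.q, A.up⟩ :: P2) Q ≤
      crL (P0 ++ A :: P2) Q + crL (Q0 ++ B :: Q2) Q := by
  have h := Ex2_unc hX Q
  rw [Nrm.crL_append_left, Nrm.crL_append_left, Nrm.crL_append_left, Nrm.crL_append_left,
    Nrm.crL_cons_left, Nrm.crL_cons_left ⟨B.p, A.q, A.up⟩, Nrm.crL_cons_left A,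
    Nrm.crL_cons_left B]
  omega

/-- the number of crossings of a list with two marked arcs -/
theorem Ex2_sq {L : Type} [LinearOrder L] (U Z : List (Arc L)) (A B : Arc L)
    (h : ∀ M, crL U M = crL Z M + crL [A] M + crL [B] M) :
    crL U U = crL Z Z + 2 * (crL [A] Z + crL [B] Z) + 2 * X A B := by
  have e0 := h U
  have e1 := h Z
  have e2 := h [A]
  have e3 := h [B]
  rw [Nrm.crL_single, Nrm.crL_single, Nrm.X_self] at e2
  rw [Nrm.crL_single, Nrm.crL_single, Nrm.X_self] at e3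
  rw [Nrm.crL_comm Z U, Nrm.crL_comm [A] U, Nrm.crL_comm [B] U] at e0
  rw [Nrm.crL_comm Z [A], Nrm.X_comm B A] at e2
  rw [Nrm.crL_comm Z [B]] at e3
  omega

theorem exchange_total {L : Type} [LinearOrder L] {P0 P2 Q0 Q2 : List (Arc L)} {A B : Arc L}
    (hX : X A B ≠ 0) :
    crL ((P0 ++ ⟨A.p, B.q, A.up⟩ :: Q2) ++ (Q0 ++ ⟨B.p, A.q, A.up⟩ :: P2))
      ((P0 ++ ⟨A.p, B.q, A.up⟩ :: Q2) ++ (Q0 ++ ⟨B.p, A.q, A.up⟩ :: P2)) + 2 ≤
    crL ((P0 ++ A :: P2) ++ (Q0 ++ B :: Q2)) ((P0 ++ A :: P2) ++ (Q0 ++ B :: Q2)) := by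
  obtain ⟨hup, hI⟩ := Nrm.X_ne.1 hX
  have h1 := Ex2_sq ((P0 ++ A :: P2) ++ (Q0 ++ B :: Q2)) ((P0 ++ P2) ++ (Q0 ++ Q2)) A B (by
    intro M
    rw [Nrm.crL_append_left, Nrm.crL_append_left, Nrm.crL_append_left, Nrm.crL_append_left,
      Nrm.crL_append_left, Nrm.crL_append_left, Nrm.crL_cons_left A P2 M,
      Nrm.crL_cons_left B Q2 M]
    omega)
  have h2 := Ex2_sq ((P0 ++ ⟨A.p, B.q, A.up⟩ :: Q2) ++ (Q0 ++ ⟨B.p, A.q, A.up⟩ :: P2))
    ((P0 ++ P2) ++ (Q0 ++ Q2)) ⟨A.p, B.q, A.up⟩ ⟨B.p, A.q, A.up⟩ (by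
    intro M
    rw [Nrm.crL_append_left, Nrm.crL_append_left, Nrm.crL_append_left, Nrm.crL_append_left,
      Nrm.crL_append_left, Nrm.crL_append_left, Nrm.crL_cons_left ⟨A.p, B.q, A.up⟩ Q2 M,
      Nrm.crL_cons_left ⟨B.p, A.q, A.up⟩ P2 M]
    omega)
  have h3 : X (⟨A.p, B.q, A.up⟩ : Arc L) ⟨B.p, A.q, A.up⟩ = 0 := by
    rw [Nrm.X_comm]
    exact Nrm.X_uncross0 hI
  have h4 : 1 ≤ X A B := Nat.one_le_iff_ne_zero.2 hX
  have h5 := Ex2_unc hX ((P0 ++ P2) ++ (Q0 ++ Q2))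
  rw [h1, h2, h3]
  omega

end MP881e12
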