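import Pool.Agent.Lib.MP_881e12_lc.Ex1
import Pool.Agent.Lib.MP_881e12_lc.Ex2

namespace MP881e12

open MP60f107

/-- ROW Ex3 (40 lines).  Tail exchange of two crossing chains.

Proof: `Nrm.exists_of_crL_ne` gives crossing arcs `A`, `B`; split the lists (`List.append_of_mem`) and
apply `tail_arcs` (Ex1; `A.up = B.up` from `Nrm.X_ne`), `exchange_le`, `exchange_total` (Ex2). -/
theorem tail_exchange {L : Type} [LinearOrder L] {a b a' b' : L} {r r' : List (Bool × L)}
    {s s' : Bool} (h : crL (arcs a r s b) (arcs a' r' s' b') ≠ 0) :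
    ∃ u u', (u ++ u').Perm (r ++ r') ∧
      (∀ Q, crL (arcs a u s' b') Q + crL (arcs a' u' s b) Q ≤
        crL (arcs a r s b) Q + crL (arcs a' r' s' b') Q) ∧
      crL (arcs a u s' b' ++ arcs a' u' s b) (arcs a u s' b' ++ arcs a' u' s b) + 2 ≤
        crL (arcs a r s b ++ arcs a' r' s' b') (arcs a r s b ++ arcs a' r' s' b') := by
  obtain ⟨A, hA, B, hB, hAB⟩ := Nrm.exists_of_crL_ne h
  obtain ⟨P0, P2, hP⟩ := List.append_of_mem hA
  obtain ⟨Q0, Q2, hQ⟩ := List.append_of_mem hB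
  obtain ⟨u, u', hperm, hu, hu'⟩ := tail_arcs hP hQ (Nrm.X_ne.1 hAB).1
  refine ⟨u, u', hperm, fun Q => ?_, ?_⟩
  · rw [hu, hu', hP, hQ]
    exact exchange_le hAB Q
  · rw [hu, hu', hP, hQ]
    exact exchange_total hAB

end MP881e12
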