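import Pool.Agent.Lib.MP_881e12_lc.Core

namespace MP881e12

open MP60f107

theorem Ex4_merge {L : Type} [LinearOrder L] (a b c : L) (s : Bool) (Q : List (Arc L))
    (h : ∀ C ∈ Q, b ≠ C.p ∧ b ≠ C.q) :
    crL [⟨a, c, s⟩] Q ≤ crL [⟨a, b, s⟩] Q + crL [⟨b, c, s⟩] Q := by
  induction Q with
  | nil => rw [Nrm.crL_nil_right]; exact Nat.zero_le _
  | cons C Q ih =>
    have h1 := ih fun D hD => h D (List.mem_cons_of_mem _ hD)
    have h2 := h C List.mem_cons_self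
    have h3 := Nrm.X_merge (a := a) (b := b) (c := c) (s := s) C h2.1 h2.2
    rw [Nrm.crL_cons_right [⟨a, c, s⟩], Nrm.crL_cons_right [⟨a, b, s⟩],
      Nrm.crL_cons_right [⟨b, c, s⟩], Nrm.crL_single, Nrm.crL_single, Nrm.crL_single]
    omega

/-- ROW Ex4 (90 lines).  If two chains cross twice, the direct exchange or the reversed exchange leaves a
crossing: a count.

Here `A`, `B` are crossing arcs, and no arc of `P0` has the end point `A.q`, no arc of `P2` has the end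
point `A.p`, no arc of `Q0` has the end point `B.q`, no arc of `Q2` has the end point `B.p`.
Proof: expand the three `crL` (`Nrm.crL_append_left`, `Nrm.crL_append_right`, `Nrm.crL_cons_left`,
`Nrm.crL_cons_right`, `Nrm.crL_comm`).  Left side:
`crL P0 Q0 + crL P0 [B] + crL P0 Q2 + crL [A] Q0 + 1 + crL [A] Q2 + crL P2 Q0 + crL P2 [B] + crL P2 Q2`
(`X A B ≤ 1`).  The right side contains `crL P0 Q0 + crL Q2 P2` (first product),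
`crL P0 Q2 + crL Q0 P2` (second product), and the terms that dominate the remaining four:
`crL P0 [B] ≤ crL P0 [⟨B.p, A.q⟩] + crL P0 [⟨B.q, A.q⟩]` (merge at `A.q`, which is not an end point of
`P0`), `crL [A] Q0 ≤ crL [⟨A.p, B.q⟩] Q0 + crL [⟨B.q, A.q⟩] Q0` (merge at `B.q`),
`crL [A] Q2 ≤ crL [⟨A.p, B.p⟩] Q2 + crL [⟨B.p, A.q⟩] Q2` (merge at `B.p`),
`crL P2 [B] ≤ crL P2 [⟨A.p, B.q⟩] + crL P2 [⟨A.p, B.p⟩]` (merge at `A.p`).
Each of them follows arc by arc (`Nrm.crL_le_of`) from `Nrm.X_merge` and the symmetry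
`Nrm.X_swap`, `Nrm.X_comm`.  All arcs `⟨·, ·⟩` are in page `A.up = B.up`. -/
theorem two_exchanges {L : Type} [LinearOrder L] {P0 P2 Q0 Q2 : List (Arc L)} {A B : Arc L}
    (hX : X A B ≠ 0) (h1 : ∀ C ∈ P0, A.q ≠ C.p ∧ A.q ≠ C.q) (h2 : ∀ C ∈ P2, A.p ≠ C.p ∧ A.p ≠ C.q)
    (h3 : ∀ C ∈ Q0, B.q ≠ C.p ∧ B.q ≠ C.q) (h4 : ∀ C ∈ Q2, B.p ≠ C.p ∧ B.p ≠ C.q) :
    crL (P0 ++ A :: P2) (Q0 ++ B :: Q2) ≤ 1 +
      crL (P0 ++ ⟨A.p, B.q, A.up⟩ :: Q2) (Q0 ++ ⟨B.p, A.q, A.up⟩ :: P2) +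
      crL (P0 ++ ⟨A.p, B.p, A.up⟩ :: Q0) (Q2 ++ ⟨B.q, A.q, A.up⟩ :: P2) := by
  have hup := (Nrm.X_ne.1 hX).1
  obtain ⟨ap, aq, s⟩ := A
  obtain ⟨bp, bq, s'⟩ := B
  simp only at hup h1 h2 h3 h4
  subst hup
  rw [Nrm.crL_expand, Nrm.crL_expand, Nrm.crL_expand]
  have e1 := Ex4_merge bp aq bq s P0 h1
  have e2 := Ex4_merge ap bq aq s Q0 h3
  have e3 := Ex4_merge ap bp aq s Q2 h4
  have e4 := Ex4_merge bp ap bq s P2 h2
  have e5 : crL [⟨ap, aq, s⟩] [⟨bp, bq, s⟩] ≤ 1 := by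
    rw [Nrm.crL_single]
    exact Nrm.X_le_one _ _
  rw [Nrm.crL_swap bq aq] at e1
  rw [Nrm.crL_swap ap bp] at e4
  rw [Nrm.crL_comm P0 [⟨bp, bq, s⟩], Nrm.crL_comm P2 Q0, Nrm.crL_comm P2 [⟨bp, bq, s⟩],
    Nrm.crL_comm P2 Q2, Nrm.crL_comm P0 [⟨bp, aq, s⟩], Nrm.crL_comm P0 [⟨bq, aq, s⟩],
    Nrm.crL_comm Q2 [⟨bp, aq, s⟩], Nrm.crL_comm Q0 [⟨bq, aq, s⟩]]
  simp only at *
  omega

end MP881e12
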