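import Pool.Agent.Lib.MP_881e12_lc.Core

namespace MP881e12

open MP60f107

/-- ROW Ex5 (60 lines).  In a chain with distinct points the end point of an arc is not met by the
earlier arcs, and its initial point is not met by the later arcs.

Proof: `Nrm.arcs_eq_pre` and `Nrm.pre_split` (twice, or once): `r ++ [(s, b)] = R1 ++ (A.up, A.q) :: R2`,
`P0 = pre a R1`, `A.p = ep a R1`, `P2 = pre A.q R2`.  The points of the chain in their order are
`a :: (r ++ [(s, b)]).map Prod.snd = a :: R1.map Prod.snd ++ A.q :: R2.map Prod.snd`, and they are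
distinct by `hnd`.  By `Nrm.mem_pre` the ends of the arcs of `P0` are in `a :: R1.map Prod.snd`, the
ends of the arcs of `P2` are in `A.q :: R2.map Prod.snd`; `A.p = ep a R1` is in `a :: R1.map Prod.snd`
(`Nrm.ep_mem`).  (Alternatively induction on `r`.) -/
theorem split_ends {L : Type} {a b : L} {r : List (Bool × L)} {s : Bool}
    (hnd : (a :: (r.map Prod.snd ++ [b])).Nodup) {P0 P2 : List (Arc L)} {A : Arc L}
    (hP : arcs a r s b = P0 ++ A :: P2) :
    (∀ C ∈ P0, A.q ≠ C.p ∧ A.q ≠ C.q) ∧ ∀ C ∈ P2, A.p ≠ C.p ∧ A.p ≠ C.q := by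
  rw [Nrm.arcs_eq_pre] at hP
  obtain ⟨R1, R2, hR, rfl, hAp, rfl⟩ := Nrm.pre_split hP
  have hpts : a :: (r.map Prod.snd ++ [b]) =
      (a :: R1.map Prod.snd) ++ A.q :: R2.map Prod.snd := by
    have h1 := congrArg (List.map Prod.snd) hR
    simp only [List.map_append, List.map_cons, List.map_nil] at h1
    rw [h1]; rfl
  rw [hpts, List.nodup_append] at hnd
  obtain ⟨-, h2, h3⟩ := hnd
  rw [List.nodup_cons] at h2
  have hq1 : ∀ x ∈ a :: R1.map Prod.snd, A.q ≠ x := fun x hx h =>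
    h3 x hx A.q List.mem_cons_self h.symm
  have hp1 : A.p ∈ a :: R1.map Prod.snd := by
    rw [hAp]
    rcases Nrm.ep_mem a R1 with h | ⟨x, hx, h⟩
    · rw [h]; exact List.mem_cons_self
    · rw [h]; exact List.mem_cons_of_mem _ (List.mem_map_of_mem hx)
  have hp2 : ∀ x ∈ A.q :: R2.map Prod.snd, A.p ≠ x := fun x hx => h3 A.p hp1 x hx
  constructor
  · intro C hC
    obtain ⟨hp, x, hx, hq, -⟩ := Nrm.mem_pre hC
    refine ⟨hq1 _ ?_, hq1 _ ?_⟩
    · rcases hp with h | ⟨y, hy, h⟩
      · rw [h]; exact List.mem_cons_self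
      · rw [h]; exact List.mem_cons_of_mem _ (List.mem_map_of_mem hy)
    · rw [hq]; exact List.mem_cons_of_mem _ (List.mem_map_of_mem hx)
  · intro C hC
    obtain ⟨hp, x, hx, hq, -⟩ := Nrm.mem_pre hC
    refine ⟨hp2 _ ?_, hp2 _ ?_⟩
    · rcases hp with h | ⟨y, hy, h⟩
      · rw [h]; exact List.mem_cons_self
      · rw [h]; exact List.mem_cons_of_mem _ (List.mem_map_of_mem hy)
    · rw [hq]; exact List.mem_cons_of_mem _ (List.mem_map_of_mem hx)

end MP881e12
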