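import Pool.Agent.Lib.MP_881e12_lc.Ex3
import Pool.Agent.Lib.MP_881e12_lc.Ex4
import Pool.Agent.Lib.MP_881e12_lc.Ex5

namespace MP881e12

open MP60f107

theorem ex6_total {L : Type} [LinearOrder L] (P Q : List (Arc L)) :
    crL (P ++ Q) (P ++ Q) = crL P P + 2 * crL P Q + crL Q Q := by
  rw [Nrm.crL_append_left, Nrm.crL_append_right, Nrm.crL_append_right, Nrm.crL_comm Q P]
  omega

/-- The first case of the double exchange. -/
theorem ex6_case {L : Type} [LinearOrder L] {a b a' b' : L} {r r' : List (Bool × L)}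
    {s s' : Bool}
    (hP : crL (arcs a r s b) (arcs a r s b) = 0)
    (hQ : crL (arcs a' r' s' b') (arcs a' r' s' b') = 0)
    {P0 P2 Q0 Q2 : List (Arc L)} {A B : Arc L}
    (hP0 : arcs a r s b = P0 ++ A :: P2) (hQ0 : arcs a' r' s' b' = Q0 ++ B :: Q2)
    (hX : X A B ≠ 0)
    (hne : crL (P0 ++ ⟨A.p, B.q, A.up⟩ :: Q2) (Q0 ++ ⟨B.p, A.q, A.up⟩ :: P2) ≠ 0) :
    ∃ u u', (u ++ u').Perm (r ++ r') ∧
      (∀ R, crL (arcs a u s b) R + crL (arcs a' u' s' b') R ≤
        crL (arcs a r s b) R + crL (arcs a' r' s' b') R) ∧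
      crL (arcs a u s b) (arcs a' u' s' b') + 2 ≤ crL (arcs a r s b) (arcs a' r' s' b') := by
  obtain ⟨v, v', hv, hv1, hv2⟩ := tail_arcs hP0 hQ0 (Nrm.X_ne.1 hX).1
  rw [← hv1, ← hv2] at hne
  obtain ⟨u, u', hu, hle, htot⟩ := tail_exchange hne
  refine ⟨u, u', hu.trans hv, fun R => ?_, ?_⟩
  · have h1 := hle R
    have h2 := exchange_le (P0 := P0) (P2 := P2) (Q0 := Q0) (Q2 := Q2) hX R
    rw [← hv1, ← hv2, ← hP0, ← hQ0] at h2
    omega
  · have h2 := exchange_total (P0 := P0) (P2 := P2) (Q0 := Q0) (Q2 := Q2) hX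
    rw [← hv1, ← hv2, ← hP0, ← hQ0] at h2
    rw [ex6_total (arcs a r s b)] at h2
    rw [ex6_total (arcs a u s b)] at htot
    omega

/-- ROW Ex6 (150 lines).  Double exchange: two chains that cross at least twice and do not cross
themselves can be replaced by two chains with the same ends and the same points, with fewer mutual
crossings, and without new crossings with anything else.

Proof.  `P = arcs a r s b`, `Q = arcs a' r' s' b'`.  Pick crossing arcs `A`, `B`
(`Nrm.exists_of_crL_ne`), `P = P0 ++ A :: P2`, `Q = Q0 ++ B :: Q2`.  By `split_ends` (Ex5) for both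
chains the hypotheses of `two_exchanges` (Ex4) hold, so at least one of the two products on its
right is nonzero (as `crL P Q ≥ 2`).
Case 1: the first product is nonzero.  `tail_arcs` (Ex1) gives `u₁, u₁'` with
`arcs a u₁ s' b' = P0 ++ ⟨A.p, B.q⟩ :: Q2`, `arcs a' u₁' s b = Q0 ++ ⟨B.p, A.q⟩ :: P2`; these two chains
cross, so `tail_exchange` (Ex3) applied to them gives `u, u'` with chains `arcs a u s b` (from `a` to
the end `b` of the second one) and `arcs a' u' s' b'`.  Totals: for every `R` the sum of crossings with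
`R` did not increase in both steps (`exchange_le`, Ex3); and
`crL (U'' , U'') + 2 ≤ crL (U', U')`, `crL (U', U') + 2 ≤ crL (U, U) = 2 crL P Q` (`exchange_total`;
`U = P ++ Q`, `crL P P = 0 = crL Q Q`), while `crL (U'', U'') ≥ 2 crL (arcs a u s b) (arcs a' u' s' b')`.
Hence the last number plus `2` is at most `crL P Q`.
Case 2: the second product is nonzero.  Reverse the second chain: `Contr.rv` and `Contr.arcs_rv`,
`Contr.crL_reverse_sw` (or `Nrm.exists_rev`) give a chain from `b'` to `a'` with the same crossings: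
`arcs b' (rv r' s').1 (rv r' s').2 a' = ((Q0 ++ B :: Q2).map sw).reverse =
(Q2.map sw).reverse ++ sw B :: (Q0.map sw).reverse`.  `tail_arcs` for `P` and this chain gives the chains
`P0 ++ ⟨A.p, B.p, A.up⟩ :: (Q0.map sw).reverse` from `a` to `a'` and
`(Q2.map sw).reverse ++ ⟨B.q, A.q, A.up⟩ :: P2` from `b'` to `b` (`(sw B).q = B.p`), which have the same
crossings with everything as the lists in `two_exchanges` (`Contr.crL_reverse_sw`); they cross, so
`tail_exchange` gives a chain from `a` to `b` and a chain from `b'` to `a'`; reverse the latter again.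
The counts are the same as in case 1.  The permutations are composed (`Contr.rv_pts` and
`List.reverse_perm` for the reversed chain); only the points are claimed to be a permutation. -/
theorem double_exchange {L : Type} [LinearOrder L] {a b a' b' : L} {r r' : List (Bool × L)}
    {s s' : Bool} (h1 : (a :: (r.map Prod.snd ++ [b])).Nodup)
    (h2 : (a' :: (r'.map Prod.snd ++ [b'])).Nodup)
    (hP : crL (arcs a r s b) (arcs a r s b) = 0)
    (hQ : crL (arcs a' r' s' b') (arcs a' r' s' b') = 0)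
    (h : 2 ≤ crL (arcs a r s b) (arcs a' r' s' b')) :
    ∃ u t u' t', ((u ++ u').map Prod.snd).Perm ((r ++ r').map Prod.snd) ∧
      (∀ R, crL (arcs a u t b) R + crL (arcs a' u' t' b') R ≤
        crL (arcs a r s b) R + crL (arcs a' r' s' b') R) ∧
      crL (arcs a u t b) (arcs a' u' t' b') + 2 ≤ crL (arcs a r s b) (arcs a' r' s' b') := by
  have hne : crL (arcs a r s b) (arcs a' r' s' b') ≠ 0 := by omega
  obtain ⟨A, hA, B, hB, hX⟩ := Nrm.exists_of_crL_ne hne
  obtain ⟨P0, P2, hP0⟩ := List.append_of_mem hA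
  obtain ⟨Q0, Q2, hQ0⟩ := List.append_of_mem hB
  obtain ⟨e1, e2⟩ := split_ends h1 hP0
  obtain ⟨e3, e4⟩ := split_ends h2 hQ0
  have h2x := two_exchanges hX e1 e2 e3 e4
  rw [← hP0, ← hQ0] at h2x
  by_cases hc : crL (P0 ++ ⟨A.p, B.q, A.up⟩ :: Q2) (Q0 ++ ⟨B.p, A.q, A.up⟩ :: P2) = 0
  swap
  · obtain ⟨u, u', hu, hle, hc2⟩ := ex6_case hP hQ hP0 hQ0 hX hc
    exact ⟨u, s, u', s', hu.map _, hle, hc2⟩
  have hd : crL (P0 ++ ⟨A.p, B.p, A.up⟩ :: Q0) (Q2 ++ ⟨B.q, A.q, A.up⟩ :: P2) ≠ 0 := by omega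
  have hrv := Contr.arcs_rv a' r' s' b'
  have hR : ∀ R, crL (arcs b' (Contr.rv r' s').1 (Contr.rv r' s').2 a') R =
      crL (arcs a' r' s' b') R := fun R => by rw [hrv, Contr.crL_reverse_sw]
  have hQr : arcs b' (Contr.rv r' s').1 (Contr.rv r' s').2 a' =
      (Q2.map Contr.sw).reverse ++ Contr.sw B :: (Q0.map Contr.sw).reverse := by
    rw [hrv, hQ0, List.map_append, List.map_cons, List.reverse_append, List.reverse_cons,
      List.append_assoc, List.singleton_append]
  have hQQ : crL (arcs b' (Contr.rv r' s').1 (Contr.rv r' s').2 a')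
      (arcs b' (Contr.rv r' s').1 (Contr.rv r' s').2 a') = 0 := by
    rw [hR, Nrm.crL_comm, hR]
    exact hQ
  have hX' : X A (Contr.sw B) ≠ 0 := by
    rw [Nrm.X_comm, Contr.X_sw, Nrm.X_comm]
    exact hX
  have hd' : crL (P0 ++ ⟨A.p, (Contr.sw B).q, A.up⟩ :: (Q0.map Contr.sw).reverse)
      ((Q2.map Contr.sw).reverse ++ ⟨(Contr.sw B).p, A.q, A.up⟩ :: P2) ≠ 0 := by
    have k1 : ∀ R, crL (P0 ++ ⟨A.p, (Contr.sw B).q, A.up⟩ :: (Q0.map Contr.sw).reverse) R =
        crL (P0 ++ ⟨A.p, B.p, A.up⟩ :: Q0) R := fun R => by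
      rw [Nrm.crL_append_left, Nrm.crL_cons_left, Contr.crL_reverse_sw, Nrm.crL_append_left,
        Nrm.crL_cons_left _ Q0]
      rfl
    have k2 : ∀ R, crL ((Q2.map Contr.sw).reverse ++ ⟨(Contr.sw B).p, A.q, A.up⟩ :: P2) R =
        crL (Q2 ++ ⟨B.q, A.q, A.up⟩ :: P2) R := fun R => by
      rw [Nrm.crL_append_left, Contr.crL_reverse_sw, Nrm.crL_append_left]
      rfl
    rw [k1, Nrm.crL_comm, k2, Nrm.crL_comm]
    exact hd
  obtain ⟨u, u', hu, hle, hc2⟩ := ex6_case hP hQQ hP0 hQr hX' hd'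
  have hR' : ∀ R, crL (arcs a' (Contr.rv u' (Contr.rv r' s').2).1
      (Contr.rv u' (Contr.rv r' s').2).2 b') R =
      crL (arcs b' u' (Contr.rv r' s').2 a') R := fun R => by
    rw [Contr.arcs_rv, Contr.crL_reverse_sw]
  refine ⟨u, s, (Contr.rv u' (Contr.rv r' s').2).1, (Contr.rv u' (Contr.rv r' s').2).2, ?_, ?_, ?_⟩
  · have hu2 := hu.map Prod.snd
    rw [List.map_append, List.map_append, Contr.rv_pts] at hu2
    rw [List.map_append, List.map_append, Contr.rv_pts]
    exact ((List.reverse_perm _).append_left _).trans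
      (hu2.trans ((List.reverse_perm _).append_left _))
  · intro R
    have := hle R
    rw [hR] at this
    rw [hR']
    exact this
  · rw [Nrm.crL_comm _ (arcs a' r' s' b'), ← hR, Nrm.crL_comm (arcs a u s b), hR',
      Nrm.crL_comm _ (arcs a u s b), Nrm.crL_comm _ (arcs a r s b)]
    exact hc2

end MP881e12
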