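import Pool.Agent.Lib.MP_881e12_lc.Iface

/-!
The assembly.
-/

namespace MP881e12

open MP60f107 Finset Alg

theorem finite_tpl (K N : ℕ) : ∃ c₀ : ℕ, ∀ (adv : List ℕ), adv.length = N → (∀ a ∈ adv, a < K) →
    ∀ (L : Type) [LinearOrder L] (T : Drawing (KNet K) L),
    Normal T → (∀ π π', π ≠ π' → crL (T.path π) (T.path π') ≤ 1) →
    ∃ T' : Drawing (KNet K) ℕ, Normal T' ∧
      (∀ π π', π ≠ π' → crL (T'.path π) (T'.path π') = crL (T.path π) (T.path π')) ∧
      ∃ c ≤ c₀, rowsOf (Computability.encodeNat c) = adv :: tplRows T' := by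
  classical
  have key : ∀ (f : Fin N → Fin K) (A : KE K → KE K → Fin 2), ∃ c : ℕ,
      (∃ T' : Drawing (KNet K) ℕ, Normal T' ∧
        ∀ π π', π ≠ π' → crL (T'.path π) (T'.path π') = (A π π').val) →
      ∃ T' : Drawing (KNet K) ℕ, Normal T' ∧
        (∀ π π', π ≠ π' → crL (T'.path π) (T'.path π') = (A π π').val) ∧
        rowsOf (Computability.encodeNat c) = (List.ofFn fun i => (f i).val) :: tplRows T' := by
    intro f A
    by_cases h : ∃ T' : Drawing (KNet K) ℕ, Normal T' ∧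
        ∀ π π', π ≠ π' → crL (T'.path π) (T'.path π') = (A π π').val
    · obtain ⟨T', h1, h2⟩ := h
      obtain ⟨c, hc⟩ := exists_code ((List.ofFn fun i => (f i).val) :: tplRows T')
      exact ⟨c, fun _ => ⟨T', h1, h2, hc⟩⟩
    · exact ⟨0, fun h' => absurd h' h⟩
  choose c hc using key
  refine ⟨(univ : Finset ((Fin N → Fin K) × (KE K → KE K → Fin 2))).sup fun z => c z.1 z.2,
    fun adv h1 h2 L _ T hT hX => ?_⟩
  subst h1
  obtain ⟨T₁, h3, h4⟩ := exists_nat T hT
  set f : Fin adv.length → Fin K := fun i => ⟨adv[i], h2 _ (List.getElem_mem _)⟩ with hf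
  set A : KE K → KE K → Fin 2 := fun π π' => if h : π = π' then 0 else
    ⟨crL (T.path π) (T.path π'), by have := hX π π' h; omega⟩ with hA
  obtain ⟨T', h5, h6, h7⟩ := hc f A ⟨T₁, h3, fun π π' h => by rw [h4, hA]; simp only [dif_neg h]⟩
  refine ⟨T', h5, fun π π' h => ?_, _, Finset.le_sup (f := fun z => c z.1 z.2)
    (Finset.mem_univ (f, A)), ?_⟩
  · rw [h6 π π' h, hA]; simp only [dif_neg h]
  · rw [h7]
    congr 1
    rw [hf]
    simp

/-- Comparison of weighted sums. -/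
theorem weights_le {ι : Type} [Fintype ι] [DecidableEq ι] (a w : ι → ℝ) (X : ι → ι → ℝ)
    (ha : ∀ i, 0 ≤ a i) (hw : ∀ i, 0 ≤ w i) (hX : ∀ i j, i ≠ j → 0 ≤ X i j ∧ X i j ≤ 1) :
    (∑ i, ∑ j, if i = j then 0 else a i * a j * X i j) ≤
      (∑ i, ∑ j, if i = j then 0 else w i * w j * X i j) +
      (∑ i, |a i - w i|) * (∑ i, a i + ∑ i, w i) := by
  have h1 : (∑ i, |a i - w i|) * (∑ i, a i + ∑ i, w i) =
      ∑ i, ∑ j, (a i * |a j - w j| + |a i - w i| * w j) := by
    simp only [Finset.sum_add_distrib, ← Finset.mul_sum, ← Finset.sum_mul]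
    ring
  rw [h1, ← Finset.sum_add_distrib]
  refine Finset.sum_le_sum fun i _ => ?_
  rw [← Finset.sum_add_distrib]
  refine Finset.sum_le_sum fun j _ => ?_
  have e1 : 0 ≤ a i * |a j - w j| := mul_nonneg (ha i) (abs_nonneg _)
  have e2 : 0 ≤ |a i - w i| * w j := mul_nonneg (abs_nonneg _) (hw j)
  split_ifs with h
  · linarith
  · obtain ⟨h2, h3⟩ := hX i j h
    have e3 : a i * a j - w i * w j ≤ a i * |a j - w j| + |a i - w i| * w j := by
      have e4 : a i * (a j - w j) ≤ a i * |a j - w j| :=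
        mul_le_mul_of_nonneg_left (le_abs_self _) (ha i)
      have e5 : (a i - w i) * w j ≤ |a i - w i| * w j :=
        mul_le_mul_of_nonneg_right (le_abs_self _) (hw j)
      nlinarith
    have e6 : (a i * a j - w i * w j) * X i j ≤ a i * |a j - w j| + |a i - w i| * w j := by
      by_cases h7 : 0 ≤ a i * a j - w i * w j
      · nlinarith
      · rw [not_le] at h7
        nlinarith
    nlinarith

theorem card_cl_le {n : ℕ} (μ ν : Fin n → ℕ) {k : ℕ} {lam : Fin n → ℕ} (hlam : ∀ x, lam x < k)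
    (r s : ℕ) {η : ℝ}
    (h : ∑ i ∈ range k, |((cl μ r ∩ cl lam i).card : ℝ) - ((cl ν s ∩ cl lam i).card : ℝ)| ≤ η) :
    ((cl μ r).card : ℝ) ≤ (cl ν s).card + η := by
  classical
  have key : ∀ B : Finset (Fin n), (B.card : ℝ) = ∑ i ∈ range k, ((B ∩ cl lam i).card : ℝ) := by
    intro B
    have := Finset.card_eq_sum_card_fiberwise (s := B) (t := range k) (f := lam)
      (fun x _ => by simpa using hlam x)
    rw [this]
    push_cast
    refine Finset.sum_congr rfl fun i _ => ?_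
    congr 2
    ext x
    simp [cl]
  rw [key (cl μ r), key (cl ν s)]
  have h1 : ∑ i ∈ range k, ((cl μ r ∩ cl lam i).card : ℝ) ≤ ∑ i ∈ range k,
      (((cl ν s ∩ cl lam i).card : ℝ) +
        |((cl μ r ∩ cl lam i).card : ℝ) - ((cl ν s ∩ cl lam i).card : ℝ)|) :=
    Finset.sum_le_sum fun i _ => by
      have := le_abs_self (((cl μ r ∩ cl lam i).card : ℝ) - ((cl ν s ∩ cl lam i).card : ℝ))
      linarith
  rw [Finset.sum_add_distrib] at h1
  linarith

theorem sum_card_cl_le {n : ℕ} (μ : Fin n → ℕ) (R : ℕ) :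
    ∑ r ∈ range R, ((cl μ r).card : ℝ) ≤ n := by
  classical
  have h : ∑ r ∈ range R, (cl μ r).card ≤ n := by
    have h1 : ∑ r ∈ range R, (cl μ r).card = ((range R).biUnion fun r => cl μ r).card := by
      rw [Finset.card_biUnion]
      intro i _ j _ hij
      rw [Function.onFun, Finset.disjoint_left]
      intro x hx hx'
      simp only [cl, Finset.mem_filter, Finset.mem_univ, true_and] at hx hx'
      exact hij (hx.symm.trans hx')
    rw [h1]
    exact (Finset.card_le_univ _).trans (by simp)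
  exact_mod_cast h

theorem card_KE_le (R : ℕ) : (Fintype.card (KE R) : ℝ) ≤ R ^ 2 := by
  have : Fintype.card (KE R) ≤ Fintype.card (Fin R × Fin R) :=
    Fintype.card_subtype_le _
  rw [Fintype.card_prod, Fintype.card_fin] at this
  have h2 : ((Fintype.card (KE R) : ℕ) : ℝ) ≤ ((R * R : ℕ) : ℝ) := by exact_mod_cast this
  push_cast at h2
  rw [sq]
  exact h2

/-- The main estimate. -/
theorem key_bound (δ : ℝ) (hδ : 0 < δ) (_hδ1 : δ ≤ 1) : ∃ N : ℕ, ∀ n ≥ N, ∀ (G : SimpleGraph (Fin n))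
    [DecidableRel G.Adj], (cnt (choose n (matrixBits G)) : ℝ) ≤ 2 * cr G + δ * n ^ 4 := by
  classical
  obtain ⟨R, n₀, hR0, htpl⟩ := exists_template (δ / 10) (by positivity)
  have hRr : (0 : ℝ) < R := by exact_mod_cast hR0
  have hR1 : (1 : ℝ) ≤ R := by exact_mod_cast hR0
  obtain ⟨m, hm⟩ := exists_nat_gt (60 * (R : ℝ) ^ 3 / δ)
  have hmr : (0 : ℝ) < m := lt_of_le_of_lt (by positivity) hm
  have hm0 : 0 < m := by exact_mod_cast hmr
  obtain ⟨T₀, n₁, hreg⟩ := reg_main (δ / (120 * R ^ 2)) (by positivity)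
  choose c₀ hc₀ using finite_tpl R
  obtain ⟨Q, hQ⟩ := exists_nat_gt (60 * (R ^ 2 * (2 ^ T₀ * m + 1) : ℝ) / δ)
  refine ⟨n₀ + n₁ + Q + m + 2 ^ T₀ + ∑ t ∈ range (T₀ + 1), c₀ (2 ^ t * m) + 1,
    fun n hn G _ => ?_⟩
  have h2T : 0 < 2 ^ T₀ := by positivity
  obtain ⟨t, ht, hR⟩ := hreg n (by omega) G
  have hsum : c₀ (2 ^ t * m) ≤ ∑ t ∈ range (T₀ + 1), c₀ (2 ^ t * m) :=
    Finset.single_le_sum (f := fun t => c₀ (2 ^ t * m)) (fun _ _ => Nat.zero_le _)
      (Finset.mem_range.2 (by omega))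
  set w := matrixBits G
  set l := labT n w t with hl
  have hl1 : ∀ x < n, l.getD x 0 < 2 ^ t := fun x hx => labT_lt n w t hx
  have hlam : ∀ x : Fin n, labF n l x < 2 ^ t := fun x => hl1 _ x.2
  obtain ⟨U, L, _, T, hU, hUs, hT, hX, hS⟩ := htpl n (by omega) G
  obtain ⟨adv, had1, had2, had3, had4⟩ := exists_adv l hm0 hR0 hl1 U hU
  obtain ⟨T', hT', hX', c, hc, hcode⟩ := hc₀ (2 ^ t * m) adv had1 had2 L T hT hX
  have hmem := mem_cands n w (t := t) (m := m) (c := c)
    (length_encodeNat_ge (le_trans (Nat.pow_le_pow_right (by norm_num) ht) (by omega)))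
    (by omega) (by omega)
  rw [hcode] at hmem
  have hcand : candR n w (labT n w t) m (adv :: tplRows T') =
      cand n w R (advL n l m adv) (tplRows T') := by
    simp [candR, tplRows, hl]
  rw [hcand] at hmem
  set μ := advL n l m adv with hμ
  obtain ⟨hv, hcnt⟩ := blow_up G μ (length_advL n l m adv) had3 T' hT'
  have hbest := (choose_spec G).2.2 _ hmem hv
  -- numbers
  have hcntR : (cnt (choose n w) : ℝ) ≤
      (∑ π : KE R, ∑ π' : KE R, if π = π' then (0 : ℝ) else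
        (eC G (cl (labF n μ) π.1.1) (cl (labF n μ) π.1.2) : ℝ) *
        (eC G (cl (labF n μ) π'.1.1) (cl (labF n μ) π'.1.2) : ℝ) *
          (crL (T.path π) (T.path π') : ℝ)) +
      ∑ a ∈ range R, (((cl (labF n μ) a).card : ℝ) * n) ^ 2 := by
    have h1 : (cnt (choose n w) : ℝ) ≤ (cnt (cand n w R μ (tplRows T')) : ℝ) := by
      exact_mod_cast hbest
    refine h1.trans ((Nat.cast_le.2 hcnt).trans (le_of_eq ?_))
    push_cast
    congr 1
    refine Finset.sum_congr rfl fun π _ => Finset.sum_congr rfl fun π' _ => ?_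
    split_ifs with h
    · simp
    · rw [hX' π π' h]
  set a : KE R → ℝ := fun π =>
    (eC G (cl (labF n μ) π.1.1) (cl (labF n μ) π.1.2) : ℝ) with ha
  set b : KE R → ℝ := fun π => (eC G (cl U π.1.1) (cl U π.1.2) : ℝ) with hb
  have hcmp := weights_le a b (fun π π' => (crL (T.path π) (T.path π') : ℝ))
    (fun π => by positivity) (fun π => by positivity)
    (fun π π' h => ⟨by positivity, by exact_mod_cast hX π π' h⟩)
  have hn1 : (1 : ℝ) ≤ n := by exact_mod_cast (by omega : 1 ≤ n)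
  have hnQ : (Q : ℝ) ≤ n := by exact_mod_cast (by omega : Q ≤ n)
  have hkm : ((2 ^ t : ℕ) : ℝ) * m ≤ 2 ^ T₀ * m := by
    push_cast
    gcongr
    norm_num
  have hQ' : 60 * (R ^ 2 * (2 ^ T₀ * m + 1) : ℝ) < δ * n := by
    rw [div_lt_iff₀ hδ] at hQ
    have hq1 : (Q : ℝ) * δ ≤ n * δ := mul_le_mul_of_nonneg_right hnQ hδ.le
    linarith only [hQ, hq1]
  rw [div_lt_iff₀ hδ] at hm
  set η : ℝ := R * n / m + ((2 ^ t : ℕ) : ℝ) * m with hη
  have hη2 : R ^ 2 * η ≤ δ / 30 * n := by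
    have e1 : (R : ℝ) ^ 2 * (R * n / m) ≤ δ / 60 * n := by
      rw [mul_div_assoc', div_le_iff₀ hmr]
      have hq1 := mul_le_mul_of_nonneg_left hm.le (le_trans zero_le_one hn1)
      linarith only [hq1]
    have e2 : (R : ℝ) ^ 2 * (((2 ^ t : ℕ) : ℝ) * m) ≤ δ / 60 * n := by
      have : (R : ℝ) ^ 2 * (((2 ^ t : ℕ) : ℝ) * m) ≤ R ^ 2 * (2 ^ T₀ * m) := by gcongr
      have hq1 := sq_nonneg (R : ℝ)
      linarith only [hq1, this, hQ']
    rw [hη, mul_add]
    linarith
  have hη0 : 0 ≤ η := by positivity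
  have hη3 : η ≤ δ / 30 * n := by
    have : (1 : ℝ) ≤ (R : ℝ) ^ 2 := one_le_pow₀ hR1
    have hq1 := mul_le_mul_of_nonneg_right this hη0
    linarith only [hq1, hη2]
  have hD : ∀ π, |a π - b π| ≤ 4 * (δ / (120 * R ^ 2)) * n ^ 2 + 2 * η * n := by
    intro π
    refine eC_adv G hlam hR _ _ _ _ ?_ ?_
    · exact had4 _ π.1.1.2
    · exact had4 _ π.1.2.2
  set Δ := ∑ π : KE R, |a π - b π| with hΔ
  have hΔ1 : Δ ≤ δ / 5 * n ^ 2 := by
    have e1 : Δ ≤ (Fintype.card (KE R) : ℝ) * (4 * (δ / (120 * R ^ 2)) * n ^ 2 + 2 * η * n) := by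
      rw [hΔ]
      refine (Finset.sum_le_sum fun π _ => hD π).trans (le_of_eq ?_)
      rw [Finset.sum_const, Finset.card_univ, nsmul_eq_mul]
    have e2 : (Fintype.card (KE R) : ℝ) * (4 * (δ / (120 * R ^ 2)) * n ^ 2 + 2 * η * n) ≤
        R ^ 2 * (4 * (δ / (120 * R ^ 2)) * n ^ 2 + 2 * η * n) :=
      mul_le_mul_of_nonneg_right (card_KE_le R) (by positivity)
    have e3 : (R : ℝ) ^ 2 * (4 * (δ / (120 * R ^ 2)) * n ^ 2 + 2 * η * n) =
        δ / 30 * n ^ 2 + 2 * (R ^ 2 * η) * n := by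
      field_simp
      ring
    have e4 : 2 * (R ^ 2 * η) * n ≤ 2 * (δ / 30 * n) * n := by
      gcongr
    have e5 : Δ ≤ δ / 30 * n ^ 2 + 2 * (R ^ 2 * η) * n := e1.trans (e2.trans (le_of_eq e3))
    have e6 : (0 : ℝ) ≤ δ * n ^ 2 := mul_nonneg hδ.le (sq_nonneg _)
    linarith only [e4, e5, e6]
  have hΔ0 : 0 ≤ Δ := Finset.sum_nonneg fun _ _ => abs_nonneg _
  have hA : ∑ π, a π ≤ (n : ℝ) ^ 2 := by
    have := sum_eC_le G (labF n μ) R
    have h2 : ((∑ π : KE R, eC G (cl (labF n μ) π.1.1)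
      (cl (labF n μ) π.1.2) : ℕ) : ℝ) ≤ ((n ^ 2 : ℕ) : ℝ) := by exact_mod_cast this
    push_cast at h2
    exact h2
  have hB : ∑ π, b π ≤ (n : ℝ) ^ 2 := by
    have := sum_eC_le G U R
    have h2 : ((∑ π : KE R, eC G (cl U π.1.1)
      (cl U π.1.2) : ℕ) : ℝ) ≤ ((n ^ 2 : ℕ) : ℝ) := by exact_mod_cast this
    push_cast at h2
    exact h2
  have hW : (∑ π, ∑ π', if π = π' then (0 : ℝ) else b π * b π' * (crL (T.path π) (T.path π') : ℝ))
      ≤ 2 * cr G + δ / 10 * n ^ 4 := by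
    refine le_trans (le_of_eq ?_) hS
    push_cast
    rfl
  have hsq : ∑ r ∈ range R, (((cl (labF n μ) r).card : ℝ) * n) ^ 2 ≤ δ / 5 * n ^ 4 := by
    have e0 : ∀ r ∈ range R, ((cl (labF n μ) r).card : ℝ) ≤ δ / 5 * n := by
      intro r hr
      have h1 := card_cl_le (labF n μ) U hlam r r (had4 r (Finset.mem_range.1 hr))
      have h2 := hUs r
      have h3 : (1 : ℝ) ≤ δ / 60 * n := by
        have : (1 : ℝ) ≤ R ^ 2 * (2 ^ T₀ * m + 1) := by
          have e1 : (1 : ℝ) ≤ (R : ℝ) ^ 2 := one_le_pow₀ hR1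
          have e2 : (0 : ℝ) ≤ 2 ^ T₀ * m := by positivity
          exact one_le_mul_of_one_le_of_one_le e1 (by linarith only [e2])
        linarith
      linarith
    have e1 : ∑ r ∈ range R, (((cl (labF n μ) r).card : ℝ) * n) ^ 2 ≤
        ∑ r ∈ range R, ((cl (labF n μ) r).card : ℝ) * (δ / 5 * n * n ^ 2) := by
      refine Finset.sum_le_sum fun r hr => ?_
      have h1 := e0 r hr
      have h2 : ((cl (labF n μ) r).card : ℝ) * ((cl (labF n μ) r).card : ℝ) ≤
          ((cl (labF n μ) r).card : ℝ) * (δ / 5 * n) :=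
        mul_le_mul_of_nonneg_left h1 (by positivity)
      have h3 := mul_le_mul_of_nonneg_right h2 (sq_nonneg (n : ℝ))
      linarith only [h3]
    rw [← Finset.sum_mul] at e1
    have e2 : (∑ r ∈ range R, ((cl (labF n μ) r).card : ℝ)) * (δ / 5 * n * n ^ 2) ≤
        n * (δ / 5 * n * n ^ 2) :=
      mul_le_mul_of_nonneg_right (sum_card_cl_le _ _) (by positivity)
    linarith only [e1, e2]
  have hfin : Δ * (∑ π, a π + ∑ π, b π) ≤ 2 * δ / 5 * n ^ 4 := by
    have e1 : ∑ π, a π + ∑ π, b π ≤ 2 * n ^ 2 := by linarith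
    have e2 : Δ * (∑ π, a π + ∑ π, b π) ≤ (δ / 5 * n ^ 2) * (2 * n ^ 2) := by
      refine mul_le_mul hΔ1 e1 ?_ (by positivity)
      exact add_nonneg (Finset.sum_nonneg fun _ _ => by positivity)
        (Finset.sum_nonneg fun _ _ => by positivity)
    linarith only [e2]
  have hpos : (0 : ℝ) ≤ δ * n ^ 4 := by positivity
  linarith

/-- Twice the number of crossings of the output exceeds twice the crossing number by at most this
number. -/
noncomputable def err (n : ℕ) : ℝ := by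
  classical
  exact (univ : Finset (SimpleGraph (Fin n))).sup' univ_nonempty
    (fun G => max 0 (((cnt (choose n (matrixBits G)) : ℝ) - 2 * cr G) / 2))

theorem le_err {n : ℕ} (G : SimpleGraph (Fin n)) [inst : DecidableRel G.Adj] :
    ((cnt (choose n (matrixBits G)) : ℝ) - 2 * cr G) / 2 ≤ err n := by
  have hi : inst = fun a b => Classical.propDecidable (G.Adj a b) := Subsingleton.elim _ _
  subst hi
  classical
  unfold err
  exact le_trans (le_max_right 0 _) (Finset.le_sup'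
    (fun G : SimpleGraph (Fin n) => max 0 (((cnt (choose n (matrixBits G)) : ℝ) - 2 * cr G) / 2))
    (Finset.mem_univ G))

theorem tendsto_err : Filter.Tendsto (fun n => err n / (n : ℝ) ^ 4) Filter.atTop (nhds 0) := by
  classical
  rw [Metric.tendsto_atTop]
  intro δ hδ
  obtain ⟨N, hN⟩ := key_bound (min δ 1) (by positivity) (min_le_right _ _)
  refine ⟨N + 1, fun n hn => ?_⟩
  have hn0 : (0 : ℝ) < n := by exact_mod_cast (by omega : 0 < n)
  have h0 : 0 ≤ err n := by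
    unfold err
    exact le_trans (le_max_left _ _) (Finset.le_sup'
      (fun G : SimpleGraph (Fin n) => max 0 (((cnt (choose n (matrixBits G)) : ℝ) - 2 * cr G) / 2))
      (Finset.mem_univ ⊤))
  have h1 : err n ≤ min δ 1 / 2 * n ^ 4 := by
    unfold err
    refine Finset.sup'_le _ _ fun G _ => max_le (by positivity) ?_
    have := hN n (by omega) G
    linarith
  rw [Real.dist_eq, sub_zero, abs_of_nonneg (by positivity), div_lt_iff₀ (by positivity)]
  have h2 : min δ 1 / 2 * (n : ℝ) ^ 4 < δ * n ^ 4 := by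
    have : min δ 1 / 2 < δ := by
      have := min_le_left δ 1
      linarith
    exact mul_lt_mul_of_pos_right this (by positivity)
  linarith

/-- The main theorem. -/
theorem main_theorem : ∃ (f : List Bool → List Bool) (ε : ℕ → ℝ), N68a2faeb.IsPolyTime f ∧
    Filter.Tendsto (fun n => ε n / (n : ℝ) ^ 4) Filter.atTop (nhds 0) ∧
    ∀ (n : ℕ) (G : SimpleGraph (Fin n)) [DecidableRel G.Adj], ∃ (o : Output) (D : PolyDrawing G),
      f (matrixBits G) = N487b59b3.bitEncode o ∧ Describes o D ∧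
      (D.crossings : ℝ) ≤ cr G + ε n := by
  refine ⟨alg, err, isPolyTime_alg, tendsto_err, fun n G _ => ?_⟩
  obtain ⟨h1, ⟨μ, h2, h3⟩, -⟩ := choose_spec G
  obtain ⟨D, h4, h5⟩ := cand_poly G μ _ h2 h3 h1
  refine ⟨_, D, ?_, h4, ?_⟩
  · unfold alg
    rw [nOf_matrixBits]
  · have h6 := le_err G
    have h7 : (2 * D.crossings : ℝ) ≤ cnt (choose n (matrixBits G)) := by exact_mod_cast h5
    linarith

end MP881e12
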