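import Pool.Agent.Lib.MP_881e12_lc.Alg

namespace MP881e12

open Pool.Agent.PT Alg

variable {α β γ : Type} [Enc α] [Enc β] [Enc γ]

/-- ROW Fp1 (80 lines, four theorems).  Sums, division, parity.

Framework: Lib/MP_17a834_lc/Typed.lean (`FP f` = `f` is computable in polynomial time on coded data,
natural numbers in unary).
`FP_sum`: `l.sum = (l.flatMap fun k => List.replicate k ()).length` (induction), so `FP.flatMap`,
`FP.units`, `FP.length`, `FP.congr`.  `FP_mapSum`: `FP_sum` with `FP.map`.
`FP_qdiv`: `qdiv` unfolds to length, filter, range, `decide (_ ≤ _)`, `mul`, `add`: `FP.length`,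
`FP.filter`, `FP.range`, `FP.le`, `FP.mul`, `FP.succ`, `FP.snd`, `hg.comp FP.fst`, ...
`FP_odd`: `FP.foldlE` (or `FP.foldl`) with Boolean state, the size bound is `3` (`esz_bool`). -/
theorem FP_sum {f : α → List ℕ} (hf : FP f) : FP (fun a => (f a).sum) := by
  refine (FP.length (FP.flatMap (g := fun _ (k : ℕ) => List.replicate k ()) hf
    (FP.units FP.snd))).congr (fun a => ?_)
  induction f a with
  | nil => rfl
  | cons k l ih => rw [List.sum_cons, ih, List.flatMap_cons, List.length_append,
      List.length_replicate]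

theorem FP_mapSum {l : α → List β} {g : α → β → ℕ} (hl : FP l)
    (hg : FP (fun p : α × β => g p.1 p.2)) : FP (fun a => ((l a).map (g a)).sum) :=
  FP_sum (FP.map hl hg)

theorem FP_qdiv {f g : α → ℕ} (hf : FP f) (hg : FP g) : FP (fun a => qdiv (f a) (g a)) := by
  unfold qdiv
  exact FP.length (FP.filter (p := fun a k => decide ((k + 1) * g a ≤ f a)) (FP.range hf)
    (FP.le (FP.mul (FP.succ FP.snd) (hg.comp FP.fst)) (hf.comp FP.fst)))

theorem FP_odd {f : α → ℕ} (hf : FP f) : FP (fun a => odd (f a)) := by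
  unfold odd
  refine FP.foldl (step := fun (b : Bool) (_ : ℕ) => !b) (FP.const false) (FP.range hf)
    (FP.not FP.fst) 3 ?_
  intro a l1 l2 _
  have h := esz_bool (l1.foldl (fun (b : Bool) (_ : ℕ) => !b) false)
  simpa using h

end MP881e12
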