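import Pool.Agent.Lib.MP_881e12_lc.Fp1

namespace MP881e12

open Pool.Agent.PT Alg

variable {α β γ : Type} [Enc α] [Enc β] [Enc γ]

/-- The arcs of a chain as a map over a range. -/
theorem Fp10_arcsN (x : ℕ) (r : List (Bool × ℕ)) (s : Bool) (y : ℕ) :
    arcsN x r s y = (List.range (r.length + 1)).map (fun j =>
      (((x :: r.map (fun b => b.2)).getD j 0, (r.map (fun b => b.2) ++ [y]).getD j 0),
        (r.map (fun b => b.1) ++ [s]).getD j true)) := by
  induction r generalizing x with
  | nil => simp [arcsN]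
  | cons b r ih =>
    obtain ⟨t, p⟩ := b
    rw [List.length_cons, List.range_succ_eq_map, List.map_cons, List.map_map]
    show ((x, p), t) :: arcsN p r s y = _
    rw [ih]
    congr 1

theorem Fp10_btw {x y z : α → ℕ} (hx : FP x) (hy : FP y) (hz : FP z) :
    FP (fun a => btwN (x a) (y a) (z a)) :=
  ((hx.lt hz).and (hz.lt hy)).or ((hy.lt hz).and (hz.lt hx))

theorem Fp10_ots {x y z : α → ℕ} (hx : FP x) (hy : FP y) (hz : FP z) :
    FP (fun a => otsN (x a) (y a) (z a)) :=
  ((hz.lt hx).and (hz.lt hy)).or ((hx.lt hz).and (hy.lt hz))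

/-- ROW Fp10 (130 lines, four theorems).  Arcs and crossings.

`FP_arcsN`: `arcsN a r s b` is the result of a fold: start `(a, [])`, step
`fun st x => (x.2, ((st.1, x.2), x.1) :: st.2)` over `r`, at the end
`(((st.1, b), s) :: st.2).reverse` (prove by induction with an accumulator).  `FP.foldl`; size bound: after
reading a prefix `l1` of `r a` the state has size `≤ 2 * esz (l1) + esz (a) + ...`: each step adds at most
`esz st.1 + esz x.2 + esz x.1 + 3`, and `esz st.1` is the size of a point of the list or of `a`; a crude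
bound is `(number of steps) * (2 * esz (r a) + esz a₀ + 5) + esz a₀ + 3`.
`FP_xN`: `FP.ite`, `FP.and`, `FP.or`, `FP.lt` (`btwN`, `otsN` unfold), `FP.eq` for `A.2 == B.2`
(`Bool` beq: `decide (A.2 = B.2)`, use `FP.congr`), constants.  `FP_crN`: `FP_mapSum` twice.
`FP_recArcs`: `FP_arcsN` with `FP.getD`. -/
theorem FP_arcsN {x : α → ℕ} {r : α → List (Bool × ℕ)} {s : α → Bool} {y : α → ℕ} (hx : FP x)
    (hr : FP r) (hs : FP s) (hy : FP y) : FP (fun a => arcsN (x a) (r a) (s a) (y a)) := by
  have h1 : FP (fun a => (r a).map (fun b => b.2)) :=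
    FP.map (g := fun _ b => b.2) hr (FP.snd' FP.snd)
  have h2 : FP (fun a => (r a).map (fun b => b.1)) :=
    FP.map (g := fun _ b => b.1) hr (FP.fst' FP.snd)
  have h3 : FP (fun a => x a :: (r a).map (fun b => b.2)) := hx.cons h1
  have h4 : FP (fun a => (r a).map (fun b => b.2) ++ [y a]) := h1.append (hy.cons (FP.const []))
  have h5 : FP (fun a => (r a).map (fun b => b.1) ++ [s a]) := h2.append (hs.cons (FP.const []))
  refine (FP.map (l := fun a => List.range ((r a).length + 1))
    (g := fun a j => (((x a :: (r a).map (fun b => b.2)).getD j 0,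
      ((r a).map (fun b => b.2) ++ [y a]).getD j 0),
      ((r a).map (fun b => b.1) ++ [s a]).getD j true)) (FP.range hr.length.succ) ?_).congr
    (fun a => Fp10_arcsN _ _ _ _)
  exact ((FP.getD (h3.comp FP.fst) FP.snd (FP.const 0)).pair
    (FP.getD (h4.comp FP.fst) FP.snd (FP.const 0))).pair
      (FP.getD (h5.comp FP.fst) FP.snd (FP.const true))

theorem FP_xN {A B : α → ArcN} (hA : FP A) (hB : FP B) : FP (fun a => xN (A a) (B a)) := by
  have a1 : FP (fun a => (A a).1.1) := hA.fst'.fst'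
  have a2 : FP (fun a => (A a).1.2) := hA.fst'.snd'
  have b1 : FP (fun a => (B a).1.1) := hB.fst'.fst'
  have b2 : FP (fun a => (B a).1.2) := hB.fst'.snd'
  have h1 : FP (fun a => ((A a).2 == (B a).2)) :=
    (FP.eq hA.snd' hB.snd').congr (fun a => by cases (A a).2 <;> cases (B a).2 <;> rfl)
  exact FP.ite (h1.and (((Fp10_btw a1 a2 b1).and (Fp10_ots a1 a2 b2)).or
    ((Fp10_ots a1 a2 b1).and (Fp10_btw a1 a2 b2)))) (FP.const 1) (FP.const 0)

theorem FP_crN {P Q : α → List ArcN} (hP : FP P) (hQ : FP Q) :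
    FP (fun a => crN (P a) (Q a)) :=
  FP_mapSum (l := P) (g := fun a A => ((Q a).map fun B => xN A B).sum) hP
    (FP_mapSum (l := fun p : α × ArcN => Q p.1) (g := fun p B => xN p.2 B) (hQ.comp FP.fst)
      (FP_xN (FP.snd.comp FP.fst) FP.snd))

theorem FP_recArcs {c : α → Cand} {r : α → Rec} (hc : FP c) (hr : FP r) :
    FP (fun a => recArcs (c a) (r a)) :=
  FP_arcsN (FP.getD hc.fst' hr.fst'.fst' (FP.const 0)) hr.snd'.fst' hr.snd'.snd'
    (FP.getD hc.fst' hr.fst'.snd' (FP.const 0))

end MP881e12
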