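import Pool.Agent.Lib.MP_881e12_lc.Fp10

namespace MP881e12

open Pool.Agent.PT Alg

variable {α β γ : Type} [Enc α] [Enc β] [Enc γ]

/-- ROW Fp11 (100 lines, four theorems).  Points, validity, number of crossings.  Unfold; `FP.append`,
`FP.flatMap`, `FP.map`, `FP.all`, `FP.range`, `FP.length`, `FP.not`, `FP.eq`, `FP.getD`, `FP.and`,
`FP_mapSum`, `FP.iteP`, `FP_crN`, `FP_recArcs`, `FP.const`. -/
theorem FP_pts {c : α → Cand} (hc : FP c) : FP (fun a => pts (c a)) := by
  unfold pts
  exact FP.append hc.fst' (FP.flatMap (g := fun _ (r : Rec) => r.2.1.map Prod.snd) hc.snd'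
    (FP.map (g := fun _ (q : Bool × ℕ) => q.2) (FP.snd.snd'.fst') (FP.snd.snd')))

theorem FP_nodupB {l : α → List ℕ} (hl : FP l) : FP (fun a => nodupB (l a)) := by
  unfold nodupB
  refine FP.all (p := fun a i => (List.range i).all fun j =>
    !decide ((l a).getD i 0 = (l a).getD j 0)) (FP.range hl.length) ?_
  refine FP.all (p := fun (q : α × ℕ) j => !decide ((l q.1).getD q.2 0 = (l q.1).getD j 0))
    (FP.range FP.snd) ?_
  exact FP.not (FP.eq
    (FP.getD (hl.comp FP.fst.fst') FP.fst.snd' (FP.const 0))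
    (FP.getD (hl.comp FP.fst.fst') FP.snd (FP.const 0)))

theorem FP_validB {c : α → Cand} (hc : FP c) : FP (fun a => validB (c a)) := by
  unfold validB
  have h1 : FP (fun q : α × Rec => recArcs (c q.1) q.2) :=
    FP_recArcs (hc.comp FP.fst) FP.snd
  exact FP.and (FP_nodupB (FP_pts hc)) (FP.all
    (p := fun a (r : Rec) => decide (crN (recArcs (c a) r) (recArcs (c a) r) = 0)) hc.snd'
    (FP.eq (FP_crN h1 h1) (FP.const 0)))

theorem FP_cnt {c : α → Cand} (hc : FP c) : FP (fun a => cnt (c a)) := by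
  unfold cnt
  refine FP_mapSum (g := fun a i => ((List.range (c a).2.length).map fun j => if i = j then 0 else
    crN (recArcs (c a) ((c a).2.getD i ((0, 0), ([], true))))
      (recArcs (c a) ((c a).2.getD j ((0, 0), ([], true))))).sum) (FP.range hc.snd'.length) ?_
  refine FP_mapSum (g := fun (q : α × ℕ) j => if q.2 = j then 0 else
    crN (recArcs (c q.1) ((c q.1).2.getD q.2 ((0, 0), ([], true))))
      (recArcs (c q.1) ((c q.1).2.getD j ((0, 0), ([], true)))))
    (FP.range (FP.length (hc.comp FP.fst).snd')) ?_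
  have hc' : FP (fun q : (α × ℕ) × ℕ => c q.1.1) := hc.comp FP.fst.fst'
  refine FP.iteP (c := fun q : (α × ℕ) × ℕ => q.1.2 = q.2) (FP.eq FP.fst.snd' FP.snd)
    (FP.const 0) ?_
  exact FP_crN
    (FP_recArcs hc' (FP.getD hc'.snd' FP.fst.snd' (FP.const _)))
    (FP_recArcs hc' (FP.getD hc'.snd' FP.snd (FP.const _)))

end MP881e12
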