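import Pool.Agent.Lib.MP_881e12_lc.Fp1

namespace MP881e12

open Pool.Agent.PT Alg

variable {α β γ : Type} [Enc α] [Enc β] [Enc γ]

private theorem Fp7_size (st : (ℕ × List ℕ) × List (List ℕ)) (b : Bool) :
    esz (tokStep st b) ≤ esz st + 2 := by
  unfold tokStep
  split_ifs with h1 h2
  · simp only [esz_pair, esz_nat]; omega
  · simp only [esz_pair, esz_cons, esz_reverse, esz_nat, esz_nil, h2]; omega
  · simp only [esz_pair, esz_cons, esz_nat]; omega

private theorem Fp7_fold (l : List Bool) : ∀ st : (ℕ × List ℕ) × List (List ℕ),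
    esz (l.foldl tokStep st) ≤ esz st + 2 * l.length := by
  induction l with
  | nil => intro st; simp
  | cons b l ih =>
    intro st
    rw [List.foldl_cons, List.length_cons]
    have h1 := ih (tokStep st b)
    have h2 := Fp7_size st b
    omega

private theorem Fp7_step :
    FP (fun p : ((ℕ × List ℕ) × List (List ℕ)) × Bool => tokStep p.1 p.2) := by
  unfold tokStep
  have h1 : FP (fun p : ((ℕ × List ℕ) × List (List ℕ)) × Bool => p.1) := FP.fst
  have h2 := h1.fst'.fst'
  have h3 := h1.fst'.snd'
  have h4 := h1.snd'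
  exact FP.ite FP.snd (((FP.succ h2).pair h3).pair h4)
    (FP.iteP (FP.eq h2 (FP.const 0)) ((FP.const _).pair (FP.cons (FP.reverse h3) h4))
      (((FP.const 0).pair (FP.cons (FP.pred h2) h3)).pair h4))

/-- Reading the rows. -/
theorem FP_rowsOf {f : α → List Bool} (hf : FP f) : FP (fun a => rowsOf (f a)) := by
  obtain ⟨P, hP⟩ := hf.size
  have h := FP.foldl (α := α) (step := tokStep)
    (init := fun _ => (((0 : ℕ), ([] : List ℕ)), ([] : List (List ℕ)))) (FP.const _) hf
    Fp7_step (2 * P + 5) (by
      intro a l1 l2 h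
      have h1 := Fp7_fold l1 ((0, []), [])
      have h2 : l1.length ≤ P.eval (esz a) := by
        refine le_trans ?_ (hP a)
        refine le_trans ?_ (length_le_esz _)
        rw [h]; simp
      have h0 : esz (((0 : ℕ), ([] : List ℕ)), ([] : List (List ℕ))) = 5 := by
        simp only [esz_pair, esz_nat, esz_nil]
      rw [h0] at h1
      simp only [Polynomial.eval_add, Polynomial.eval_mul, Polynomial.eval_ofNat]
      omega)
  exact h.snd'.reverse

end MP881e12
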