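import Pool.Agent.Lib.MP_881e12_lc.Fp2

namespace MP881e12

open Pool.Agent.PT Alg

variable {α β γ : Type} [Enc α] [Enc β] [Enc γ]

private theorem Fp8_Mn {n : α → ℕ} (hn : FP n) : FP (fun a => Mn (n a)) := by
  unfold Mn
  exact ((FP.const 2).mul (hn.mul hn)).add (FP.const 4)

private theorem Fp8_Cn {n : α → ℕ} (hn : FP n) : FP (fun a => Cn (n a)) := by
  unfold Cn
  exact (hn.mul hn).add (FP.const 2)

/-- Points of the copies. -/
theorem FP_ptN {n o p : α → ℕ} {g : α → Bool} (hn : FP n) (ho : FP o) (hp : FP p) (hg : FP g) :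
    FP (fun a => ptN (n a) (o a) (p a) (g a)) := by
  unfold ptN
  have h1 := (hp.mul (Fp8_Mn hn)).add (Fp8_Cn hn)
  have h2 := (FP.const (α := α) 1).add ho
  exact FP.ite hg (h1.add h2) (h1.sub h2)

/-- Pages. -/
theorem FP_pgN {s : α → Bool} {j : α → ℕ} (hs : FP s) (hj : FP j) :
    FP (fun a => pgN (s a) (j a)) := by
  unfold pgN
  exact FP.ite (FP_odd hj) hs.not hs

/-- Inner points of a copy. -/
theorem FP_lay {n o : α → ℕ} {s : α → Bool} {ps : α → List ℕ} (hn : FP n) (ho : FP o) (hs : FP s)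
    (hps : FP ps) : FP (fun a => lay (n a) (o a) (s a) (ps a)) := by
  unfold lay
  exact FP.map (g := fun a j => (pgN (s a) j, ptN (n a) (o a) ((ps a).getD j 0) (!odd j)))
    hps.length.range ((FP_pgN (hs.comp FP.fst) FP.snd).pair (FP_ptN (hn.comp FP.fst)
      (ho.comp FP.fst) (FP.getD (hps.comp FP.fst) FP.snd (FP.const 0)) (FP_odd FP.snd).not))

/-- The record of an edge. -/
theorem FP_recRow {n : α → ℕ} {e : α → ℕ × ℕ} {row : α → List ℕ} (hn : FP n) (he : FP e)
    (hrow : FP row) : FP (fun a => recRow (n a) (e a) (row a)) := by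
  unfold recRow
  have h1 : FP (fun a => decide ((row a).headD 1 = 1)) :=
    FP.eq (FP.headD hrow (FP.const 1)) (FP.const 1)
  exact he.pair ((FP_lay hn ((he.fst'.mul hn).add he.snd') h1 hrow.tail).pair
    (FP_pgN h1 hrow.tail.length))

end MP881e12
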