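import Pool.Agent.Lib.MP_881e12_lc.Fp6
import Pool.Agent.Lib.MP_881e12_lc.Fp8

namespace MP881e12

open Pool.Agent.PT Alg

variable {α β γ : Type} [Enc α] [Enc β] [Enc γ]

/-- ROW Fp9 (100 lines, five theorems).  Candidates.  Unfold; `FP.iteP` (or `FP.ite`) with `FP.eq`,
`FP.and`, `FP.or`, `FP.lt`, `FP.flatMap`, `FP.filter`, `FP.map`, `FP.range`, `FP.pair`, `FP.headD`,
`FP.tail`, `FP.getD`, `FP.length`.  Note that `if μ.getD .. = μ.getD .. then [] else ..` is an `ite` on
a decidable proposition: `FP.iteP`. -/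
theorem FP_recOf {n K : α → ℕ} {μ : α → List ℕ} {rows : α → List (List ℕ)} {e : α → ℕ × ℕ}
    (hn : FP n) (hK : FP K) (hμ : FP μ) (hrows : FP rows) (he : FP e) :
    FP (fun a => recOf (n a) (K a) (μ a) (rows a) (e a)) := by
  have h1 : FP (fun a => (μ a).getD (e a).1 0) := FP.getD hμ (FP.fst' he) (FP.const 0)
  have h2 : FP (fun a => (μ a).getD (e a).2 0) := FP.getD hμ (FP.snd' he) (FP.const 0)
  exact FP_recRow hn he (FP.iteP (FP.eq h1 h2) (FP.const [])
    (FP.getD hrows (FP.add (FP.const 1) (FP.add (FP.mul h1 hK) h2)) (FP.const [])))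

theorem FP_dirE {n : α → ℕ} {w : α → List Bool} {μ : α → List ℕ} {u v : α → ℕ} (hn : FP n)
    (hw : FP w) (hμ : FP μ) (hu : FP u) (hv : FP v) :
    FP (fun a => dirE (n a) (w a) (μ a) (u a) (v a)) := by
  have h1 : FP (fun a => (μ a).getD (u a) 0) := FP.getD hμ hu (FP.const 0)
  have h2 : FP (fun a => (μ a).getD (v a) 0) := FP.getD hμ hv (FP.const 0)
  exact FP.and (FP_ent hn hw hu hv) (FP.or (FP.lt h1 h2) (FP.and (FP.eq h1 h2) (FP.lt hu hv)))

theorem FP_pairs {n : α → ℕ} {w : α → List Bool} {μ : α → List ℕ} (hn : FP n) (hw : FP w)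
    (hμ : FP μ) : FP (fun a => pairs (n a) (w a) (μ a)) := by
  refine FP.flatMap (g := fun a u => ((List.range (n a)).filter fun v =>
    dirE (n a) (w a) (μ a) u v).map fun v => (u, v)) (FP.range hn) ?_
  refine FP.map (l := fun p : α × ℕ => (List.range (n p.1)).filter fun v =>
    dirE (n p.1) (w p.1) (μ p.1) p.2 v) (g := fun p v => (p.2, v)) ?_ ?_
  · exact FP.filter (l := fun p : α × ℕ => List.range (n p.1))
      (p := fun p v => dirE (n p.1) (w p.1) (μ p.1) p.2 v) (FP.range (hn.comp FP.fst))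
      (FP_dirE ((hn.comp FP.fst).comp FP.fst) ((hw.comp FP.fst).comp FP.fst)
        ((hμ.comp FP.fst).comp FP.fst) (FP.snd.comp FP.fst) FP.snd)
  · exact FP.pair (FP.snd.comp FP.fst) FP.snd

theorem FP_cand {n K : α → ℕ} {w : α → List Bool} {μ : α → List ℕ} {rows : α → List (List ℕ)}
    (hn : FP n) (hw : FP w) (hK : FP K) (hμ : FP μ) (hrows : FP rows) :
    FP (fun a => cand (n a) (w a) (K a) (μ a) (rows a)) := by
  have hM : FP (fun a => Mn (n a)) :=
    FP.add (FP.mul (FP.const 2) (FP.mul hn hn)) (FP.const 4)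
  have hC : FP (fun a => Cn (n a)) := FP.add (FP.mul hn hn) (FP.const 2)
  refine FP.pair ?_ ?_
  · exact FP.map (l := fun a => List.range (n a))
      (g := fun a x => ((rows a).headD []).getD ((μ a).getD x 0) 0 * Mn (n a) + Cn (n a) + x)
      (FP.range hn)
      (FP.add (FP.add (FP.mul (FP.getD ((FP.headD hrows (FP.const [])).comp FP.fst)
        (FP.getD (hμ.comp FP.fst) FP.snd (FP.const 0)) (FP.const 0)) (hM.comp FP.fst))
        (hC.comp FP.fst)) FP.snd)
  · exact FP.map (l := fun a => pairs (n a) (w a) (μ a))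
      (g := fun a e => recOf (n a) (K a) (μ a) (rows a) e) (FP_pairs hn hw hμ)
      (FP_recOf (hn.comp FP.fst) (hK.comp FP.fst) (hμ.comp FP.fst) (hrows.comp FP.fst) FP.snd)

theorem FP_candR {n m : α → ℕ} {w : α → List Bool} {l : α → List ℕ} {R : α → List (List ℕ)}
    (hn : FP n) (hw : FP w) (hl : FP l) (hm : FP m) (hR : FP R) :
    FP (fun a => candR (n a) (w a) (l a) (m a) (R a)) := by
  exact FP_cand hn hw (FP.length (FP.headD (FP.tail hR) (FP.const [])))
    (FP_advL hn hl hm (FP.headD hR (FP.const []))) (FP.tail hR)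

end MP881e12
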