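import Pool.Agent.Lib.MP_881e12_lc.Fp5
import Pool.Agent.Lib.MP_881e12_lc.Fp7
import Pool.Agent.Lib.MP_881e12_lc.Fp9
import Pool.Agent.Lib.MP_881e12_lc.Fp11

namespace MP881e12

open Pool.Agent.PT Alg

variable {α β γ : Type} [Enc α] [Enc β] [Enc γ]

private theorem Fp12_mem (step : Cand → Cand → Cand)
    (hstep : ∀ b c, step b c = c ∨ step b c = b) (l : List Cand) : ∀ b : Cand,
    l.foldl step b = b ∨ l.foldl step b ∈ l := by
  induction l with
  | nil => intro b; exact Or.inl rfl
  | cons c l ih =>
    intro b
    rw [List.foldl_cons]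
    rcases ih (step b c) with h | h
    · rw [h]
      rcases hstep b c with h' | h'
      · rw [h']
        exact Or.inr (by simp)
      · rw [h']
        exact Or.inl rfl
    · exact Or.inr (List.mem_cons_of_mem _ h)

/-- ROW Fp12 (100 lines, three theorems).  All candidates and the choice.

`FP_cands`: `FP.flatMap`, `FP_levels`, `FP.range`, `FP.map`, `FP_candR`, `FP_rowsOf`, `FP.encodeNat`.
`FP_triv`: `FP_cand` (`List.replicate n 0` as a map over `range`).
`FP_choose`: `FP.foldlE` with list `cands (n a) (w a)`, start `triv (n a) (w a)`, step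
`fun _ b c => if validB c && decide (cnt c < cnt b) then c else b` (`FP.ite`, `FP.and`, `FP.lt`).  Size
bound: the state is the start or a member of the list, so its size is at most
`esz (triv ..) + esz (cands ..)` (`esz_mem`), polynomial by `FP.size` of `FP_triv`, `FP_cands`. -/
theorem FP_cands {n : α → ℕ} {w : α → List Bool} (hn : FP n) (hw : FP w) :
    FP (fun a => cands (n a) (w a)) := by
  have h1 : FP (fun q : ((α × List ℕ) × ℕ) × ℕ =>
      candR (n q.1.1.1) (w q.1.1.1) q.1.1.2 q.1.2 (rowsOf (Computability.encodeNat q.2))) :=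
    FP_candR (hn.comp (FP.fst.comp (FP.fst.comp FP.fst)))
      (hw.comp (FP.fst.comp (FP.fst.comp FP.fst))) (FP.snd.comp (FP.fst.comp FP.fst))
      (FP.snd.comp FP.fst) (FP_rowsOf (FP.encodeNat FP.snd))
  have h2 : FP (fun q : (α × List ℕ) × ℕ => (List.range (n q.1.1)).map fun c =>
      candR (n q.1.1) (w q.1.1) q.1.2 q.2 (rowsOf (Computability.encodeNat c))) :=
    FP.map (g := fun (q : (α × List ℕ) × ℕ) c =>
      candR (n q.1.1) (w q.1.1) q.1.2 q.2 (rowsOf (Computability.encodeNat c)))
      (FP.range (hn.comp (FP.fst.comp FP.fst))) h1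
  have h3 : FP (fun q : α × List ℕ => (List.range (n q.1)).flatMap fun m =>
      (List.range (n q.1)).map fun c =>
        candR (n q.1) (w q.1) q.2 m (rowsOf (Computability.encodeNat c))) :=
    FP.flatMap (g := fun (q : α × List ℕ) m => (List.range (n q.1)).map fun c =>
      candR (n q.1) (w q.1) q.2 m (rowsOf (Computability.encodeNat c)))
      (FP.range (hn.comp FP.fst)) h2
  exact FP.flatMap (g := fun (a : α) (l : List ℕ) => (List.range (n a)).flatMap fun m =>
      (List.range (n a)).map fun c => candR (n a) (w a) l m (rowsOf (Computability.encodeNat c)))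
    (FP_levels hn hw) h3

theorem FP_triv {n : α → ℕ} {w : α → List Bool} (hn : FP n) (hw : FP w) :
    FP (fun a => triv (n a) (w a)) := by
  have h1 : FP (fun a => List.replicate (n a) 0) :=
    (FP.map (g := fun (_ : α) (_ : ℕ) => 0) (FP.range hn) (FP.const 0)).congr (fun a => by
      rw [List.map_const', List.length_range])
  exact FP_cand hn hw (FP.const 0) h1 (FP.const [])

theorem FP_choose {n : α → ℕ} {w : α → List Bool} (hn : FP n) (hw : FP w) :
    FP (fun a => choose (n a) (w a)) := by
  obtain ⟨P1, hP1⟩ := (FP_cands hn hw).size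
  obtain ⟨P2, hP2⟩ := (FP_triv hn hw).size
  refine FP.foldlE (step := fun (_ : α) b c => if validB c && decide (cnt c < cnt b) then c else b)
    (init := fun a => triv (n a) (w a)) (l := fun a => cands (n a) (w a))
    (FP_triv hn hw) (FP_cands hn hw) ?_ (P1 + P2) ?_
  · exact FP.ite (FP.and (FP_validB FP.snd)
      (FP.lt (FP_cnt FP.snd) (FP_cnt (FP.snd.comp FP.fst)))) FP.snd (FP.snd.comp FP.fst)
  · intro a l1 l2 h
    have h1 := hP1 a
    have h2 := hP2 a
    rw [Polynomial.eval_add]
    rcases Fp12_mem (fun b c => if validB c && decide (cnt c < cnt b) then c else b)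
      (fun b c => by
        by_cases h : (validB c && decide (cnt c < cnt b)) = true
        · exact Or.inl (if_pos h)
        · exact Or.inr (if_neg h)) l1 (triv (n a) (w a)) with h3 | h3
    · rw [h3]
      omega
    · have h4 := esz_mem (l := cands (n a) (w a)) (by rw [h]; exact List.mem_append_left _ h3)
      omega

end MP881e12
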