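import Pool.Agent.Lib.MP_881e12_lc.Fp11

namespace MP881e12

open Pool.Agent.PT Alg

variable {α β γ : Type} [Enc α] [Enc β] [Enc γ]

/-- The bends and the last point, from the arcs. -/
theorem Fp13_bends (c : Cand) (x : ℕ) (r : List (Bool × ℕ)) (s : Bool) (y : ℕ) :
    bendsN c x r s y ++ [ptO c y] = (arcsN x r s y).flatMap (fun A =>
      [pkN (pts c).length (rkN c A.1.1) (rkN c A.1.2) A.2, ptO c A.1.2]) := by
  induction r generalizing x with
  | nil => rfl
  | cons b r ih =>
    obtain ⟨t, p⟩ := b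
    show pkN (pts c).length (rkN c x) (rkN c p) t :: ptO c p :: (bendsN c p r s y ++ [ptO c y]) = _
    rw [ih]
    rfl

theorem Fp13_bends' (c : Cand) (x : ℕ) (r : List (Bool × ℕ)) (s : Bool) (y : ℕ) :
    bendsN c x r s y = ((arcsN x r s y).flatMap (fun A =>
      [pkN (pts c).length (rkN c A.1.1) (rkN c A.1.2) A.2, ptO c A.1.2])).reverse.tail.reverse := by
  rw [← Fp13_bends, List.reverse_append, List.reverse_singleton, List.singleton_append,
    List.tail_cons, List.reverse_reverse]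

/-- ROW Fp13 (150 lines, five theorems).  The output.

`rkN`, `pkN`, `ptO`: unfold, `FP.length`, `FP.filter`, `FP.lt`, `FP.add`, `FP.mul`, `FP.sub`, `FP.pair`,
`FP.ite`, `FP.const`.
`FP_bendsN`: a fold over `r` with environment `c`: start `(x, [])`, step
`fun c st z => (z.2, ptO c z.2 :: pkN .. (rkN c st.1) (rkN c z.2) z.1 :: st.2)`, at the end
`(pkN .. (rkN c st.1) (rkN c y) s :: st.2).reverse` (induction).  Size bound for `FP.foldlE`: the first
component is `x` or a point of `r`; each step adds at most the size of one peak and one point, and these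
sizes are bounded by a polynomial in the size of the input: with `N = (pts c).length` and all ranks
`≤ N` (`List.length_filter_le`) a peak has size `≤ 2 * (2 N) + 2 * (2 N² + 1 + N) * N + 10`.
`FP_toOut`: `FP.map`, `FP.pair`, `FP_bendsN`, `FP.getD`. -/
theorem FP_rkN {c : α → Cand} {x : α → ℕ} (hc : FP c) (hx : FP x) :
    FP (fun a => rkN (c a) (x a)) :=
  FP.length (FP.filter (l := fun a => pts (c a)) (p := fun a y => decide (y < x a)) (FP_pts hc)
    (FP.lt FP.snd (hx.comp FP.fst)))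

theorem FP_pkN {N x y : α → ℕ} {s : α → Bool} (hN : FP N) (hx : FP x) (hy : FP y) (hs : FP s) :
    FP (fun a => pkN (N a) (x a) (y a) (s a)) := by
  have h1 : FP (fun a => (x a - y a) + (y a - x a)) := (hx.sub hy).add (hy.sub hx)
  have h2 : FP (fun a => (2 * (N a * N a) + 1 + ((x a - y a) + (y a - x a))) *
      ((x a - y a) + (y a - x a))) :=
    ((((FP.const 2).mul (hN.mul hN)).succ).add h1).mul h1
  exact (hx.add hy).pair (FP.ite hs (h2.pair (FP.const 0)) ((FP.const 0).pair h2))

theorem FP_ptO {c : α → Cand} {x : α → ℕ} (hc : FP c) (hx : FP x) :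
    FP (fun a => ptO (c a) (x a)) :=
  ((FP.const 2).mul (FP_rkN hc hx)).pair (FP.const (0, 0))

theorem FP_bendsN {c : α → Cand} {x : α → ℕ} {r : α → List (Bool × ℕ)} {s : α → Bool} {y : α → ℕ}
    (hc : FP c) (hx : FP x) (hr : FP r) (hs : FP s) (hy : FP y) :
    FP (fun a => bendsN (c a) (x a) (r a) (s a) (y a)) := by
  have hc' : FP (fun p : α × ArcN => c p.1) := hc.comp FP.fst
  have h1 : FP (fun p : α × ArcN => [pkN (pts (c p.1)).length (rkN (c p.1) p.2.1.1)
      (rkN (c p.1) p.2.1.2) p.2.2, ptO (c p.1) p.2.1.2]) := by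
    have e1 : FP (fun p : α × ArcN => p.2.1.1) := FP.snd.fst'.fst'
    have e2 : FP (fun p : α × ArcN => p.2.1.2) := FP.snd.fst'.snd'
    exact (FP_pkN (FP_pts hc').length (FP_rkN hc' e1) (FP_rkN hc' e2) FP.snd.snd').cons
      ((FP_ptO hc' e2).cons (FP.const []))
  have h2 := FP.flatMap (l := fun a => arcsN (x a) (r a) (s a) (y a))
    (g := fun a A => [pkN (pts (c a)).length (rkN (c a) A.1.1) (rkN (c a) A.1.2) A.2,
      ptO (c a) A.1.2]) (FP_arcsN hx hr hs hy) h1
  exact (h2.reverse.tail.reverse).congr (fun a => Fp13_bends' _ _ _ _ _)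

theorem FP_toOut {c : α → Cand} (hc : FP c) : FP (fun a => toOut (c a)) := by
  have hc' : FP (fun p : α × Rec => c p.1) := hc.comp FP.fst
  have h1 : FP (fun a => (c a).1.map (ptO (c a))) :=
    FP.map (g := fun a x => ptO (c a) x) hc.fst' (FP_ptO (hc.comp FP.fst) FP.snd)
  have h2 : FP (fun p : α × Rec => (p.2.1, bendsN (c p.1) ((c p.1).1.getD p.2.1.1 0) p.2.2.1
      p.2.2.2 ((c p.1).1.getD p.2.1.2 0))) :=
    FP.snd.fst'.pair (FP_bendsN hc' (FP.getD hc'.fst' FP.snd.fst'.fst' (FP.const 0))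
      FP.snd.snd'.fst' FP.snd.snd'.snd' (FP.getD hc'.fst' FP.snd.fst'.snd' (FP.const 0)))
  exact h1.pair (FP.map (g := fun a r => (r.1, bendsN (c a) ((c a).1.getD r.1.1 0) r.2.1 r.2.2
    ((c a).1.getD r.1.2 0))) hc.snd' h2)

end MP881e12
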