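import Pool.Agent.Lib.MP_881e12_lc.Fp12
import Pool.Agent.Lib.MP_881e12_lc.Fp13

namespace MP881e12

open Pool.Agent.PT Alg

variable {α β γ : Type} [Enc α] [Enc β] [Enc γ]

theorem Fp14_pt : FP (fun c : ℕ × (ℕ × ℕ) => N487b59b3.bitEncode c) :=
  (FP.bitEncodePair (f := fun c : ℕ × (ℕ × ℕ) => c.1) (g := fun c : ℕ × (ℕ × ℕ) => (c.2.1, c.2.2))
    (FP.bitEncodeNat FP.fst)
    (FP.bitEncodePair (f := fun c : ℕ × (ℕ × ℕ) => c.2.1) (g := fun c : ℕ × (ℕ × ℕ) => c.2.2)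
      (FP.bitEncodeNat (FP.fst.comp FP.snd)) (FP.bitEncodeNat (FP.snd.comp FP.snd)))).congr
    (fun _ => rfl)

theorem Fp14_pts {f : α → List (ℕ × (ℕ × ℕ))} (hf : FP f) : FP (fun a => N487b59b3.bitEncode (f a)) :=
  (FP.bitEncodeList (h := fun c : ℕ × (ℕ × ℕ) => c) Fp14_pt hf).congr
    (fun a => by rw [List.map_id'])

theorem Fp14_rec : FP (fun r : (ℕ × ℕ) × List (ℕ × (ℕ × ℕ)) => N487b59b3.bitEncode r) :=
  (FP.bitEncodePair (f := fun r : (ℕ × ℕ) × List (ℕ × (ℕ × ℕ)) => (r.1.1, r.1.2))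
    (g := fun r : (ℕ × ℕ) × List (ℕ × (ℕ × ℕ)) => r.2)
    (FP.bitEncodePair (f := fun r : (ℕ × ℕ) × List (ℕ × (ℕ × ℕ)) => r.1.1)
      (g := fun r : (ℕ × ℕ) × List (ℕ × (ℕ × ℕ)) => r.1.2)
      (FP.bitEncodeNat (FP.fst.comp FP.fst)) (FP.bitEncodeNat (FP.snd.comp FP.fst)))
    (Fp14_pts FP.snd)).congr (fun _ => rfl)

theorem Fp14_out : FP (fun o : Output => N487b59b3.bitEncode o) :=
  (FP.bitEncodePair (f := fun o : Output => o.1) (g := fun o : Output => o.2)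
    (Fp14_pts FP.fst)
    ((FP.bitEncodeList (h := fun c : (ℕ × ℕ) × List (ℕ × (ℕ × ℕ)) => c) Fp14_rec FP.snd).congr
      (fun a => by rw [List.map_id']))).congr (fun _ => rfl)

/-- ROW Fp14.  The algorithm runs in polynomial time. -/
theorem isPolyTime_alg_proof : N68a2faeb.IsPolyTime alg := by
  refine isPolyTime_of_FP ?_
  exact Fp14_out.comp (FP_toOut (FP_choose (FP_nOf FP.id) FP.id))

end MP881e12
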