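import Pool.Agent.Lib.MP_881e12_lc.Fp1

namespace MP881e12

open Pool.Agent.PT Alg

variable {α β γ : Type} [Enc α] [Enc β] [Enc γ]

/-- ROW Fp2 (60 lines, three theorems).  Entries, order, class sizes.

Unfold the definitions (Alg.lean) and use `FP.getD`, `FP.add`, `FP.mul`, `FP.const`, `FP.length`,
`FP.filter`, `FP.range`, `FP.le`, `FP.pred`, `FP.succ`, `FP.eq` (for `decide (_ = _)`).  Inside a filter
over `range` the input is a pair `(a, x)`: parameters of `a` are `hn.comp FP.fst`, the variable is
`FP.snd`. -/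
theorem FP_ent {n : α → ℕ} {w : α → List Bool} {x y : α → ℕ} (hn : FP n) (hw : FP w) (hx : FP x)
    (hy : FP y) : FP (fun a => ent (n a) (w a) (x a) (y a)) := by
  unfold ent
  exact FP.getD hw ((hx.mul hn).add hy) (FP.const false)

theorem FP_nOf {w : α → List Bool} (hw : FP w) : FP (fun a => nOf (w a)) := by
  unfold nOf
  refine FP.pred (FP.length (FP.filter (FP.range (FP.succ (FP.length hw))) ?_))
  exact FP.le (FP.snd.mul FP.snd) (FP.length (hw.comp FP.fst))

theorem FP_csz {n : α → ℕ} {l : α → List ℕ} {i : α → ℕ} (hn : FP n) (hl : FP l) (hi : FP i) :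
    FP (fun a => csz (n a) (l a) (i a)) := by
  unfold csz
  refine FP.length (FP.filter (FP.range hn) ?_)
  exact FP.eq (FP.getD (hl.comp FP.fst) FP.snd (FP.const 0)) (hi.comp FP.fst)

end MP881e12
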