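import Pool.Agent.Lib.MP_881e12_lc.Fp2

namespace MP881e12

open Pool.Agent.PT Alg

variable {α β γ : Type} [Enc α] [Enc β] [Enc γ]

/-- ROW Fp3 (60 lines, two theorems).  Numbers of neighbours, energy.

As in Fp2, with `FP.and`, `FP_mapSum` twice (the input of the inner sum is `((a, z), x)`), `FP.ite`,
`FP_qdiv`, `FP_csz`. -/
theorem FP_nbc {n : α → ℕ} {w : α → List Bool} {l : α → List ℕ} {z i : α → ℕ} (hn : FP n)
    (hw : FP w) (hl : FP l) (hz : FP z) (hi : FP i) :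
    FP (fun a => nbc (n a) (w a) (l a) (z a) (i a)) := by
  unfold nbc
  exact FP.length (FP.filter
    (p := fun a x => ent (n a) (w a) (z a) x && decide ((l a).getD x 0 = i a)) (FP.range hn)
    (FP.and (FP_ent (hn.comp FP.fst) (hw.comp FP.fst) (hz.comp FP.fst) FP.snd)
      (FP.eq (FP.getD (hl.comp FP.fst) FP.snd (FP.const 0)) (hi.comp FP.fst))))

theorem FP_enL {n : α → ℕ} {w : α → List Bool} {l : α → List ℕ} (hn : FP n) (hw : FP w)
    (hl : FP l) : FP (fun a => enL (n a) (w a) (l a)) := by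
  unfold enL
  have h1 : FP (fun q : (α × ℕ) × ℕ => n q.1.1) := (hn.comp FP.fst).comp FP.fst
  have h2 : FP (fun q : (α × ℕ) × ℕ => w q.1.1) := (hw.comp FP.fst).comp FP.fst
  have h3 : FP (fun q : (α × ℕ) × ℕ => l q.1.1) := (hl.comp FP.fst).comp FP.fst
  have h4 : FP (fun q : (α × ℕ) × ℕ => q.1.2) := FP.snd.comp FP.fst
  have h5 : FP (fun q : (α × ℕ) × ℕ => q.2) := FP.snd
  have h6 : FP (fun q : (α × ℕ) × ℕ => (l q.1.1).getD q.2 0) := FP.getD h3 h5 (FP.const 0)
  refine FP_mapSum (g := fun a z => ((List.range (n a)).map fun x => if ent (n a) (w a) z x then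
    qdiv (n a * nbc (n a) (w a) (l a) z ((l a).getD x 0)) (csz (n a) (l a) ((l a).getD x 0))
      else 0).sum) (FP.range hn) ?_
  refine FP_mapSum (l := fun p : α × ℕ => List.range (n p.1))
    (g := fun (p : α × ℕ) (x : ℕ) => if ent (n p.1) (w p.1) p.2 x then
    qdiv (n p.1 * nbc (n p.1) (w p.1) (l p.1) p.2 ((l p.1).getD x 0))
      (csz (n p.1) (l p.1) ((l p.1).getD x 0)) else 0) (FP.range (hn.comp FP.fst)) ?_
  exact FP.ite (FP_ent h1 h2 h4 h5) (FP_qdiv (FP.mul h1 (FP_nbc h1 h2 h3 h4 h6))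
    (FP_csz h1 h3 h6)) (FP.const 0)

end MP881e12
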