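import Pool.Agent.Lib.MP_881e12_lc.Fp3

namespace MP881e12

open Pool.Agent.PT Alg

variable {α β γ : Type} [Enc α] [Enc β] [Enc γ]

theorem Fp4_sel_le (c : ℕ → ℕ → Prop) [∀ b y, Decidable (c b y)] (N : ℕ) (l : List ℕ) :
    ∀ init : ℕ, init ≤ N → (∀ y ∈ l, y ≤ N) →
      l.foldl (fun b y => if c b y then y else b) init ≤ N := by
  induction l with
  | nil => intro init h _; exact h
  | cons a l ih =>
    intro init h hl
    rw [List.foldl_cons]
    refine ih _ ?_ (fun y hy => hl y (List.mem_cons_of_mem _ hy))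
    split_ifs
    · exact hl a List.mem_cons_self
    · exact h

/-- ROW Fp4 (100 lines, three theorems).  Refinement and the best vertex.

`FP_refL`: `FP.map`, `FP.range`, `FP.add`, `FP.mul`, `FP.const`, `FP.getD`, `FP.ite`, `FP_ent`.
`FP_best`: `FP.foldlE` with step `fun a b y => if enL .. (refL .. b) < enL .. (refL .. y) then y else b`
(`FP.iteP`, `FP.lt`, `FP_enL`, `FP_refL`), start `0`, list `range (n a)`.  Size bound: the state is
always `0` or an element of the list read so far, hence `≤ n a`, and `esz k = 2 k + 1` (`esz_nat`);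
`hn.size` bounds `n a` by a polynomial.  `FP_stepL`: `FP_refL` with `FP_best`. -/
theorem FP_refL {n : α → ℕ} {w : α → List Bool} {l : α → List ℕ} {y : α → ℕ} (hn : FP n)
    (hw : FP w) (hl : FP l) (hy : FP y) : FP (fun a => refL (n a) (w a) (l a) (y a)) :=
  FP.map (l := fun a => List.range (n a))
    (g := fun a x => 2 * (l a).getD x 0 + (if ent (n a) (w a) (y a) x then 1 else 0))
    hn.range
    (FP.add (FP.mul (FP.const 2) (FP.getD (hl.comp FP.fst) FP.snd (FP.const 0)))
      (FP.ite (FP_ent (hn.comp FP.fst) (hw.comp FP.fst) (hy.comp FP.fst) FP.snd)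
        (FP.const 1) (FP.const 0)))

theorem FP_best {n : α → ℕ} {w : α → List Bool} {l : α → List ℕ} (hn : FP n) (hw : FP w)
    (hl : FP l) : FP (fun a => best (n a) (w a) (l a)) := by
  obtain ⟨P, hP⟩ := hn.size
  have hN : FP (fun p : (α × ℕ) × ℕ => n p.1.1) := hn.comp (FP.fst.comp FP.fst)
  have hW : FP (fun p : (α × ℕ) × ℕ => w p.1.1) := hw.comp (FP.fst.comp FP.fst)
  have hL : FP (fun p : (α × ℕ) × ℕ => l p.1.1) := hl.comp (FP.fst.comp FP.fst)
  have hB : FP (fun p : (α × ℕ) × ℕ => p.1.2) := FP.snd.comp FP.fst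
  have hY : FP (fun p : (α × ℕ) × ℕ => p.2) := FP.snd
  refine FP.foldlE
    (step := fun a b y => if enL (n a) (w a) (refL (n a) (w a) (l a) b) <
      enL (n a) (w a) (refL (n a) (w a) (l a) y) then y else b)
    (init := fun _ => 0) (l := fun a => List.range (n a)) (FP.const 0) hn.range
    (FP.iteP (c := fun p : (α × ℕ) × ℕ =>
        enL (n p.1.1) (w p.1.1) (refL (n p.1.1) (w p.1.1) (l p.1.1) p.1.2) <
        enL (n p.1.1) (w p.1.1) (refL (n p.1.1) (w p.1.1) (l p.1.1) p.2))
      (FP.lt (FP_enL hN hW (FP_refL hN hW hL hB)) (FP_enL hN hW (FP_refL hN hW hL hY))) hY hB)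
    P ?_
  intro a l1 l2 h
  have h1 : l1.foldl (fun b y => if enL (n a) (w a) (refL (n a) (w a) (l a) b) <
      enL (n a) (w a) (refL (n a) (w a) (l a) y) then y else b) 0 ≤ n a := by
    refine Fp4_sel_le (fun b y => enL (n a) (w a) (refL (n a) (w a) (l a) b) <
      enL (n a) (w a) (refL (n a) (w a) (l a) y)) (n a) l1 0 (Nat.zero_le _) ?_
    intro y hy
    have h2 : y ∈ List.range (n a) := by
      rw [h]
      exact List.mem_append_left _ hy
    exact (List.mem_range.1 h2).le
  have h3 := hP a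
  rw [esz_nat] at h3 ⊢
  omega

theorem FP_stepL {n : α → ℕ} {w : α → List Bool} {l : α → List ℕ} (hn : FP n) (hw : FP w)
    (hl : FP l) : FP (fun a => stepL (n a) (w a) (l a)) :=
  FP_refL hn hw hl (FP_best hn hw hl)

end MP881e12
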