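import Pool.Agent.Lib.MP_881e12_lc.Fp4

namespace MP881e12

open Pool.Agent.PT Alg

variable {α β γ : Type} [Enc α] [Enc β] [Enc γ]

theorem Fp5_pos (p : PosNum) :
    2 ^ (Computability.encodePosNum p).length ≤ 2 * (p : ℕ) := by
  induction p with
  | one => simp [Computability.encodePosNum]
  | bit1 p ih =>
    rw [Computability.encodePosNum, List.length_cons, pow_succ, PosNum.cast_bit1]
    omega
  | bit0 p ih =>
    rw [Computability.encodePosNum, List.length_cons, pow_succ, PosNum.cast_bit0]
    omega

theorem Fp5_pow (n : ℕ) : 2 ^ (Computability.encodeNat n).length ≤ 2 * n + 1 := by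
  unfold Computability.encodeNat
  have h := Num.to_of_nat n
  revert h
  cases (n : Num) with
  | zero =>
    intro _
    rw [Computability.encodeNum, List.length_nil, pow_zero]
    omega
  | pos p =>
    intro h
    rw [Num.cast_pos] at h
    rw [Computability.encodeNum]
    have := Fp5_pos p
    omega

theorem Fp5_esz {B : ℕ} (l : List β) (h : ∀ x ∈ l, esz x ≤ B) : esz l ≤ l.length * (B + 1) + 1 := by
  induction l with
  | nil => simp [esz_nil]
  | cons x l ih =>
    rw [esz_cons, List.length_cons, add_mul]
    have h1 := h x (by simp)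
    have h2 := ih (fun y hy => h y (by simp [hy]))
    omega

/-- the states of the fold -/
theorem Fp5_state (n : ℕ) (w : List Bool) (bs : List Bool) :
    ((bs.foldl (fun acc _ => stepL n w (acc.headD (List.replicate n 0)) :: acc)
      [List.replicate n 0]).length = bs.length + 1) ∧
    ∀ l ∈ bs.foldl (fun acc _ => stepL n w (acc.headD (List.replicate n 0)) :: acc)
      [List.replicate n 0], l.length = n ∧ ∀ x ∈ l, x < 2 ^ bs.length := by
  induction bs using List.reverseRecOn with
  | nil =>
    refine ⟨rfl, fun l hl => ?_⟩
    rw [List.foldl_nil, List.mem_singleton] at hl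
    rw [hl]
    refine ⟨List.length_replicate, fun x hx => ?_⟩
    rw [List.eq_of_mem_replicate hx]
    exact Nat.two_pow_pos _
  | append_singleton bs b ih =>
    rw [List.foldl_append, List.foldl_cons, List.foldl_nil]
    generalize bs.foldl (fun acc _ => stepL n w (acc.headD (List.replicate n 0)) :: acc)
      [List.replicate n 0] = S at ih ⊢
    have hlen : (bs ++ [b]).length = bs.length + 1 := by simp
    rw [hlen, List.length_cons, ih.1]
    refine ⟨rfl, fun l hl => ?_⟩
    rcases List.mem_cons.1 hl with h | h
    · have hhead : S.headD (List.replicate n 0) ∈ S := by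
        cases S with
        | nil => simp at ih
        | cons a S => simp
      have h1 := ih.2 _ hhead
      rw [h]
      unfold stepL refL
      refine ⟨by simp, fun x hx => ?_⟩
      rw [List.mem_map] at hx
      obtain ⟨y, -, rfl⟩ := hx
      have h2 : (S.headD (List.replicate n 0)).getD y 0 < 2 ^ bs.length := by
        rw [List.getD_eq_getElem?_getD]
        by_cases hy : y < (S.headD (List.replicate n 0)).length
        · rw [List.getElem?_eq_getElem hy, Option.getD_some]
          exact h1.2 _ (List.getElem_mem hy)
        · rw [List.getElem?_eq_none (by omega), Option.getD_none]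
          exact Nat.two_pow_pos _
      rw [pow_succ]
      split_ifs <;> omega
    · have h1 := ih.2 l h
      refine ⟨h1.1, fun x hx => (h1.2 x hx).trans ?_⟩
      rw [pow_succ]
      have := Nat.two_pow_pos bs.length
      omega

/-- ROW Fp5 (150 lines).  All levels.

`FP.foldlE` over the list `Computability.encodeNat (n a)` (`FP.encodeNat`, Bits.lean) with the step
`fun a acc _ => stepL (n a) (w a) (acc.headD (List.replicate (n a) 0)) :: acc` (`FP.cons`, `FP_stepL`,
`FP.headD`; `FP (fun a => List.replicate (n a) 0)`: as `(List.range (n a)).map fun _ => 0`) and the start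
`[List.replicate (n a) 0]`.
Size bound.  After reading `t` bits the state is a list of `t + 1` label lists, the one of level `j ≤ t` has
length `n` and entries `< 2 ^ j` (prove by induction: `refL` has length `n` and doubles the bound).  So
its size is at most `(t + 1) * (n * (2 * 2 ^ t + 2) + 2) + 1` or so (`esz_cons`, `esz_nat`: write a lemma
`esz l ≤ l.length * (2 * B + 2) + 1` for lists of naturals `≤ B`, and the same for lists of lists).
Finally `t ≤ (encodeNat n).length ≤ n` (`length_encodeNat_le`) and `2 ^ (encodeNat n).length ≤ 2 * n + 1`: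
prove this by `Computability.encodeNat = encodeNum` of the cast and induction on `PosNum`
(`encodePosNum (bit0 p) = false :: encodePosNum p` etc., `(encodePosNum p).length` bits,
`2 ^ length ≤ 2 * p`).  The polynomial in `esz a` comes from `hn.size`. -/
theorem FP_levels {n : α → ℕ} {w : α → List Bool} (hn : FP n) (hw : FP w) :
    FP (fun a => levels (n a) (w a)) := by
  obtain ⟨P, hP⟩ := hn.size
  have hrep : FP (fun a => List.replicate (n a) 0) := by
    refine (FP.map (g := fun (_ : α) (_ : ℕ) => (0 : ℕ)) (FP.range hn) (FP.const 0)).congr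
      fun a => ?_
    rw [List.map_const', List.length_range]
  have hn' : FP (fun p : (α × List (List ℕ)) × Bool => n p.1.1) := hn.comp (FP.fst.comp FP.fst)
  have hw' : FP (fun p : (α × List (List ℕ)) × Bool => w p.1.1) := hw.comp (FP.fst.comp FP.fst)
  have hr' : FP (fun p : (α × List (List ℕ)) × Bool => List.replicate (n p.1.1) 0) :=
    hrep.comp (FP.fst.comp FP.fst)
  have hacc : FP (fun p : (α × List (List ℕ)) × Bool => p.1.2) := FP.snd.comp FP.fst
  have hstep : FP (fun p : (α × List (List ℕ)) × Bool =>
      stepL (n p.1.1) (w p.1.1) (p.1.2.headD (List.replicate (n p.1.1) 0)) :: p.1.2) :=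
    FP.cons (FP_stepL hn' hw' (FP.headD hacc hr')) hacc
  refine FP.foldlE (step := fun a acc _ => stepL (n a) (w a)
    (acc.headD (List.replicate (n a) 0)) :: acc)
    (FP.cons hrep (FP.const [])) (FP.encodeNat hn) hstep
    ((P + 1) * ((P * (4 * P + 4) + 1) + 1) + 1) ?_
  intro a l1 l2 h
  have h1 := Fp5_state (n a) (w a) l1
  have h2 : l1.length ≤ (Computability.encodeNat (n a)).length := by
    rw [h, List.length_append]
    omega
  have h3 : l1.length ≤ n a := h2.trans (length_encodeNat_le _)
  have h4 : 2 ^ l1.length ≤ 2 * n a + 1 :=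
    (Nat.pow_le_pow_right (by omega) h2).trans (Fp5_pow _)
  have h5 := hP a
  rw [esz_nat] at h5
  have h6 : n a ≤ P.eval (esz a) := by omega
  have h7 : ∀ l ∈ l1.foldl (fun acc _ => stepL (n a) (w a)
      (acc.headD (List.replicate (n a) 0)) :: acc) [List.replicate (n a) 0],
      esz l ≤ n a * (4 * n a + 4) + 1 := by
    intro l hl
    obtain ⟨h8, h9⟩ := h1.2 l hl
    have h10 := Fp5_esz (B := 4 * n a + 3) l (fun x hx => by
      rw [esz_nat]
      have := h9 x hx
      omega)
    rw [h8] at h10
    exact h10
  have h8 := Fp5_esz _ h7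
  rw [h1.1] at h8
  refine h8.trans ?_
  simp only [Polynomial.eval_add, Polynomial.eval_mul, Polynomial.eval_ofNat,
    Polynomial.eval_one]
  gcongr
  omega

end MP881e12
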