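import Pool.Agent.Lib.MP_881e12_lc.Fp2

namespace MP881e12

open Pool.Agent.PT Alg

variable {α β γ : Type} [Enc α] [Enc β] [Enc γ]

/-- ROW Fp6 (60 lines, two theorems).  Ranks and advice.  Unfold; `FP.length`, `FP.filter`, `FP.range`,
`FP.eq`, `FP.getD`, `FP.map`, `FP.add`, `FP.sub`, `FP.mul`, `FP_qdiv`. -/
theorem FP_rkC {l : α → List ℕ} {x : α → ℕ} (hl : FP l) (hx : FP x) :
    FP (fun a => rkC (l a) (x a)) := by
  unfold rkC
  refine FP.length (FP.filter (p := fun a y => decide ((l a).getD y 0 = (l a).getD (x a) 0))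
    (FP.range hx) ?_)
  exact FP.eq (FP.getD (hl.comp FP.fst) FP.snd (FP.const 0))
    (FP.getD (hl.comp FP.fst) (hx.comp FP.fst) (FP.const 0))

theorem FP_advL {n : α → ℕ} {l : α → List ℕ} {m : α → ℕ} {adv : α → List ℕ} (hn : FP n)
    (hl : FP l) (hm : FP m) (hadv : FP adv) :
    FP (fun a => advL (n a) (l a) (m a) (adv a)) := by
  unfold advL
  refine FP.map (g := fun a x => (adv a).getD ((l a).getD x 0 * m a +
    (rkC (l a) x - m a * qdiv (rkC (l a) x) (m a))) 0) (FP.range hn) ?_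
  have h1 : FP (fun p : α × ℕ => rkC (l p.1) p.2) := FP_rkC (hl.comp FP.fst) FP.snd
  have h2 : FP (fun p : α × ℕ => m p.1) := hm.comp FP.fst
  exact FP.getD (hadv.comp FP.fst)
    (FP.add (FP.mul (FP.getD (hl.comp FP.fst) FP.snd (FP.const 0)) h2)
      (FP.sub h1 (FP.mul h2 (FP_qdiv h1 h2)))) (FP.const 0)

end MP881e12
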