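import Pool.Agent.Lib.MP_881e12_lc.Core

namespace MP881e12

open MP60f107 Alg

theorem sp1_flatMap {α β : Type} {n : ℕ} (f : α → List β) (hf : ∀ a, (f a).length = n) {y : ℕ}
    (hy : y < n) (L : List α) (x : ℕ) (hx : x < L.length) :
    (L.flatMap f)[x * n + y]? = (f L[x])[y]? := by
  induction L generalizing x with
  | nil => simp at hx
  | cons a L ih =>
    rw [List.flatMap_cons]
    cases x with
    | zero =>
      rw [List.getElem?_append_left (by rw [hf]; omega)]
      simp
    | succ x =>
      have e : (x + 1) * n + y = n + (x * n + y) := by ring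
      rw [e, List.getElem?_append_right (by rw [hf]; omega), hf, Nat.add_sub_cancel_left,
        ih x (by simpa using hx)]
      rfl

theorem sp1_filter (p : ℕ → Bool) {m a : ℕ} (h : m ≤ a) (hp : ∀ k < a, p k = true ↔ k < m) :
    ((List.range a).filter p).length = m := by
  obtain ⟨d, rfl⟩ := Nat.exists_eq_add_of_le h
  rw [List.range_add, List.filter_append, List.filter_eq_self.2, List.filter_eq_nil_iff.2]
  · simp
  · intro k hk
    simp only [List.mem_map, List.mem_range] at hk
    obtain ⟨j, hj, rfl⟩ := hk
    rw [hp _ (by omega)]
    omega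
  · intro k hk
    rw [List.mem_range] at hk
    rw [hp _ (by omega)]
    exact hk

/-- ROW Sp1 (90 lines, four theorems).  The matrix is read correctly.

`length_matrixBits`: `List.length_flatMap`, all inner lists have length `n`.
`ent_matrixBits`: entry number `x * n + y` of a `flatMap` of `n` lists of length `n` is the entry `y` of the
list number `x` (prove by induction a lemma: `(L.flatMap f).getD (x * n + y) d = (f L[x]).getD y d` if all
`f a` have length `n` and `y < n`; or via `List.getElem_flatten`-type lemmas); `List.getElem_finRange`.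
`qdiv_eq`: for `0 < b` the numbers `k < a` with `(k + 1) * b ≤ a` are exactly `k < a / b`
(`Nat.le_div_iff_mul_le`), so the filtered range has length `a / b` (`a / b ≤ a`).
`nOf_matrixBits`: `k * k ≤ n * n ↔ k ≤ n`; the numbers `k < n * n + 1` with `k ≤ n` are `0, .., n`
(`n ≤ n * n`). -/
theorem length_matrixBits {n : ℕ} (G : SimpleGraph (Fin n)) [DecidableRel G.Adj] :
    (matrixBits G).length = n * n := by
  simp [matrixBits, List.length_flatMap]

theorem ent_matrixBits {n : ℕ} (G : SimpleGraph (Fin n)) [DecidableRel G.Adj] (x y : Fin n) :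
    ent n (matrixBits G) x.val y.val = decide (G.Adj x y) := by
  unfold ent matrixBits
  rw [List.getD_eq_getElem?_getD, sp1_flatMap (n := n) _ (fun a => by simp) y.2 _ _ (by simp)]
  simp

theorem qdiv_eq (a : ℕ) {b : ℕ} (hb : 0 < b) : qdiv a b = a / b := by
  unfold qdiv
  refine sp1_filter _ (Nat.div_le_self a b) fun k _ => ?_
  rw [decide_eq_true_iff, ← Nat.le_div_iff_mul_le hb]
  omega

theorem nOf_matrixBits_proof {n : ℕ} (G : SimpleGraph (Fin n)) [DecidableRel G.Adj] :
    nOf (matrixBits G) = n := by
  unfold nOf
  rw [length_matrixBits, sp1_filter (m := n + 1)]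
  · omega
  · nlinarith [Nat.le_mul_self n]
  · intro k _
    rw [decide_eq_true_iff]
    constructor
    · intro h
      by_contra hc
      push Not at hc
      nlinarith
    · intro h
      exact Nat.mul_le_mul (by omega) (by omega)

end MP881e12
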