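import Pool.Agent.Lib.MP_881e12_lc.Rg1
import Pool.Agent.Lib.MP_881e12_lc.Sp1

namespace MP881e12

open MP60f107 Finset Alg

/-- ROW Rg5 (130 lines, three theorems).  The energy and its rounded version.

`En_nonneg`, `En_le`: averages of `nb` are in `[0, 1]`, so `En ≤ n²`.
`enL_bounds`: by `sum_av_sq` (Rg1) `En G lam = ∑ z, ∑ x, nb G z x * av lam (nb G z) x`, and
`av lam (nb G z) x = nbc / csz` with `nbc n w l z (l.getD x 0)` the number of neighbours of `z` in the class
of `x` and `csz` the size of the class (nonzero because it contains `x`), for `w = matrixBits G`,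
`lam = labF n l` (`ent_matrixBits`, Sp1; a filtered `List.range n` against a filtered `Finset.univ` of
`Fin n`: write a lemma `((List.range n).filter p).length = (univ.filter fun x : Fin n => p x).card`).  The
summand of `enL` is `qdiv (n * nbc) csz = n * nbc / csz` rounded down (`qdiv_eq`, Sp1;
`Nat.cast_div_le`, `Nat.lt_floor..`: `n * a / b - 1 < ⌊n a / b⌋ ≤ n a / b`).  Sum over the at most `n²` pairs. -/
theorem En_nonneg {n : ℕ} (G : SimpleGraph (Fin n)) (lam : Fin n → ℕ) : 0 ≤ En G lam := by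
  unfold En
  exact Finset.sum_nonneg fun y _ => Finset.sum_nonneg fun x _ => sq_nonneg _

theorem Rg5_nb_nonneg {n : ℕ} (G : SimpleGraph (Fin n)) (y x : Fin n) : 0 ≤ nb G y x := by
  unfold nb
  split_ifs <;> norm_num

theorem Rg5_nb_le {n : ℕ} (G : SimpleGraph (Fin n)) (y x : Fin n) : nb G y x ≤ 1 := by
  unfold nb
  split_ifs <;> norm_num

theorem Rg5_av_nonneg {n : ℕ} (G : SimpleGraph (Fin n)) (lam : Fin n → ℕ) (y x : Fin n) :
    0 ≤ av lam (nb G y) x := by
  unfold av
  exact div_nonneg (Finset.sum_nonneg fun z _ => Rg5_nb_nonneg G y z) (Nat.cast_nonneg _)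

theorem Rg5_av_le {n : ℕ} (G : SimpleGraph (Fin n)) (lam : Fin n → ℕ) (y x : Fin n) :
    av lam (nb G y) x ≤ 1 := by
  unfold av
  apply div_le_one_of_le₀ _ (Nat.cast_nonneg _)
  calc ∑ z ∈ cl lam (lam x), nb G y z ≤ ∑ z ∈ cl lam (lam x), (1 : ℝ) :=
        Finset.sum_le_sum fun z _ => Rg5_nb_le G y z
    _ = ((cl lam (lam x)).card : ℝ) := by simp

theorem En_le {n : ℕ} (G : SimpleGraph (Fin n)) (lam : Fin n → ℕ) : En G lam ≤ n ^ 2 := by
  unfold En
  calc ∑ y, ∑ x, av lam (nb G y) x ^ 2 ≤ ∑ _y : Fin n, ∑ _x : Fin n, (1 : ℝ) := by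
        refine Finset.sum_le_sum fun y _ => Finset.sum_le_sum fun x _ => ?_
        exact pow_le_one₀ (Rg5_av_nonneg G lam y x) (Rg5_av_le G lam y x)
    _ = n ^ 2 := by simp [sq]

theorem Rg5_sum_range (n : ℕ) (f : ℕ → ℕ) :
    ((List.range n).map f).sum = ∑ i : Fin n, f i.val := by
  induction n with
  | zero => simp
  | succ n ih =>
    rw [List.range_succ, List.map_append, List.sum_append, ih, Fin.sum_univ_castSucc]
    simp

theorem Rg5_filter_length (n : ℕ) (p : ℕ → Bool) :
    ((List.range n).filter p).length = (univ.filter fun x : Fin n => p x.val = true).card := by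
  rw [Finset.card_filter]
  induction n with
  | zero => simp
  | succ n ih =>
    rw [List.range_succ, List.filter_append, List.length_append, ih, Fin.sum_univ_castSucc]
    congr 1
    by_cases h : p n = true
    · simp [h]
    · simp [h]

theorem Rg5_csz {n : ℕ} (l : List ℕ) (x : Fin n) :
    csz n l (l.getD x.val 0) = (cl (labF n l) (labF n l x)).card := by
  unfold csz cl labF
  rw [Rg5_filter_length]
  congr 1
  ext z
  simp

theorem Rg5_csz_pos {n : ℕ} (l : List ℕ) (x : Fin n) : 0 < csz n l (l.getD x.val 0) := by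
  rw [Rg5_csz, Finset.card_pos]
  exact ⟨x, by simp [cl]⟩

theorem Rg5_nbc {n : ℕ} (G : SimpleGraph (Fin n)) [DecidableRel G.Adj] (l : List ℕ)
    (z x : Fin n) :
    (nbc n (matrixBits G) l z.val (l.getD x.val 0) : ℝ) =
      ∑ y ∈ cl (labF n l) (labF n l x), nb G z y := by
  classical
  unfold nbc nb cl
  rw [Rg5_filter_length, Finset.card_filter, Nat.cast_sum, Finset.sum_filter]
  refine Finset.sum_congr rfl fun y _ => ?_
  simp only [Bool.and_eq_true, decide_eq_true_eq, ent_matrixBits, labF]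
  by_cases h1 : G.Adj z y <;> by_cases h2 : l.getD y.val 0 = l.getD x.val 0 <;> simp [h1]

theorem Rg5_av {n : ℕ} (G : SimpleGraph (Fin n)) [DecidableRel G.Adj] (l : List ℕ)
    (z x : Fin n) :
    av (labF n l) (nb G z) x =
      (nbc n (matrixBits G) l z.val (l.getD x.val 0) : ℝ) / (csz n l (l.getD x.val 0) : ℝ) := by
  unfold av
  rw [Rg5_nbc, Rg5_csz]

theorem Rg5_term {n : ℕ} (G : SimpleGraph (Fin n)) [DecidableRel G.Adj] (l : List ℕ)
    (z x : Fin n) :
    (((if ent n (matrixBits G) z.val x.val then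
      qdiv (n * nbc n (matrixBits G) l z.val (l.getD x.val 0)) (csz n l (l.getD x.val 0)) else 0 :
        ℕ) : ℝ) ≤ n * (nb G z x * av (labF n l) (nb G z) x)) ∧
    n * (nb G z x * av (labF n l) (nb G z) x) - 1 ≤
      ((if ent n (matrixBits G) z.val x.val then
      qdiv (n * nbc n (matrixBits G) l z.val (l.getD x.val 0)) (csz n l (l.getD x.val 0)) else 0 :
        ℕ) : ℝ) := by
  classical
  rw [ent_matrixBits, Rg5_av]
  have hpos := Rg5_csz_pos l x
  rw [qdiv_eq _ hpos]
  by_cases h : G.Adj z x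
  · have hn : nb G z x = 1 := by simp [nb, h]
    rw [hn]
    simp only [h, decide_true, if_true]
    set a := nbc n (matrixBits G) l z.val (l.getD x.val 0)
    set b := csz n l (l.getD x.val 0)
    have e : (n : ℝ) * (1 * ((a : ℝ) / b)) = ((n * a : ℕ) : ℝ) / b := by
      push_cast
      ring
    rw [e]
    refine ⟨Nat.cast_div_le, ?_⟩
    have h1 : n * a < (n * a / b + 1) * b := by
      have := Nat.lt_div_mul_add (a := n * a) hpos
      linarith [this, Nat.add_mul (n * a / b) 1 b]
    have h2 : ((n * a : ℕ) : ℝ) < (((n * a / b : ℕ) : ℝ) + 1) * b := by exact_mod_cast h1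
    have hb : (0 : ℝ) < b := by exact_mod_cast hpos
    have h3 := (div_lt_iff₀ hb).2 h2
    linarith
  · have hn : nb G z x = 0 := by simp [nb, h]
    rw [hn]
    simp [h]

theorem enL_bounds {n : ℕ} (G : SimpleGraph (Fin n)) [DecidableRel G.Adj] (l : List ℕ) :
    (enL n (matrixBits G) l : ℝ) ≤ n * En G (labF n l) ∧
      n * En G (labF n l) - n ^ 2 ≤ (enL n (matrixBits G) l : ℝ) := by
  have e1 : (enL n (matrixBits G) l : ℝ) = ∑ z : Fin n, ∑ x : Fin n,
      ((if ent n (matrixBits G) z.val x.val then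
      qdiv (n * nbc n (matrixBits G) l z.val (l.getD x.val 0)) (csz n l (l.getD x.val 0)) else 0 :
        ℕ) : ℝ) := by
    unfold enL
    rw [Rg5_sum_range, Nat.cast_sum]
    refine Finset.sum_congr rfl fun z _ => ?_
    rw [Rg5_sum_range, Nat.cast_sum]
  have e2 : n * En G (labF n l) = ∑ z : Fin n, ∑ x : Fin n,
      n * (nb G z x * av (labF n l) (nb G z) x) := by
    unfold En
    rw [Finset.mul_sum]
    refine Finset.sum_congr rfl fun z _ => ?_
    rw [sum_av_sq, Finset.mul_sum]
  rw [e1, e2]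
  constructor
  · exact Finset.sum_le_sum fun z _ => Finset.sum_le_sum fun x _ => (Rg5_term G l z x).1
  · have e3 : ∑ z : Fin n, ∑ x : Fin n, n * (nb G z x * av (labF n l) (nb G z) x) - (n : ℝ) ^ 2 =
        ∑ z : Fin n, ∑ x : Fin n, (n * (nb G z x * av (labF n l) (nb G z) x) - 1) := by
      simp only [Finset.sum_sub_distrib]
      simp [sq]
    rw [e3]
    exact Finset.sum_le_sum fun z _ => Finset.sum_le_sum fun x _ => (Rg5_term G l z x).2

end MP881e12
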