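import Pool.Agent.Lib.MP_881e12_lc.RgDef
import Pool.Agent.Lib.MP_881e12_lc.Sp1

namespace MP881e12

open MP60f107 Finset Alg

theorem Rg6_length_refL (n : ℕ) (w : List Bool) (l : List ℕ) (y : ℕ) :
    (refL n w l y).length = n := by
  unfold refL
  rw [List.length_map, List.length_range]

theorem Rg6_getD_refL (n : ℕ) (w : List Bool) (l : List ℕ) (y : ℕ) {x : ℕ} (hx : x < n) :
    (refL n w l y).getD x 0 = 2 * l.getD x 0 + (if ent n w y x then 1 else 0) := by
  unfold refL
  rw [List.getD_eq_getElem _ _ (by rw [List.length_map, List.length_range]; exact hx),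
    List.getElem_map, List.getElem_range]

theorem Rg6_fold (e : ℕ → ℕ) (L : List ℕ) (b : ℕ) :
    (L.foldl (fun b y => if e b < e y then y else b) b = b ∨
      L.foldl (fun b y => if e b < e y then y else b) b ∈ L) ∧
    e b ≤ e (L.foldl (fun b y => if e b < e y then y else b) b) ∧
    ∀ y ∈ L, e y ≤ e (L.foldl (fun b y => if e b < e y then y else b) b) := by
  induction L generalizing b with
  | nil => exact ⟨Or.inl rfl, le_refl _, fun y hy => absurd hy List.not_mem_nil⟩
  | cons a L ih =>
    rw [List.foldl_cons]
    by_cases h : e b < e a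
    · rw [if_pos h]
      obtain ⟨h1, h2, h3⟩ := ih a
      refine ⟨Or.inr ?_, h.le.trans h2, fun y hy => ?_⟩
      · rcases h1 with h1 | h1
        · rw [h1]; exact List.mem_cons_self
        · exact List.mem_cons_of_mem _ h1
      · rcases List.mem_cons.1 hy with rfl | hy
        · exact h2
        · exact h3 y hy
    · rw [if_neg h]
      obtain ⟨h1, h2, h3⟩ := ih b
      refine ⟨?_, h2, fun y hy => ?_⟩
      · rcases h1 with h1 | h1
        · exact Or.inl h1
        · exact Or.inr (List.mem_cons_of_mem _ h1)
      · rcases List.mem_cons.1 hy with rfl | hy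
        · exact (not_lt.1 h).trans h2
        · exact h3 y hy

/-- ROW Rg6 (70 lines, four theorems).  Labels.

`length_labT`, `labT_lt`: induction on `t` (`refL` is a map over `range n`; `List.getD_map`/`getElem`;
`2 * a + s < 2 * 2 ^ t` if `a < 2 ^ t`, `s ≤ 1`).
`labF_refL`: `labF n (refL n (matrixBits G) l y) = refF G (labF n l) y` for `y : Fin n` (`ent_matrixBits`).
`best_spec`: the fold `fun b y => if e b < e y then y else b` over `range n`, started with `0`, gives for
`n > 0` a number `< n` with `e y ≤ e best` for all `y < n` (induction over the list). -/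
theorem length_labT (n : ℕ) (w : List Bool) (t : ℕ) : (labT n w t).length = n := by
  cases t with
  | zero => exact List.length_replicate
  | succ t => exact Rg6_length_refL _ _ _ _

theorem labT_lt_proof (n : ℕ) (w : List Bool) (t : ℕ) {x : ℕ} (hx : x < n) :
    (labT n w t).getD x 0 < 2 ^ t := by
  induction t with
  | zero =>
    unfold labT
    rw [List.getD_eq_getElem _ _ (by rw [List.length_replicate]; exact hx), List.getElem_replicate]
    norm_num
  | succ t ih =>
    show (refL n w (labT n w t) (best n w (labT n w t))).getD x 0 < 2 ^ (t + 1)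
    rw [Rg6_getD_refL n w _ _ hx, pow_succ]
    split_ifs <;> omega

theorem labF_refL {n : ℕ} (G : SimpleGraph (Fin n)) [DecidableRel G.Adj] (l : List ℕ) (y : Fin n) :
    labF n (refL n (matrixBits G) l y.val) = refF G (labF n l) y := by
  funext x
  unfold labF refF
  rw [Rg6_getD_refL n _ _ _ x.2, ent_matrixBits]
  by_cases h : G.Adj y x
  · simp [h]
  · simp [h]

theorem best_spec (n : ℕ) (w : List Bool) (l : List ℕ) (hn : 0 < n) :
    best n w l < n ∧ ∀ y < n, enL n w (refL n w l y) ≤ enL n w (refL n w l (best n w l)) := by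
  obtain ⟨h1, h2, h3⟩ := Rg6_fold (fun y => enL n w (refL n w l y)) (List.range n) 0
  refine ⟨?_, fun y hy => h3 y (List.mem_range.2 hy)⟩
  rcases h1 with h1 | h1
  · unfold best
    rw [h1]
    exact hn
  · exact List.mem_range.1 h1

end MP881e12
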