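import Pool.Agent.Lib.MP_881e12_lc.Rg4
import Pool.Agent.Lib.MP_881e12_lc.Rg5
import Pool.Agent.Lib.MP_881e12_lc.Rg6

namespace MP881e12

open MP60f107 Finset Alg

theorem Rg7_step {n : ℕ} (G : SimpleGraph (Fin n)) [DecidableRel G.Adj] (t : ℕ) {ε : ℝ}
    (hε : 0 < ε) (hn : 0 < n) (hn2 : 2 / ε ^ 4 ≤ n)
    (h : ¬ OneReg G (labF n (labT n (matrixBits G) t)) (2 ^ t) ε) :
    En G (labF n (labT n (matrixBits G) t)) + ε ^ 4 / 2 * n ^ 2 ≤
      En G (labF n (labT n (matrixBits G) (t + 1))) := by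
  set w := matrixBits G with hw
  obtain ⟨y, hy⟩ := energy_step G (lam := labF n (labT n w t))
    (fun x => labT_lt_proof n w t x.2) hε h
  obtain ⟨hb1, hb2⟩ := best_spec n w (labT n w t) hn
  have h1 : (enL n w (refL n w (labT n w t) y.val) : ℝ) ≤
      enL n w (refL n w (labT n w t) (best n w (labT n w t))) := by
    exact_mod_cast hb2 y.val y.2
  have h2 := (enL_bounds G (refL n w (labT n w t) y.val)).2
  have h3 := (enL_bounds G (refL n w (labT n w t) (best n w (labT n w t)))).1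
  rw [← hw] at h2 h3
  rw [labF_refL G (labT n w t) y] at h2
  have h4 : labF n (refL n w (labT n w t) (best n w (labT n w t))) =
      labF n (labT n w (t + 1)) := rfl
  rw [h4] at h3
  have hnR : (0 : ℝ) < n := by exact_mod_cast hn
  have h5 : (n : ℝ) * En G (refF G (labF n (labT n w t)) y) - n ^ 2 ≤
      n * En G (labF n (labT n w (t + 1))) := by linarith
  have h6 : En G (refF G (labF n (labT n w t)) y) - n ≤ En G (labF n (labT n w (t + 1))) := by
    have : (n : ℝ) * (En G (refF G (labF n (labT n w t)) y) - n) ≤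
        n * En G (labF n (labT n w (t + 1))) := by nlinarith
    exact le_of_mul_le_mul_left this hnR
  have hε4 : 0 < ε ^ 4 := by positivity
  have h7 : 2 ≤ (n : ℝ) * ε ^ 4 := by
    rw [div_le_iff₀ hε4] at hn2
    exact hn2
  have h8 : (n : ℝ) ≤ ε ^ 4 / 2 * n ^ 2 := by nlinarith
  nlinarith

/-- ROW Rg7.  The greedy sequence reaches a regular labelling. -/
theorem reg_main_proof (ε : ℝ) (hε : 0 < ε) : ∃ T n₀ : ℕ, ∀ n ≥ n₀, ∀ (G : SimpleGraph (Fin n))
    [DecidableRel G.Adj], ∃ t ≤ T, OneReg G (labF n (labT n (matrixBits G) t)) (2 ^ t) ε := by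
  refine ⟨⌈2 / ε ^ 4⌉₊, ⌈2 / ε ^ 4⌉₊ + 1, fun n hn G _ => ?_⟩
  by_contra hcon
  push Not at hcon
  have hε4 : 0 < ε ^ 4 := by positivity
  have hn0 : 0 < n := by omega
  have hn2 : 2 / ε ^ 4 ≤ (n : ℝ) := by
    refine (Nat.le_ceil _).trans ?_
    exact_mod_cast (by omega : ⌈2 / ε ^ 4⌉₊ ≤ n)
  have key : ∀ t ≤ ⌈2 / ε ^ 4⌉₊ + 1, (t : ℝ) * (ε ^ 4 / 2 * n ^ 2) ≤
      En G (labF n (labT n (matrixBits G) t)) := by
    intro t
    induction t with
    | zero =>
      intro _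
      simpa using En_nonneg G (labF n (labT n (matrixBits G) 0))
    | succ t ih =>
      intro ht
      have h1 := ih (by omega)
      have h2 := Rg7_step G t hε hn0 hn2 (hcon t (by omega))
      push_cast
      linarith
  have h1 := key _ le_rfl
  have h2 := En_le G (labF n (labT n (matrixBits G) (⌈2 / ε ^ 4⌉₊ + 1)))
  have h3 : 2 / ε ^ 4 ≤ (⌈2 / ε ^ 4⌉₊ : ℝ) := Nat.le_ceil _
  rw [div_le_iff₀ hε4] at h3
  have hnR : (0 : ℝ) < (n : ℝ) ^ 2 := by
    have : (0 : ℝ) < n := by exact_mod_cast hn0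
    positivity
  push_cast at h1
  have h4 : (1 : ℝ) < (⌈2 / ε ^ 4⌉₊ + 1 : ℝ) * (ε ^ 4 / 2) := by nlinarith
  have h5 : (n : ℝ) ^ 2 < (⌈2 / ε ^ 4⌉₊ + 1 : ℝ) * (ε ^ 4 / 2) * n ^ 2 := by
    nlinarith
  nlinarith

end MP881e12
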