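import Pool.Agent.Lib.MP_881e12_lc.Core

namespace MP881e12

open MP60f107 Alg

theorem Sp10_enc (bs : List Bool) : ∃ p : PosNum, Computability.encodePosNum p = bs ++ [true] := by
  induction bs with
  | nil => exact ⟨PosNum.one, rfl⟩
  | cons b bs ih =>
    obtain ⟨p, hp⟩ := ih
    cases b with
    | false => exact ⟨PosNum.bit0 p, by rw [Computability.encodePosNum, hp]; rfl⟩
    | true => exact ⟨PosNum.bit1 p, by rw [Computability.encodePosNum, hp]; rfl⟩

theorem Sp10_encNat (bs : List Bool) : ∃ c, Computability.encodeNat c = bs ++ [true] := by
  obtain ⟨p, hp⟩ := Sp10_enc bs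
  refine ⟨(p : ℕ), ?_⟩
  unfold Computability.encodeNat
  rw [PosNum.of_to_nat, ← hp]
  rfl

theorem Sp10_rep (j c : ℕ) (acc : List ℕ) (R : List (List ℕ)) :
    (List.replicate j true).foldl tokStep ((c, acc), R) = ((c + j, acc), R) := by
  induction j generalizing c with
  | zero => rfl
  | succ j ih =>
    have h : tokStep ((c, acc), R) true = ((c + 1, acc), R) := rfl
    rw [List.replicate_succ, List.foldl_cons, h, ih]
    congr 2
    omega

theorem Sp10_num (k : ℕ) (acc : List ℕ) (R : List (List ℕ)) :
    (List.replicate (k + 1) true ++ [false]).foldl tokStep ((0, acc), R) = ((0, k :: acc), R) := by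
  rw [List.foldl_append, Sp10_rep, List.foldl_cons, List.foldl_nil]
  have h : tokStep ((0 + (k + 1), acc), R) false = ((0, (0 + (k + 1) - 1) :: acc), R) := by
    have h0 : ¬ (0 + (k + 1) = 0) := by omega
    simp only [tokStep, h0, Bool.false_eq_true, if_false]
  rw [h]
  congr 3
  omega

theorem Sp10_row (row : List ℕ) (acc : List ℕ) (R : List (List ℕ)) :
    ((row.flatMap fun k => List.replicate (k + 1) true ++ [false]) ++ [false]).foldl tokStep ((0, acc), R) =
      ((0, []), (acc.reverse ++ row) :: R) := by
  induction row generalizing acc with
  | nil =>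
    rw [List.flatMap_nil, List.nil_append, List.append_nil]
    rfl
  | cons k row ih =>
    rw [List.flatMap_cons, List.append_assoc, List.foldl_append, Sp10_num, ih, List.reverse_cons,
      List.append_assoc]
    rfl

theorem Sp10_rows (rows : List (List ℕ)) (R : List (List ℕ)) :
    (rows.flatMap fun row => (row.flatMap fun k => List.replicate (k + 1) true ++ [false]) ++ [false]).foldl
      tokStep ((0, []), R) = ((0, []), rows.reverse ++ R) := by
  induction rows generalizing R with
  | nil => rfl
  | cons row rows ih =>
    rw [List.flatMap_cons, List.foldl_append, Sp10_row, ih, List.reverse_nil, List.nil_append, List.reverse_cons,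
      List.append_assoc]
    rfl

/-- ROW Sp10 (90 lines).  Every list of rows has a code.

Code of a row: `(row.flatMap fun k => List.replicate (k + 1) true ++ [false]) ++ [false]`, of the rows: the
`flatMap`.  By induction: folding `tokStep` over `List.replicate (k + 1) true ++ [false]` from
`((0, acc), R)` gives `((0, k :: acc), R)`; over `[false]` gives `((0, []), acc.reverse :: R)`.  Hence the
fold over the code of `rows` from `((0, []), [])` gives `((0, []), rows.reverse)`, and an additional bit
`true` changes only the counter.  So `rowsOf (code rows ++ [true]) = rows`.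
Every list that ends with `true` is `encodeNat c` for some `c`: by induction on the list there is
`p : PosNum` with `Computability.encodePosNum p = bs ++ [true]` (`true` alone is `encodePosNum one`,
`false :: _` is `bit0`, `true :: _` is `bit1`), and `encodeNat (p : ℕ) = encodeNum ((p : ℕ) : Num) =
encodePosNum p` (`PosNum.of_to_nat`, `Num.of_to_nat`-type lemmas; see how Bits.lean, row
`incB_encodeNat`, handles the cast). -/
theorem exists_code_proof (rows : List (List ℕ)) :
    ∃ c, rowsOf (Computability.encodeNat c) = rows := by
  obtain ⟨c, hc⟩ := Sp10_encNat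
    (rows.flatMap fun row => (row.flatMap fun k => List.replicate (k + 1) true ++ [false]) ++ [false])
  refine ⟨c, ?_⟩
  rw [hc, rowsOf, List.foldl_append, Sp10_rows, List.append_nil]
  exact List.reverse_reverse rows

end MP881e12
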