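import Pool.Agent.Lib.MP_881e12_lc.Core

namespace MP881e12

open MP60f107

section sp11

theorem sp11_arcs_map {L L' : Type} (π : L → L') (a : L) (r : List (Bool × L)) (s : Bool) (b : L) :
    arcs (π a) (r.map fun x => (x.1, π x.2)) s (π b) =
      (arcs a r s b).map (fun A => (⟨π A.p, π A.q, A.up⟩ : Arc L')) := by
  induction r generalizing a with
  | nil => rfl
  | cons x r ih => obtain ⟨s₁, p₁⟩ := x; simp [arcs, ih]

theorem sp11_arcs_left {L : Type} {a b : L} {r : List (Bool × L)} {s : Bool} {A : Arc L}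
    (h : A ∈ arcs a r s b) : A.p = a ∨ ∃ y ∈ r, A.p = y.2 := by
  induction r generalizing a with
  | nil => simp [arcs] at h; left; rw [h]
  | cons x r ih =>
    simp only [arcs, List.mem_cons] at h
    rcases h with h | h
    · left; rw [h]
    · right
      rcases ih h with h | ⟨y, hy, h⟩
      · exact ⟨x, by simp, h⟩
      · exact ⟨y, by simp [hy], h⟩

theorem sp11_arcs_right {L : Type} {a b : L} {r : List (Bool × L)} {s : Bool} {A : Arc L}
    (h : A ∈ arcs a r s b) : A.q = b ∨ ∃ y ∈ r, A.q = y.2 := by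
  induction r generalizing a with
  | nil => simp [arcs] at h; left; rw [h]
  | cons x r ih =>
    simp only [arcs, List.mem_cons] at h
    rcases h with h | h
    · right; exact ⟨x, by simp, by rw [h]⟩
    · rcases ih h with h | ⟨y, hy, h⟩
      · exact Or.inl h
      · exact Or.inr ⟨y, by simp [hy], h⟩

theorem sp11_alt_map {L L' : Type} (π : L → L') (r : List (Bool × L)) (s : Bool) :
    Alt r s → Alt (r.map fun x => (x.1, π x.2)) s := by
  induction r with
  | nil => intro _; trivial
  | cons x r ih =>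
    obtain ⟨s₁, p₁⟩ := x
    cases r with
    | nil => intro h; exact h
    | cons y r =>
      obtain ⟨s₂, p₂⟩ := y
      intro h
      exact ⟨h.1, ih h.2⟩

/-- The relation between points is preserved on `S`. -/
theorem sp11_X {L L' : Type} [LinearOrder L] [LinearOrder L'] (S : Finset L) (π : L → L')
    (hπ : ∀ x ∈ S, ∀ y ∈ S, (π x < π y ↔ x < y)) {A B : Arc L} (hA : A.p ∈ S ∧ A.q ∈ S)
    (hB : B.p ∈ S ∧ B.q ∈ S) :
    X (⟨π A.p, π A.q, A.up⟩ : Arc L') ⟨π B.p, π B.q, B.up⟩ = X A B := by
  have h : Ilv (π A.p) (π A.q) (π B.p) (π B.q) ↔ Ilv A.p A.q B.p B.q := by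
    unfold Ilv MP60f107.Btw MP60f107.Ots
    simp only [hπ _ hA.1 _ hB.1, hπ _ hA.1 _ hB.2, hπ _ hA.2 _ hB.1, hπ _ hA.2 _ hB.2,
      hπ _ hB.1 _ hA.1, hπ _ hB.2 _ hA.1, hπ _ hB.1 _ hA.2, hπ _ hB.2 _ hA.2]
  unfold X
  by_cases h1 : A.up = B.up ∧ Ilv A.p A.q B.p B.q
  · rw [if_pos h1, if_pos ⟨h1.1, h.2 h1.2⟩]
  · rw [if_neg h1, if_neg (fun h2 => h1 ⟨h2.1, h.1 h2.2⟩)]

theorem sp11_crL {L L' : Type} [LinearOrder L] [LinearOrder L'] (S : Finset L) (π : L → L')
    (hπ : ∀ x ∈ S, ∀ y ∈ S, (π x < π y ↔ x < y)) {P Q : List (Arc L)}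
    (hP : ∀ A ∈ P, A.p ∈ S ∧ A.q ∈ S) (hQ : ∀ A ∈ Q, A.p ∈ S ∧ A.q ∈ S) :
    crL (P.map (fun A => (⟨π A.p, π A.q, A.up⟩ : Arc L')))
      (Q.map (fun A => (⟨π A.p, π A.q, A.up⟩ : Arc L'))) = crL P Q := by
  unfold crL
  rw [List.map_map]
  apply congrArg
  apply List.map_congr_left
  intro A hA
  simp only [Function.comp, List.map_map]
  apply congrArg
  apply List.map_congr_left
  intro B hB
  exact sp11_X S π hπ (hP A hA) (hQ B hB)

end sp11

/-- ROW Sp11 (80 lines).  A drawing of a finite net can be moved to the spine `ℕ`. -/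
theorem exists_nat_proof {V ι : Type} [Finite V] [Finite ι] {N : Net V ι} {L : Type} [LinearOrder L]
    (T : Drawing N L) (hT : Normal T) : ∃ T' : Drawing N ℕ, Normal T' ∧
      ∀ i j, crL (T'.path i) (T'.path j) = crL (T.path i) (T.path j) := by
  classical
  have hfin : (Set.range T.pos ∪ ⋃ i, {x | x ∈ (T.inner i).map Prod.snd}).Finite := by
    apply Set.Finite.union (Set.finite_range _)
    apply Set.finite_iUnion
    intro i
    exact List.finite_toSet _
  set S : Finset L := hfin.toFinset with hS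
  have hpos : ∀ w, T.pos w ∈ S := by
    intro w
    rw [hS, Set.Finite.mem_toFinset]
    exact Or.inl ⟨w, rfl⟩
  have hin : ∀ i, ∀ x ∈ T.inner i, x.2 ∈ S := by
    intro i x hx
    rw [hS, Set.Finite.mem_toFinset]
    refine Or.inr (Set.mem_iUnion.2 ⟨i, ?_⟩)
    exact List.mem_map.2 ⟨x, hx, rfl⟩
  let φ : L → ℕ := fun x => (S.filter (· < x)).card
  have hlt : ∀ x ∈ S, ∀ y, x < y → φ x < φ y := by
    intro x hx y h
    apply Finset.card_lt_card
    rw [Finset.ssubset_iff_of_subset]
    · exact ⟨x, by simp [hx, h], by simp⟩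
    · intro z hz
      simp only [Finset.mem_filter] at hz ⊢
      exact ⟨hz.1, hz.2.trans h⟩
  have hiff : ∀ x ∈ S, ∀ y ∈ S, (φ x < φ y ↔ x < y) := by
    intro x hx y hy
    constructor
    · intro h
      by_contra hc
      rcases eq_or_lt_of_le (not_lt.mp hc) with h1 | h1
      · rw [h1] at h; exact lt_irrefl _ h
      · exact lt_asymm h (hlt y hy x h1)
    · exact hlt x hx y
  have hinj : ∀ x ∈ S, ∀ y ∈ S, φ x = φ y → x = y := by
    intro x hx y hy h
    rcases lt_trichotomy x y with h1 | h1 | h1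
    · have := hlt x hx y h1; omega
    · exact h1
    · have := hlt y hy x h1; omega
  let T' : Drawing N ℕ :=
    { pos := fun w => φ (T.pos w)
      inner := fun i => (T.inner i).map fun x => (x.1, φ x.2)
      last := T.last
      pos_inj := by
        intro v w h
        exact T.pos_inj (hinj _ (hpos v) _ (hpos w) h)
      nodup := by
        intro i
        have h1 : ((T.inner i).map fun x => (x.1, φ x.2)).map Prod.snd =
            ((T.inner i).map Prod.snd).map φ := by
          rw [List.map_map, List.map_map]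
          rfl
        rw [h1]
        apply List.Nodup.map_on _ (T.nodup i)
        intro x hx y hy h
        obtain ⟨x', hx', rfl⟩ := List.mem_map.1 hx
        obtain ⟨y', hy', rfl⟩ := List.mem_map.1 hy
        exact hinj _ (hin i x' hx') _ (hin i y' hy') h
      disj := by
        intro i j hij x hx y hy h
        obtain ⟨x', hx', rfl⟩ := List.mem_map.1 hx
        obtain ⟨y', hy', rfl⟩ := List.mem_map.1 hy
        exact T.disj i j hij x' hx' y' hy' (hinj _ (hin i x' hx') _ (hin j y' hy') h)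
      avoid := by
        intro i x hx w h
        obtain ⟨x', hx', rfl⟩ := List.mem_map.1 hx
        exact T.avoid i x' hx' w (hinj _ (hin i x' hx') _ (hpos w) h) }
  have hpath : ∀ i, T'.path i =
      (T.path i).map (fun A => (⟨φ A.p, φ A.q, A.up⟩ : Arc ℕ)) := by
    intro i
    exact sp11_arcs_map φ _ _ _ _
  have hends : ∀ i, ∀ A ∈ T.path i, A.p ∈ S ∧ A.q ∈ S := by
    intro i A hA
    constructor
    · rcases sp11_arcs_left hA with h | ⟨y, hy, h⟩
      · rw [h]; exact hpos _
      · rw [h]; exact hin i y hy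
    · rcases sp11_arcs_right hA with h | ⟨y, hy, h⟩
      · rw [h]; exact hpos _
      · rw [h]; exact hin i y hy
  have hcr : ∀ i j, crL (T'.path i) (T'.path j) = crL (T.path i) (T.path j) := by
    intro i j
    rw [hpath i, hpath j]
    exact sp11_crL S φ hiff (hends i) (hends j)
  refine ⟨T', ⟨fun i => ?_, fun i => ?_⟩, hcr⟩
  · exact sp11_alt_map φ _ _ (hT.alt i)
  · rw [hcr]; exact hT.self i

end MP881e12
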