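import Pool.Agent.Lib.MP_881e12_lc.Sp4
import Pool.Agent.Lib.MP_881e12_lc.Sp5

namespace MP881e12

open MP60f107 Alg

private theorem Sp6_used {n : ℕ} {c : Cand} (hn : c.1.length = n) (h h1 h2 h3 h4) :
    P2.used (cDraw n c h h1 h2 h3 h4) = (pts c).toFinset := by
  ext x
  simp only [P2.used, Finset.mem_union, Finset.mem_image, Finset.mem_univ, true_and,
    Finset.mem_biUnion, List.mem_toFinset, pts, List.mem_append, List.mem_flatMap]
  constructor
  · rintro (⟨v, hv⟩ | ⟨i, hi⟩)
    · left
      have hv1 : v.val < c.1.length := by rw [hn]; exact v.2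
      have hv2 : c.1.getD v.val 0 = x := hv
      rw [List.getD_eq_getElem _ _ hv1] at hv2
      rw [← hv2]
      exact List.getElem_mem _
    · right
      exact ⟨c.2[i], List.getElem_mem _, hi⟩
  · rintro (hx | ⟨r, hr, hx⟩)
    · left
      obtain ⟨k, hk, hkx⟩ := List.mem_iff_getElem.1 hx
      refine ⟨⟨k, by rw [← hn]; exact hk⟩, ?_⟩
      change c.1.getD k 0 = x
      rw [List.getD_eq_getElem _ _ hk]
      exact hkx
    · right
      obtain ⟨k, hk, hkr⟩ := List.mem_iff_getElem.1 hr
      refine ⟨⟨k, hk⟩, ?_⟩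
      change x ∈ (c.2[k].2.1).map Prod.snd
      rw [hkr]
      exact hx

private theorem Sp6_abs (a b : ℕ) : (((a - b) + (b - a) : ℕ) : ℝ) = |(b : ℝ) - a| := by
  rcases le_total a b with h | h
  · have h1 : a - b = 0 := Nat.sub_eq_zero_of_le h
    have h2 : (0 : ℝ) ≤ (b : ℝ) - a := by
      rw [sub_nonneg]
      exact_mod_cast h
    rw [h1, Nat.zero_add, Nat.cast_sub h, abs_of_nonneg h2]
  · have h1 : b - a = 0 := Nat.sub_eq_zero_of_le h
    have h2 : (b : ℝ) - a ≤ 0 := by
      rw [sub_nonpos]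
      exact_mod_cast h
    rw [h1, Nat.add_zero, Nat.cast_sub h, abs_of_nonpos h2, neg_sub]

/-- ROW Sp6 (170 lines, four theorems).  The output describes the polygonal drawing `P2.poly`
(CrPlane.lean, namespace MP60f107.P2: `used`, `rk`, `slope`, `pt`, `pk`, `bendsOf`, `ebends`, `gbends`,
`poly`, lines 1962-2960).

`rk_cDraw`: the Finset `P2.used D` is the set of the members of the list `pts c` (positions of all
vertices: `c.1` has length `n`; inner points of all records), which has no repetitions; so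
`(used.filter (· < x)).card` is the length of the filtered list (`List.toFinset_card_of_nodup`,
`List.toFinset_filter`), and `used.card = (pts c).length`.
`pt_cDraw`, `pk_cDraw`: `decPt (2 * r, (0, 0)) = (r, 0) = ptZ r`; for the peak with ranks `a, b`:
`(a - b) + (b - a)` (truncated subtraction) is `|b - a|`, so the code of the peak decodes to
`((a + b) / 2, ± (slope + |b - a|) * |b - a| / 2)`, `slope = 2 card² + 1`: unfold `pkZ`, `sg`, `pkN`,
`decPt`, cases on `a ≤ b`, on `s`, `push_cast`, `ring`.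
`bends_cDraw`: induction on `r`. -/
theorem rk_cDraw {n : ℕ} {c : Cand} (hn : c.1.length = n) (hnd : (pts c).Nodup) (h h1 h2 h3 h4) :
    (∀ x, P2.rk (cDraw n c h h1 h2 h3 h4) x = rkN c x) ∧
      (P2.used (cDraw n c h h1 h2 h3 h4)).card = (pts c).length := by
  have hu := Sp6_used hn h h1 h2 h3 h4
  constructor
  · intro x
    unfold P2.rk rkN
    have e : (pts c).toFinset.filter (· < x) =
        ((pts c).filter fun y => decide (y < x)).toFinset := by
      ext z
      simp only [Finset.mem_filter, List.mem_toFinset, List.mem_filter, decide_eq_true_eq]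
    rw [hu, e, List.toFinset_card_of_nodup (hnd.filter _)]
  · rw [hu, List.toFinset_card_of_nodup hnd]

theorem pt_cDraw {n : ℕ} {c : Cand} (hn : c.1.length = n) (hnd : (pts c).Nodup) (h h1 h2 h3 h4)
    (x : ℕ) : decPt (ptO c x) = P2.pt (cDraw n c h h1 h2 h3 h4) x := by
  unfold P2.pt P2.ptZ decPt ptO
  rw [(rk_cDraw hn hnd h h1 h2 h3 h4).1 x]
  push_cast
  rw [Prod.mk.injEq]
  constructor
  · ring
  · norm_num

theorem pk_cDraw {n : ℕ} {c : Cand} (hn : c.1.length = n) (hnd : (pts c).Nodup) (h h1 h2 h3 h4)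
    (x y : ℕ) (s : Bool) : decPt (pkN (pts c).length (rkN c x) (rkN c y) s) =
      P2.pk (cDraw n c h h1 h2 h3 h4) x y s := by
  obtain ⟨hr, hc⟩ := rk_cDraw hn hnd h h1 h2 h3 h4
  unfold P2.pk P2.pkZ P2.slope pkN decPt
  rw [hr x, hr y, hc, Int.cast_natCast, Int.cast_natCast, ← Sp6_abs]
  generalize (rkN c x - rkN c y) + (rkN c y - rkN c x) = d
  cases s
  · simp only [P2.sg, Bool.false_eq_true, if_false]
    push_cast
    rw [Prod.mk.injEq]
    constructor
    · rfl
    · ring
  · simp only [P2.sg, if_true]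
    push_cast
    rw [Prod.mk.injEq]
    constructor
    · rfl
    · ring

theorem bends_cDraw {n : ℕ} {c : Cand} (hn : c.1.length = n) (hnd : (pts c).Nodup)
    (h h1 h2 h3 h4) (x : ℕ) (r : List (Bool × ℕ)) (s : Bool) (y : ℕ) :
    (bendsN c x r s y).map decPt = P2.bendsOf (P2.pt (cDraw n c h h1 h2 h3 h4))
      (P2.pk (cDraw n c h h1 h2 h3 h4)) x r s y := by
  induction r generalizing x with
  | nil =>
    change [decPt (pkN (pts c).length (rkN c x) (rkN c y) s)] = _
    rw [pk_cDraw hn hnd h h1 h2 h3 h4]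
    rfl
  | cons q r ih =>
    obtain ⟨s₁, p⟩ := q
    change decPt (pkN (pts c).length (rkN c x) (rkN c p) s₁) :: decPt (ptO c p) ::
      (bendsN c p r s y).map decPt = _
    rw [pk_cDraw hn hnd h h1 h2 h3 h4, pt_cDraw hn hnd h h1 h2 h3 h4, ih p]
    rfl

end MP881e12
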