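import Pool.Agent.Lib.MP_881e12_lc.Sp3
import Pool.Agent.Lib.MP_881e12_lc.Sp6

namespace MP881e12

open MP60f107 Alg

/-- A valid candidate gives a polygonal drawing which is described by its output. -/
theorem cand_poly_proof {n : ℕ} (G : SimpleGraph (Fin n)) [DecidableRel G.Adj] (μ : List ℕ)
    (c : Cand) (h1 : c.1.length = n) (h2 : c.2.map Prod.fst = pairs n (matrixBits G) μ)
    (h3 : validB c = true) :
    ∃ D : PolyDrawing G, Describes (toOut c) D ∧ 2 * D.crossings ≤ cnt c := by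
  have hlt := lt_of_map h2
  have hN := cNet_rep G μ c h2 hlt
  unfold validB at h3
  rw [Bool.and_eq_true, List.all_eq_true] at h3
  obtain ⟨h4, h5⟩ := h3
  have hnd := (nodupB_iff _).mp h4
  obtain ⟨f1, f2, f3, f4⟩ := facts_of_nodup h1 hnd
  have hs : ∀ i, crL ((cDraw n c hlt f1 f2 f3 f4).path i)
      ((cDraw n c hlt f1 f2 f3 f4).path i) = 0 := by
    intro i
    rw [cDraw_path, ← crN_eq]
    exact of_decide_eq_true (h5 _ (List.getElem_mem _))
  have heb : ∀ i : Fin c.2.length,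
      (bendsN c (c.1.getD c.2[i].1.1 0) c.2[i].2.1 c.2[i].2.2 (c.1.getD c.2[i].1.2 0)).map decPt =
        P2.ebends (cDraw n c hlt f1 f2 f3 f4) i := by
    intro i
    rw [bends_cDraw h1 hnd hlt f1 f2 f3 f4]
    rfl
  refine ⟨P2.poly (cDraw n c hlt f1 f2 f3 f4) hN hs, ⟨?_, ?_, ?_⟩, ?_⟩
  · change (c.1.map (ptO c)).map decPt = _
    rw [List.map_map]
    refine List.ext_getElem ?_ ?_
    · rw [List.length_map, List.length_ofFn, h1]
    · intro k hk hk'
      rw [List.getElem_map, List.getElem_ofFn, Function.comp_apply,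
        pt_cDraw h1 hnd hlt f1 f2 f3 f4]
      have hk2 : k < c.1.length := by
        rw [List.length_map] at hk
        exact hk
      have e : c.1[k] = c.1.getD k 0 := (List.getD_eq_getElem _ _ hk2).symm
      rw [e]
      rfl
  · intro r hr
    change r ∈ c.2.map _ at hr
    rw [List.mem_map] at hr
    obtain ⟨r', hr', rfl⟩ := hr
    obtain ⟨k, hk, rfl⟩ := List.mem_iff_getElem.mp hr'
    refine ⟨(cNet n c hlt).src ⟨k, hk⟩, (cNet n c hlt).tgt ⟨k, hk⟩, ?_, rfl, ?_⟩
    · exact (hN.adj _ _).mpr ⟨⟨k, hk⟩, rfl⟩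
    · have h6 := P2.gbends_fwd (cDraw n c hlt f1 f2 f3 f4) hN.simple ⟨k, hk⟩
      change _ = P2.gbends (cDraw n c hlt f1 f2 f3 f4) _ _
      rw [h6]
      exact heb ⟨k, hk⟩
  · intro a b hab
    obtain ⟨i, hi⟩ := (hN.adj a b).mp hab
    refine ⟨(c.2[i].1, bendsN c (c.1.getD c.2[i].1.1 0) c.2[i].2.1 c.2[i].2.2
      (c.1.getD c.2[i].1.2 0)), ?_, ?_⟩
    · exact List.mem_map.mpr ⟨c.2[i], List.getElem_mem _, rfl⟩
    · rw [Sym2.eq_iff] at hi
      rcases hi with ⟨e1, e2⟩ | ⟨e1, e2⟩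
      · left
        have e1' := congrArg Fin.val e1
        have e2' := congrArg Fin.val e2
        exact Prod.ext e1' e2'
      · right
        have e1' := congrArg Fin.val e1
        have e2' := congrArg Fin.val e2
        exact Prod.ext e1' e2'
  · rw [cnt_eq hlt f1 f2 f3 f4]
    exact P2.two_crossings_le (cDraw n c hlt f1 f2 f3 f4) hN hs

end MP881e12
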