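import Pool.Agent.Lib.MP_881e12_lc.Core

namespace MP881e12

open MP60f107 Alg

theorem sp9_levels (n : ℕ) (w : List Bool) (bs : List Bool) :
    ∀ j : ℕ, bs.foldl (fun acc _ => stepL n w (acc.headD (List.replicate n 0)) :: acc)
      ((List.range (j + 1)).reverse.map (labT n w)) =
      (List.range (j + 1 + bs.length)).reverse.map (labT n w) := by
  induction bs with
  | nil => intro j; rfl
  | cons b bs ih =>
    intro j
    rw [List.foldl_cons]
    have h1 : ((List.range (j + 1)).reverse.map (labT n w)).headD (List.replicate n 0) =
        labT n w j := by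
      rw [List.range_succ, List.reverse_append]
      rfl
    have h2 : stepL n w (((List.range (j + 1)).reverse.map (labT n w)).headD
        (List.replicate n 0)) :: (List.range (j + 1)).reverse.map (labT n w) =
        (List.range (j + 1 + 1)).reverse.map (labT n w) := by
      rw [h1, List.range_succ (n := j + 1), List.reverse_append]
      rfl
    rw [h2, ih (j + 1), List.length_cons]
    congr 3
    omega

theorem mem_cands_proof (n : ℕ) (w : List Bool) {t m c : ℕ}
    (ht : t ≤ (Computability.encodeNat n).length) (hm : m < n) (hc : c < n) :
    candR n w (labT n w t) m (rowsOf (Computability.encodeNat c)) ∈ cands n w := by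
  unfold cands
  rw [List.mem_flatMap]
  refine ⟨labT n w t, ?_, ?_⟩
  · unfold levels
    have h0 : [List.replicate n 0] = (List.range (0 + 1)).reverse.map (labT n w) := rfl
    rw [h0, sp9_levels, List.mem_map]
    refine ⟨t, ?_, rfl⟩
    rw [List.mem_reverse, List.mem_range]
    omega
  · rw [List.mem_flatMap]
    refine ⟨m, List.mem_range.2 hm, ?_⟩
    rw [List.mem_map]
    exact ⟨c, List.mem_range.2 hc, rfl⟩

theorem sp9_pos (p : PosNum) : (p : ℕ) < 2 ^ (Computability.encodePosNum p).length := by
  induction p with
  | one =>
    change (1 : ℕ) < 2 ^ 1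
    norm_num
  | bit0 p ih =>
    have h1 : (Computability.encodePosNum (PosNum.bit0 p)).length =
        (Computability.encodePosNum p).length + 1 := rfl
    rw [h1, PosNum.cast_bit0, pow_succ]
    omega
  | bit1 p ih =>
    have h1 : (Computability.encodePosNum (PosNum.bit1 p)).length =
        (Computability.encodePosNum p).length + 1 := rfl
    rw [h1, PosNum.cast_bit1, pow_succ]
    omega

theorem length_encodeNat_ge_proof {n t : ℕ} (h : 2 ^ t ≤ n) :
    t ≤ (Computability.encodeNat n).length := by
  have h1 : n < 2 ^ (Computability.encodeNat n).length := by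
    have h2 : ∀ m : Num, (m : ℕ) < 2 ^ (Computability.encodeNum m).length := by
      intro m
      cases m with
      | zero =>
        change (0 : ℕ) < 2 ^ 0
        norm_num
      | pos p => exact sp9_pos p
    have h3 := h2 (n : Num)
    rw [Num.to_of_nat] at h3
    exact h3
  have h2 : 2 ^ t < 2 ^ (Computability.encodeNat n).length := h.trans_lt h1
  exact ((Nat.pow_lt_pow_iff_right (by norm_num)).1 h2).le

end MP881e12
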