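import Pool.Agent.Lib.MP_881e12_lc.Fp14
import Pool.Agent.Lib.MP_881e12_lc.Sp7
import Pool.Agent.Lib.MP_881e12_lc.Sp8
import Pool.Agent.Lib.MP_881e12_lc.Sp9
import Pool.Agent.Lib.MP_881e12_lc.Sp10
import Pool.Agent.Lib.MP_881e12_lc.Sp11
import Pool.Agent.Lib.MP_881e12_lc.Rg7
import Pool.Agent.Lib.MP_881e12_lc.Ad4
import Pool.Agent.Lib.MP_881e12_lc.Ad5
import Pool.Agent.Lib.MP_881e12_lc.Bl11
import Pool.Agent.Lib.MP_881e12_lc.TA.F6

/-!
The interface: the main statements of the parts.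
-/

namespace MP881e12

open MP60f107 Finset Alg

/-! ### the algorithm -/

theorem isPolyTime_alg : N68a2faeb.IsPolyTime alg :=
  isPolyTime_alg_proof

theorem nOf_matrixBits {n : ℕ} (G : SimpleGraph (Fin n)) [DecidableRel G.Adj] :
    nOf (matrixBits G) = n :=
  nOf_matrixBits_proof G

theorem cand_poly {n : ℕ} (G : SimpleGraph (Fin n)) [DecidableRel G.Adj] (μ : List ℕ) (c : Cand)
    (h1 : c.1.length = n) (h2 : c.2.map Prod.fst = pairs n (matrixBits G) μ)
    (h3 : validB c = true) :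
    ∃ D : PolyDrawing G, Describes (toOut c) D ∧ 2 * D.crossings ≤ cnt c :=
  cand_poly_proof G μ c h1 h2 h3

theorem choose_spec {n : ℕ} (G : SimpleGraph (Fin n)) [DecidableRel G.Adj] :
    validB (choose n (matrixBits G)) = true ∧
    (∃ μ, (choose n (matrixBits G)).1.length = n ∧
      (choose n (matrixBits G)).2.map Prod.fst = pairs n (matrixBits G) μ) ∧
    ∀ c ∈ cands n (matrixBits G), validB c = true → cnt (choose n (matrixBits G)) ≤ cnt c :=
  choose_spec_proof G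

theorem mem_cands (n : ℕ) (w : List Bool) {t m c : ℕ}
    (ht : t ≤ (Computability.encodeNat n).length) (hm : m < n) (hc : c < n) :
    candR n w (labT n w t) m (rowsOf (Computability.encodeNat c)) ∈ cands n w :=
  mem_cands_proof n w ht hm hc

theorem length_encodeNat_ge {n t : ℕ} (h : 2 ^ t ≤ n) : t ≤ (Computability.encodeNat n).length :=
  length_encodeNat_ge_proof h

theorem exists_code (rows : List (List ℕ)) : ∃ c, rowsOf (Computability.encodeNat c) = rows :=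
  exists_code_proof rows

/-! ### blow-up -/

theorem blow_up {n K : ℕ} (G : SimpleGraph (Fin n)) [DecidableRel G.Adj] (μ : List ℕ)
    (h1 : μ.length = n) (h2 : ∀ x < n, μ.getD x 0 < K) (T : Drawing (KNet K) ℕ) (hT : Normal T) :
    validB (cand n (matrixBits G) K μ (tplRows T)) = true ∧
    cnt (cand n (matrixBits G) K μ (tplRows T)) ≤
      (∑ π : KE K, ∑ π' : KE K, if π = π' then 0 else
        eC G (cl (labF n μ) π.1.1) (cl (labF n μ) π.1.2) *
        eC G (cl (labF n μ) π'.1.1) (cl (labF n μ) π'.1.2) * crL (T.path π) (T.path π')) +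
      ∑ a ∈ range K, ((cl (labF n μ) a).card * n) ^ 2 :=
  blow_up_proof G μ h1 h2 T hT

/-! ### regularity -/

theorem labT_lt (n : ℕ) (w : List Bool) (t : ℕ) {x : ℕ} (hx : x < n) :
    (labT n w t).getD x 0 < 2 ^ t :=
  labT_lt_proof n w t hx

theorem reg_main (ε : ℝ) (hε : 0 < ε) : ∃ T n₀ : ℕ, ∀ n ≥ n₀, ∀ (G : SimpleGraph (Fin n))
    [DecidableRel G.Adj], ∃ t ≤ T, OneReg G (labF n (labT n (matrixBits G) t)) (2 ^ t) ε :=
  reg_main_proof ε hε

theorem length_advL (n : ℕ) (l : List ℕ) (m : ℕ) (adv : List ℕ) : (advL n l m adv).length = n :=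
  length_advL_proof n l m adv

/-- Advice: the classes of `U` are imitated by unions of subclasses. -/
theorem exists_adv {n : ℕ} (l : List ℕ) {m k R : ℕ} (hm : 0 < m) (hR : 0 < R)
    (hl : ∀ x < n, l.getD x 0 < k) (U : Fin n → ℕ) (hU : ∀ x, U x < R) :
    ∃ adv : List ℕ, adv.length = k * m ∧ (∀ a ∈ adv, a < R) ∧
      (∀ x < n, (advL n l m adv).getD x 0 < R) ∧
      ∀ r < R, ∑ i ∈ range k, |((cl (labF n (advL n l m adv)) r ∩ cl (labF n l) i).card : ℝ) -
        ((cl U r ∩ cl (labF n l) i).card : ℝ)| ≤ R * n / m + k * m :=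
  exists_adv_proof l hm hR hl U hU

/-- The numbers of edges between the classes are imitated too. -/
theorem eC_adv {n : ℕ} (G : SimpleGraph (Fin n)) {lam : Fin n → ℕ} {k : ℕ} (hlam : ∀ x, lam x < k)
    {ε : ℝ} (hG : OneReg G lam k ε) (A A' B B' : Finset (Fin n)) {η : ℝ}
    (hA : ∑ i ∈ range k, |((A' ∩ cl lam i).card : ℝ) - ((A ∩ cl lam i).card : ℝ)| ≤ η)
    (hB : ∑ i ∈ range k, |((B' ∩ cl lam i).card : ℝ) - ((B ∩ cl lam i).card : ℝ)| ≤ η) :
    |(eC G A' B' : ℝ) - eC G A B| ≤ 4 * ε * n ^ 2 + 2 * η * n :=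
  eC_adv_proof G hlam hG A A' B B' hA hB

theorem sum_eC_le {n : ℕ} (G : SimpleGraph (Fin n)) (μ : Fin n → ℕ) (K : ℕ) :
    ∑ π : KE K, eC G (cl μ π.1.1) (cl μ π.1.2) ≤ n ^ 2 :=
  sum_eC_le_proof G μ K

/-! ### templates -/

theorem exists_template (ε : ℝ) (hε : 0 < ε) : ∃ R n₀ : ℕ, 0 < R ∧
    ∀ n ≥ n₀, ∀ (G : SimpleGraph (Fin n)), ∃ (U : Fin n → ℕ) (L : Type) (_ : LinearOrder L)
      (T : Drawing (KNet R) L), (∀ x, U x < R) ∧ (∀ r, ((cl U r).card : ℝ) ≤ ε * n + 1) ∧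
      Normal T ∧ (∀ π π', π ≠ π' → crL (T.path π) (T.path π') ≤ 1) ∧
      (∑ π : KE R, ∑ π' : KE R, if π = π' then 0 else
        eC G (cl U π.1.1) (cl U π.1.2) * eC G (cl U π'.1.1) (cl U π'.1.2) *
          crL (T.path π) (T.path π') : ℕ) ≤ (2 * cr G + ε * n ^ 4 : ℝ) :=
  TA.exists_template_proof ε hε

theorem exists_nat {V ι : Type} [Finite V] [Finite ι] {N : Net V ι} {L : Type} [LinearOrder L]
    (T : Drawing N L) (hT : Normal T) : ∃ T' : Drawing N ℕ, Normal T' ∧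
      ∀ i j, crL (T'.path i) (T'.path j) = crL (T.path i) (T.path j) :=
  exists_nat_proof T hT

end MP881e12
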