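import Pool.Agent.Lib.MP_881e12_lc.Final

/-!
The main theorem for topological drawings.
-/

namespace MP881e12

open MP60f107

theorem polyline_eq (p : Plane) (l : List Plane) (q : Plane) :
    polyline (p :: (l ++ [q])) = {x | ∃ s ∈ consec (p :: (l ++ [q])), x ∈ segment ℝ s.1 s.2} := by
  induction l generalizing p with
  | nil =>
    ext x
    simp only [List.nil_append, polyline, consec, Set.mem_union, Set.mem_singleton_iff,
      List.mem_singleton, Set.mem_ofPred_eq, exists_eq_left]
    constructor
    · rintro (h | rfl)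
      · exact h
      · exact right_mem_segment ℝ _ _
    · exact Or.inl
  | cons b l ih =>
    have h : p :: (b :: l ++ [q]) = p :: b :: (l ++ [q]) := rfl
    rw [h]
    show segment ℝ p b ∪ polyline (b :: (l ++ [q])) = _
    rw [ih b]
    ext x
    simp [consec]

theorem isDrawingOf_top {n : ℕ} {G : SimpleGraph (Fin n)} {o : Output} {D : PolyDrawing G}
    (h : Describes o D) : IsDrawingOf o (T3.top D) where
  positions := h.positions
  sound r hr := by
    obtain ⟨a, b, h1, h2, h3⟩ := h.sound r hr
    refine ⟨a, b, h1, h2, ?_⟩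
    rw [h3, polyline_eq]
    rfl
  complete := h.complete

/-- The main theorem, for the crossing number of topological drawings. -/
theorem main_top : ∃ (f : List Bool → List Bool) (ε : ℕ → ℝ), N68a2faeb.IsPolyTime f ∧
    Filter.Tendsto (fun n => ε n / (n : ℝ) ^ 4) Filter.atTop (nhds 0) ∧
    ∀ (n : ℕ) (G : SimpleGraph (Fin n)) [DecidableRel G.Adj], ∃ (o : Output) (D : TopDrawing G),
      f (matrixBits G) = N487b59b3.bitEncode o ∧ IsDrawingOf o D ∧
      (D.crossings : ℝ) ≤ topCrossingNumber G + ε n := by
  obtain ⟨f, ε, h1, h2, h3⟩ := main_theorem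
  refine ⟨f, ε, h1, h2, fun n G _ => ?_⟩
  obtain ⟨o, D, h4, h5, h6⟩ := h3 n G
  refine ⟨o, T3.top D, h4, isDrawingOf_top h5, ?_⟩
  have h7 : (T3.top D).crossings = D.crossings := by
    rw [TopDrawing.crossings, PolyDrawing.crossings, T3.top_crossingSet]
  rw [← (cr_eq G).1, h7]
  exact h6

end MP881e12
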