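import Pool.Agent.Lib.MP_881e12_lc.Core

namespace MP881e12

open MP60f107
open MP60f107.Contr (sh pr ht mk)

theorem par1_bs {L : Type} [LinearOrder L] (a b : L ×ₗ ℤ) (m : ℤ) (r : List (Bool × L)) (s : Bool) :
    (arcs a (sh m r) s b).map Contr.bs = arcs (pr a) r s (pr b) := by
  have := Contr.arcs_map (pr (L := L)) a (sh m r) s b
  rw [Contr.sh_pr] at this
  exact this

/-- The first arc of a copy does not cross the rest of another copy. -/
theorem par1_first {L : Type} [LinearOrder L] {s₁ : Bool} {p a0 : L} {r : List (Bool × L)} {s : Bool}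
    {b₀ : L} (halt : Alt ((s₁, p) :: r) s)
    (hz : crL (arcs a0 ((s₁, p) :: r) s b₀) (arcs a0 ((s₁, p) :: r) s b₀) = 0)
    (hnd : (a0 :: p :: (r.map Prod.snd ++ [b₀])).Nodup) (a : L ×ₗ ℤ) (ha : pr a = a0)
    (b : L ×ₗ ℤ) (hb : pr b = b₀) (m m' : ℤ) :
    crL [(⟨a, mk p m, s₁⟩ : Arc (L ×ₗ ℤ))] (arcs (mk p m') (sh (-m') r) s b) = 0 := by
  cases r with
  | nil =>
    have h : s₁ ≠ s := halt
    simp [sh, crL, X, h]
  | cons x r =>
    obtain ⟨s₂, p₂⟩ := x
    have h : s₁ ≠ s₂ := halt.1
    change crL _ (⟨mk p m', mk p₂ (-m'), s₂⟩ :: arcs (mk p₂ (-m')) (sh (- -m') r) s b) = 0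
    rw [Contr.crL_cons_right]
    have e1 : crL [(⟨a, mk p m, s₁⟩ : Arc (L ×ₗ ℤ))] [⟨mk p m', mk p₂ (-m'), s₂⟩] = 0 := by
      simp [crL, X, h]
    rw [e1, zero_add]
    refine Nat.le_zero.mp ((Contr.crL_le _ _).trans ?_)
    rw [par1_bs, hb]
    have e2 : crL ([(⟨a, mk p m, s₁⟩ : Arc (L ×ₗ ℤ))].map Contr.bs) (arcs p₂ r s b₀) = 0 := by
      rw [Contr.crL_eq_zero_iff] at hz ⊢
      intro A hA B hB
      simp only [List.map_cons, List.map_nil, List.mem_singleton] at hA
      subst hA
      refine hz _ ?_ _ ?_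
      · simp [arcs, Contr.bs, ha]
      · simp [arcs, hB]
    simp only [List.map_cons, List.cons_append, List.nodup_cons, List.mem_cons, List.mem_append,
      List.mem_map, not_or] at hnd
    obtain ⟨⟨-, h1, h2, h3⟩, ⟨h4, h5, h6⟩, -⟩ := hnd
    have e3 : Contr.DL [(⟨a, mk p m, s₁⟩ : Arc (L ×ₗ ℤ))] (arcs (mk p₂ (-m')) (sh (- -m') r) s b)
        = 0 := by
      change Contr.DL (arcs a [] s₁ (mk p m)) (arcs _ _ _ _) = 0
      rw [Contr.DL_arcs_of_ne]
      · rw [Contr.dl_of_ne, Contr.dl_of_ne, Contr.dl_of_ne, Contr.dl_of_ne]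
        · simpa [hb] using h6.1
        · simpa using h4
        · simpa [ha, hb] using h3.1
        · simpa [ha] using h1
      · simp
      · simp
      · intro y hy
        have := (Contr.mem_sh hy).1
        constructor
        · intro h7
          exact h2 ⟨_, this, by rw [← ha, h7]⟩
        · intro h7
          exact h5 ⟨_, this, by rw [← h7]; simp⟩
    rw [Contr.pr_mk, e2, e3]

/-- ROW Par1 (120 lines).  Parallel copies of a chain, with arbitrary ends over the same point.

`Contr.sh m r` (CrDraw1.lean, section `copies`) is the list of the inner points `r` at the heights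
`m, -m, m, ...` in `L ×ₗ ℤ`.  Let the base chain `arcs a₀ r s b₀` be alternating, without self
crossings, with distinct points.  Two copies which start at points `a`, `a'` over `a₀`, either equal or at
the heights `-m`, `-m'`, and end at points `b`, `b'` over `b₀`, cross at most once, and not at all if
`b = b'`.

Proof: induction on `r` as in `Contr.cp_cross` (which is the case `b = mk b₀ (shE m r)`; copy and adapt).
`r = []`: one arc against one arc; if `a = a'` or `b = b'` they have a common end, so `X = 0`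
(`Nrm.ilv_same` and symmetries, or unfold `X Ilv Btw Ots`); otherwise `X ≤ 1` and `b ≠ b'`.
`r = (s₁, p) :: r`: the first arcs do not cross (`Contr.nested`); the first arc of one copy does not cross
the rest of the other: this is `Contr.first_zero` with an arbitrary last point over `b₀` (copy its proof:
the pages differ for the next arc, for the others use `Contr.crL_le`, `Contr.DL_arcs_of_ne` and that the
base chain does not cross itself); the rests: induction hypothesis with `-m`, `-m'`
(start points `mk p m`, `mk p m'`). -/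
theorem par_cross0 {L : Type} [LinearOrder L] {r : List (Bool × L)} {s : Bool} {b₀ : L} :
    ∀ {a₀ : L} (_ : Alt r s) (_ : crL (arcs a₀ r s b₀) (arcs a₀ r s b₀) = 0)
    (_ : (a₀ :: (r.map Prod.snd ++ [b₀])).Nodup) (a a' b b' : L ×ₗ ℤ) (_ : pr a = a₀)
    (_ : pr a' = a₀) (_ : pr b = b₀) (_ : pr b' = b₀) (m m' : ℤ)
    (_ : a = a' ∨ (ht a = -m ∧ ht a' = -m')),
    crL (arcs a (sh m r) s b) (arcs a' (sh m' r) s b') ≤ if b = b' then 0 else 1 := by
  induction r with
  | nil =>
    intro a₀ halt hz hnd a a' b b' ha ha' hb hb' m m' h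
    change crL [_] [_] ≤ _
    simp only [crL, List.map_cons, List.map_nil, List.sum_cons, List.sum_nil, add_zero]
    split_ifs with hbb
    · subst hbb
      unfold X
      rw [if_neg]
      rintro ⟨-, h1⟩
      unfold Ilv MP60f107.Btw MP60f107.Ots at h1
      simp only [lt_irrefl, false_and, and_false, or_false, false_or, or_self] at h1
    · exact Contr.X_le_one _ _
  | cons x r ih =>
    obtain ⟨s₁, p⟩ := x
    intro a₀ halt hz hnd a a' b b' ha ha' hb hb' m m' h
    change crL (⟨a, mk p m, s₁⟩ :: arcs (mk p m) (sh (-m) r) s b)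
      (⟨a', mk p m', s₁⟩ :: arcs (mk p m') (sh (-m') r) s b') ≤ _
    have hnd' : (a₀ :: p :: (r.map Prod.snd ++ [b₀])).Nodup := hnd
    have hap : a₀ ≠ p := by
      simp only [List.nodup_cons, List.mem_cons, not_or] at hnd'
      exact hnd'.1.1
    rw [Contr.crL_cons_left, Contr.crL_cons_right _ _ (arcs _ _ _ _),
      Contr.crL_cons_right (arcs _ _ _ _)]
    have e1 : crL [(⟨a, mk p m, s₁⟩ : Arc (L ×ₗ ℤ))] [⟨a', mk p m', s₁⟩] = 0 := by
      simp only [crL, List.map_cons, List.map_nil, List.sum_cons, List.sum_nil, add_zero]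
      exact Contr.nested hap a a' ha ha' h _ _
    have e2 := par1_first halt hz hnd' a ha b' hb' m m'
    have e3 := par1_first halt hz hnd' a' ha' b hb m' m
    rw [Contr.crL_comm] at e3
    have e4 : crL (arcs (mk p m) (sh (-m) r) s b) (arcs (mk p m') (sh (-m') r) s b') ≤
        if b = b' then 0 else 1 := by
      refine ih (a₀ := p) ?_ ?_ ?_ _ _ _ _ (Contr.pr_mk _ _) (Contr.pr_mk _ _) hb hb' _ _
        (Or.inr ⟨by simp, by simp⟩)
      · cases r with
        | nil => exact trivial
        | cons y r => exact halt.2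
      · rw [Contr.crL_eq_zero_iff] at hz ⊢
        intro A hA B hB
        exact hz A (by simp [arcs, hA]) B (by simp [arcs, hB])
      · exact (List.nodup_cons.mp hnd').2
    rw [e1, e2, e3]
    simpa using e4

end MP881e12
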