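import Pool.Agent.Lib.MP_60f107_co.CrStatement
import Pool.Prelude.Def_H_3587d628

/-!
Input and output of the algorithm, and the drawing described by the output.
-/

namespace MP881e12

open MP60f107

/-- The input: the entries of the adjacency matrix of `G`, row after row. -/
def matrixBits {n : ℕ} (G : SimpleGraph (Fin n)) [DecidableRel G.Adj] : List Bool :=
  (List.finRange n).flatMap fun x => (List.finRange n).map fun y => decide (G.Adj x y)

/-- The output: the code of the position of each vertex, and for each edge its two end points and
the codes of its bends. -/
abbrev Output : Type := List (ℕ × (ℕ × ℕ)) × List ((ℕ × ℕ) × List (ℕ × (ℕ × ℕ)))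

/-- The point of the plane with the code `(a, (b, c))`: it is `(a / 2, (b - c) / 2)`. -/
noncomputable def decPt (c : ℕ × (ℕ × ℕ)) : Plane := ((c.1 : ℝ) / 2, ((c.2.1 : ℝ) - c.2.2) / 2)

/-- The polygonal line through the points of a list: the union of the segments between consecutive
points. -/
def polyline : List Plane → Set Plane
  | [] => ∅
  | [p] => {p}
  | p :: q :: r => segment ℝ p q ∪ polyline (q :: r)

/-- The output `o` describes the drawing `D` of `G`: the first list contains the codes of the
positions of the vertices in their order; every record `((a, b), l)` of the second list is an edge `ab`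
of `G`, and its curve in `D` is the polygonal line from `a` to `b` through the points with the codes
in `l`; every edge is recorded, in one direction at least. -/
structure IsDrawingOf {n : ℕ} {G : SimpleGraph (Fin n)} (o : Output) (D : TopDrawing G) : Prop where
  positions : o.1.map decPt = List.ofFn D.pos
  sound : ∀ r ∈ o.2, ∃ a b : Fin n, G.Adj a b ∧ r.1 = (a.val, b.val) ∧
    D.arc s(a, b) = polyline (D.pos a :: (r.2.map decPt ++ [D.pos b]))
  complete : ∀ a b : Fin n, G.Adj a b → ∃ r ∈ o.2, r.1 = (a.val, b.val) ∨ r.1 = (b.val, a.val)

end MP881e12
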