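import Pool.Agent.Lib.MP_881e12_lc.RgDef

namespace MP881e12

open MP60f107 Finset Alg

/-- ROW Rg1 (80 lines, three theorems).  Averages are orthogonal projections.

`sum_av_mul`: if `h` is constant on the classes, then `∑ x, av lam f x * h x = ∑ x, f x * h x`.  Proof: write
both sides as a double sum over pairs `(x, z)` with `lam x = lam z`:
`∑ x, (∑ z ∈ cl lam (lam x), f z) / |cl lam (lam x)| * h x = ∑ z, f z * ∑ x ∈ cl lam (lam z), h x / |cl lam
(lam z)|` (`Finset.sum_comm'`; `x ∈ cl lam (lam z) ↔ z ∈ cl lam (lam x)`, and then the classes are equal),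
and the inner sum is `h z` (`h x = h z` on the class, which is nonempty: `|cl| * (h z / |cl|) = h z`).
`sum_av_sq`: `∑ x, av f x ^ 2 = ∑ x, f x * av f x` (take `h = av lam f`, constant on classes; `sq`).
`sum_gr`: for `h` constant on the classes `∑ x, gr G lam y x * h x = 0`. -/
theorem sum_av_mul {n : ℕ} (lam : Fin n → ℕ) (f h : Fin n → ℝ)
    (hh : ∀ x z, lam x = lam z → h x = h z) : ∑ x, av lam f x * h x = ∑ x, f x * h x := by
  have h1 : ∀ x, av lam f x * h x =
      ∑ z, if lam z = lam x then f z * h z / ((cl lam (lam z)).card : ℝ) else 0 := by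
    intro x
    unfold av
    rw [div_mul_eq_mul_div, Finset.sum_mul, Finset.sum_div, ← Finset.sum_filter]
    refine Finset.sum_congr rfl ?_
    intro z hz
    have hz' : lam z = lam x := (Finset.mem_filter.1 hz).2
    rw [hz', hh x z hz'.symm]
  simp_rw [h1]
  rw [Finset.sum_comm]
  refine Finset.sum_congr rfl ?_
  intro z _
  rw [← Finset.sum_filter, Finset.sum_const]
  have h2 : Finset.univ.filter (fun x => lam z = lam x) = cl lam (lam z) := by
    ext x
    simp [cl, eq_comm]
  have h3 : z ∈ cl lam (lam z) := Finset.mem_filter.2 ⟨Finset.mem_univ _, rfl⟩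
  have h4 : ((cl lam (lam z)).card : ℝ) ≠ 0 := by
    exact_mod_cast (Finset.card_pos.2 ⟨z, h3⟩).ne'
  rw [h2, nsmul_eq_mul]
  field_simp

theorem sum_av_sq {n : ℕ} (lam : Fin n → ℕ) (f : Fin n → ℝ) :
    ∑ x, av lam f x ^ 2 = ∑ x, f x * av lam f x := by
  rw [← sum_av_mul lam f (av lam f) (fun x z hxz => by unfold av; rw [hxz])]
  exact Finset.sum_congr rfl fun x _ => sq _

theorem sum_gr {n : ℕ} (G : SimpleGraph (Fin n)) (lam : Fin n → ℕ) (y : Fin n) (h : Fin n → ℝ)
    (hh : ∀ x z, lam x = lam z → h x = h z) : ∑ x, gr G lam y x * h x = 0 := by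
  unfold gr
  simp_rw [sub_mul]
  rw [Finset.sum_sub_distrib, sum_av_mul lam (nb G y) h hh, sub_self]

end MP881e12
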