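import Pool.Agent.Lib.MP_881e12_lc.Rg1

namespace MP881e12

open MP60f107 Finset Alg

/-- ROW Rg2 (110 lines).  Gain of energy of one function under refinement.

Let `lam'` refine `lam` (`lam' x = lam' z → lam x = lam z`), `h` constant on the classes of `lam'` with
`∑ x, h x * u x = 0` for every `u` constant on the classes of `lam`.  With `g = f - av lam f`:
`(∑ g h)² ≤ (∑ h²) * (∑ (av lam' f)² - ∑ (av lam f)²)`.
Proof: let `p = av lam' f`, `q = av lam f`; both are constant on the classes of `lam'` (for `q` by the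
refinement).  `∑ p q = ∑ f q = ∑ q²` (`sum_av_mul` for `lam'` with `h = q`, then `sum_av_sq` for `lam`),
so `∑ (p - q)² = ∑ p² - ∑ q²`.  `∑ g h = ∑ f h - ∑ q h = ∑ p h - 0` where `∑ f h = ∑ p h` by `sum_av_mul` for
`lam'`, and `∑ q h = 0` by hypothesis (`u = q`); also `∑ p h = ∑ (p - q) h`.  Cauchy-Schwarz
(`Finset.sum_mul_sq_le_sq_mul_sq` or `inner_mul_le_norm_mul_norm`). -/
theorem av_gain {n : ℕ} (lam lam' : Fin n → ℕ) (href : ∀ x z, lam' x = lam' z → lam x = lam z)
    (f h : Fin n → ℝ) (h1 : ∀ x z, lam' x = lam' z → h x = h z)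
    (h2 : ∀ u : Fin n → ℝ, (∀ x z, lam x = lam z → u x = u z) → ∑ x, h x * u x = 0) :
    (∑ x, (f x - av lam f x) * h x) ^ 2 ≤
      (∑ x, h x ^ 2) * (∑ x, av lam' f x ^ 2 - ∑ x, av lam f x ^ 2) := by
  have hq : ∀ x z, lam x = lam z → av lam f x = av lam f z := by
    intro x z hxz
    unfold av
    rw [hxz]
  have hq' : ∀ x z, lam' x = lam' z → av lam f x = av lam f z := fun x z hxz =>
    hq x z (href x z hxz)
  -- `∑ p q = ∑ q²`
  have e1 : ∑ x, av lam' f x * av lam f x = ∑ x, av lam f x ^ 2 := by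
    rw [sum_av_mul lam' f (av lam f) hq', sum_av_sq lam f]
  have e2 : ∑ x, (av lam' f x - av lam f x) ^ 2 =
      ∑ x, av lam' f x ^ 2 - ∑ x, av lam f x ^ 2 := by
    have e3 : ∀ x, (av lam' f x - av lam f x) ^ 2 =
        av lam' f x ^ 2 - 2 * (av lam' f x * av lam f x) + av lam f x ^ 2 := fun x => by ring
    rw [Finset.sum_congr rfl fun x _ => e3 x, Finset.sum_add_distrib, Finset.sum_sub_distrib,
      ← Finset.mul_sum, e1]
    ring
  have e4 : ∑ x, av lam f x * h x = 0 := by
    rw [← h2 (av lam f) hq]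
    exact Finset.sum_congr rfl fun x _ => mul_comm _ _
  have e5 : ∑ x, (f x - av lam f x) * h x = ∑ x, (av lam' f x - av lam f x) * h x := by
    have e6 := sum_av_mul lam' f h h1
    have e7 : ∀ g : Fin n → ℝ, ∑ x, (g x - av lam f x) * h x =
        ∑ x, g x * h x - ∑ x, av lam f x * h x := by
      intro g
      rw [← Finset.sum_sub_distrib]
      exact Finset.sum_congr rfl fun x _ => by ring
    rw [e7 f, e7 (av lam' f), e6]
  rw [e5, ← e2]
  have e8 := Finset.sum_mul_sq_le_sq_mul_sq Finset.univ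
    (fun x => av lam' f x - av lam f x) h
  rw [mul_comm (∑ x, h x ^ 2)]
  exact e8

end MP881e12
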