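import Pool.Agent.Lib.MP_881e12_lc.RgDef

namespace MP881e12

open MP60f107 Finset Alg

/-- the number of adjacent pairs as a double sum -/
theorem Rg3_eC {n : ℕ} (G : SimpleGraph (Fin n)) (A W : Finset (Fin n)) :
    (eC G A W : ℝ) = ∑ x ∈ A, ∑ y ∈ W, nb G y x := by
  classical
  unfold eC
  rw [Finset.card_filter, Finset.sum_product]
  push_cast
  refine Finset.sum_congr rfl fun x _ => Finset.sum_congr rfl fun y _ => ?_
  unfold nb
  by_cases h : G.Adj x y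
  · rw [if_pos h, if_pos h.symm]
  · rw [if_neg h, if_neg fun h' => h h'.symm]

/-- the difference in the definition of regularity as a double sum of residuals -/
theorem Rg3_diff {n : ℕ} (G : SimpleGraph (Fin n)) {lam : Fin n → ℕ} {k : ℕ}
    (hlam : ∀ x, lam x < k) (A W : Finset (Fin n)) :
    (eC G A W : ℝ) - ∑ i ∈ range k, ((A ∩ cl lam i).card : ℝ) * eC G (cl lam i) W /
      (cl lam i).card = ∑ x ∈ A, ∑ y ∈ W, gr G lam y x := by
  classical
  have h1 : ∀ x, ∑ y ∈ W, av lam (nb G y) x =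
      (eC G (cl lam (lam x)) W : ℝ) / (cl lam (lam x)).card := by
    intro x
    unfold av
    rw [← Finset.sum_div, Rg3_eC, Finset.sum_comm]
  have h2 : ∑ i ∈ range k, ((A ∩ cl lam i).card : ℝ) * eC G (cl lam i) W / (cl lam i).card =
      ∑ x ∈ A, (eC G (cl lam (lam x)) W : ℝ) / (cl lam (lam x)).card := by
    rw [← Finset.sum_fiberwise_of_maps_to (s := A) (t := range k) (g := lam)
      (fun x _ => Finset.mem_range.2 (hlam x))]
    refine Finset.sum_congr rfl fun i _ => ?_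
    have h3 : A.filter (fun x => lam x = i) = A ∩ cl lam i := by
      ext x; simp [cl]
    rw [h3]
    have h4 : ∑ x ∈ A ∩ cl lam i, (eC G (cl lam (lam x)) W : ℝ) / (cl lam (lam x)).card =
        ∑ x ∈ A ∩ cl lam i, (eC G (cl lam i) W : ℝ) / (cl lam i).card := by
      refine Finset.sum_congr rfl fun x hx => ?_
      have : lam x = i := by
        have := (Finset.mem_inter.1 hx).2
        simpa [cl] using this
      rw [this]
    rw [h4, Finset.sum_const, nsmul_eq_mul, mul_div_assoc]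
  rw [h2, Rg3_eC, ← Finset.sum_sub_distrib]
  refine Finset.sum_congr rfl fun x _ => ?_
  rw [← h1, ← Finset.sum_sub_distrib]
  rfl

/-- ROW Rg3 (130 lines).  If the labelling is not regular then the Gram matrix of the residuals has a
heavy row.

Proof.  `¬ OneReg` gives `A, W` with `|e(A, W) - ∑ i ∈ range k, |A ∩ V_i| e(V_i, W) / |V_i|| > ε n²`.
First, this difference is `S = ∑ y ∈ W, ∑ x ∈ A, gr G lam y x`:
`eC G A W = ∑ y ∈ W, ∑ x ∈ A, nb G y x` (card of a filtered product as a double sum; symmetry of `Adj`) and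
`∑ y ∈ W, ∑ x ∈ A, av lam (nb G y) x = ∑ i ∈ range k, |A ∩ V_i| * (∑ y ∈ W, ∑ z ∈ V_i, nb G y z) / |V_i|`
(split `A` into the sets `A ∩ V_i`, `i < k`, by `hlam`: `Finset.sum_fiberwise_of_maps_to`; on `V_i` the
average is `(∑ z ∈ V_i, nb G y z) / |V_i|`), and `∑ y ∈ W, ∑ z ∈ V_i, nb G y z = eC G V_i W`.
Second, with `s x = ∑ y ∈ W, gr G lam y x`: `S² = (∑ x ∈ A, s x)² ≤ |A| ∑ x ∈ A, s x² ≤ n ∑ x, s x²`
(`sq_sum_le_card_mul_sum_sq`), and `∑ x, s x² = ∑ y' ∈ W, ∑ y ∈ W, c y' y` with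
`c y' y = ∑ x, gr G lam y' x * gr G lam y x`.  So `∑ y' ∈ W, (∑ y ∈ W, c y' y) ≥ ε² n³`, and some `y' ∈ W` has
`∑ y ∈ W, c y' y ≥ ε² n²` (otherwise, `|W| ≤ n`, the sum is smaller; `n > 0` since the strict inequality is
impossible for `n = 0`).  Third, Cauchy-Schwarz once more:
`(ε² n²)² ≤ (∑ y ∈ W, c y' y)² ≤ |W| ∑ y ∈ W, (c y' y)² ≤ n ∑ y, (c y' y)²`. -/
theorem heavy_row {n : ℕ} (G : SimpleGraph (Fin n)) {lam : Fin n → ℕ} {k : ℕ}
    (hlam : ∀ x, lam x < k) {ε : ℝ} (hε : 0 < ε) (h : ¬ OneReg G lam k ε) :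
    ∃ y' : Fin n, ε ^ 4 * n ^ 4 ≤ n * ∑ y, (∑ x, gr G lam y x * gr G lam y' x) ^ 2 := by
  classical
  by_contra hcon
  push Not at hcon
  apply h
  intro A W
  rw [Rg3_diff G hlam]
  have hA : (A.card : ℝ) ≤ n := by
    have := Finset.card_le_univ A
    rw [Fintype.card_fin] at this
    exact_mod_cast this
  have hW : (W.card : ℝ) ≤ n := by
    have := Finset.card_le_univ W
    rw [Fintype.card_fin] at this
    exact_mod_cast this
  have hn0 : (0 : ℝ) ≤ n := Nat.cast_nonneg n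
  -- each column sum is small
  have h1 : ∀ y' : Fin n, ∑ y ∈ W, ∑ x, gr G lam y x * gr G lam y' x ≤ ε ^ 2 * n ^ 2 := by
    intro y'
    have h2 : (∑ y ∈ W, ∑ x, gr G lam y x * gr G lam y' x) ^ 2 ≤ (ε ^ 2 * n ^ 2) ^ 2 := by
      calc (∑ y ∈ W, ∑ x, gr G lam y x * gr G lam y' x) ^ 2
          ≤ W.card * ∑ y ∈ W, (∑ x, gr G lam y x * gr G lam y' x) ^ 2 := sq_sum_le_card_mul_sum_sq
        _ ≤ n * ∑ y, (∑ x, gr G lam y x * gr G lam y' x) ^ 2 := by
            refine mul_le_mul hW ?_ (Finset.sum_nonneg fun _ _ => sq_nonneg _) hn0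
            exact Finset.sum_le_sum_of_subset_of_nonneg (Finset.subset_univ W)
              fun _ _ _ => sq_nonneg _
        _ ≤ ε ^ 4 * n ^ 4 := (hcon y').le
        _ = (ε ^ 2 * n ^ 2) ^ 2 := by ring
    exact (le_abs_self _).trans (abs_le_of_sq_le_sq h2 (by positivity))
  have h3 : ∑ x, (∑ y ∈ W, gr G lam y x) ^ 2 =
      ∑ y' ∈ W, ∑ y ∈ W, ∑ x, gr G lam y x * gr G lam y' x := by
    rw [Finset.sum_comm' (t' := W) (s' := fun _ => W) (by simp)]
    simp only [sq, Finset.sum_mul_sum]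
    rw [Finset.sum_comm]
    refine Finset.sum_congr rfl fun y _ => ?_
    rw [Finset.sum_comm]
  have h4 : ∑ x, (∑ y ∈ W, gr G lam y x) ^ 2 ≤ ε ^ 2 * n ^ 3 := by
    rw [h3]
    calc ∑ y' ∈ W, ∑ y ∈ W, ∑ x, gr G lam y x * gr G lam y' x
        ≤ ∑ y' ∈ W, ε ^ 2 * (n : ℝ) ^ 2 := Finset.sum_le_sum fun y' _ => h1 y'
      _ = W.card * (ε ^ 2 * (n : ℝ) ^ 2) := by rw [Finset.sum_const, nsmul_eq_mul]
      _ ≤ n * (ε ^ 2 * (n : ℝ) ^ 2) := mul_le_mul_of_nonneg_right hW (by positivity)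
      _ = ε ^ 2 * n ^ 3 := by ring
  have h5 : (∑ x ∈ A, ∑ y ∈ W, gr G lam y x) ^ 2 ≤ (ε * n ^ 2) ^ 2 := by
    calc (∑ x ∈ A, ∑ y ∈ W, gr G lam y x) ^ 2
        ≤ A.card * ∑ x ∈ A, (∑ y ∈ W, gr G lam y x) ^ 2 := sq_sum_le_card_mul_sum_sq
      _ ≤ n * ∑ x, (∑ y ∈ W, gr G lam y x) ^ 2 := by
          refine mul_le_mul hA ?_ (Finset.sum_nonneg fun _ _ => sq_nonneg _) hn0
          exact Finset.sum_le_sum_of_subset_of_nonneg (Finset.subset_univ A)
            fun _ _ _ => sq_nonneg _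
      _ ≤ n * (ε ^ 2 * n ^ 3) := mul_le_mul_of_nonneg_left h4 hn0
      _ = (ε * n ^ 2) ^ 2 := by ring
  exact abs_le_of_sq_le_sq h5 (by positivity)

end MP881e12
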