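import Pool.Agent.Lib.MP_881e12_lc.Rg1
import Pool.Agent.Lib.MP_881e12_lc.Rg2
import Pool.Agent.Lib.MP_881e12_lc.Rg3

namespace MP881e12

open MP60f107 Finset Alg

theorem Rg4_mono {n : ℕ} (lam lam' : Fin n → ℕ) (href : ∀ x z, lam' x = lam' z → lam x = lam z)
    (f : Fin n → ℝ) : ∑ x, av lam f x ^ 2 ≤ ∑ x, av lam' f x ^ 2 := by
  have hq : ∀ x z, lam x = lam z → av lam f x = av lam f z := by
    intro x z hxz
    simp only [av, hxz]
  have h1 : ∑ x, av lam' f x * av lam f x = ∑ x, f x * av lam f x :=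
    sum_av_mul lam' f (av lam f) (fun x z hxz => hq x z (href x z hxz))
  have h2 := sum_av_sq lam f
  have h3 : 0 ≤ ∑ x, (av lam' f x - av lam f x) ^ 2 := Finset.sum_nonneg fun x _ => sq_nonneg _
  have h4 : ∑ x, (av lam' f x - av lam f x) ^ 2 =
      ∑ x, av lam' f x ^ 2 - 2 * ∑ x, av lam' f x * av lam f x + ∑ x, av lam f x ^ 2 := by
    rw [Finset.mul_sum, ← Finset.sum_sub_distrib, ← Finset.sum_add_distrib]
    refine Finset.sum_congr rfl fun x _ => ?_
    ring
  rw [h4, h1, ← h2] at h3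
  linarith

theorem Rg4_nb {n : ℕ} (G : SimpleGraph (Fin n)) (y x : Fin n) : 0 ≤ nb G y x ∧ nb G y x ≤ 1 := by
  unfold nb
  split_ifs <;> norm_num

theorem Rg4_av {n : ℕ} (G : SimpleGraph (Fin n)) (lam : Fin n → ℕ) (y x : Fin n) :
    0 ≤ av lam (nb G y) x ∧ av lam (nb G y) x ≤ 1 := by
  unfold av
  constructor
  · exact div_nonneg (Finset.sum_nonneg fun z _ => (Rg4_nb G y z).1) (Nat.cast_nonneg _)
  · refine div_le_one_of_le₀ ?_ (Nat.cast_nonneg _)
    calc ∑ z ∈ cl lam (lam x), nb G y z ≤ ∑ z ∈ cl lam (lam x), (1 : ℝ) :=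
          Finset.sum_le_sum fun z _ => (Rg4_nb G y z).2
      _ = _ := by simp

theorem Rg4_gr {n : ℕ} (G : SimpleGraph (Fin n)) (lam : Fin n → ℕ) (y : Fin n) :
    ∑ x, gr G lam y x ^ 2 ≤ n := by
  calc ∑ x, gr G lam y x ^ 2 ≤ ∑ x : Fin n, (1 : ℝ) := by
        refine Finset.sum_le_sum fun x _ => ?_
        have h1 := Rg4_nb G y x
        have h2 := Rg4_av G lam y x
        unfold gr
        rw [sq_le_one_iff_abs_le_one, abs_le]
        constructor <;> linarith [h1.1, h1.2, h2.1, h2.2]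
    _ = n := by simp

theorem Rg4_ref {n : ℕ} (G : SimpleGraph (Fin n)) (lam : Fin n → ℕ) (y x z : Fin n)
    (h : refF G lam y x = refF G lam y z) : lam x = lam z ∧ (G.Adj y x ↔ G.Adj y z) := by
  classical
  unfold refF at h
  by_cases h1 : G.Adj y x <;> by_cases h2 : G.Adj y z <;> simp only [h1, h2, if_true, if_false] at h
  · exact ⟨by omega, by tauto⟩
  · omega
  · omega
  · exact ⟨by omega, by tauto⟩

/-- ROW Rg4 (80 lines).  Energy increment.

Proof: `heavy_row` (Rg3) gives `y'`.  For each `y` apply `av_gain` (Rg2) with `lam' = refF G lam y'` (it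
refines `lam`: from `2 a + s = 2 b + t`, `s, t ≤ 1`), `f = nb G y`, `h = gr G lam y'` (constant on the classes
of `lam'`: `nb G y'` is, and `av lam _` depends only on `lam x`; orthogonality: `sum_gr`, Rg1).  As
`|gr| ≤ 1` (both `nb` and its average are in `[0, 1]`) `∑ x, h x ^ 2 ≤ n`.  Note that the second factor
in `av_gain` is then nonnegative or the left side is `0`...: from `(..)² ≤ H * D` with `0 ≤ H ≤ n` we need
`(..)² ≤ n * D`: `D ≥ 0` since `∑ (av lam' f)² - ∑ (av lam f)² = ∑ (av lam' f - av lam f)²` (or: if `D < 0`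
then `H * D ≤ 0` so the square is `0` and... prove `D ≥ 0` by `av_gain` for `h = 0`? no: by the identity, see
the proof of Rg2; you may prove it again here from `sum_av_mul`, `sum_av_sq`).
Sum over `y`: `∑ y (..)² ≤ n * (En (refF ..) - En lam)`, so
`ε⁴ n⁴ ≤ n * n * (En (refF G lam y') - En G lam)`; divide by `n²` (if `n = 0` everything is trivial). -/
theorem energy_step {n : ℕ} (G : SimpleGraph (Fin n)) {lam : Fin n → ℕ} {k : ℕ}
    (hlam : ∀ x, lam x < k) {ε : ℝ} (hε : 0 < ε) (h : ¬ OneReg G lam k ε) :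
    ∃ y : Fin n, En G lam + ε ^ 4 * n ^ 2 ≤ En G (refF G lam y) := by
  obtain ⟨y', hy'⟩ := heavy_row G hlam hε h
  refine ⟨y', ?_⟩
  have hn : (0 : ℝ) < n := by
    have : 0 < n := Fin.pos y'
    exact_mod_cast this
  have key : ∀ y : Fin n, (∑ x, gr G lam y x * gr G lam y' x) ^ 2 ≤
      n * (∑ x, av (refF G lam y') (nb G y) x ^ 2 - ∑ x, av lam (nb G y) x ^ 2) := by
    intro y
    have h1 := av_gain lam (refF G lam y') (fun x z hxz => (Rg4_ref G lam y' x z hxz).1)
      (nb G y) (gr G lam y') (by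
        intro x z hxz
        have h2 := Rg4_ref G lam y' x z hxz
        unfold gr
        have h3 : nb G y' x = nb G y' z := by
          classical
          unfold nb
          by_cases h9 : G.Adj y' x
          · rw [if_pos h9, if_pos (h2.2.1 h9)]
          · rw [if_neg h9, if_neg (fun h => h9 (h2.2.2 h))]
        have h4 : av lam (nb G y') x = av lam (nb G y') z := by
          simp only [av, h2.1]
        rw [h3, h4]) (fun u hu => sum_gr G lam y' u hu)
    refine h1.trans ?_
    refine mul_le_mul_of_nonneg_right (Rg4_gr G lam y') ?_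
    have := Rg4_mono lam (refF G lam y') (fun x z hxz => (Rg4_ref G lam y' x z hxz).1) (nb G y)
    linarith
  have h5 : ∑ y, (∑ x, gr G lam y x * gr G lam y' x) ^ 2 ≤
      n * (En G (refF G lam y') - En G lam) := by
    refine (Finset.sum_le_sum fun y _ => key y).trans ?_
    rw [← Finset.mul_sum, Finset.sum_sub_distrib]
    rfl
  have h6 : ε ^ 4 * n ^ 4 ≤ n * (n * (En G (refF G lam y') - En G lam)) :=
    hy'.trans (mul_le_mul_of_nonneg_left h5 hn.le)
  have h7 : (n : ℝ) ^ 2 * (ε ^ 4 * n ^ 2) ≤ n ^ 2 * (En G (refF G lam y') - En G lam) := by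
    nlinarith [h6]
  have h8 : ε ^ 4 * n ^ 2 ≤ En G (refF G lam y') - En G lam :=
    le_of_mul_le_mul_left h7 (by positivity)
  linarith

end MP881e12
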