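import Pool.Agent.Lib.MP_881e12_lc.Core

namespace MP881e12

open MP60f107 Finset Alg

/-- The average of `f` over the class of `x`. -/
noncomputable def av {n : ℕ} (lam : Fin n → ℕ) (f : Fin n → ℝ) (x : Fin n) : ℝ :=
  (∑ z ∈ cl lam (lam x), f z) / (cl lam (lam x)).card

open Classical in
/-- The indicator function of the neighbourhood of `y`. -/
noncomputable def nb {n : ℕ} (G : SimpleGraph (Fin n)) (y x : Fin n) : ℝ := if G.Adj y x then 1 else 0

/-- The residual of the neighbourhood of `y`. -/
noncomputable def gr {n : ℕ} (G : SimpleGraph (Fin n)) (lam : Fin n → ℕ) (y x : Fin n) : ℝ :=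
  nb G y x - av lam (nb G y) x

/-- The energy: the sum over `y` of the squared norms of the averages of the neighbourhoods. -/
noncomputable def En {n : ℕ} (G : SimpleGraph (Fin n)) (lam : Fin n → ℕ) : ℝ :=
  ∑ y, ∑ x, av lam (nb G y) x ^ 2

open Classical in
/-- The labelling refined by the neighbourhood of `y`. -/
noncomputable def refF {n : ℕ} (G : SimpleGraph (Fin n)) (lam : Fin n → ℕ) (y : Fin n) (x : Fin n) :
    ℕ := 2 * lam x + if G.Adj y x then 1 else 0

end MP881e12
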