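import Pool.Agent.Lib.MP_881e12_lc.Sp2
import Pool.Agent.Lib.MP_881e12_lc.SpDef

namespace MP881e12

open MP60f107 Alg

/-- ROW Sp3 (80 lines, two theorems).  The net of a candidate represents `G`.

`lt_of_map`: members of `c.2` have their first component in `c.2.map Prod.fst = pairs ..`; `mem_pairs`.
`cNet_rep`: `loopless`: `dirE_iff` gives `G.Adj x y`, so `x ≠ y`.  `inj`: if the unordered pairs agree,
either the directed pairs agree, and then `i = j` since `c.2.map Prod.fst` is `pairs ..`, which has no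
repetitions (`nodup_pairs`, `List.Nodup.getElem_inj_iff` or `List.nodup_iff_injective_get`), or they are
reversed, impossible by `dirE_iff` (both `(x, y)` and `(y, x)` directed).  `adj`: `→` `pairs_total` and
`List.mem_iff_getElem`; `←` `dirE_iff`. -/
theorem lt_of_map {n : ℕ} {w : List Bool} {μ : List ℕ} {c : Cand}
    (h2 : c.2.map Prod.fst = pairs n w μ) : ∀ r ∈ c.2, r.1.1 < n ∧ r.1.2 < n := by
  intro r hr
  have h : r.1 ∈ pairs n w μ := by
    rw [← h2]
    exact List.mem_map_of_mem hr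
  obtain ⟨h3, h4, _⟩ := mem_pairs.1 h
  exact ⟨h3, h4⟩

theorem Sp3_dir {n : ℕ} (G : SimpleGraph (Fin n)) [DecidableRel G.Adj] (μ : List ℕ) (c : Cand)
    (h2 : c.2.map Prod.fst = pairs n (matrixBits G) μ) (h : ∀ r ∈ c.2, r.1.1 < n ∧ r.1.2 < n)
    (i : Fin c.2.length) : G.Adj ((cNet n c h).src i) ((cNet n c h).tgt i) ∧
      (μ.getD ((cNet n c h).src i).val 0 < μ.getD ((cNet n c h).tgt i).val 0 ∨
        (μ.getD ((cNet n c h).src i).val 0 = μ.getD ((cNet n c h).tgt i).val 0 ∧
          (cNet n c h).src i < (cNet n c h).tgt i)) := by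
  have h1 : (c.2[i]).1 ∈ pairs n (matrixBits G) μ := by
    rw [← h2]
    exact List.mem_map_of_mem (List.getElem_mem _)
  obtain ⟨_, _, h5⟩ := mem_pairs.1 h1
  exact (dirE_iff G μ ((cNet n c h).src i) ((cNet n c h).tgt i)).1 h5

theorem cNet_rep {n : ℕ} (G : SimpleGraph (Fin n)) [DecidableRel G.Adj] (μ : List ℕ) (c : Cand)
    (h2 : c.2.map Prod.fst = pairs n (matrixBits G) μ) (h : ∀ r ∈ c.2, r.1.1 < n ∧ r.1.2 < n) :
    (cNet n c h).Rep G := by
  have hd := Sp3_dir G μ c h2 h
  refine ⟨⟨fun i => (hd i).1.ne, ?_⟩, ?_⟩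
  · intro i j hij
    rw [Sym2.eq_iff] at hij
    rcases hij with ⟨e1, e2⟩ | ⟨e1, e2⟩
    · have e1' : (c.2[i]).1.1 = (c.2[j]).1.1 := congrArg Fin.val e1
      have e2' : (c.2[i]).1.2 = (c.2[j]).1.2 := congrArg Fin.val e2
      have e3 : (c.2[i]).1 = (c.2[j]).1 := Prod.ext e1' e2'
      have hn : (c.2.map Prod.fst).Nodup := by
        rw [h2]
        exact nodup_pairs n _ μ
      have hi : i.val < (c.2.map Prod.fst).length := by rw [List.length_map]; exact i.2
      have hj : j.val < (c.2.map Prod.fst).length := by rw [List.length_map]; exact j.2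
      refine Fin.ext ((hn.getElem_inj_iff (hi := hi) (hj := hj)).1 ?_)
      rw [List.getElem_map, List.getElem_map]
      exact e3
    · exfalso
      have h3 := (hd i).2
      have h4 := (hd j).2
      rw [e1, e2] at h3
      rcases h3 with h3 | ⟨h3, h3'⟩ <;> rcases h4 with h4 | ⟨h4, h4'⟩
      · omega
      · omega
      · omega
      · exact lt_asymm h3' h4'
  · intro a b
    constructor
    · intro hab
      rcases pairs_total G μ hab with h3 | h3
      · rw [← h2, List.mem_map] at h3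
        obtain ⟨r, hr, hr2⟩ := h3
        obtain ⟨i, hi, rfl⟩ := List.mem_iff_getElem.1 hr
        refine ⟨⟨i, hi⟩, ?_⟩
        have e1 : (cNet n c h).src ⟨i, hi⟩ = a := Fin.ext (congrArg Prod.fst hr2)
        have e2 : (cNet n c h).tgt ⟨i, hi⟩ = b := Fin.ext (congrArg Prod.snd hr2)
        rw [e1, e2]
      · rw [← h2, List.mem_map] at h3
        obtain ⟨r, hr, hr2⟩ := h3
        obtain ⟨i, hi, rfl⟩ := List.mem_iff_getElem.1 hr
        refine ⟨⟨i, hi⟩, ?_⟩
        have e1 : (cNet n c h).src ⟨i, hi⟩ = b := Fin.ext (congrArg Prod.fst hr2)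
        have e2 : (cNet n c h).tgt ⟨i, hi⟩ = a := Fin.ext (congrArg Prod.snd hr2)
        rw [e1, e2]
        exact Sym2.eq_swap
    · rintro ⟨i, hi⟩
      have h3 := (hd i).1
      rw [Sym2.eq_iff] at hi
      rcases hi with ⟨e1, e2⟩ | ⟨e1, e2⟩
      · rw [e1, e2] at h3
        exact h3
      · rw [e1, e2] at h3
        exact h3.symm

end MP881e12
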