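import Pool.Agent.Lib.MP_60f107_co.CrFinal
import Pool.Agent.Lib.MP_881e12_lc.Problem

/-!
The meaning of the output for polygonal drawings.
-/

namespace MP881e12

open MP60f107

/-- The output `o` describes the polygonal drawing `D` of `G`: the first list contains the positions
of the vertices in their order, every record of the second list is an edge `ab` with the bends of its
polygonal arc from `a` to `b`, and every edge is recorded (in one direction at least). -/
structure Describes {n : ℕ} {G : SimpleGraph (Fin n)} (o : Output) (D : PolyDrawing G) : Prop where
  positions : o.1.map decPt = List.ofFn D.pos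
  sound : ∀ r ∈ o.2, ∃ a b : Fin n, G.Adj a b ∧ r.1 = (a.val, b.val) ∧
    r.2.map decPt = D.bends a b
  complete : ∀ a b : Fin n, G.Adj a b → ∃ r ∈ o.2, r.1 = (a.val, b.val) ∨ r.1 = (b.val, a.val)

end MP881e12
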