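import Pool.Agent.Lib.MP_881e12_lc.Wg6

namespace MP881e12

open MP60f107

/-- A sum over pairs in `good` as a sum over all pairs. -/
theorem wg7_sum {ι : Type} [Fintype ι] [DecidableEq ι] (e : ι → ℕ) (good : Finset ι)
    (c : ι → ι → ℕ) :
    (∑ i ∈ good, ∑ j ∈ good, if i = j then 0 else e i * e j * c i j) =
      ∑ i, ∑ j, if i = j then 0 else (if i ∈ good ∧ j ∈ good then e i * e j else 0) * c i j := by
  have h1 : (∑ i ∈ good, ∑ j ∈ good, if i = j then 0 else e i * e j * c i j) =
      ∑ i, if i ∈ good then (∑ j ∈ good, if i = j then 0 else e i * e j * c i j) else 0 := by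
    rw [Finset.sum_ite_mem, Finset.univ_inter]
  rw [h1]
  refine Finset.sum_congr rfl fun i _ => ?_
  by_cases hi : i ∈ good
  · rw [if_pos hi]
    have h2 : (∑ j ∈ good, if i = j then 0 else e i * e j * c i j) =
        ∑ j, if j ∈ good then (if i = j then 0 else e i * e j * c i j) else 0 := by
      rw [Finset.sum_ite_mem, Finset.univ_inter]
    rw [h2]
    refine Finset.sum_congr rfl fun j _ => ?_
    by_cases hj : j ∈ good <;> by_cases hij : i = j <;> simp [hi, hj, hij]
  · rw [if_neg hi]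
    symm
    refine Finset.sum_eq_zero fun j _ => ?_
    simp [hi]

/-- ROW Wg7 (100 lines).  Optimal drawings for weights that may vanish: all pairs of edges cross at
most once, and the weighted number of crossings of the edges in `good` is at most that of `T₁`.

Proof: let `S₁ = ∑_{i, j ∈ good, i ≠ j} e i * e j * crL (T₁.path i) (T₁.path j)`, and let `Z` be the sum
over all ordered pairs `i ≠ j` of `(e i + 1) (e j + 1) crL (T₁.path i) (T₁.path j)`, `M = Z + 1`.  Apply
`exists_weighted` (Wg6) with `w i = M * e i + 1` for `i ∈ good` and `w i = 1` otherwise, `D₀ = T₁`.  For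
the result `T` let `S = ∑_{i, j ∈ good, i ≠ j} e i * e j * crL (T.path i) (T.path j)`.  As
`w i * w j ≥ M ^ 2 * e i * e j` for `i, j ∈ good`: `M ^ 2 * S ≤ wcr w T ≤ wcr w T₁`.  As
`w i * w j ≤ M ^ 2 e i e j + M (e i + 1) (e j + 1)` for `i, j ∈ good`
(`(M a + 1)(M b + 1) = M² a b + M (a + b) + 1 ≤ M² a b + M (a + 1) (b + 1)`) and
`w i * w j ≤ M (e i + 1) (e j + 1)` otherwise: `wcr w T₁ ≤ M ^ 2 * S₁ + M * Z < M ^ 2 * (S₁ + 1)`.
So `S < S₁ + 1`. -/
theorem tpl_opt {V ι : Type} [Fintype ι] [DecidableEq ι] {N : Net V ι}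
    (hN : ∀ i, N.src i ≠ N.tgt i) {L₁ : Type} [LinearOrder L₁] (T₁ : Drawing N L₁) (e : ι → ℕ)
    (good : Finset ι) : ∃ (L : Type) (_ : LinearOrder L) (T : Drawing N L), Normal T ∧
      (∀ i j, i ≠ j → crL (T.path i) (T.path j) ≤ 1) ∧
      (∑ i ∈ good, ∑ j ∈ good, if i = j then 0 else e i * e j * crL (T.path i) (T.path j)) ≤
        ∑ i ∈ good, ∑ j ∈ good, if i = j then 0 else e i * e j * crL (T₁.path i) (T₁.path j) := by
  classical
  obtain ⟨M, hM⟩ : ∃ M : ℕ, M = (∑ i, ∑ j, if i = j then 0 else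
    (e i + 1) * (e j + 1) * crL (T₁.path i) (T₁.path j)) + 1 := ⟨_, rfl⟩
  obtain ⟨w, hw⟩ : ∃ w : ι → ℕ, w = fun i => if i ∈ good then M * e i + 1 else 1 := ⟨_, rfl⟩
  have hw0 : ∀ i, 0 < w i := by
    intro i
    rw [hw]
    dsimp only
    split_ifs <;> omega
  obtain ⟨L, inst, T, hT, h1, h2⟩ := exists_weighted hN w hw0 T₁
  refine ⟨L, inst, T, hT, h1, ?_⟩
  rw [wg7_sum e good fun i j => crL (T.path i) (T.path j),
    wg7_sum e good fun i j => crL (T₁.path i) (T₁.path j)]
  set S := ∑ i, ∑ j, if i = j then 0 else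
    (if i ∈ good ∧ j ∈ good then e i * e j else 0) * crL (T.path i) (T.path j) with hS
  set S₁ := ∑ i, ∑ j, if i = j then 0 else
    (if i ∈ good ∧ j ∈ good then e i * e j else 0) * crL (T₁.path i) (T₁.path j) with hS₁
  have hlow : M ^ 2 * S ≤ wcr w T := by
    unfold wcr
    rw [hS, Finset.mul_sum]
    refine Finset.sum_le_sum fun i _ => ?_
    rw [Finset.mul_sum]
    refine Finset.sum_le_sum fun j _ => ?_
    by_cases hij : i = j
    · simp [hij]
    · rw [if_neg hij, if_neg hij, ← mul_assoc]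
      refine Nat.mul_le_mul_right _ ?_
      by_cases hg : i ∈ good ∧ j ∈ good
      · rw [if_pos hg, hw]
        simp only [if_pos hg.1, if_pos hg.2]
        calc M ^ 2 * (e i * e j) = (M * e i) * (M * e j) := by ring
          _ ≤ (M * e i + 1) * (M * e j + 1) := Nat.mul_le_mul (Nat.le_succ _) (Nat.le_succ _)
      · rw [if_neg hg]
        simp
  have hup : wcr w T₁ ≤ M ^ 2 * S₁ + M * (∑ i, ∑ j, if i = j then 0 else
      (e i + 1) * (e j + 1) * crL (T₁.path i) (T₁.path j)) := by
    unfold wcr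
    rw [hS₁, Finset.mul_sum, Finset.mul_sum, ← Finset.sum_add_distrib]
    refine Finset.sum_le_sum fun i _ => ?_
    rw [Finset.mul_sum, Finset.mul_sum, ← Finset.sum_add_distrib]
    refine Finset.sum_le_sum fun j _ => ?_
    by_cases hij : i = j
    · simp [hij]
    · rw [if_neg hij, if_neg hij, if_neg hij, ← mul_assoc, ← mul_assoc, ← add_mul]
      refine Nat.mul_le_mul_right _ ?_
      have hM1 : 1 ≤ M := by omega
      by_cases hg : i ∈ good ∧ j ∈ good
      · rw [if_pos hg, hw]
        simp only [if_pos hg.1, if_pos hg.2]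
        nlinarith [Nat.zero_le (M * (e i * e j))]
      · rw [if_neg hg, mul_zero, zero_add]
        have hwi : ∀ k, w k ≤ M * e k + 1 := by
          intro k
          rw [hw]
          dsimp only
          split_ifs <;> omega
        rcases not_and_or.1 hg with hi | hj
        · have hwi0 : w i = 1 := by rw [hw]; simp [hi]
          rw [hwi0, one_mul]
          refine (hwi j).trans ?_
          nlinarith [Nat.zero_le (M * (e i * e j)), Nat.zero_le (M * e i), Nat.zero_le (M * e j)]
        · have hwj0 : w j = 1 := by rw [hw]; simp [hj]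
          rw [hwj0, mul_one]
          refine (hwi i).trans ?_
          nlinarith [Nat.zero_le (M * (e i * e j)), Nat.zero_le (M * e i), Nat.zero_le (M * e j)]
  set Z := ∑ i, ∑ j, if i = j then 0 else
      (e i + 1) * (e j + 1) * crL (T₁.path i) (T₁.path j) with hZ
  have hfin : M ^ 2 * S < M ^ 2 * (S₁ + 1) := by
    have h3 : M * Z < M ^ 2 := by
      rw [hM]
      nlinarith
    calc M ^ 2 * S ≤ M ^ 2 * S₁ + M * Z := hlow.trans (h2.trans hup)
      _ < M ^ 2 * S₁ + M ^ 2 := by omega
      _ = M ^ 2 * (S₁ + 1) := by ring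
  have := lt_of_mul_lt_mul_left hfin (Nat.zero_le _)
  omega

end MP881e12
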