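import Pool.Agent.Lib.MP_881e12_lc.Core

namespace MP881e12

open MP60f107
open MP60f107.Contr (sh pr ht mk l0)

/-- A drawing on `L ×ₗ ℤ` over the drawing `D`: the vertices stay at height `0`, the chains are given. -/
def overD {V ι : Type} {N : Net V ι} {L : Type} [LinearOrder L] (D : Drawing N L)
    (c : ι → List (Bool × (L ×ₗ ℤ)) × Bool) (h1 : ∀ i, ((c i).1.map Prod.snd).Nodup)
    (h2 : ∀ i j, i ≠ j → ∀ x ∈ (c i).1, ∀ y ∈ (c j).1, x.2 ≠ y.2)
    (h3 : ∀ i, ∀ x ∈ (c i).1, ∀ v, x.2 ≠ mk (D.pos v) 0) : Drawing N (L ×ₗ ℤ) where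
  pos v := mk (D.pos v) 0
  inner i := (c i).1
  last i := (c i).2
  pos_inj := fun v w h => D.pos_inj (by simpa using congrArg pr h)
  nodup := h1
  disj := h2
  avoid := h3

/-- The weighted number of crossings (ordered pairs). -/
def wcr {V ι : Type} {N : Net V ι} {L : Type} [LinearOrder L] [Fintype ι] [DecidableEq ι]
    (w : ι → ℕ) (D : Drawing N L) : ℕ :=
  ∑ i, ∑ j, if i = j then 0 else w i * w j * crL (D.path i) (D.path j)

end MP881e12
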