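import Pool.Agent.Lib.MP_881e12_lc.Wg0

namespace MP881e12

open MP60f107
open MP60f107.Contr (sh pr ht mk l0)

theorem Wg1_dl {L : Type} [LinearOrder L] (a b : L) : Contr.dl (mk a 0) (mk b 0) = 0 := by
  by_cases h : a = b
  · rw [h]
    exact Contr.dl_self _
  · exact Contr.dl_of_ne (x := mk a 0) (y := mk b 0) h

theorem Wg1_X {L : Type} [LinearOrder L] {A B : Arc (L ×ₗ ℤ)} (h : Contr.DA A B = 0) :
    X A B = X (Contr.bs A) (Contr.bs B) := by
  have h1 : Contr.dl A.p B.p = 0 := by unfold Contr.DA at h; omega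
  have h2 : Contr.dl A.p B.q = 0 := by unfold Contr.DA at h; omega
  have h3 : Contr.dl A.q B.p = 0 := by unfold Contr.DA at h; omega
  have h4 : Contr.dl A.q B.q = 0 := by unfold Contr.DA at h; omega
  unfold X
  refine if_congr (and_congr Iff.rfl ?_) rfl rfl
  unfold Ilv MP60f107.Btw Ots Contr.bs
  simp only [Contr.lt_iff_of_dl h1, Contr.lt_iff_of_dl h2, Contr.lt_iff_of_dl h3,
    Contr.lt_iff_of_dl h4, Contr.gt_iff_of_dl h1, Contr.gt_iff_of_dl h2, Contr.gt_iff_of_dl h3,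
    Contr.gt_iff_of_dl h4]

theorem Wg1_crL {L : Type} [LinearOrder L] {P Q : List (Arc (L ×ₗ ℤ))} (h : Contr.DL P Q = 0) :
    crL P Q = crL (P.map Contr.bs) (Q.map Contr.bs) := by
  unfold Contr.DL at h
  rw [List.sum_eq_zero_iff] at h
  unfold crL
  simp only [List.map_map]
  congr 1
  refine List.map_congr_left fun A hA => ?_
  simp only [Function.comp_def]
  congr 1
  refine List.map_congr_left fun B hB => ?_
  have h1 := h _ (List.mem_map.2 ⟨A, hA, rfl⟩)
  rw [List.sum_eq_zero_iff] at h1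
  exact Wg1_X (h1 _ (List.mem_map.2 ⟨B, hB, rfl⟩))

theorem Wg1_bs {L : Type} [LinearOrder L] (p q : L) (r : List (Bool × L)) (s : Bool)
    (r₁ : List (Bool × (L ×ₗ ℤ))) (e₁ : r₁.map (fun x => (x.1, pr x.2)) = r) :
    (arcs (mk p 0) r₁ s (mk q 0)).map Contr.bs = arcs p r s q := by
  have h := Contr.arcs_map (pr (L := L)) (mk p 0) r₁ s (mk q 0)
  rw [e₁] at h
  exact h

/-- ROW Wg1 (70 lines, three short theorems).  Crossings of base chains and parallel copies in
`L ×ₗ ℤ`.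

(1) the base chains `arcs (mk p 0) (l0 r) s (mk q 0)` have the crossings of the chains in `L`:
`Contr.l0` maps the points by `x ↦ mk x 0`, so by `Contr.arcs_map` (or `arcs_map` with `Arc.map`) the
list of arcs is the image of `arcs p r s q` under this strictly increasing map; `MP60f107.crL_map`-type
lemma (see `theorem crL_map {φ : L → L'} (hφ : StrictMono φ)` in CrDraw1.lean line 1293; find its full
name) gives the equality.
(2), (3) if the inner points of the one chain have other bases than all points of the other chain, and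
the ends have the height `0`, then the number of crossings is that of the base chains.  Proof: prove
`X A B = X (bs A) (bs B)` if `DA A B = 0` (that is the first case in the proof of `Contr.X_le`), hence
`crL P Q = crL (P.map bs) (Q.map bs)` if `DL P Q = 0`; here `DL = 0` by `Contr.DL_arcs_of_ne` (the
hypotheses on the inner points) and `Contr.dl_of_ne`, `Contr.dl_self` for the ends (all at height
`0`: if the bases are equal the points are equal).  The images under `bs` are computed by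
`Contr.arcs_map`, and the bases of `r₁`, `r₂` are given by `e₁`, `e₂`. -/
theorem crL_l0 {L : Type} [LinearOrder L] (p q p' q' : L) (r r' : List (Bool × L)) (s s' : Bool) :
    crL (arcs (mk p 0) (l0 r) s (mk q 0)) (arcs (mk p' 0) (l0 r') s' (mk q' 0)) =
      crL (arcs p r s q) (arcs p' r' s' q') := by
  have hφ : StrictMono (fun x : L => mk x 0) := fun a b h => Contr.lt_iff.2 (Or.inl h)
  have h1 := Contr.arcs_map (fun x : L => mk x 0) p r s q
  have h2 := Contr.arcs_map (fun x : L => mk x 0) p' r' s' q'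
  change crL (arcs (mk p 0) (r.map fun x => (x.1, mk x.2 0)) s (mk q 0))
    (arcs (mk p' 0) (r'.map fun x => (x.1, mk x.2 0)) s' (mk q' 0)) = _
  rw [← h1, ← h2]
  exact Fg.crL_map hφ _ _

theorem crL_over {L : Type} [LinearOrder L] (p q p' q' : L) (r r' : List (Bool × L)) (s s' : Bool)
    (r₁ r₂ : List (Bool × (L ×ₗ ℤ))) (e₁ : r₁.map (fun x => (x.1, pr x.2)) = r)
    (e₂ : r₂.map (fun x => (x.1, pr x.2)) = r') (h1 : ∀ x ∈ r, ∀ y ∈ r', x.2 ≠ y.2)
    (h2 : ∀ x ∈ r, x.2 ≠ p' ∧ x.2 ≠ q') (h3 : ∀ y ∈ r', y.2 ≠ p ∧ y.2 ≠ q) :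
    crL (arcs (mk p 0) r₁ s (mk q 0)) (arcs (mk p' 0) r₂ s' (mk q' 0)) =
      crL (arcs p r s q) (arcs p' r' s' q') := by
  have m1 : ∀ x ∈ r₁, (x.1, pr x.2) ∈ r := fun x hx => by
    rw [← e₁]
    exact List.mem_map.2 ⟨x, hx, rfl⟩
  have m2 : ∀ x ∈ r₂, (x.1, pr x.2) ∈ r' := fun x hx => by
    rw [← e₂]
    exact List.mem_map.2 ⟨x, hx, rfl⟩
  rw [Wg1_crL, Wg1_bs p q r s r₁ e₁, Wg1_bs p' q' r' s' r₂ e₂]
  have k2 : ∀ x ∈ r₁, pr x.2 ≠ pr (mk p' 0) ∧ pr x.2 ≠ pr (mk q' 0) :=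
    fun x hx => h2 _ (m1 x hx)
  have k3 : ∀ y ∈ r₂, pr (mk p 0) ≠ pr y.2 ∧ pr (mk q 0) ≠ pr y.2 :=
    fun y hy => ⟨(h3 _ (m2 y hy)).1.symm, (h3 _ (m2 y hy)).2.symm⟩
  rw [Contr.DL_arcs_of_ne (fun x hx y hy => h1 _ (m1 x hx) _ (m2 y hy)) k2 k3]
  rw [Wg1_dl, Wg1_dl, Wg1_dl, Wg1_dl]

theorem sh_zero {L : Type} (r : List (Bool × L)) : sh 0 r = l0 r := by
  induction r with
  | nil => rfl
  | cons x r ih =>
    obtain ⟨s, p⟩ := x
    have h : sh 0 ((s, p) :: r) = (s, mk p 0) :: sh (-0) r := rfl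
    rw [h, neg_zero, ih]
    rfl

end MP881e12
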