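import Pool.Agent.Lib.MP_881e12_lc.Wg0

namespace MP881e12

open MP60f107
open MP60f107.Contr (sh pr ht mk l0)

/-- ROW Wg2 (60 lines).  Pairwise normalisation: the statement of `exists_normal_drawing`
(CrFinal.lean line 197) with the inequality for each pair of edges.

Proof: the proof there shows exactly this before summing (the last lines: `h1.trans h2`); copy it. -/
theorem exists_normal_pairs {V ι : Type} {N : Net V ι} {L : Type} [LinearOrder L]
    (D : Drawing N L) : ∃ D' : Drawing N L, Normal D' ∧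
      ∀ i j, i ≠ j → crL (D'.path i) (D'.path j) ≤ crL (D.path i) (D.path j) := by
  have key := fun i : ι => Nrm.exists_normal (D.pos (N.src i)) (D.pos (N.tgt i)) (D.last i)
    (D.inner i)
  choose r hsub halt hself hQ using key
  have hmem : ∀ i, ∀ x ∈ r i, x ∈ D.inner i := fun i x hx => (hsub i).subset hx
  let D' : Drawing N L :=
    { pos := D.pos
      inner := r
      last := D.last
      pos_inj := D.pos_inj
      nodup := fun i => ((hsub i).map Prod.snd).nodup (D.nodup i)
      disj := fun i j hij x hx y hy => D.disj i j hij x (hmem i x hx) y (hmem j y hy)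
      avoid := fun i x hx w => D.avoid i x (hmem i x hx) w }
  have hends : ∀ (E : Drawing N L) (j : ι) (B : Arc L), B ∈ E.path j →
      (∀ p, p = B.p ∨ p = B.q → (∃ w, p = E.pos w) ∨ ∃ y ∈ E.inner j, p = y.2) := by
    intro E j B hB p hp
    rcases hp with rfl | rfl
    · rcases mem_arcs_p hB with h | h
      · exact Or.inl ⟨_, h⟩
      · exact Or.inr h
    · rcases mem_arcs_q hB with h | h
      · exact Or.inr h
      · exact Or.inl ⟨_, h⟩
  have hfresh : ∀ (E : Drawing N L) (i j : ι), i ≠ j → (∀ x ∈ D.inner i, ∀ w, x.2 ≠ E.pos w) →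
      (∀ x ∈ D.inner i, ∀ y ∈ E.inner j, x.2 ≠ y.2) →
      ∀ B ∈ E.path j, ∀ x ∈ D.inner i, x.2 ≠ B.p ∧ x.2 ≠ B.q := by
    intro E i j hij h1 h2 B hB x hx
    constructor
    · intro h
      rcases hends E j B hB _ (Or.inl rfl) with ⟨w, hw⟩ | ⟨y, hy, hy'⟩
      · exact h1 x hx w (h.trans hw)
      · exact h2 x hx y hy (h.trans hy')
    · intro h
      rcases hends E j B hB _ (Or.inr rfl) with ⟨w, hw⟩ | ⟨y, hy, hy'⟩
      · exact h1 x hx w (h.trans hw)
      · exact h2 x hx y hy (h.trans hy')
  refine ⟨D', ⟨halt, hself⟩, ?_⟩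
  intro i j hij
  have h1 : crL (D'.path i) (D'.path j) ≤ crL (D.path i) (D'.path j) :=
    hQ i _ (hfresh D' i j hij (fun x hx w => D.avoid i x hx w)
      (fun x hx y hy => D.disj i j hij x hx y (hmem j y hy)))
  have h2 : crL (D'.path j) (D.path i) ≤ crL (D.path j) (D.path i) :=
    hQ j _ (hfresh D j i (Ne.symm hij) (fun x hx w => D.avoid j x hx w)
      (fun x hx y hy => D.disj j i (Ne.symm hij) x hx y hy))
  rw [crL_comm (D'.path j), crL_comm (D.path j)] at h2
  exact h1.trans h2

end MP881e12
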