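import Pool.Agent.Lib.MP_881e12_lc.Core

namespace MP881e12

open MP60f107

/-- ROW Wg3 (50 lines).  The numerical heart: three exchanges cannot all be harmful.

`Si, Sj` are the weighted crossings of the edges `i`, `j` with the other edges, `Si', Sj'` those of the new
chains, `x = c(i,j)`, `p = c(i',j)`, `q = c(i,j')`, `p' = c(i',i)`, `q' = c(j',j)`, `z = c(i',j')`.
Proof: from `hp : p + q' ≤ x` we get `p ≤ x`, from `hq : p' + q ≤ x` we get `q ≤ x`.  `o1` reads
`wi Si + wi wj x ≤ wi Si' + wi wj p`, hence `Si ≤ Si'` with `wi (Si' - Si) ≥ wi wj (x - p) ≥ 0`; `o2`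
gives `Sj ≤ Sj'`.  With `hS` both are equalities, `Si' = Si`, `Sj' = Sj`.  Then `o3` says
`wi wj x ≤ wi wj z`, impossible since `z + 2 ≤ x` and the weights are positive. -/
theorem three_options {wi wj Si Sj Si' Sj' x p q p' q' z : ℕ} (hi : 0 < wi) (hj : 0 < wj)
    (hS : Si' + Sj' ≤ Si + Sj) (hq : p' + q ≤ x) (hp : p + q' ≤ x) (hz : z + 2 ≤ x)
    (o1 : wi * Si + wi * wj * x ≤ wi * Si' + wi * wj * p)
    (o2 : wj * Sj + wi * wj * x ≤ wj * Sj' + wi * wj * q)
    (o3 : wi * Si + wj * Sj + wi * wj * x ≤ wi * Si' + wj * Sj' + wi * wj * z) : False := by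
  have hpx : p ≤ x := le_trans (Nat.le_add_right _ _) hp
  have hqx : q ≤ x := le_trans (Nat.le_add_left _ _) hq
  have h1 : wi * wj * p ≤ wi * wj * x := Nat.mul_le_mul_left _ hpx
  have h2 : wi * wj * q ≤ wi * wj * x := Nat.mul_le_mul_left _ hqx
  have h3 : wi * Si ≤ wi * Si' := by omega
  have h4 : wj * Sj ≤ wj * Sj' := by omega
  have h5 : Si ≤ Si' := Nat.le_of_mul_le_mul_left h3 hi
  have h6 : Sj ≤ Sj' := Nat.le_of_mul_le_mul_left h4 hj
  have h7 : Si' = Si := by omega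
  have h8 : Sj' = Sj := by omega
  subst h7
  subst h8
  have h9 : wi * wj * x ≤ wi * wj * z := by omega
  have h10 : x ≤ z := Nat.le_of_mul_le_mul_left h9 (Nat.mul_pos hi hj)
  omega

end MP881e12
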