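import Pool.Agent.Lib.MP_881e12_lc.Wg0

namespace MP881e12

open MP60f107

theorem Wg4_split {ι : Type} [Fintype ι] [DecidableEq ι] {i j : ι} (hij : i ≠ j) (g : ι → ℕ) :
    ∑ k, g k = g i + (g j + ∑ k ∈ (Finset.univ.erase i).erase j, g k) := by
  rw [Finset.add_sum_erase (Finset.univ.erase i) g
    (Finset.mem_erase.mpr ⟨hij.symm, Finset.mem_univ j⟩),
    Finset.add_sum_erase Finset.univ g (Finset.mem_univ i)]

theorem Wg4_total {ι : Type} [Fintype ι] [DecidableEq ι] (w : ι → ℕ) (c : ι → ι → ℕ) {i j : ι}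
    (hij : i ≠ j) (hc : ∀ k l, c k l = c l k) :
    (∑ k, ∑ l, if k = l then 0 else w k * w l * c k l) =
    (∑ k ∈ (Finset.univ.erase i).erase j, ∑ l ∈ (Finset.univ.erase i).erase j,
      if k = l then 0 else w k * w l * c k l) +
    2 * (w i * (∑ k ∈ (Finset.univ.erase i).erase j, w k * c i k) +
      w j * (∑ k ∈ (Finset.univ.erase i).erase j, w k * c j k) + w i * w j * c i j) := by
  have hmem : ∀ k ∈ (Finset.univ.erase i).erase j, k ≠ i ∧ k ≠ j := by
    intro k hk
    rw [Finset.mem_erase, Finset.mem_erase] at hk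
    exact ⟨hk.2.1, hk.1⟩
  rw [Wg4_split hij (fun k => ∑ l, if k = l then 0 else w k * w l * c k l),
    Wg4_split hij (fun l => if i = l then 0 else w i * w l * c i l),
    Wg4_split hij (fun l => if j = l then 0 else w j * w l * c j l)]
  have e1 : ∑ l ∈ (Finset.univ.erase i).erase j, (if i = l then 0 else w i * w l * c i l) =
      w i * ∑ k ∈ (Finset.univ.erase i).erase j, w k * c i k := by
    rw [Finset.mul_sum]
    refine Finset.sum_congr rfl fun l hl => ?_
    rw [if_neg (hmem l hl).1.symm, mul_assoc]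
  have e2 : ∑ l ∈ (Finset.univ.erase i).erase j, (if j = l then 0 else w j * w l * c j l) =
      w j * ∑ k ∈ (Finset.univ.erase i).erase j, w k * c j k := by
    rw [Finset.mul_sum]
    refine Finset.sum_congr rfl fun l hl => ?_
    rw [if_neg (hmem l hl).2.symm, mul_assoc]
  have e3 : ∑ k ∈ (Finset.univ.erase i).erase j, (∑ l, if k = l then 0 else w k * w l * c k l) =
      w i * (∑ k ∈ (Finset.univ.erase i).erase j, w k * c i k) +
      (w j * (∑ k ∈ (Finset.univ.erase i).erase j, w k * c j k) +
      ∑ k ∈ (Finset.univ.erase i).erase j, ∑ l ∈ (Finset.univ.erase i).erase j,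
        if k = l then 0 else w k * w l * c k l) := by
    rw [Finset.mul_sum, Finset.mul_sum, ← Finset.sum_add_distrib, ← Finset.sum_add_distrib]
    refine Finset.sum_congr rfl fun k hk => ?_
    rw [Wg4_split hij (fun l => if k = l then 0 else w k * w l * c k l),
      if_neg (hmem k hk).1, if_neg (hmem k hk).2, hc k i, hc k j, mul_comm (w k) (w i),
      mul_comm (w k) (w j), mul_assoc, mul_assoc]
  rw [e1, e2, e3, if_pos rfl, if_neg hij, if_neg hij.symm, if_pos rfl, hc j i, mul_comm (w j) (w i)]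
  ring

/-- ROW Wg4 (90 lines).  Weighted sums of symmetric matrices that differ only in the rows and columns
`i`, `j`.

Proof: split the double sums according to whether the indices are `i`, `j` or other.  A convenient way:
`∑ k, ∑ l, f k l` with `f k l = if k = l then 0 else w k * w l * c k l` equals
`∑ k ∈ rest, ∑ l ∈ rest, f k l + 2 (w i * ∑ k ∈ rest, w k * c i k + w j * ∑ k ∈ rest, w k * c j k)
+ 2 * (w i * w j * c i j)`, `rest = univ.erase i |>.erase j` (`Finset.sum_erase_add` or
`Finset.add_sum_erase`, symmetry `c k l = c l k`).  The first part is the same for `c` and `c'`. -/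
theorem wsum_two {ι : Type} [Fintype ι] [DecidableEq ι] (w : ι → ℕ) (c c' : ι → ι → ℕ) {i j : ι}
    (hij : i ≠ j) (hc : ∀ k l, c k l = c l k) (hc' : ∀ k l, c' k l = c' l k)
    (h0 : ∀ k l, k ≠ i → k ≠ j → l ≠ i → l ≠ j → c' k l = c k l)
    (h : (∑ k, ∑ l, if k = l then 0 else w k * w l * c k l) ≤
      ∑ k, ∑ l, if k = l then 0 else w k * w l * c' k l) :
    w i * (∑ k ∈ (Finset.univ.erase i).erase j, w k * c i k) +
      w j * (∑ k ∈ (Finset.univ.erase i).erase j, w k * c j k) + w i * w j * c i j ≤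
    w i * (∑ k ∈ (Finset.univ.erase i).erase j, w k * c' i k) +
      w j * (∑ k ∈ (Finset.univ.erase i).erase j, w k * c' j k) + w i * w j * c' i j := by
  have hmem : ∀ k ∈ (Finset.univ.erase i).erase j, k ≠ i ∧ k ≠ j := by
    intro k hk
    rw [Finset.mem_erase, Finset.mem_erase] at hk
    exact ⟨hk.2.1, hk.1⟩
  rw [Wg4_total w c hij hc, Wg4_total w c' hij hc'] at h
  have e : (∑ k ∈ (Finset.univ.erase i).erase j, ∑ l ∈ (Finset.univ.erase i).erase j,
      if k = l then 0 else w k * w l * c' k l) =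
      ∑ k ∈ (Finset.univ.erase i).erase j, ∑ l ∈ (Finset.univ.erase i).erase j,
      if k = l then 0 else w k * w l * c k l := by
    refine Finset.sum_congr rfl fun k hk => Finset.sum_congr rfl fun l hl => ?_
    rw [h0 k l (hmem k hk).1 (hmem k hk).2 (hmem l hl).1 (hmem l hl).2]
  rw [e] at h
  omega

end MP881e12
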