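import Pool.Agent.Lib.MP_881e12_lc.Ex6
import Pool.Agent.Lib.MP_881e12_lc.Par2
import Pool.Agent.Lib.MP_881e12_lc.Wg1
import Pool.Agent.Lib.MP_881e12_lc.Wg3
import Pool.Agent.Lib.MP_881e12_lc.Wg4

namespace MP881e12

open MP60f107
open MP60f107.Contr (sh pr ht mk l0)

theorem Wg5_l0_pr {L : Type} (r : List (Bool × L)) :
    (l0 r).map (fun x => (x.1, pr x.2)) = r := by
  unfold Contr.l0
  rw [List.map_map]
  conv_rhs => rw [← List.map_id r]
  exact List.map_congr_left fun x _ => rfl

theorem Wg5_l0_ht {L : Type} {r : List (Bool × L)} {x : Bool × (L ×ₗ ℤ)} (hx : x ∈ l0 r) :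
    ht x.2 = 0 ∧ (x.1, pr x.2) ∈ r := by
  unfold Contr.l0 at hx
  obtain ⟨y, hy, rfl⟩ := List.mem_map.1 hx
  exact ⟨rfl, hy⟩

theorem Wg5_draw {V ι : Type} {N : Net V ι} {L : Type} [LinearOrder L]
    (D : Drawing N L) (c : ι → List (Bool × (L ×ₗ ℤ)) × Bool) (M : ι → Prop)
    (hM0 : ∀ k, ¬ M k → c k = (l0 (D.inner k), D.last k))
    (hM1 : ∀ k, M k → ((c k).1.map Prod.snd).Nodup ∧ ∀ x ∈ (c k).1, ht x.2 ≠ 0)
    (hM2 : ∀ k l, M k → M l → k ≠ l → ∀ x ∈ (c k).1, ∀ y ∈ (c l).1, x.2 ≠ y.2) :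
    ∃ D' : Drawing N (L ×ₗ ℤ), ∀ k, D'.path k =
      arcs (mk (D.pos (N.src k)) 0) (c k).1 (c k).2 (mk (D.pos (N.tgt k)) 0) := by
  have h1 : ∀ i, ((c i).1.map Prod.snd).Nodup := by
    intro k
    by_cases hk : M k
    · exact (hM1 k hk).1
    · rw [hM0 k hk]
      refine List.Nodup.of_map pr ?_
      have e : ((l0 (D.inner k)).map Prod.snd).map pr = (D.inner k).map Prod.snd := by
        conv_rhs => rw [← Wg5_l0_pr (D.inner k)]
        rw [List.map_map, List.map_map]
        rfl
      show (((l0 (D.inner k)).map Prod.snd).map pr).Nodup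
      rw [e]
      exact D.nodup k
  have h2 : ∀ i j, i ≠ j → ∀ x ∈ (c i).1, ∀ y ∈ (c j).1, x.2 ≠ y.2 := by
    intro k l hkl x hx y hy hxy
    by_cases hk : M k
    · by_cases hl : M l
      · exact hM2 k l hk hl hkl x hx y hy hxy
      · rw [hM0 l hl] at hy
        have := (Wg5_l0_ht hy).1
        exact (hM1 k hk).2 x hx (by rw [hxy]; exact this)
    · rw [hM0 k hk] at hx
      have h3 := Wg5_l0_ht hx
      by_cases hl : M l
      · exact (hM1 l hl).2 y hy (by rw [← hxy]; exact h3.1)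
      · rw [hM0 l hl] at hy
        have h4 := Wg5_l0_ht hy
        exact D.disj k l hkl _ h3.2 _ h4.2 (by show pr x.2 = pr y.2; rw [hxy])
  have h3 : ∀ i, ∀ x ∈ (c i).1, ∀ v, x.2 ≠ mk (D.pos v) 0 := by
    intro k x hx v hxv
    by_cases hk : M k
    · exact (hM1 k hk).2 x hx (by rw [hxv]; rfl)
    · rw [hM0 k hk] at hx
      have h3 := Wg5_l0_ht hx
      exact D.avoid k _ h3.2 v (by show pr x.2 = D.pos v; rw [hxv]; rfl)
  exact ⟨overD D c h1 h2 h3, fun k => rfl⟩

theorem Wg5_nodup {V ι : Type} {N : Net V ι} {L : Type} [LinearOrder L]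
    (hN : ∀ i, N.src i ≠ N.tgt i) (D : Drawing N L) (k : ι) :
    (D.pos (N.src k) :: ((D.inner k).map Prod.snd ++ [D.pos (N.tgt k)])).Nodup := by
  rw [List.nodup_cons, List.nodup_append]
  refine ⟨?_, D.nodup k, List.nodup_singleton _, ?_⟩
  · intro h
    rcases List.mem_append.1 h with h | h
    · obtain ⟨x, hx, hx'⟩ := List.mem_map.1 h
      exact D.avoid k x hx _ hx'
    · rw [List.mem_singleton] at h
      exact hN k (D.pos_inj h)
  · intro a ha b hb hab
    rw [List.mem_singleton] at hb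
    obtain ⟨x, hx, hx'⟩ := List.mem_map.1 ha
    exact D.avoid k x hx _ (hx'.trans (hab.trans hb))

theorem Wg5_sh_nodup {L : Type} {r : List (Bool × L)} {p q : L} {m : ℤ}
    (h : (p :: (r.map Prod.snd ++ [q])).Nodup) :
    (mk p 0 :: ((sh m r).map Prod.snd ++ [mk q 0])).Nodup := by
  refine List.Nodup.of_map pr ?_
  have e : ((sh m r).map Prod.snd).map pr = r.map Prod.snd := by
    conv_rhs => rw [← Contr.sh_pr m r]
    rw [List.map_map, List.map_map]
    rfl
  rw [List.map_cons, List.map_append, e]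
  exact h

/-- ROW Wg5.  In a normal drawing that minimises the weighted number of crossings (all
weights positive) two edges cross at most once. -/
theorem le_one_of_min {V ι : Type} [Fintype ι] [DecidableEq ι] {N : Net V ι}
    (hN : ∀ i, N.src i ≠ N.tgt i) (w : ι → ℕ) (hw : ∀ i, 0 < w i) {L : Type} [LinearOrder L]
    (D : Drawing N L) (hD : Normal D)
    (hmin : ∀ (L' : Type) [LinearOrder L'] (D' : Drawing N L'), wcr w D ≤ wcr w D') :
    ∀ i j, i ≠ j → crL (D.path i) (D.path j) ≤ 1 := by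
  intro i j hij
  by_contra hcon
  have hx : 2 ≤ crL (D.path i) (D.path j) := by omega
  -- copies
  set P : ι → List (Arc (L ×ₗ ℤ)) := fun k =>
    arcs (mk (D.pos (N.src k)) 0) (sh 1 (D.inner k)) (D.last k) (mk (D.pos (N.tgt k)) 0) with hPdef
  set B : ι → List (Arc (L ×ₗ ℤ)) := fun k =>
    arcs (mk (D.pos (N.src k)) 0) (l0 (D.inner k)) (D.last k) (mk (D.pos (N.tgt k)) 0) with hBdef
  have hd1 : ∀ k l, k ≠ l → ∀ x ∈ D.inner k, ∀ y ∈ D.inner l, x.2 ≠ y.2 := D.disj
  have hd2 : ∀ k l, ∀ x ∈ D.inner k, x.2 ≠ D.pos (N.src l) ∧ x.2 ≠ D.pos (N.tgt l) :=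
    fun k l x hx => ⟨D.avoid k x hx _, D.avoid k x hx _⟩
  have F1 : ∀ k l, k ≠ l → crL (P k) (P l) = crL (D.path k) (D.path l) := fun k l hkl =>
    crL_over _ _ _ _ _ _ _ _ _ _ (Contr.sh_pr 1 _) (Contr.sh_pr 1 _) (hd1 k l hkl) (hd2 k l) (hd2 l k)
  have F2 : ∀ k, crL (P k) (P k) = 0 := by
    intro k
    have := par_cross (hD.alt k) (hD.self k) (Wg5_nodup hN D k) (mk (D.pos (N.src k)) 0)
      (mk (D.pos (N.src k)) 0) (mk (D.pos (N.tgt k)) 0) (mk (D.pos (N.tgt k)) 0) rfl rfl rfl rfl 1 1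
    rw [if_pos rfl, if_pos rfl] at this
    exact Nat.le_zero.1 this
  have F3 : ∀ k l, k ≠ l → crL (P k) (B l) = crL (D.path k) (D.path l) := fun k l hkl =>
    crL_over _ _ _ _ _ _ _ _ _ _ (Contr.sh_pr 1 _) (Wg5_l0_pr _) (hd1 k l hkl) (hd2 k l) (hd2 l k)
  have F4 : ∀ k, crL (P k) (B k) = 0 := by
    intro k
    have := par_cross (hD.alt k) (hD.self k) (Wg5_nodup hN D k) (mk (D.pos (N.src k)) 0)
      (mk (D.pos (N.src k)) 0) (mk (D.pos (N.tgt k)) 0) (mk (D.pos (N.tgt k)) 0) rfl rfl rfl rfl 1 0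
    rw [if_pos rfl, if_pos rfl, sh_zero] at this
    exact Nat.le_zero.1 this
  have F5 : ∀ k l, crL (B k) (B l) = crL (D.path k) (D.path l) := fun k l => crL_l0 _ _ _ _ _ _ _ _
  -- the double exchange
  obtain ⟨u, t, u', t', hperm, hR, hz⟩ := double_exchange (Wg5_sh_nodup (m := 1) (Wg5_nodup hN D i))
    (Wg5_sh_nodup (m := 1) (Wg5_nodup hN D j)) (F2 i) (F2 j) (by
      have := F1 i j hij
      rw [hPdef] at this
      simp only at this
      rw [this]
      exact hx)
  set Qi := arcs (mk (D.pos (N.src i)) 0) u t (mk (D.pos (N.tgt i)) 0) with hQi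
  set Qj := arcs (mk (D.pos (N.src j)) 0) u' t' (mk (D.pos (N.tgt j)) 0) with hQj
  have hR' : ∀ R, crL Qi R + crL Qj R ≤ crL (P i) R + crL (P j) R := hR
  have hz' : crL Qi Qj + 2 ≤ crL (D.path i) (D.path j) := by
    rw [← F1 i j hij]
    exact hz
  -- points
  have hnd : ((u ++ u').map Prod.snd).Nodup := by
    rw [hperm.nodup_iff]
    refine List.Nodup.of_map pr ?_
    have e : (((sh 1 (D.inner i) ++ sh 1 (D.inner j)).map Prod.snd).map pr) =
        (D.inner i).map Prod.snd ++ (D.inner j).map Prod.snd := by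
      conv_rhs => rw [← Contr.sh_pr 1 (D.inner i), ← Contr.sh_pr 1 (D.inner j)]
      rw [List.map_append, List.map_append, List.map_map, List.map_map, List.map_map, List.map_map]
      rfl
    rw [e, List.nodup_append]
    refine ⟨D.nodup i, D.nodup j, ?_⟩
    intro a ha b hb hab
    obtain ⟨x, hx1, hx2⟩ := List.mem_map.1 ha
    obtain ⟨y, hy1, hy2⟩ := List.mem_map.1 hb
    exact D.disj i j hij x hx1 y hy1 (hx2.trans (hab.trans hy2.symm))
  have hht : ∀ x ∈ u ++ u', ht x.2 ≠ 0 := by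
    intro x hx h0
    have h1 : x.2 ∈ (sh 1 (D.inner i) ++ sh 1 (D.inner j)).map Prod.snd :=
      hperm.subset (List.mem_map_of_mem hx)
    obtain ⟨y, hy, hy'⟩ := List.mem_map.1 h1
    have h2 : (ht y.2).natAbs = (1 : ℤ).natAbs := by
      rcases List.mem_append.1 hy with hy | hy
      · exact (Contr.mem_sh hy).2
      · exact (Contr.mem_sh hy).2
    rw [hy', h0] at h2
    simp at h2
  have hnd1 : (u.map Prod.snd).Nodup ∧ (u'.map Prod.snd).Nodup ∧
      ∀ x ∈ u, ∀ y ∈ u', x.2 ≠ y.2 := by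
    rw [List.map_append, List.nodup_append] at hnd
    exact ⟨hnd.1, hnd.2.1, fun x hx y hy => hnd.2.2 _ (List.mem_map_of_mem hx) _ (List.mem_map_of_mem hy)⟩
  -- weights and sums
  set rest := (Finset.univ.erase i).erase j with hrest
  have hmem : ∀ k ∈ rest, k ≠ i ∧ k ≠ j := by
    intro k hk
    rw [hrest, Finset.mem_erase, Finset.mem_erase] at hk
    exact ⟨hk.2.1, hk.1⟩
  -- option 1
  have o1 : w i * (∑ k ∈ rest, w k * crL (D.path i) (D.path k)) + w i * w j * crL (D.path i) (D.path j) ≤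
      w i * (∑ k ∈ rest, w k * crL Qi (B k)) + w i * w j * crL Qi (B j) := by
    obtain ⟨D', hD'⟩ := Wg5_draw D (fun k => if k = i then (u, t) else (l0 (D.inner k), D.last k))
      (fun k => k = i) (fun k hk => if_neg hk)
      (fun k hk => by
        simp only [if_pos hk]
        exact ⟨hnd1.1, fun x hx => hht x (List.mem_append_left _ hx)⟩)
      (fun k l hk hl hkl => absurd (hk.trans hl.symm) hkl)
    have pi : D'.path i = Qi := by rw [hD' i]; simp only [if_true]; rfl
    have pk : ∀ k, k ≠ i → D'.path k = B k := fun k hk => by rw [hD' k]; simp only [if_neg hk]; rfl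
    have h := wsum_two w (fun k l => crL (D.path k) (D.path l)) (fun k l => crL (D'.path k) (D'.path l)) hij
      (fun k l => Nrm.crL_comm _ _) (fun k l => Nrm.crL_comm _ _)
      (fun k l hk1 hk2 hl1 hl2 => by rw [pk k hk1, pk l hl1, F5]) (hmin _ D')
    simp only [pi, pk j hij.symm] at h
    have e1 : ∑ k ∈ rest, w k * crL Qi (D'.path k) = ∑ k ∈ rest, w k * crL Qi (B k) :=
      Finset.sum_congr rfl fun k hk => by rw [pk k (hmem k hk).1]
    have e2 : ∑ k ∈ rest, w k * crL (B j) (D'.path k) = ∑ k ∈ rest, w k * crL (D.path j) (D.path k) :=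
      Finset.sum_congr rfl fun k hk => by rw [pk k (hmem k hk).1, F5]
    rw [← hrest, e1, e2] at h
    omega
  have o2 : w j * (∑ k ∈ rest, w k * crL (D.path j) (D.path k)) + w i * w j * crL (D.path i) (D.path j) ≤
      w j * (∑ k ∈ rest, w k * crL Qj (B k)) + w i * w j * crL Qj (B i) := by
    obtain ⟨D', hD'⟩ := Wg5_draw D (fun k => if k = j then (u', t') else (l0 (D.inner k), D.last k))
      (fun k => k = j) (fun k hk => if_neg hk)
      (fun k hk => by
        simp only [if_pos hk]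
        exact ⟨hnd1.2.1, fun x hx => hht x (List.mem_append_right _ hx)⟩)
      (fun k l hk hl hkl => absurd (hk.trans hl.symm) hkl)
    have pi : D'.path j = Qj := by rw [hD' j]; simp only [if_true]; rfl
    have pk : ∀ k, k ≠ j → D'.path k = B k := fun k hk => by rw [hD' k]; simp only [if_neg hk]; rfl
    have h := wsum_two w (fun k l => crL (D.path k) (D.path l)) (fun k l => crL (D'.path k) (D'.path l)) hij
      (fun k l => Nrm.crL_comm _ _) (fun k l => Nrm.crL_comm _ _)
      (fun k l hk1 hk2 hl1 hl2 => by rw [pk k hk2, pk l hl2, F5]) (hmin _ D')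
    simp only [pi, pk i hij] at h
    have e1 : ∑ k ∈ rest, w k * crL Qj (D'.path k) = ∑ k ∈ rest, w k * crL Qj (B k) :=
      Finset.sum_congr rfl fun k hk => by rw [pk k (hmem k hk).2]
    have e2 : ∑ k ∈ rest, w k * crL (B i) (D'.path k) = ∑ k ∈ rest, w k * crL (D.path i) (D.path k) :=
      Finset.sum_congr rfl fun k hk => by rw [pk k (hmem k hk).2, F5]
    rw [← hrest, e1, e2, Nrm.crL_comm (B i) Qj] at h
    omega
  have o3 : w i * (∑ k ∈ rest, w k * crL (D.path i) (D.path k)) +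
      w j * (∑ k ∈ rest, w k * crL (D.path j) (D.path k)) + w i * w j * crL (D.path i) (D.path j) ≤
      w i * (∑ k ∈ rest, w k * crL Qi (B k)) + w j * (∑ k ∈ rest, w k * crL Qj (B k)) +
        w i * w j * crL Qi Qj := by
    obtain ⟨D', hD'⟩ := Wg5_draw D (fun k => if k = i then (u, t) else if k = j then (u', t') else
        (l0 (D.inner k), D.last k))
      (fun k => k = i ∨ k = j)
      (fun k hk => by
        rw [not_or] at hk
        simp only [if_neg hk.1, if_neg hk.2])
      (fun k hk => by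
        by_cases h1 : k = i
        · simp only [if_pos h1]
          exact ⟨hnd1.1, fun x hx => hht x (List.mem_append_left _ hx)⟩
        · have h2 : k = j := hk.resolve_left h1
          simp only [if_neg h1, if_pos h2]
          exact ⟨hnd1.2.1, fun x hx => hht x (List.mem_append_right _ hx)⟩)
      (fun k l hk hl hkl => by
        by_cases h1 : k = i
        · have h2 : l = j := hl.resolve_left fun h => hkl (h1.trans h.symm)
          have h3 : l ≠ i := fun h => hij (h.symm.trans h2)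
          simp only [if_pos h1, if_neg h3, if_pos h2]
          exact hnd1.2.2
        · have h2 : k = j := hk.resolve_left h1
          have h3 : l = i := hl.resolve_right fun h => hkl (h2.trans h.symm)
          simp only [if_neg h1, if_pos h2, if_pos h3]
          exact fun x hx y hy h => hnd1.2.2 y hy x hx h.symm)
    have pi : D'.path i = Qi := by rw [hD' i]; simp only [if_true]; rfl
    have pj : D'.path j = Qj := by rw [hD' j]; simp only [if_neg hij.symm, if_true]; rfl
    have pk : ∀ k, k ≠ i → k ≠ j → D'.path k = B k := fun k hk hk' => by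
      rw [hD' k]; simp only [if_neg hk, if_neg hk']; rfl
    have h := wsum_two w (fun k l => crL (D.path k) (D.path l)) (fun k l => crL (D'.path k) (D'.path l)) hij
      (fun k l => Nrm.crL_comm _ _) (fun k l => Nrm.crL_comm _ _)
      (fun k l hk1 hk2 hl1 hl2 => by rw [pk k hk1 hk2, pk l hl1 hl2, F5]) (hmin _ D')
    simp only [pi, pj] at h
    have e1 : ∑ k ∈ rest, w k * crL Qi (D'.path k) = ∑ k ∈ rest, w k * crL Qi (B k) :=
      Finset.sum_congr rfl fun k hk => by rw [pk k (hmem k hk).1 (hmem k hk).2]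
    have e2 : ∑ k ∈ rest, w k * crL Qj (D'.path k) = ∑ k ∈ rest, w k * crL Qj (B k) :=
      Finset.sum_congr rfl fun k hk => by rw [pk k (hmem k hk).1 (hmem k hk).2]
    rw [← hrest, e1, e2] at h
    exact h
  -- the sums do not increase
  have hS : (∑ k ∈ rest, w k * crL Qi (B k)) + (∑ k ∈ rest, w k * crL Qj (B k)) ≤
      (∑ k ∈ rest, w k * crL (D.path i) (D.path k)) + (∑ k ∈ rest, w k * crL (D.path j) (D.path k)) := by
    rw [← Finset.sum_add_distrib, ← Finset.sum_add_distrib]
    refine Finset.sum_le_sum fun k hk => ?_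
    have h1 := hR' (B k)
    rw [F3 i k (hmem k hk).1.symm, F3 j k (hmem k hk).2.symm] at h1
    rw [← mul_add, ← mul_add]
    exact Nat.mul_le_mul_left _ h1
  have hq : crL Qi (B i) + crL Qj (B i) ≤ crL (D.path i) (D.path j) := by
    have h1 := hR' (B i)
    rw [F4 i, F3 j i hij.symm, zero_add, Nrm.crL_comm (D.path j)] at h1
    exact h1
  have hp : crL Qi (B j) + crL Qj (B j) ≤ crL (D.path i) (D.path j) := by
    have h1 := hR' (B j)
    rw [F4 j, F3 i j hij, add_zero] at h1
    exact h1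
  exact three_options (hw i) (hw j) hS hq hp hz' o1 o2 o3

end MP881e12
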