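import Pool.Agent.Lib.MP_881e12_lc.Wg2
import Pool.Agent.Lib.MP_881e12_lc.Wg5

namespace MP881e12

open MP60f107

theorem Wg6_wcr_mono {V ι : Type} [Fintype ι] [DecidableEq ι] {N : Net V ι} (w : ι → ℕ)
    {L : Type} [LinearOrder L] (D D' : Drawing N L)
    (h : ∀ i j, i ≠ j → crL (D'.path i) (D'.path j) ≤ crL (D.path i) (D.path j)) :
    wcr w D' ≤ wcr w D := by
  unfold wcr
  refine Finset.sum_le_sum fun i _ => Finset.sum_le_sum fun j _ => ?_
  split
  · exact le_rfl
  · rename_i hij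
    exact Nat.mul_le_mul_left _ (h i j hij)

/-- ROW Wg6 (60 lines).  Weighted optimal drawings exist and their edges cross at most once.

Proof: the set of numbers `wcr w D'` (all `L'`, all `D'`) is nonempty (contains `wcr w D₀`); take the
least one (`Nat.find` or `sInf`), attained by `D₁ : Drawing N L₁`; `exists_normal_pairs` (Wg2) gives
`D : Drawing N L₁` normal with `crL` not larger for each pair, so `wcr w D ≤ wcr w D₁` is minimal
too; `le_one_of_min` (Wg5). -/
theorem exists_weighted {V ι : Type} [Fintype ι] [DecidableEq ι] {N : Net V ι}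
    (hN : ∀ i, N.src i ≠ N.tgt i) (w : ι → ℕ) (hw : ∀ i, 0 < w i) {L₀ : Type} [LinearOrder L₀]
    (D₀ : Drawing N L₀) : ∃ (L : Type) (_ : LinearOrder L) (D : Drawing N L), Normal D ∧
      (∀ i j, i ≠ j → crL (D.path i) (D.path j) ≤ 1) ∧ wcr w D ≤ wcr w D₀ := by
  classical
  let P : ℕ → Prop := fun n => ∃ (L : Type) (_ : LinearOrder L) (D : Drawing N L), wcr w D = n
  have hP : ∃ n, P n := ⟨_, L₀, inferInstance, D₀, rfl⟩
  obtain ⟨L₁, i₁, D₁, h₁⟩ := Nat.find_spec hP
  obtain ⟨D, hn, hle⟩ := exists_normal_pairs D₁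
  have hm : wcr w D ≤ wcr w D₁ := Wg6_wcr_mono w D₁ D hle
  have hmin : ∀ (L' : Type) [LinearOrder L'] (D' : Drawing N L'), wcr w D ≤ wcr w D' := by
    intro L' _ D'
    have := Nat.find_min' hP (m := wcr w D') ⟨L', inferInstance, D', rfl⟩
    omega
  exact ⟨L₁, i₁, D, hn, le_one_of_min hN w hw D hn hmin, hmin L₀ D₀⟩

end MP881e12
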